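import Pool.Agent.LibKS37.Basic

/-!
# KS37 row A1: coordinates (API used by everybody)
All easy linear algebra. `coord b` for a basis `b` is `Module.Basis.mk ...` . `coord_sum`: `Basis.sum_repr`;
`coord_unique`: apply the functional to both sides, `Basis.coord_apply`, `Basis.mk_apply`, `Finsupp.single`.
`frame_basis`: `LinearIndependent` of `Option`-families: `linearIndependent_option` (or `LinearIndependent.option`),
spanning because the number of vectors is r+1 = finrank (`LinearIndependent.span_eq_top_of_card_eq_finrank'`).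
The rest follows from `kap_sum` and `kap_eq`.
-/

open Finset Function
open scoped Classical

namespace KS37

section
variable {E V : Type} [AddCommGroup E] [Module ℝ E] [Fintype V] {r : ℕ} {x : V → E}
  {T : (Fin r → V) → Prop}

theorem coord_sum {ι : Type} [Fintype ι] (b : ι → E)
    (h : LinearIndependent ℝ b ∧ ⊤ ≤ Submodule.span ℝ (Set.range b)) (y : E) :
    y = ∑ i, coord b i y • b i := by
  have h1 := (Module.Basis.mk h.1 h.2).sum_repr y
  conv_lhs => rw [← h1]
  refine Finset.sum_congr rfl (fun i _ => ?_)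
  unfold coord
  rw [dif_pos h, Module.Basis.coord_apply, Module.Basis.mk_apply]

theorem coord_unique {ι : Type} [Fintype ι] (b : ι → E)
    (h : LinearIndependent ℝ b ∧ ⊤ ≤ Submodule.span ℝ (Set.range b)) (y : E) (c : ι → ℝ)
    (hc : y = ∑ i, c i • b i) (i : ι) : coord b i y = c i := by
  unfold coord
  rw [dif_pos h]
  have h2 : ∀ j, (Module.Basis.mk h.1 h.2).coord i (b j) = if j = i then 1 else 0 := by
    intro j
    have h3 : b j = Module.Basis.mk h.1 h.2 j := (Module.Basis.mk_apply h.1 h.2 j).symm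
    rw [h3, Module.Basis.coord_apply, Module.Basis.repr_self, Finsupp.single_apply]
  rw [hc, map_sum]
  simp only [map_smul, h2, smul_eq_mul, mul_ite, mul_one, mul_zero]
  simp

theorem frame_basis (hS : Sys r x T) (B : Fin r → V) (hB : Injective B) (e : E)
    (he : e ∉ sp x B) : LinearIndependent ℝ (frame x B e) ∧
      ⊤ ≤ Submodule.span ℝ (Set.range (frame x B e)) := by
  have h1 : LinearIndependent ℝ (frame x B e) := by
    rw [linearIndependent_option]
    refine ⟨?_, ?_⟩
    · exact hS.gp r (Nat.le_succ r) B hB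
    · exact he
  refine ⟨h1, ?_⟩
  have h2 : Fintype.card (Option (Fin r)) = Module.finrank ℝ E := by
    rw [hS.rank, Fintype.card_option, Fintype.card_fin]
  haveI : FiniteDimensional ℝ E :=
    Module.finite_of_finrank_pos (by rw [hS.rank]; exact Nat.succ_pos r)
  exact (h1.span_eq_top_of_card_eq_finrank' h2).ge

theorem kap_sum (hS : Sys r x T) (B : Fin r → V) (hB : Injective B) (e : E)
    (he : e ∉ sp x B) (y : E) :
    y = ∑ i, kap x B e i y • x (B i) + hgt x B e y • e := by
  have h := coord_sum (frame x B e) (frame_basis hS B hB e he) y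
  rw [Fintype.sum_option] at h
  rw [add_comm] at h
  exact h

theorem kap_eq (hS : Sys r x T) (B : Fin r → V) (hB : Injective B) (e : E)
    (he : e ∉ sp x B) (y : E) (c : Fin r → ℝ) (s : ℝ)
    (h : y = ∑ i, c i • x (B i) + s • e) : (∀ i, kap x B e i y = c i) ∧ hgt x B e y = s := by
  have hf := frame_basis hS B hB e he
  have h1 : y = ∑ o : Option (Fin r), (o.elim s c) • frame x B e o := by
    rw [Fintype.sum_option, add_comm]
    exact h
  exact ⟨fun i => coord_unique _ hf y _ h1 (some i), coord_unique _ hf y _ h1 none⟩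

theorem kap_e (hS : Sys r x T) (B : Fin r → V) (hB : Injective B) (e : E)
    (he : e ∉ sp x B) : (∀ i, kap x B e i e = 0) ∧ hgt x B e e = 1 := by
  refine kap_eq hS B hB e he e (fun _ => 0) 1 ?_
  simp

theorem kap_x (hS : Sys r x T) (B : Fin r → V) (hB : Injective B) (e : E)
    (he : e ∉ sp x B) (j : Fin r) :
    (∀ i, kap x B e i (x (B j)) = if i = j then 1 else 0) ∧ hgt x B e (x (B j)) = 0 := by
  refine kap_eq hS B hB e he (x (B j)) (fun i => if i = j then 1 else 0) 0 ?_
  simp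

private theorem mem_span_image {ι : Type} [Fintype ι] (b : ι → E) (S : Set ι) (y : E) :
    y ∈ Submodule.span ℝ (b '' S) ↔ ∃ c : ι → ℝ, (∀ i, i ∉ S → c i = 0) ∧ y = ∑ i, c i • b i := by
  constructor
  · intro h
    induction h using Submodule.span_induction with
    | mem z hz =>
      obtain ⟨i, hi, rfl⟩ := hz
      refine ⟨fun j => if j = i then 1 else 0, ?_, ?_⟩
      · intro j hj
        have : j ≠ i := fun h => hj (h ▸ hi)
        simp [this]
      · simp
    | zero => exact ⟨fun _ => 0, fun _ _ => rfl, by simp⟩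
    | add y z _ _ hy hz =>
      obtain ⟨c, hc, rfl⟩ := hy
      obtain ⟨d, hd, rfl⟩ := hz
      refine ⟨fun i => c i + d i, fun i hi => by simp only [hc i hi, hd i hi, add_zero], ?_⟩
      simp only [add_smul, Finset.sum_add_distrib]
    | smul a y _ hy =>
      obtain ⟨c, hc, rfl⟩ := hy
      refine ⟨fun i => a * c i, fun i hi => by simp only [hc i hi, mul_zero], ?_⟩
      rw [Finset.smul_sum]
      simp only [mul_smul]
  · rintro ⟨c, hc, rfl⟩
    refine Submodule.sum_mem _ (fun i _ => ?_)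
    by_cases hi : i ∈ S
    · exact Submodule.smul_mem _ _ (Submodule.subset_span ⟨i, hi, rfl⟩)
    · rw [hc i hi, zero_smul]
      exact Submodule.zero_mem _

theorem mem_sp_iff (B : Fin r → V) (y : E) :
    y ∈ sp x B ↔ ∃ c : Fin r → ℝ, y = ∑ i, c i • x (B i) := by
  have h := mem_span_image (fun i => x (B i)) Set.univ y
  rw [Set.image_univ] at h
  unfold sp
  rw [h]
  constructor
  · rintro ⟨c, _, hc⟩
    exact ⟨c, hc⟩
  · rintro ⟨c, hc⟩
    exact ⟨c, fun i hi => absurd (Set.mem_univ i) hi, hc⟩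

theorem mem_spx_iff (B : Fin r → V) (I : Set (Fin r)) (y : E) :
    y ∈ spx x B I ↔ ∃ c : Fin r → ℝ, (∀ i ∈ I, c i = 0) ∧ y = ∑ i, c i • x (B i) := by
  have h := mem_span_image (fun i => x (B i)) Iᶜ y
  unfold spx
  rw [h]
  constructor
  · rintro ⟨c, h1, hc⟩
    exact ⟨c, fun i hi => h1 i (fun h => h hi), hc⟩
  · rintro ⟨c, h1, hc⟩
    exact ⟨c, fun i hi => h1 i (not_not.1 hi), hc⟩

theorem hgt_eq_zero_iff (hS : Sys r x T) (B : Fin r → V) (hB : Injective B) (e : E)
    (he : e ∉ sp x B) (y : E) : hgt x B e y = 0 ↔ y ∈ sp x B := by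
  constructor
  · intro h
    have h1 := kap_sum hS B hB e he y
    rw [h, zero_smul, add_zero] at h1
    exact (mem_sp_iff B y).2 ⟨_, h1⟩
  · intro h
    obtain ⟨c, hc⟩ := (mem_sp_iff B y).1 h
    exact (kap_eq hS B hB e he y c 0 (by rw [zero_smul, add_zero]; exact hc)).2

/-- the `i`-th coordinate vanishes iff `y - s e` is in the span of the ridge for some `s`. -/
theorem kap_eq_zero_iff (hS : Sys r x T) (B : Fin r → V) (hB : Injective B) (e : E)
    (he : e ∉ sp x B) (i : Fin r) (y : E) :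
    kap x B e i y = 0 ↔ ∃ s : ℝ, y - s • e ∈ spx x B {i} := by
  constructor
  · intro h
    have h1 := kap_sum hS B hB e he y
    refine ⟨hgt x B e y, (mem_spx_iff B {i} _).2 ⟨fun j => kap x B e j y, ?_, ?_⟩⟩
    · intro j hj
      rw [Set.mem_singleton_iff] at hj
      rw [hj]; exact h
    · exact sub_eq_iff_eq_add.2 h1
  · rintro ⟨s, hs⟩
    obtain ⟨c, hc, hy⟩ := (mem_spx_iff B {i} _).1 hs
    rw [(kap_eq hS B hB e he y c s (sub_eq_iff_eq_add.1 hy)).1 i]
    exact hc i rfl

/-- two coordinates vanish. -/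
theorem kap_eq_zero_iff2 (hS : Sys r x T) (B : Fin r → V) (hB : Injective B) (e : E)
    (he : e ∉ sp x B) (i j : Fin r) (y : E) :
    (kap x B e i y = 0 ∧ kap x B e j y = 0) ↔ ∃ s : ℝ, y - s • e ∈ spx x B {i, j} := by
  constructor
  · rintro ⟨hi, hj⟩
    have h1 := kap_sum hS B hB e he y
    refine ⟨hgt x B e y, (mem_spx_iff B {i, j} _).2 ⟨fun l => kap x B e l y, ?_, ?_⟩⟩
    · intro l hl
      rcases hl with rfl | hl
      · exact hi
      · rw [Set.mem_singleton_iff] at hl
        rw [hl]; exact hj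
    · exact sub_eq_iff_eq_add.2 h1
  · rintro ⟨s, hs⟩
    obtain ⟨c, hc, hy⟩ := (mem_spx_iff B {i, j} _).1 hs
    have h2 := (kap_eq hS B hB e he y c s (sub_eq_iff_eq_add.1 hy)).1
    rw [h2 i, h2 j]
    exact ⟨hc i (Or.inl rfl), hc j (Or.inr rfl)⟩

/-- in the span of the facet the coordinates do not depend on `e`. -/
theorem kap_of_mem (hS : Sys r x T) (B : Fin r → V) (hB : Injective B) (e e' : E)
    (he : e ∉ sp x B) (he' : e' ∉ sp x B) (y : E) (hy : y ∈ sp x B) (i : Fin r) :
    kap x B e i y = kap x B e' i y := by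
  obtain ⟨c, hc⟩ := (mem_sp_iff B y).1 hy
  rw [(kap_eq hS B hB e he y c 0 (by rw [zero_smul, add_zero]; exact hc)).1 i,
    (kap_eq hS B hB e' he' y c 0 (by rw [zero_smul, add_zero]; exact hc)).1 i]

theorem cone_iff_kap (hS : Sys r x T) (B : Fin r → V) (hB : Injective B) (e : E)
    (he : e ∉ sp x B) (y : E) :
    Cone x B y ↔ y ∈ sp x B ∧ ∀ i, 0 < kap x B e i y := by
  constructor
  · rintro ⟨c, hc, hy⟩
    refine ⟨(mem_sp_iff B y).2 ⟨c, hy⟩, fun i => ?_⟩
    rw [(kap_eq hS B hB e he y c 0 (by rw [zero_smul, add_zero]; exact hy)).1 i]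
    exact hc i
  · rintro ⟨h1, h2⟩
    refine ⟨fun i => kap x B e i y, h2, ?_⟩
    have h3 := kap_sum hS B hB e he y
    rw [(hgt_eq_zero_iff hS B hB e he y).2 h1, zero_smul, add_zero] at h3
    exact h3

theorem hit_iff (hS : Sys r x T) (B : Fin r → V) (hB : Injective B) (e : E)
    (he : e ∉ sp x B) (p : E) : Hit x B e p ↔ ∃ s : ℝ, Cone x B (p + s • e) := by
  constructor
  · intro h
    refine ⟨-hgt x B e p, fun i => kap x B e i p, h, ?_⟩
    have h3 := kap_sum hS B hB e he p
    rw [neg_smul, ← sub_eq_add_neg]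
    exact sub_eq_iff_eq_add.2 h3
  · rintro ⟨s, c, hc, hy⟩ i
    have h3 : p = ∑ i, c i • x (B i) + (-s) • e := by
      rw [neg_smul, ← sub_eq_add_neg]
      exact eq_sub_of_add_eq hy
    rw [(kap_eq hS B hB e he p c (-s) h3).1 i]
    exact hc i

/-- positive multiples. -/
theorem Cone.smul {B : Fin r → V} {y : E} (h : Cone x B y) {c : ℝ} (hc : 0 < c) :
    Cone x B (c • y) := by
  obtain ⟨d, hd, rfl⟩ := h
  refine ⟨fun i => c * d i, fun i => mul_pos hc (hd i), ?_⟩
  rw [Finset.smul_sum]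
  simp only [mul_smul]

theorem Hit.smul {B : Fin r → V} {e p : E} (h : Hit x B e p) {c : ℝ} (hc : 0 < c) :
    Hit x B e (c • p) := by
  intro i
  rw [map_smul, smul_eq_mul]
  exact mul_pos hc (h i)

theorem solv_spec {P : Submodule ℝ E} {f1 f2 : Module.Dual ℝ E} (h : Iso2 P f1 f2) (s t : ℝ) :
    solv P f1 f2 s t ∈ P ∧ f1 (solv P f1 f2 s t) = s ∧ f2 (solv P f1 f2 s t) = t := by
  have h1 : ∃ y, y ∈ P ∧ f1 y = s ∧ f2 y = t := by
    obtain ⟨y, hy, h2⟩ := h.2 s t
    exact ⟨y, hy, h2⟩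
  unfold solv
  rw [dif_pos h1]
  exact h1.choose_spec

theorem solv_unique {P : Submodule ℝ E} {f1 f2 : Module.Dual ℝ E} (h : Iso2 P f1 f2) {y : E}
    (hy : y ∈ P) : y = f1 y • solv P f1 f2 1 0 + f2 y • solv P f1 f2 0 1 := by
  obtain ⟨a1, a2, a3⟩ := solv_spec h 1 0
  obtain ⟨b1, b2, b3⟩ := solv_spec h 0 1
  have h1 : y - (f1 y • solv P f1 f2 1 0 + f2 y • solv P f1 f2 0 1) ∈ P :=
    P.sub_mem hy (P.add_mem (P.smul_mem _ a1) (P.smul_mem _ b1))
  refine sub_eq_zero.1 (h.1 _ h1 ?_ ?_)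
  · rw [map_sub, map_add, map_smul, map_smul, a2, b2]; simp
  · rw [map_sub, map_add, map_smul, map_smul, a3, b3]; simp

end

end KS37
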