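import Pool.Agent.LibKS37.Sweep

/-!
# KS37: linear genericity conditions on `f1, f2, e` (existence: rows P2g2, P3g1, P4g1; consequences: P2g3, P3g2-5, P4g2-3)
-/

open Finset Function
open scoped Classical

namespace KS37

section
variable {E V : Type} [AddCommGroup E] [Module ℝ E]

structure P2E (r : ℕ) (x : V → E) (U : Submodule ℝ E) (f1 f2 : Module.Dual ℝ E) (e : E) :
    Prop where
  eU : e ∈ U
  iso : ∀ B : Fin r → V, Injective B → Iso2 (sp x B ⊓ U) f1 f2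
  enot : ∀ B : Fin r → V, Injective B → e ∉ sp x B
  e3 : ∀ B B' : Fin r → V, Injective B → Injective B' → ∀ j,
    e ∉ Submodule.span ℝ {qv x U f1 f2 B} ⊔ (spx x B' {j} ⊓ U)
  e4 : ∀ B B' : Fin r → V, Injective B → Injective B' → ∀ i j,
    e ∉ (spx x B {i} ⊓ U) ⊔ (spx x B' {j} ⊓ U)

structure P3E (x : V → E) (f1 f2 : Module.Dual ℝ E) (e : E) : Prop where
  fx : ∀ v, f1 (x v) ≠ 0
  ridge : ∀ B B' : Fin 3 → V, Injective B → Injective B' → Disj B B' →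
    ∀ i, ∀ y ∈ spx x B {i} ⊓ sp x B', f1 y = 0 → y = 0
  triple : ∀ B B' B'' : Fin 3 → V, Injective B → Injective B' → Injective B'' → Disj B B' →
    Disj B B'' → Disj B' B'' → ∀ y ∈ sp x B ⊓ sp x B' ⊓ sp x B'', f1 y = 0 → y = 0
  iso : ∀ B B' : Fin 3 → V, Injective B → Injective B' → Disj B B' →
    Iso2 (sp x B ⊓ sp x B') f1 f2
  f2r : ∀ B : Fin 3 → V, Injective B → ∀ i, ∀ y ∈ spx x B {i} ⊓ LinearMap.ker f1,
    f2 y = 0 → y = 0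
  enot : ∀ B : Fin 3 → V, Injective B → e ∉ sp x B
  e3 : ∀ B B' : Fin 3 → V, Injective B → Injective B' → Disj B B' →
    ∀ B'' : Fin 3 → V, Injective B'' → ∀ j,
    e ∉ Submodule.span ℝ {qv x (sp x B') f1 f2 B} ⊔ spx x B'' {j}
  e4 : ∀ B B' : Fin 3 → V, Injective B → Injective B' → Disj B B' → ∀ i,
    ∀ B'' : Fin 3 → V, Injective B'' → ∀ j, e ∉ (spx x B {i} ⊓ sp x B') ⊔ spx x B'' {j}
  e5 : ∀ B B' : Fin 3 → V, Injective B → Injective B' → Disj B B' → ∀ v,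
    e ∉ (sp x B ⊓ sp x B') ⊔ Submodule.span ℝ {x v}

structure P4E (x : V → E) (B1 : Fin 3 → V) (b1 : Fin 3 → Module.Dual ℝ E)
    (f1 f2 : Module.Dual ℝ E) (e : E) : Prop where
  eU : e ∈ sp x B1
  dual : ∀ k l, b1 k (x (B1 l)) = if k = l then 1 else 0
  pos : ∀ k, 0 < f1 (x (B1 k))
  ridge : ∀ F : Fin 4 → V, Injective F → Disj F B1 → ∀ i, ∀ y ∈ spx x F {i} ⊓ sp x B1,
    f1 y = 0 → y = 0
  edge : ∀ F : Fin 4 → V, Injective F → Disj F B1 → ∀ k, ∀ y ∈ sp x F ⊓ spx x B1 {k},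
    f1 y = 0 → y = 0
  dbl : ∀ (a : V) (B2 B3 : Fin 3 → V), Dist4 B1 a B2 B3 →
    ∀ y ∈ sp x (cc a B2) ⊓ sp x (cc a B3) ⊓ sp x B1, f1 y = 0 → y = 0
  iso : ∀ F : Fin 4 → V, Injective F → Disj F B1 → Iso2 (sp x F ⊓ sp x B1) f1 f2
  enot : ∀ F : Fin 4 → V, Injective F → Disj F B1 → e ∉ sp x F
  e3 : ∀ F F' : Fin 4 → V, Injective F → Injective F' → Disj F B1 → Disj F' B1 → ∀ j,
    e ∉ Submodule.span ℝ {qv x (sp x B1) f1 f2 F} ⊔ (spx x F' {j} ⊓ sp x B1)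
  e4 : ∀ F F' : Fin 4 → V, Injective F → Injective F' → Disj F B1 → Disj F' B1 → ∀ i j,
    e ∉ (spx x F {i} ⊓ sp x B1) ⊔ (spx x F' {j} ⊓ sp x B1)
  e6 : ∀ F F' : Fin 4 → V, Injective F → Injective F' → Disj F B1 → Disj F' B1 → ∀ k j,
    e ∉ (sp x F ⊓ spx x B1 {k}) ⊔ (spx x F' {j} ⊓ sp x B1)

end

end KS37
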