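import Pool.Agent.LibKS37.Basic

/-!
# KS37 row A3: sums over tuples
`sum_update_eq`: KS39_T1.lean `sum_update` (the map (v,a) ↦ (update v i a, v i) is an involution).
`group_sum`: n·|ΣG| = |Σ_v Σ_a G(update v i a)| ≤ n^r K, divide by n (n = 0: the sum is empty as r ≥ 1).
`sum_cons`, `sum_insertNth`: `Fin.consEquiv`, `Fin.insertNthEquiv`. `sum_perm`: `Equiv.arrowCongr`, `Equiv.sum_comp`.
`bal_excl`: the sum over u∉X differs from the balanced sum by at most |X| terms of absolute value ≤ 1.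
-/

open Finset Function
open scoped Classical

namespace KS37

section
variable {V : Type} [Fintype V]

/-- the involution `(v, a) ↦ (update v i a, v i)`. -/
private noncomputable def A3_inv {V : Type} {m : ℕ} (i : Fin m) :
    ((Fin m → V) × V) ≃ ((Fin m → V) × V) where
  toFun p := (update p.1 i p.2, p.1 i)
  invFun p := (update p.1 i p.2, p.1 i)
  left_inv := by
    rintro ⟨v, a⟩
    simp
  right_inv := by
    rintro ⟨v, a⟩
    simp

theorem sum_update_eq {r : ℕ} (G : (Fin r → V) → ℝ) (i : Fin r) :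
    ∑ v, ∑ a, G (update v i a) = nn V * ∑ v, G v := by
  have h1 : ∑ v, ∑ a, G (update v i a) = ∑ p : (Fin r → V) × V, G (A3_inv i p).1 := by
    rw [Fintype.sum_prod_type]
    rfl
  rw [h1, Equiv.sum_comp (A3_inv i) (fun p : (Fin r → V) × V => G p.1), Fintype.sum_prod_type]
  simp only [sum_const, card_univ, nsmul_eq_mul]
  rw [← mul_sum]
  rfl

theorem group_sum {r : ℕ} (G : (Fin r → V) → ℝ) (i : Fin r) (K : ℝ) (hK : 0 ≤ K)
    (h : ∀ v, |∑ u, G (update v i u)| ≤ K) : |∑ v, G v| ≤ K * nn V ^ (r - 1) := by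
  have hr : 0 < r := Nat.lt_of_le_of_lt (Nat.zero_le _) i.2
  rcases (nn_nonneg V).eq_or_lt with h0 | h0
  · have hV : IsEmpty V := by
      unfold nn at h0
      have : Fintype.card V = 0 := by exact_mod_cast h0.symm
      exact Fintype.card_eq_zero_iff.1 this
    haveI : IsEmpty (Fin r → V) := ⟨fun f => hV.false (f i)⟩
    rw [Finset.univ_eq_empty, Finset.sum_empty, abs_zero]
    exact mul_nonneg hK (pow_nonneg (nn_nonneg V) _)
  · have h1 : nn V * |∑ v, G v| ≤ nn V ^ r * K := by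
      have h2 : nn V * |∑ v, G v| = |∑ v, ∑ a, G (update v i a)| := by
        rw [sum_update_eq, abs_mul, abs_of_pos h0]
      rw [h2, ← sum_const_fun V r K]
      refine (Finset.abs_sum_le_sum_abs _ _).trans (Finset.sum_le_sum fun v _ => h v)
    have h3 : nn V ^ r = nn V * nn V ^ (r - 1) := by
      rw [← pow_succ']
      congr 1
      omega
    rw [h3, mul_assoc] at h1
    have h4 := le_of_mul_le_mul_left h1 h0
    rw [mul_comm] at h4
    exact h4

theorem sum_cons {r : ℕ} (G : (Fin (r + 1) → V) → ℝ) :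
    ∑ F, G F = ∑ a, ∑ B : Fin r → V, G (Fin.cons a B) := by
  rw [← Equiv.sum_comp (Fin.consEquiv (fun _ : Fin (r + 1) => V)) G, Fintype.sum_prod_type]
  rfl

theorem sum_insertNth {r : ℕ} (i : Fin (r + 1)) (G : (Fin (r + 1) → V) → ℝ) :
    ∑ F, G F = ∑ a, ∑ B : Fin r → V, G (i.insertNth a B) := by
  rw [← Equiv.sum_comp (Fin.insertNthEquiv (fun _ : Fin (r + 1) => V) i) G,
    Fintype.sum_prod_type]
  rfl

theorem sum_perm {r : ℕ} (σ : Equiv.Perm (Fin r)) (G : (Fin r → V) → ℝ) :
    ∑ F : Fin r → V, G (fun i => F (σ i)) = ∑ F, G F := by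
  rw [← Equiv.sum_comp (Equiv.arrowCongr σ.symm (Equiv.refl V)) G]
  rfl

theorem bal_excl {E : Type} [AddCommGroup E] [Module ℝ E] {r : ℕ} {x : V → E}
    {T : (Fin r → V) → Prop} (hS : Sys r x T) (w : Fin r → V) (i : Fin r)
    (g : Module.Dual ℝ E) (hg : ∀ l, l ≠ i → g (x (w l)) = 0) (X : Finset V) :
    |∑ u, ind (T (update w i u) ∧ u ∉ X) * sg (g (x u))| ≤ 2 + X.card := by
  have h1 := hS.bal w i g hg
  have h2 : ∀ u, ind (T (update w i u) ∧ u ∉ X) * sg (g (x u)) =
      ind (T (update w i u)) * sg (g (x u)) - ind (T (update w i u) ∧ u ∈ X) * sg (g (x u)) := by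
    intro u
    by_cases hT : T (update w i u) <;> by_cases hX : u ∈ X <;> simp [ind, hT, hX]
  rw [Finset.sum_congr rfl (fun u _ => h2 u), Finset.sum_sub_distrib]
  have h3 : |∑ u, ind (T (update w i u) ∧ u ∈ X) * sg (g (x u))| ≤ X.card := by
    refine (Finset.abs_sum_le_sum_abs _ _).trans ?_
    have h4 : ∀ u ∈ (Finset.univ : Finset V), |ind (T (update w i u) ∧ u ∈ X) * sg (g (x u))| ≤
        if u ∈ X then (1 : ℝ) else 0 := by
      intro u _
      by_cases hX : u ∈ X
      · rw [if_pos hX]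
        exact abs_ind_mul_le _ _ (abs_sg_le _)
      · rw [if_neg hX, ind_false (fun h => hX h.2), zero_mul, abs_zero]
    refine (Finset.sum_le_sum h4).trans ?_
    simp
  calc |∑ u, ind (T (update w i u)) * sg (g (x u)) -
        ∑ u, ind (T (update w i u) ∧ u ∈ X) * sg (g (x u))|
      ≤ |∑ u, ind (T (update w i u)) * sg (g (x u))| +
        |∑ u, ind (T (update w i u) ∧ u ∈ X) * sg (g (x u))| := abs_sub _ _
    _ ≤ 2 + X.card := add_le_add h1 h3

/-- a sum over tuples of the subtype is a sum over tuples avoiding `a`. -/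
theorem sum_subtype_tuple {r : ℕ} (a : V) (G : (Fin r → V) → ℝ) :
    ∑ w : Fin r → LV a, G (fun i => (w i).1) = ∑ w : Fin r → V, ind (∀ i, w i ≠ a) * G w := by
  have h1 : ∑ w : Fin r → LV a, G (fun i => (w i).1) =
      ∑ f : {f : Fin r → V // ∀ i, f i ≠ a}, G f.1 := by
    rw [← Equiv.sum_comp (Equiv.subtypePiEquivPi (β := fun _ : Fin r => V)
      (p := fun _ v => v ≠ a)) (fun w : Fin r → LV a => G (fun i => (w i).1))]
    rfl
  rw [h1, ← Finset.sum_subtype (Finset.univ.filter fun f : Fin r → V => ∀ i, f i ≠ a)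
    (fun f => by simp) G, Finset.sum_filter]
  refine Finset.sum_congr rfl (fun f _ => ?_)
  unfold ind
  split_ifs <;> simp

end

end KS37
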