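import Pool.Agent.LibKS37.A1
import Pool.Agent.LibKS37.A3

/-!
# KS37 row G2: group lemma, facet side (page, section 2, GA)
Write P_u = sp x (update w i u) ⊓ U, a_u = solv P_u f1 f2 1 0, q_u = solv P_u f1 f2 0 1, t_u = tz, y_u = a_u + t_u q_u.
If no u satisfies the event the sum is 0. Otherwise u0, y*=y_{u0}: in U, f1(y*)=1, f2(y*)=t_{u0}, its i-th coordinate is 0 and hgt is 0, so
y* ∈ spx x w {i} (coordinates c_l>0, l≠i). For every other u (T, ∉X): y* ∈ P_u, so y*=a_u+t_{u0} q_u (`solv_unique`), its coordinates in the frame of u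
are c_l, 0 (`kap_eq`), so t_u=t_{u0}, y_u=y*, the event holds for u.
Let g0 = h - h(y*) f1. It vanishes on spx x w {i} ⊓ U (by h1 every element there is f1(y) y*: y - f1(y) y* is in it with f1=0). By
`Subspace.dualAnnihilator_inf_eq` g0 = θ+ψ with θ=0 on U, ψ=0 on spx x w {i}. For every u: h(q_u)=g0(q_u)=ψ(q_u)= kap_{u,i}(q_u) ψ(x u)
(expand q_u ∈ sp). So sg(kap_i q_u)·sg(h y_u)·sg(h q_u) = sg(h y*)·sg(ψ(x u)); `bal_excl`.
-/

open Finset Function
open scoped Classical

namespace KS37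

section G2aux
variable {E V : Type} [AddCommGroup E] [Module ℝ E] [Fintype V] {r : ℕ} {x : V → E}
    {T : (Fin r → V) → Prop}

/-- the base point of the line of `u`. -/
private noncomputable def G2_a (x : V → E) (U : Submodule ℝ E) (f1 f2 : Module.Dual ℝ E)
    (w : Fin r → V) (i : Fin r) (u : V) : E := solv (sp x (update w i u) ⊓ U) f1 f2 1 0

/-- the direction of the line of `u`. -/
private noncomputable def G2_q (x : V → E) (U : Submodule ℝ E) (f1 f2 : Module.Dual ℝ E)
    (w : Fin r → V) (i : Fin r) (u : V) : E := solv (sp x (update w i u) ⊓ U) f1 f2 0 1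

/-- the time of the event of `u`. -/
private noncomputable def G2_t (x : V → E) (U : Submodule ℝ E) (f1 f2 : Module.Dual ℝ E) (e : E)
    (w : Fin r → V) (i : Fin r) (u : V) : ℝ :=
  tz x (update w i u) e i (G2_a x U f1 f2 w i u) (G2_q x U f1 f2 w i u)

private theorem G2_exp (hS : Sys r x T) (w : Fin r → V) (i : Fin r) (u : V) (q e : E)
    (hB : Injective (update w i u)) (he : e ∉ sp x (update w i u)) (ψ : Module.Dual ℝ E)
    (hψ : ∀ l, l ≠ i → ψ (x (w l)) = 0) (hq : q ∈ sp x (update w i u)) :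
    ψ q = kap x (update w i u) e i q * ψ (x u) := by
  have h := kap_sum hS (update w i u) hB e he q
  rw [(hgt_eq_zero_iff hS _ hB e he q).2 hq, zero_smul, add_zero] at h
  have h1 : ψ q = ψ (∑ l, kap x (update w i u) e l q • x (update w i u l)) := by rw [← h]
  rw [h1, map_sum]
  rw [Fintype.sum_eq_single i]
  · rw [map_smul, smul_eq_mul, update_self]
  · intro l hl
    rw [map_smul, smul_eq_mul, update_of_ne hl, hψ l hl, mul_zero]

/-- the point of the event. -/
private theorem G2_pt (hS : Sys r x T) (U : Submodule ℝ E) (f1 f2 : Module.Dual ℝ E)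
    (w : Fin r → V) (i : Fin r) (u0 : V) (e : E)
    (h0 : Injective (update w i u0)) (e0 : e ∉ sp x (update w i u0))
    (i0 : Iso2 (sp x (update w i u0) ⊓ U) f1 f2)
    (k0 : kap x (update w i u0) e i (G2_q x U f1 f2 w i u0) ≠ 0) (y : E)
    (hy : y = G2_a x U f1 f2 w i u0 + G2_t x U f1 f2 e w i u0 • G2_q x U f1 f2 w i u0) :
    y ∈ sp x (update w i u0) ∧ y ∈ U ∧ f1 y = 1 ∧ f2 y = G2_t x U f1 f2 e w i u0 ∧
      kap x (update w i u0) e i y = 0 := by
  obtain ⟨a1, a2, a3⟩ := solv_spec i0 1 0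
  obtain ⟨b1, b2, b3⟩ := solv_spec i0 0 1
  change G2_a x U f1 f2 w i u0 ∈ _ at a1
  change f1 (G2_a x U f1 f2 w i u0) = 1 at a2
  change f2 (G2_a x U f1 f2 w i u0) = 0 at a3
  change G2_q x U f1 f2 w i u0 ∈ _ at b1
  change f1 (G2_q x U f1 f2 w i u0) = 0 at b2
  change f2 (G2_q x U f1 f2 w i u0) = 1 at b3
  have hm : y ∈ sp x (update w i u0) ⊓ U := by
    rw [hy]
    exact Submodule.add_mem _ a1 (Submodule.smul_mem _ _ b1)
  refine ⟨hm.1, hm.2, ?_, ?_, ?_⟩
  · rw [hy, map_add, map_smul, a2, b2, smul_zero, add_zero]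
  · rw [hy, map_add, map_smul, a3, b3, smul_eq_mul, mul_one, zero_add]
  · rw [hy, map_add, map_smul, smul_eq_mul]
    unfold G2_t tz
    field_simp
    ring

private theorem G2_key (hS : Sys r x T) (U : Submodule ℝ E) (f1 f2 : Module.Dual ℝ E)
    (w : Fin r → V) (i : Fin r) (u0 u : V) (e : E)
    (h0 : Injective (update w i u0)) (h1 : Injective (update w i u))
    (e0 : e ∉ sp x (update w i u0)) (e1 : e ∉ sp x (update w i u))
    (i0 : Iso2 (sp x (update w i u0) ⊓ U) f1 f2)
    (i1 : Iso2 (sp x (update w i u) ⊓ U) f1 f2)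
    (k0 : kap x (update w i u0) e i (G2_q x U f1 f2 w i u0) ≠ 0)
    (k1 : kap x (update w i u) e i (G2_q x U f1 f2 w i u) ≠ 0)
    (hev : EvB x (update w i u0) e i (G2_a x U f1 f2 w i u0) (G2_q x U f1 f2 w i u0)) (y : E)
    (hy : y = G2_a x U f1 f2 w i u0 + G2_t x U f1 f2 e w i u0 • G2_q x U f1 f2 w i u0) :
    G2_a x U f1 f2 w i u + G2_t x U f1 f2 e w i u • G2_q x U f1 f2 w i u = y ∧
      EvB x (update w i u) e i (G2_a x U f1 f2 w i u) (G2_q x U f1 f2 w i u) := by
  obtain ⟨y1, y2, y3, y4, y5⟩ := G2_pt hS U f1 f2 w i u0 e h0 e0 i0 k0 y hy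
  have hys := kap_sum hS (update w i u0) h0 e e0 y
  rw [(hgt_eq_zero_iff hS _ h0 e e0 y).2 y1, zero_smul, add_zero] at hys
  have hy1 : y = ∑ l, kap x (update w i u0) e l y • x (update w i u l) := by
    conv_lhs => rw [hys]
    refine Finset.sum_congr rfl (fun l _ => ?_)
    by_cases hl : l = i
    · subst hl
      rw [y5, zero_smul, zero_smul]
    · rw [update_of_ne hl, update_of_ne hl]
  have hys1 : y ∈ sp x (update w i u) := (mem_sp_iff _ y).2 ⟨_, hy1⟩
  have hk := (kap_eq hS (update w i u) h1 e e1 y _ 0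
    (by rw [zero_smul, add_zero]; exact hy1)).1
  have hsol := solv_unique i1 (y := y) ⟨hys1, y2⟩
  rw [y3, y4, one_smul] at hsol
  change y = G2_a x U f1 f2 w i u + G2_t x U f1 f2 e w i u0 • G2_q x U f1 f2 w i u at hsol
  have htz : G2_t x U f1 f2 e w i u = G2_t x U f1 f2 e w i u0 := by
    have h2 := hk i
    rw [y5, hsol, map_add, map_smul, smul_eq_mul] at h2
    unfold G2_t tz
    unfold G2_t tz at h2
    rw [div_eq_iff k1]
    linarith
  refine ⟨by rw [htz]; exact hsol.symm, ?_⟩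
  intro l hl
  change 0 < kap x (update w i u) e l (G2_a x U f1 f2 w i u) +
    kap x (update w i u) e l (G2_q x U f1 f2 w i u) * G2_t x U f1 f2 e w i u
  have h2 := hk l
  have h3 := hev l hl
  change 0 < kap x (update w i u0) e l (G2_a x U f1 f2 w i u0) +
    kap x (update w i u0) e l (G2_q x U f1 f2 w i u0) * G2_t x U f1 f2 e w i u0 at h3
  have h4 : kap x (update w i u0) e l y = kap x (update w i u0) e l (G2_a x U f1 f2 w i u0) +
      kap x (update w i u0) e l (G2_q x U f1 f2 w i u0) * G2_t x U f1 f2 e w i u0 := by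
    rw [hy, map_add, map_smul, smul_eq_mul, mul_comm]
  have h5 : kap x (update w i u) e l y = kap x (update w i u) e l (G2_a x U f1 f2 w i u) +
      kap x (update w i u) e l (G2_q x U f1 f2 w i u) * G2_t x U f1 f2 e w i u := by
    rw [htz]
    conv_lhs => rw [hsol]
    rw [map_add, map_smul, smul_eq_mul, mul_comm]
  rw [← h5, h2, h4]
  exact h3

/-- the functional of the group. -/
private theorem G2_fun (hS : Sys r x T) (U : Submodule ℝ E) (f1 f2 h : Module.Dual ℝ E)
    (w : Fin r → V) (i : Fin r) (u0 : V) (e : E)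
    (hsp : ∀ y ∈ spx x w {i} ⊓ U, f1 y = 0 → y = 0)
    (h0 : Injective (update w i u0)) (e0 : e ∉ sp x (update w i u0))
    (i0 : Iso2 (sp x (update w i u0) ⊓ U) f1 f2)
    (k0 : kap x (update w i u0) e i (G2_q x U f1 f2 w i u0) ≠ 0) (y : E)
    (hy : y = G2_a x U f1 f2 w i u0 + G2_t x U f1 f2 e w i u0 • G2_q x U f1 f2 w i u0) :
    ∃ ψ : Module.Dual ℝ E, (∀ l, l ≠ i → ψ (x (w l)) = 0) ∧
      ∀ z ∈ U, f1 z = 0 → h z = ψ z := by
  obtain ⟨y1, y2, y3, y4, y5⟩ := G2_pt hS U f1 f2 w i u0 e h0 e0 i0 k0 y hy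
  have hys := kap_sum hS (update w i u0) h0 e e0 y
  rw [(hgt_eq_zero_iff hS _ h0 e e0 y).2 y1, zero_smul, add_zero] at hys
  have hyx : y ∈ spx x w {i} := by
    refine (mem_spx_iff w {i} y).2 ⟨fun l => kap x (update w i u0) e l y, ?_, ?_⟩
    · intro l hl
      rw [Set.mem_singleton_iff] at hl
      subst hl
      exact y5
    · conv_lhs => rw [hys]
      refine Finset.sum_congr rfl (fun l _ => ?_)
      by_cases hl : l = i
      · subst hl
        simp only [y5, zero_smul]
      · rw [update_of_ne hl]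
  have hg : (h - h y • f1) ∈ (spx x w {i} ⊓ U).dualAnnihilator := by
    rw [Submodule.mem_dualAnnihilator]
    intro z hz
    have h2 : z - f1 z • y = 0 := by
      refine hsp _ ?_ ?_
      · exact Submodule.sub_mem _ hz (Submodule.smul_mem _ _ ⟨hyx, y2⟩)
      · rw [map_sub, map_smul, y3, smul_eq_mul, mul_one, sub_self]
    have h3 : z = f1 z • y := sub_eq_zero.1 h2
    have h4 : h z = f1 z * h y := by
      conv_lhs => rw [h3]
      rw [map_smul, smul_eq_mul]
    rw [LinearMap.sub_apply, LinearMap.smul_apply, smul_eq_mul, h4]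
    ring
  rw [Subspace.dualAnnihilator_inf_eq] at hg
  obtain ⟨ψ, hψ, θ, hθ, hsum⟩ := Submodule.mem_sup.1 hg
  rw [Submodule.mem_dualAnnihilator] at hψ hθ
  refine ⟨ψ, ?_, ?_⟩
  · intro l hl
    apply hψ
    exact Submodule.subset_span ⟨l, hl, rfl⟩
  · intro z hz hz1
    have h5 : (ψ + θ) z = (h - h y • f1) z := by rw [hsum]
    rw [LinearMap.add_apply, hθ z hz, LinearMap.sub_apply, LinearMap.smul_apply, hz1,
      smul_zero, sub_zero, add_zero] at h5
    exact h5.symm

end G2aux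

theorem ga {E V : Type} [AddCommGroup E] [Module ℝ E] [Fintype V] {r : ℕ} {x : V → E}
    {T : (Fin r → V) → Prop} (hS : Sys r x T) (U : Submodule ℝ E)
    (f1 f2 h : Module.Dual ℝ E) (e : E) (w : Fin r → V) (i : Fin r)
    (X : Finset V) (side : E → Prop)
    (h1 : ∀ y ∈ spx x w {i} ⊓ U, f1 y = 0 → y = 0)
    (h2 : ∀ u, T (update w i u) → u ∉ X → e ∉ sp x (update w i u) ∧
      Iso2 (sp x (update w i u) ⊓ U) f1 f2 ∧
      kap x (update w i u) e i (solv (sp x (update w i u) ⊓ U) f1 f2 0 1) ≠ 0) :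
    |∑ u, ind (T (update w i u) ∧ u ∉ X ∧
        EvB x (update w i u) e i (solv (sp x (update w i u) ⊓ U) f1 f2 1 0)
          (solv (sp x (update w i u) ⊓ U) f1 f2 0 1) ∧
        side (solv (sp x (update w i u) ⊓ U) f1 f2 1 0 +
          tz x (update w i u) e i (solv (sp x (update w i u) ⊓ U) f1 f2 1 0)
            (solv (sp x (update w i u) ⊓ U) f1 f2 0 1) •
            solv (sp x (update w i u) ⊓ U) f1 f2 0 1)) *
        (sg (kap x (update w i u) e i (solv (sp x (update w i u) ⊓ U) f1 f2 0 1)) *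
          (sg (h (solv (sp x (update w i u) ⊓ U) f1 f2 1 0) +
            h (solv (sp x (update w i u) ⊓ U) f1 f2 0 1) *
              tz x (update w i u) e i (solv (sp x (update w i u) ⊓ U) f1 f2 1 0)
                (solv (sp x (update w i u) ⊓ U) f1 f2 0 1)) *
            sg (h (solv (sp x (update w i u) ⊓ U) f1 f2 0 1))))| ≤ 2 + X.card := by
  change |∑ u, ind (T (update w i u) ∧ u ∉ X ∧
        EvB x (update w i u) e i (G2_a x U f1 f2 w i u) (G2_q x U f1 f2 w i u) ∧
        side (G2_a x U f1 f2 w i u + G2_t x U f1 f2 e w i u • G2_q x U f1 f2 w i u)) *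
        (sg (kap x (update w i u) e i (G2_q x U f1 f2 w i u)) *
          (sg (h (G2_a x U f1 f2 w i u) + h (G2_q x U f1 f2 w i u) * G2_t x U f1 f2 e w i u) *
            sg (h (G2_q x U f1 f2 w i u))))| ≤ 2 + X.card
  have h2' : ∀ u, T (update w i u) → u ∉ X → e ∉ sp x (update w i u) ∧
      Iso2 (sp x (update w i u) ⊓ U) f1 f2 ∧
      kap x (update w i u) e i (G2_q x U f1 f2 w i u) ≠ 0 := h2
  by_cases hc : ∃ u0, T (update w i u0) ∧ u0 ∉ X ∧
        EvB x (update w i u0) e i (G2_a x U f1 f2 w i u0) (G2_q x U f1 f2 w i u0) ∧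
        side (G2_a x U f1 f2 w i u0 + G2_t x U f1 f2 e w i u0 • G2_q x U f1 f2 w i u0)
  · obtain ⟨u0, hT0, hX0, hev, hs⟩ := hc
    obtain ⟨a1, a2, a3⟩ := h2' u0 hT0 hX0
    set y : E := G2_a x U f1 f2 w i u0 + G2_t x U f1 f2 e w i u0 • G2_q x U f1 f2 w i u0
      with hy
    obtain ⟨ψ, hψ, hψU⟩ := G2_fun hS U f1 f2 h w i u0 e h1 (hS.inj _ hT0) a1 a2 a3 y hy
    have hall : ∀ u, ind (T (update w i u) ∧ u ∉ X ∧
        EvB x (update w i u) e i (G2_a x U f1 f2 w i u) (G2_q x U f1 f2 w i u) ∧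
        side (G2_a x U f1 f2 w i u + G2_t x U f1 f2 e w i u • G2_q x U f1 f2 w i u)) *
        (sg (kap x (update w i u) e i (G2_q x U f1 f2 w i u)) *
          (sg (h (G2_a x U f1 f2 w i u) + h (G2_q x U f1 f2 w i u) * G2_t x U f1 f2 e w i u) *
            sg (h (G2_q x U f1 f2 w i u)))) =
        sg (h y) * (ind (T (update w i u) ∧ u ∉ X) * sg (ψ (x u))) := by
      intro u
      by_cases hA : T (update w i u) ∧ u ∉ X
      · obtain ⟨hT, hX⟩ := hA
        obtain ⟨b1, b2, b3⟩ := h2' u hT hX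
        obtain ⟨c1, c2⟩ := G2_key hS U f1 f2 w i u0 u e (hS.inj _ hT0) (hS.inj _ hT) a1 b1 a2 b2
          a3 b3 hev y hy
        have hq : G2_q x U f1 f2 w i u ∈ sp x (update w i u) ⊓ U := (solv_spec b2 0 1).1
        have hq1 : f1 (G2_q x U f1 f2 w i u) = 0 := (solv_spec b2 0 1).2.1
        have h3 := G2_exp hS w i u (G2_q x U f1 f2 w i u) e (hS.inj _ hT) b1 ψ hψ hq.1
        have h4 := hψU _ hq.2 hq1
        have h5 : h (G2_a x U f1 f2 w i u) + h (G2_q x U f1 f2 w i u) *
            G2_t x U f1 f2 e w i u = h y := by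
          rw [← c1, map_add, map_smul, smul_eq_mul, mul_comm (G2_t x U f1 f2 e w i u)]
        rw [ind_true ⟨hT, hX, c2, by rw [c1]; exact hs⟩, ind_true ⟨hT, hX⟩, h5, h4, h3, sg_mul]
        have h6 := sg_mul_self b3
        calc (1 : ℝ) * (sg (kap x (update w i u) e i (G2_q x U f1 f2 w i u)) *
              (sg (h y) * (sg (kap x (update w i u) e i (G2_q x U f1 f2 w i u)) * sg (ψ (x u)))))
            = (sg (kap x (update w i u) e i (G2_q x U f1 f2 w i u)) *
                sg (kap x (update w i u) e i (G2_q x U f1 f2 w i u))) *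
                (sg (h y) * sg (ψ (x u))) := by ring
          _ = sg (h y) * (1 * sg (ψ (x u))) := by rw [h6]; ring
      · rw [ind_false hA, ind_false (fun h => hA ⟨h.1, h.2.1⟩)]
        ring
    rw [Finset.sum_congr rfl (fun u _ => hall u), ← Finset.mul_sum, abs_mul]
    have hb := bal_excl hS w i ψ hψ X
    calc |sg (h y)| * |∑ u, ind (T (update w i u) ∧ u ∉ X) * sg (ψ (x u))|
        ≤ 1 * |∑ u, ind (T (update w i u) ∧ u ∉ X) * sg (ψ (x u))| :=
          mul_le_mul_of_nonneg_right (abs_sg_le _) (abs_nonneg _)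
      _ ≤ 2 + X.card := by rw [one_mul]; exact hb
  · rw [Finset.sum_eq_zero, abs_zero]
    · positivity
    · intro u _
      rw [ind_false (fun h => hc ⟨u, h⟩), zero_mul]

end KS37
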