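import Pool.Agent.LibKS37.C1

/-!
# KS37 row C2: exchange of p and e, constancy (page, section 3)
`quad`: for u,v let q(u,v) = Σ_B ind(T B ∧ ∃ s>0, Cone x B (u + s v)). q(u,v)=q(v,u) (scale by 1/s). If TReg(u,v) and TReg(v,u) then
NN(u,v)=q(u,v)+q(u,-v) (u∉sp B, so s≠0; not both s>0 and s<0: s is unique, s = -hgt; note Hit x B (-v) u ↔ Hit x B v u).
NN(p,e)=q1+q4, NN(-p,e)=q2+q3, NN(e,p)=q1+q2, NN(-e,p)=q3+q4 with q1=q(p,e), q2=q(-p,e), q3=q(-p,-e), q4=q(p,-e);
by `const_same` |(q1+q4)-(q2+q3)| ≤ K, |(q1+q2)-(q3+q4)| ≤ K, so |NN(p,e)-NN(e,p)| = |q4-q2| ≤ K, K = 4 r n^(r-1).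
`const`: choose p1 generic with TReg(p1,e), TReg(e,p1), TReg(p1,e'), TReg(e',p1) (A2; for a fixed e with e∉sp B all four conditions
are generic in p1: p1∉sp B, kap x B e i p1≠0, and kap x B p1 i e ≠ 0 iff e∉ spx x B {i} ⊔ span{p1}: fails only if p1 ∈ spx x B {i} ⊔ span {e}, proper).
(p,e)→(p1,e)→(e,p1)→(e',p1)→(p1,e')→(p',e').
-/

open Finset Function
open scoped Classical

namespace KS37

private noncomputable def C2_q {E V : Type} [AddCommGroup E] [Module ℝ E] [Fintype V] {r : ℕ}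
    (x : V → E) (T : (Fin r → V) → Prop) (u v : E) : ℝ :=
  ∑ B : Fin r → V, ind (T B ∧ ∃ s : ℝ, 0 < s ∧ Cone x B (u + s • v))

private theorem C2_q_comm {E V : Type} [AddCommGroup E] [Module ℝ E] [Fintype V] {r : ℕ}
    (x : V → E) (T : (Fin r → V) → Prop) (u v : E) : C2_q x T u v = C2_q x T v u := by
  have key : ∀ (a b : E) (B : Fin r → V), (∃ s : ℝ, 0 < s ∧ Cone x B (a + s • b)) →
      ∃ s : ℝ, 0 < s ∧ Cone x B (b + s • a) := by
    rintro a b B ⟨s, hs, hc⟩
    refine ⟨s⁻¹, inv_pos.2 hs, ?_⟩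
    have := hc.smul (inv_pos.2 hs)
    rwa [smul_add, smul_smul, inv_mul_cancel₀ hs.ne', one_smul, add_comm] at this
  unfold C2_q
  refine Finset.sum_congr rfl fun B _ => ind_congr ?_
  exact and_congr_right fun _ => ⟨key _ _ _, key _ _ _⟩

private theorem C2_cone_mem {E V : Type} [AddCommGroup E] [Module ℝ E] {r : ℕ}
    (x : V → E) (B : Fin r → V) {y : E} (h : Cone x B y) : y ∈ sp x B := by
  obtain ⟨c, _, rfl⟩ := h
  refine Submodule.sum_mem _ fun i _ => Submodule.smul_mem _ _ (Submodule.subset_span ⟨i, rfl⟩)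

private theorem C2_NN_eq {E V : Type} [AddCommGroup E] [Module ℝ E] [Fintype V] {r : ℕ} {x : V → E}
    {T : (Fin r → V) → Prop} (hS : Sys r x T) (u v : E) (hu : ∀ B, T B → u ∉ sp x B)
    (hv : ∀ B, T B → v ∉ sp x B) : NN x T u v = C2_q x T u v + C2_q x T u (-v) := by
  unfold NN C2_q
  rw [← Finset.sum_add_distrib]
  refine Finset.sum_congr rfl fun B _ => ?_
  by_cases hT : T B
  · have huB := hu B hT
    have hvB := hv B hT
    have hh := hit_iff hS B (hS.inj B hT) v hvB u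
    by_cases h1 : ∃ s : ℝ, 0 < s ∧ Cone x B (u + s • v)
    · have h2 : ¬ ∃ s : ℝ, 0 < s ∧ Cone x B (u + s • -v) := by
        rintro ⟨s', hs', hc'⟩
        obtain ⟨s, hs, hc⟩ := h1
        have hm := Submodule.sub_mem _ (C2_cone_mem x B hc) (C2_cone_mem x B hc')
        have he : u + s • v - (u + s' • -v) = (s + s') • v := by
          rw [smul_neg, add_smul]; abel
        rw [he] at hm
        exact hvB ((Submodule.smul_mem_iff _ (by positivity : s + s' ≠ 0)).1 hm)
      have h3 : Hit x B v u := by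
        obtain ⟨s, _, hc⟩ := h1
        exact hh.2 ⟨s, hc⟩
      rw [ind_true ⟨hT, h3⟩, ind_true ⟨hT, h1⟩, ind_false (fun h => h2 h.2)]; ring
    · by_cases h2 : ∃ s : ℝ, 0 < s ∧ Cone x B (u + s • -v)
      · have h3 : Hit x B v u := by
          obtain ⟨s, _, hc⟩ := h2
          refine hh.2 ⟨-s, ?_⟩
          rwa [smul_neg, ← neg_smul] at hc
        rw [ind_true ⟨hT, h3⟩, ind_false (fun h => h1 h.2), ind_true ⟨hT, h2⟩]; ring
      · have h3 : ¬ Hit x B v u := by
          intro h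
          obtain ⟨s, hc⟩ := hh.1 h
          rcases lt_trichotomy s 0 with hs | hs | hs
          · refine h2 ⟨-s, by linarith, ?_⟩
            rwa [smul_neg, neg_smul, neg_neg]
          · subst hs
            rw [zero_smul, add_zero] at hc
            exact huB (C2_cone_mem x B hc)
          · exact h1 ⟨s, hs, hc⟩
        rw [ind_false (fun h => h3 h.2), ind_false (fun h => h1 h.2), ind_false (fun h => h2 h.2)]
        ring
  · rw [ind_false (fun h => hT h.1), ind_false (fun h => hT h.1), ind_false (fun h => hT h.1)]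
    ring

private theorem C2_treg_neg {E V : Type} [AddCommGroup E] [Module ℝ E] {r : ℕ} {x : V → E}
    {T : (Fin r → V) → Prop} {p e : E} (h : TReg x T p e) : TReg x T (-p) e :=
  fun B hB => ⟨(h B hB).1, fun i => by rw [map_neg]; exact neg_ne_zero.2 ((h B hB).2 i)⟩

theorem quad {E V : Type} [AddCommGroup E] [Module ℝ E] [Fintype V] {r : ℕ} {x : V → E}
    {T : (Fin r → V) → Prop} (hS : Sys r x T) (p e : E) (h : TReg x T p e)
    (h' : TReg x T e p) : |NN x T p e - NN x T e p| ≤ 4 * r * nn V ^ (r - 1) := by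
  have hp : ∀ B, T B → p ∉ sp x B := fun B hB => (h' B hB).1
  have he : ∀ B, T B → e ∉ sp x B := fun B hB => (h B hB).1
  have hp' : ∀ B, T B → -p ∉ sp x B := fun B hB hm => hp B hB (by simpa using hm)
  have he' : ∀ B, T B → -e ∉ sp x B := fun B hB hm => he B hB (by simpa using hm)
  have e1 := C2_NN_eq hS p e hp he
  have e2 := C2_NN_eq hS (-p) e hp' he
  have e3 := C2_NN_eq hS e p he hp
  have e4 := C2_NN_eq hS (-e) p he' hp
  rw [C2_q_comm x T e p, C2_q_comm x T e (-p)] at e3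
  rw [C2_q_comm x T (-e) p, C2_q_comm x T (-e) (-p)] at e4
  have k1 := const_same hS p (-p) e h (C2_treg_neg h)
  have k2 := const_same hS e (-e) p h' (C2_treg_neg h')
  rw [abs_le] at k1 k2 ⊢
  constructor <;> linarith [k1.1, k1.2, k2.1, k2.2]

theorem treg_gen {E V : Type} [AddCommGroup E] [Module ℝ E] [Fintype V] {r : ℕ} {x : V → E}
    {T : (Fin r → V) → Prop} (hS : Sys r x T) (e : E) (he : ∀ B, T B → e ∉ sp x B) :
    Gen (fun p1 => TReg x T p1 e ∧ TReg x T (-p1) e ∧ TReg x T e p1) := by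
  have h1 : Gen (fun p1 : E => ∀ B : Fin r → V, T B →
      (p1 ∉ sp x B ∧ ∀ i, kap x B e i p1 ≠ 0)) := by
    apply Gen.all; intro B
    apply Gen.imp; intro hB
    apply Gen.and
    · apply Gen.notMem; intro htop; exact he B hB (htop ▸ Submodule.mem_top)
    · apply Gen.all; intro i; apply Gen.ne_zero; intro h0
      have := (kap_x hS B (hS.inj B hB) e (he B hB) i).1 i
      rw [h0] at this; simp at this
  refine h1.mono ?_
  intro p1 hp1
  have hr : TReg x T p1 e := fun B hB => ⟨he B hB, (hp1 B hB).2⟩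
  refine ⟨hr, C2_treg_neg hr, fun B hB => ⟨(hp1 B hB).1, fun i h0 => ?_⟩⟩
  obtain ⟨s, hs⟩ := (kap_eq_zero_iff hS B (hS.inj B hB) p1 (hp1 B hB).1 i e).1 h0
  have hs0 : s ≠ 0 := by
    rintro rfl
    rw [zero_smul, sub_zero] at hs
    obtain ⟨c, _, hc⟩ := (mem_spx_iff B {i} e).1 hs
    exact he B hB ((mem_sp_iff B e).2 ⟨c, hc⟩)
  refine (hp1 B hB).2 i ?_
  rw [kap_eq_zero_iff hS B (hS.inj B hB) e (he B hB)]
  refine ⟨s⁻¹, ?_⟩
  have := Submodule.smul_mem _ (-s⁻¹) hs
  rwa [smul_sub, smul_smul, neg_mul, inv_mul_cancel₀ hs0, neg_smul, neg_smul, one_smul,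
    sub_neg_eq_add, add_comm, ← sub_eq_add_neg] at this

theorem treg_exists {E V : Type} [AddCommGroup E] [Module ℝ E] [Fintype V] {r : ℕ} {x : V → E}
    {T : (Fin r → V) → Prop} (hS : Sys r x T) : ∃ p e, TReg x T p e := by
  have h1 : Gen (fun e : E => ∀ B : Fin r → V, e ∉ sp x B) := by
    apply Gen.all; intro B
    apply Gen.notMem; intro htop
    have h2 : Module.finrank ℝ (sp x B) ≤ r := by
      have := finrank_range_le_card (R := ℝ) (fun i => x (B i))
      rw [Fintype.card_fin] at this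
      exact this
    rw [htop, finrank_top, hS.rank] at h2
    omega
  obtain ⟨e, he⟩ := h1.exists
  obtain ⟨p, hp, _⟩ := (treg_gen hS e (fun B _ => he B)).exists
  exact ⟨p, e, hp⟩

theorem const {E V : Type} [AddCommGroup E] [Module ℝ E] [Fintype V] {r : ℕ} {x : V → E}
    {T : (Fin r → V) → Prop} (hS : Sys r x T) (p e p' e' : E) (h : TReg x T p e)
    (h' : TReg x T p' e') : |NN x T p e - NN x T p' e'| ≤ 20 * r * nn V ^ (r - 1) := by
  obtain ⟨p1, ⟨a1, _, a3⟩, ⟨b1, _, b3⟩⟩ := ((treg_gen hS e (fun B hB => (h B hB).1)).and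
    (treg_gen hS e' (fun B hB => (h' B hB).1))).exists
  have k1 := const_same hS p p1 e h a1
  have k2 := quad hS p1 e a1 a3
  have k3 := const_same hS e e' p1 a3 b3
  have k4 := quad hS p1 e' b1 b3
  have k5 := const_same hS p1 p' e' b1 h'
  rw [abs_le] at k1 k2 k3 k4 k5 ⊢
  constructor <;> linarith [k1.1, k1.2, k2.1, k2.2, k3.1, k3.2, k4.1, k4.2, k5.1, k5.2]

end KS37
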