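import Pool.Agent.LibKS37.Basic

/-!
# KS37 row O1: object identity, equality
Low = {j : β_j>0} (t_j lower bounds), Up = {j : β_j<0}. c_j(t)>0 for all j iff max_{Low} t_j < t < min_{Up} t_j.
No two t_j are equal (`Nondeg`, β≠0). For j∈Low: Ev j iff j is the maximiser of t over Low and t_j < min_{Up} (all others positive at t_j);
for j∈Up: Ev j iff j is the minimiser over Up and max_{Low} < t_j. So if the open interval (t0,t1) is empty all Ev are false, both
`∀ 0<β` and `∀ β<0` are false (J nonempty, Low and Up nonempty) and both sides are 0. Otherwise the right side is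
ε(t1)-ε(t0) with ε(+∞)=1 (Up empty), ε(-∞)=-1 (Low empty), ε(t)=sg(s(t))·sg(σ1), a monotone function of t with values -1, 1 at the
ends; it is 2 iff the zero -σ0/σ1 of s lies in (t0,t1).  (hs: s(t_j) ≠ 0.)
Suggestion: prove the two halves separately:  Σ_{j∈Low} ind(Ev j)·ε_j and Σ_{j∈Up}.. ; `Finset.exists_max_image`.
-/

open Finset Function
open scoped Classical

namespace KS37

private theorem O1_up {a b t : ℝ} (hb : 0 < b) : 0 < a + b * t ↔ -a / b < t := by
  rw [div_lt_iff₀ hb]
  constructor <;> intro h <;> linarith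

private theorem O1_dn {a b t : ℝ} (hb : b < 0) : 0 < a + b * t ↔ t < -a / b := by
  rw [lt_div_iff_of_neg hb]
  constructor <;> intro h <;> linarith

private theorem O1_pos {a b t : ℝ} (hb : b ≠ 0) :
    0 < a + b * t ↔ (0 < b → -a / b < t) ∧ (b < 0 → t < -a / b) := by
  rcases lt_or_gt_of_ne hb with h | h
  · rw [O1_dn h]
    exact ⟨fun h1 => ⟨fun h2 => absurd h2 (not_lt.2 h.le), fun _ => h1⟩, fun h1 => h1.2 h⟩
  · rw [O1_up h]
    exact ⟨fun h1 => ⟨fun _ => h1, fun h2 => absurd h2 (not_lt.2 (le_of_lt h))⟩, fun h1 => h1.1 h⟩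

private theorem O1_core {J : Type} [Fintype J] (t β : J → ℝ) (z : ℝ) (hβ : ∀ j, β j ≠ 0)
    (ht : ∀ j l, j ≠ l → t j ≠ t l) (hz : ∀ j, t j ≠ z) (Q : J → Prop)
    (hQ : ∀ j, Q j ↔ ∀ l, l ≠ j → (0 < β l → t l < t j) ∧ (β l < 0 → t j < t l)) :
    2 * ind (∀ j, (0 < β j → t j < z) ∧ (β j < 0 → z < t j)) =
      ind (∀ j, 0 < β j) + ind (∀ j, β j < 0) -
        ∑ j, ind (Q j) * (sg (β j) * sg (t j - z)) := by
  by_cases hL : ∃ j, 0 < β j
  · obtain ⟨a, ha⟩ := hL
    obtain ⟨j0, hj0, hmax⟩ := Finset.exists_max_image (Finset.univ.filter fun j => 0 < β j) t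
      ⟨a, Finset.mem_filter.2 ⟨Finset.mem_univ a, ha⟩⟩
    have hj0' : 0 < β j0 := (Finset.mem_filter.1 hj0).2
    have hmax' : ∀ l, 0 < β l → t l ≤ t j0 := fun l hl =>
      hmax l (Finset.mem_filter.2 ⟨Finset.mem_univ l, hl⟩)
    have hnU : ¬ ∀ j, β j < 0 := fun h => absurd (h j0) (not_lt.2 hj0'.le)
    rw [ind_false hnU]
    by_cases hU : ∃ j, β j < 0
    · obtain ⟨b, hb⟩ := hU
      obtain ⟨j1, hj1, hmin⟩ := Finset.exists_min_image (Finset.univ.filter fun j => β j < 0) t
        ⟨b, Finset.mem_filter.2 ⟨Finset.mem_univ b, hb⟩⟩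
      have hj1' : β j1 < 0 := (Finset.mem_filter.1 hj1).2
      have hmin' : ∀ l, β l < 0 → t j1 ≤ t l := fun l hl =>
        hmin l (Finset.mem_filter.2 ⟨Finset.mem_univ l, hl⟩)
      have hnL : ¬ ∀ j, 0 < β j := fun h => absurd (h j1) (not_lt.2 hj1'.le)
      have hne : j0 ≠ j1 := by
        rintro rfl
        linarith
      rw [ind_false hnL]
      rcases lt_or_gt_of_ne (ht j0 j1 hne) with h01 | h01
      · have hQ0 : Q j0 := by
          rw [hQ]
          intro l hl
          refine ⟨fun h => lt_of_le_of_ne (hmax' l h) (ht l j0 hl), fun h => ?_⟩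
          exact lt_of_lt_of_le h01 (hmin' l h)
        have hQ1 : Q j1 := by
          rw [hQ]
          intro l hl
          refine ⟨fun h => lt_of_le_of_lt (hmax' l h) h01, fun h => ?_⟩
          exact lt_of_le_of_ne (hmin' l h) (ht j1 l (Ne.symm hl))
        rw [Fintype.sum_eq_add j0 j1 hne]
        · rw [ind_true hQ0, ind_true hQ1, sg_pos hj0', sg_neg hj1']
          rcases lt_or_gt_of_ne (hz j0) with h0 | h0
          · rcases lt_or_gt_of_ne (hz j1) with h1 | h1
            · rw [ind_false, sg_neg (sub_neg.2 h0), sg_neg (sub_neg.2 h1)]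
              · norm_num
              · intro h
                exact absurd ((h j1).2 hj1') (not_lt.2 h1.le)
            · rw [ind_true, sg_neg (sub_neg.2 h0), sg_pos (sub_pos.2 h1)]
              · norm_num
              · intro j
                exact ⟨fun h => lt_of_le_of_lt (hmax' j h) h0, fun h => lt_of_lt_of_le h1 (hmin' j h)⟩
          · rw [ind_false, sg_pos (sub_pos.2 h0), sg_pos (sub_pos.2 (lt_trans h0 h01))]
            · norm_num
            · intro h
              exact absurd ((h j0).1 hj0') (not_lt.2 (le_of_lt h0))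
        · intro l hl
          rw [ind_false, zero_mul]
          intro h
          rw [hQ] at h
          rcases lt_or_gt_of_ne (hβ l) with h' | h'
          · have := (h j1 (Ne.symm hl.2)).2 hj1'
            exact absurd this (not_lt.2 (hmin' l h'))
          · have := (h j0 (Ne.symm hl.1)).1 hj0'
            exact absurd this (not_lt.2 (hmax' l h'))
      · have hnQ : ∀ j, ¬ Q j := by
          intro j h
          rw [hQ] at h
          rcases lt_or_gt_of_ne (hβ j) with h' | h'
          · have h1 : j0 ≠ j := by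
              rintro rfl
              linarith
            have h2 := (h j0 h1).1 hj0'
            by_cases h3 : j1 = j
            · subst h3
              linarith
            · have h4 := (h j1 h3).2 hj1'
              linarith [hmin' j h']
          · have h1 : j1 ≠ j := by
              rintro rfl
              linarith
            have h2 := (h j1 h1).2 hj1'
            by_cases h3 : j0 = j
            · subst h3
              linarith
            · have h4 := (h j0 h3).1 hj0'
              linarith [hmax' j h']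
        rw [ind_false, Finset.sum_eq_zero]
        · norm_num
        · intro j _
          rw [ind_false (hnQ j), zero_mul]
        · intro h
          have h1 := (h j0).1 hj0'
          have h2 := (h j1).2 hj1'
          linarith
    · push Not at hU
      have hU' : ∀ j, 0 < β j := fun j => lt_of_le_of_ne (hU j) (Ne.symm (hβ j))
      have hQ0 : Q j0 := by
        rw [hQ]
        intro l hl
        exact ⟨fun h => lt_of_le_of_ne (hmax' l h) (ht l j0 hl), fun h =>
          absurd h (not_lt.2 (hU l))⟩
      rw [ind_true hU', Fintype.sum_eq_single j0]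
      · rw [ind_true hQ0, sg_pos hj0']
        rcases lt_or_gt_of_ne (hz j0) with h0 | h0
        · rw [ind_true, sg_neg (sub_neg.2 h0)]
          · norm_num
          · intro j
            exact ⟨fun h => lt_of_le_of_lt (hmax' j h) h0, fun h => absurd h (not_lt.2 (hU j))⟩
        · rw [ind_false, sg_pos (sub_pos.2 h0)]
          · norm_num
          · intro h
            exact absurd ((h j0).1 hj0') (not_lt.2 (le_of_lt h0))
      · intro l hl
        rw [ind_false, zero_mul]
        intro h
        rw [hQ] at h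
        have := (h j0 (Ne.symm hl)).1 hj0'
        exact absurd this (not_lt.2 (hmax' l (hU' l)))
  · push Not at hL
    have hL' : ∀ j, β j < 0 := fun j => lt_of_le_of_ne (hL j) (hβ j)
    rw [ind_true hL']
    by_cases hJ : Nonempty J
    · obtain ⟨b⟩ := hJ
      obtain ⟨j1, _, hmin⟩ := Finset.exists_min_image (Finset.univ : Finset J) t
        ⟨b, Finset.mem_univ b⟩
      have hmin' : ∀ l, t j1 ≤ t l := fun l => hmin l (Finset.mem_univ l)
      have hnL : ¬ ∀ j, 0 < β j := fun h => absurd (h j1) (not_lt.2 (hL j1))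
      have hQ1 : Q j1 := by
        rw [hQ]
        intro l hl
        exact ⟨fun h => absurd h (not_lt.2 (hL l)), fun h =>
          lt_of_le_of_ne (hmin' l) (ht j1 l (Ne.symm hl))⟩
      rw [ind_false hnL, Fintype.sum_eq_single j1]
      · rw [ind_true hQ1, sg_neg (hL' j1)]
        rcases lt_or_gt_of_ne (hz j1) with h0 | h0
        · rw [ind_false, sg_neg (sub_neg.2 h0)]
          · norm_num
          · intro h
            exact absurd ((h j1).2 (hL' j1)) (not_lt.2 h0.le)
        · rw [ind_true, sg_pos (sub_pos.2 h0)]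
          · norm_num
          · intro j
            exact ⟨fun h => absurd h (not_lt.2 (hL j)), fun h => lt_of_lt_of_le h0 (hmin' j)⟩
      · intro l hl
        rw [ind_false, zero_mul]
        intro h
        rw [hQ] at h
        have := (h j1 (Ne.symm hl)).2 (hL' j1)
        exact absurd this (not_lt.2 (hmin' l))
    · haveI : IsEmpty J := not_nonempty_iff.1 hJ
      rw [ind_true (fun j => isEmptyElim j), ind_true (fun j => isEmptyElim j)]
      simp
      norm_num

theorem oi_eq {J : Type} [Fintype J] (α β : J → ℝ) (σ0 σ1 : ℝ) (hβ : ∀ j, β j ≠ 0)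
    (hnd : Nondeg α β) (hσ : σ1 ≠ 0) (hs : ∀ j, σ0 * β j ≠ σ1 * α j) :
    2 * ind (∃ t : ℝ, (∀ j, 0 < α j + β j * t) ∧ σ0 + σ1 * t = 0) =
      ind (∀ j, 0 < β j) + ind (∀ j, β j < 0) -
        ∑ j, ind (Ev α β j) * (sg (β j) * eps α β σ0 σ1 j) := by
  have h1 : ∀ j, eps α β σ0 σ1 j = sg (-α j / β j - -σ0 / σ1) := by
    intro j
    unfold eps
    rw [← sg_mul]
    have h2 : (σ0 + σ1 * (-α j / β j)) * σ1 = σ1 ^ 2 * (-α j / β j - -σ0 / σ1) := by
      field_simp
      ring
    rw [h2, sg_mul, sg_pos (by positivity), one_mul]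
  have h3 : (∃ t : ℝ, (∀ j, 0 < α j + β j * t) ∧ σ0 + σ1 * t = 0) ↔
      ∀ j, (0 < β j → -α j / β j < -σ0 / σ1) ∧ (β j < 0 → -σ0 / σ1 < -α j / β j) := by
    constructor
    · rintro ⟨t, h, hst⟩ j
      have h4 : t = -σ0 / σ1 := by
        rw [eq_div_iff hσ]
        linarith
      rw [← h4]
      exact (O1_pos (hβ j)).1 (h j)
    · intro h
      refine ⟨-σ0 / σ1, fun j => (O1_pos (hβ j)).2 (h j), ?_⟩
      field_simp
      ring
  rw [h3]
  simp only [h1]
  refine O1_core (fun j => -α j / β j) β (-σ0 / σ1) hβ ?_ ?_ (Ev α β) ?_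
  · intro j l hjl h
    apply hnd j l hjl
    have h' : -α j / β j = -α l / β l := h
    rw [div_eq_div_iff (hβ j) (hβ l)] at h'
    linarith
  · intro j h
    apply hs j
    have h' : -α j / β j = -σ0 / σ1 := h
    rw [div_eq_div_iff (hβ j) hσ] at h'
    linarith
  · intro j
    unfold Ev
    constructor
    · intro h l hl
      exact (O1_pos (hβ l)).1 (h l hl)
    · intro h l hl
      exact (O1_pos (hβ l)).2 (h l hl)

end KS37
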