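import Pool.Agent.LibKS37.A1
import Pool.Agent.LibKS37.A3

/-!
# KS37 row G1: group lemma, vertical side (page, section 2, GV)
If no u satisfies the event, both sums are 0. Otherwise let u0 be one, t*=tz of u0, y*=p0+t* q. Its i-th coordinate vanishes, so
y* = Σ_{l≠i} c_l x(w l) + s0 e with c_l>0. For every u with T(update w i u), u∉X: by `kap_eq` the coordinates of y* in the
frame of u are the same c_l, 0 at i, and hgt = s0; so tz of u is t* (kap i q ≠ 0), EvB holds, side(t*) holds: the event holds.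
With ψ = kap of u0 at i: it vanishes on x(w l), l≠i, and on e; expanding q in the frame of u: ψ(q) = kap_u,i(q) ψ(x u).
So sg(kap_u,i q) = sg(ψ q) sg(ψ(x u)) (ψ q ≠ 0): (1) is ≤ |Σ ind(T ∧ u∉X) sg(ψ(x u))| ≤ 2+|X| (`bal_excl`).
(2): hgt_u(p0)+hgt_u(q) t* = s0 for all u. ψ2 = hgt_{u0} - (hgt_{u0} q/kap_{u0,i} q)·kap_{u0,i} vanishes on x(w l), on q, and is 1 on e:
0 = ψ2(q) = kap_u,i(q) ψ2(x u) + hgt_u(q), so sg(kap_u,i q)·sg(hgt_u q) = -sg(ψ2(x u)).
-/

open Finset Function
open scoped Classical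

namespace KS37

section G1aux
variable {E V : Type} [AddCommGroup E] [Module ℝ E] [Fintype V] {r : ℕ} {x : V → E}
    {T : (Fin r → V) → Prop}

private theorem G1_exp (hS : Sys r x T) (w : Fin r → V) (i : Fin r) (u : V) (q e : E)
    (hB : Injective (update w i u)) (he : e ∉ sp x (update w i u)) (ψ : Module.Dual ℝ E)
    (hψ : ∀ l, l ≠ i → ψ (x (w l)) = 0) :
    ψ q = kap x (update w i u) e i q * ψ (x u) + hgt x (update w i u) e q * ψ e := by
  have h := kap_sum hS (update w i u) hB e he q
  have h1 : ψ q = ψ (∑ l, kap x (update w i u) e l q • x (update w i u l) +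
      hgt x (update w i u) e q • e) := by rw [← h]
  rw [h1, map_add, map_sum, map_smul, smul_eq_mul]
  rw [Fintype.sum_eq_single i]
  · rw [map_smul, smul_eq_mul, update_self]
  · intro l hl
    rw [map_smul, smul_eq_mul, update_of_ne hl, hψ l hl, mul_zero]

private theorem G1_key (hS : Sys r x T) (w : Fin r → V) (i : Fin r) (u0 u : V) (p0 q e : E)
    (h0 : Injective (update w i u0)) (h1 : Injective (update w i u))
    (e0 : e ∉ sp x (update w i u0)) (e1 : e ∉ sp x (update w i u))
    (k0 : kap x (update w i u0) e i q ≠ 0) (k1 : kap x (update w i u) e i q ≠ 0)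
    (hev : EvB x (update w i u0) e i p0 q) :
    tz x (update w i u) e i p0 q = tz x (update w i u0) e i p0 q ∧
      EvB x (update w i u) e i p0 q ∧
      hgt x (update w i u) e p0 + hgt x (update w i u) e q * tz x (update w i u) e i p0 q =
        hgt x (update w i u0) e p0 +
          hgt x (update w i u0) e q * tz x (update w i u0) e i p0 q := by
  set t := tz x (update w i u0) e i p0 q with ht
  have hi0 : kap x (update w i u0) e i (p0 + t • q) = 0 := by
    rw [map_add, map_smul, smul_eq_mul, ht]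
    unfold tz
    field_simp
    ring
  have hy := kap_sum hS (update w i u0) h0 e e0 (p0 + t • q)
  have hy1 : p0 + t • q = ∑ l, kap x (update w i u0) e l (p0 + t • q) • x (update w i u l) +
      hgt x (update w i u0) e (p0 + t • q) • e := by
    conv_lhs => rw [hy]
    congr 1
    refine Finset.sum_congr rfl (fun l _ => ?_)
    by_cases hl : l = i
    · subst hl
      rw [hi0, zero_smul, zero_smul]
    · rw [update_of_ne hl, update_of_ne hl]
  obtain ⟨hk, hh⟩ := kap_eq hS (update w i u) h1 e e1 (p0 + t • q) _ _ hy1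
  have htz : tz x (update w i u) e i p0 q = t := by
    have h2 := hk i
    rw [hi0, map_add, map_smul, smul_eq_mul] at h2
    unfold tz
    rw [div_eq_iff k1]
    linarith
  refine ⟨htz, ?_, ?_⟩
  · intro l hl
    rw [htz]
    have h2 := hk l
    rw [map_add, map_smul, smul_eq_mul, map_add, map_smul, smul_eq_mul] at h2
    have h3 := hev l hl
    rw [← ht] at h3
    have h4 : kap x (update w i u) e l p0 + kap x (update w i u) e l q * t =
        kap x (update w i u0) e l p0 + kap x (update w i u0) e l q * t := by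
      rw [mul_comm _ t, mul_comm _ t]; exact h2
    rw [h4]
    exact h3
  · rw [htz]
    rw [map_add, map_smul, smul_eq_mul, map_add, map_smul, smul_eq_mul] at hh
    rw [mul_comm _ t, mul_comm _ t]
    exact hh

/-- the sum of one group. -/
private theorem G1_sum (hS : Sys r x T) (w : Fin r → V) (i : Fin r) (p0 q e : E)
    (X : Finset V) (side : ℝ → Prop)
    (h : ∀ u, T (update w i u) → u ∉ X → e ∉ sp x (update w i u) ∧
      kap x (update w i u) e i q ≠ 0) (F : V → ℝ)
    (hF : ∀ u0, T (update w i u0) → u0 ∉ X → EvB x (update w i u0) e i p0 q →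
      ∃ (ψ : Module.Dual ℝ E) (a : ℝ), |a| ≤ 1 ∧ (∀ l, l ≠ i → ψ (x (w l)) = 0) ∧
        ∀ u, T (update w i u) → u ∉ X → F u = a * sg (ψ (x u))) :
    |∑ u, ind (T (update w i u) ∧ u ∉ X ∧ EvB x (update w i u) e i p0 q ∧
        side (tz x (update w i u) e i p0 q)) * F u| ≤ 2 + X.card := by
  by_cases hc : ∃ u0, T (update w i u0) ∧ u0 ∉ X ∧ EvB x (update w i u0) e i p0 q ∧
        side (tz x (update w i u0) e i p0 q)
  · obtain ⟨u0, hT0, hX0, hev, hs⟩ := hc
    obtain ⟨ψ, a, ha, hψ, hu⟩ := hF u0 hT0 hX0 hev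
    have hall : ∀ u, ind (T (update w i u) ∧ u ∉ X ∧ EvB x (update w i u) e i p0 q ∧
        side (tz x (update w i u) e i p0 q)) * F u =
        a * (ind (T (update w i u) ∧ u ∉ X) * sg (ψ (x u))) := by
      intro u
      by_cases hA : T (update w i u) ∧ u ∉ X
      · obtain ⟨hT, hX⟩ := hA
        obtain ⟨a1, a2⟩ := h u0 hT0 hX0
        obtain ⟨b1, b2⟩ := h u hT hX
        obtain ⟨c1, c2, c3⟩ := G1_key hS w i u0 u p0 q e (hS.inj _ hT0) (hS.inj _ hT) a1 b1 a2 b2 hev
        rw [ind_true ⟨hT, hX, c2, by rw [c1]; exact hs⟩, ind_true ⟨hT, hX⟩, hu u hT hX]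
        ring
      · rw [ind_false hA, ind_false (fun h => hA ⟨h.1, h.2.1⟩)]
        ring
    rw [Finset.sum_congr rfl (fun u _ => hall u), ← Finset.mul_sum, abs_mul]
    have hb := bal_excl hS w i ψ hψ X
    calc |a| * |∑ u, ind (T (update w i u) ∧ u ∉ X) * sg (ψ (x u))|
        ≤ 1 * |∑ u, ind (T (update w i u) ∧ u ∉ X) * sg (ψ (x u))| :=
          mul_le_mul_of_nonneg_right ha (abs_nonneg _)
      _ ≤ 2 + X.card := by rw [one_mul]; exact hb
  · have hz : ∀ u, ind (T (update w i u) ∧ u ∉ X ∧ EvB x (update w i u) e i p0 q ∧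
        side (tz x (update w i u) e i p0 q)) * F u = 0 := by
      intro u
      rw [ind_false (fun h => hc ⟨u, h⟩), zero_mul]
    rw [Finset.sum_congr rfl (fun u _ => hz u), Finset.sum_const_zero, abs_zero]
    positivity

end G1aux

theorem gv1 {E V : Type} [AddCommGroup E] [Module ℝ E] [Fintype V] {r : ℕ} {x : V → E}
    {T : (Fin r → V) → Prop} (hS : Sys r x T) (w : Fin r → V) (i : Fin r) (p0 q e : E)
    (X : Finset V) (side : ℝ → Prop)
    (h : ∀ u, T (update w i u) → u ∉ X → e ∉ sp x (update w i u) ∧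
      kap x (update w i u) e i q ≠ 0) :
    |∑ u, ind (T (update w i u) ∧ u ∉ X ∧ EvB x (update w i u) e i p0 q ∧
        side (tz x (update w i u) e i p0 q)) * sg (kap x (update w i u) e i q)| ≤ 2 + X.card := by
  refine G1_sum hS w i p0 q e X side h _ ?_
  intro u0 hT0 hX0 _
  obtain ⟨a1, a2⟩ := h u0 hT0 hX0
  have hψ : ∀ l, l ≠ i → kap x (update w i u0) e i (x (w l)) = 0 := by
    intro l hl
    have := (kap_x hS (update w i u0) (hS.inj _ hT0) e a1 l).1 i
    rw [update_of_ne hl, if_neg (Ne.symm hl)] at this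
    exact this
  have hψe : kap x (update w i u0) e i e = 0 := (kap_e hS _ (hS.inj _ hT0) e a1).1 i
  refine ⟨kap x (update w i u0) e i, sg (kap x (update w i u0) e i q), abs_sg_le _, hψ, ?_⟩
  intro u hT hX
  obtain ⟨b1, b2⟩ := h u hT hX
  have h1 := G1_exp hS w i u q e (hS.inj _ hT) b1 (kap x (update w i u0) e i) hψ
  rw [hψe, mul_zero, add_zero] at h1
  have h2 : kap x (update w i u0) e i (x u) ≠ 0 := by
    intro h0
    rw [h0, mul_zero] at h1
    exact a2 h1
  rw [h1, sg_mul, mul_assoc, sg_mul_self h2, mul_one]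

theorem gv2 {E V : Type} [AddCommGroup E] [Module ℝ E] [Fintype V] {r : ℕ} {x : V → E}
    {T : (Fin r → V) → Prop} (hS : Sys r x T) (w : Fin r → V) (i : Fin r) (p0 q e : E)
    (X : Finset V) (side : ℝ → Prop)
    (h : ∀ u, T (update w i u) → u ∉ X → e ∉ sp x (update w i u) ∧
      kap x (update w i u) e i q ≠ 0) :
    |∑ u, ind (T (update w i u) ∧ u ∉ X ∧ EvB x (update w i u) e i p0 q ∧
        side (tz x (update w i u) e i p0 q)) *
        (sg (kap x (update w i u) e i q) *
          (sg (hgt x (update w i u) e p0 +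
            hgt x (update w i u) e q * tz x (update w i u) e i p0 q) *
            sg (hgt x (update w i u) e q)))| ≤ 2 + X.card := by
  refine G1_sum hS w i p0 q e X side h _ ?_
  intro u0 hT0 hX0 hev
  obtain ⟨a1, a2⟩ := h u0 hT0 hX0
  set c : ℝ := hgt x (update w i u0) e q / kap x (update w i u0) e i q with hc
  set ψ : Module.Dual ℝ E := hgt x (update w i u0) e - c • kap x (update w i u0) e i with hψd
  have hψv : ∀ y, ψ y = hgt x (update w i u0) e y - c * kap x (update w i u0) e i y := by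
    intro y
    rw [hψd, LinearMap.sub_apply, LinearMap.smul_apply, smul_eq_mul]
  have hψ : ∀ l, l ≠ i → ψ (x (w l)) = 0 := by
    intro l hl
    have h1 := (kap_x hS (update w i u0) (hS.inj _ hT0) e a1 l).1 i
    have h2 := (kap_x hS (update w i u0) (hS.inj _ hT0) e a1 l).2
    rw [update_of_ne hl, if_neg (Ne.symm hl)] at h1
    rw [update_of_ne hl] at h2
    rw [hψv, h1, h2, mul_zero, sub_zero]
  have hψe : ψ e = 1 := by
    obtain ⟨h1, h2⟩ := kap_e hS _ (hS.inj _ hT0) e a1
    rw [hψv, h1 i, h2, mul_zero, sub_zero]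
  have hψq : ψ q = 0 := by
    rw [hψv, hc]
    field_simp
    ring
  set s0 : ℝ := hgt x (update w i u0) e p0 +
            hgt x (update w i u0) e q * tz x (update w i u0) e i p0 q with hs0
  refine ⟨ψ, -sg s0, by rw [abs_neg]; exact abs_sg_le _, hψ, ?_⟩
  intro u hT hX
  obtain ⟨b1, b2⟩ := h u hT hX
  obtain ⟨c1, c2, c3⟩ := G1_key hS w i u0 u p0 q e (hS.inj _ hT0) (hS.inj _ hT) a1 b1 a2 b2 hev
  have h1 := G1_exp hS w i u q e (hS.inj _ hT) b1 ψ hψ
  rw [hψe, mul_one, hψq] at h1
  have h2 : hgt x (update w i u) e q = -(kap x (update w i u) e i q * ψ (x u)) := by linarith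
  rw [c3, ← hs0, h2, sg_neg_arg, sg_mul]
  have h3 := sg_mul_self b2
  calc sg (kap x (update w i u) e i q) *
        (sg s0 * -(sg (kap x (update w i u) e i q) * sg (ψ (x u))))
      = (sg (kap x (update w i u) e i q) * sg (kap x (update w i u) e i q)) *
        (-sg s0 * sg (ψ (x u))) := by ring
    _ = -sg s0 * sg (ψ (x u)) := by rw [h3, one_mul]

end KS37
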