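import Pool.Agent.LibKS37.P2g1
import Pool.Agent.LibKS37.A1
import Pool.Agent.LibKS37.SweepE

/-!
# KS37 row P2g3: P2E implies P2Good
q = qv B ∈ sp x B ⊓ U, f1 q = 0, f2 q = 1, a = av B: f1 a = 1, f2 a = 0 (`solv_spec`).
kapq: if kap x B' e j q = 0 then q - s e ∈ spx x B' {j}, also in U. s ≠ 0: e ∈ span{q} ⊔ (..): e3. s = 0: q ∈ spx x B' {j} ⊓ U, f1 q = 0: q = 0 (h.ridge), but f2 q = 1.
hq: hgt x B' e q = 0 → q ∈ sp x B', h.dbl gives q = 0.
nd: if α_j β_l = α_l β_j there is (τ0,τ1) ≠ 0 (e.g. (β_j,-α_j) or (β_l,-α_l); β ≠ 0 by kapq) with y = τ0 a + τ1 q killed by both coordinates; y ≠ 0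
 (f1 y = τ0, f2 y = τ1). (inl i, inl i'): kap_eq_zero_iff2: y - s e ∈ spx x B {i,i'} ≤ sp x B, e ∉ sp x B so s=0, u3: y=0.
 (inl i, inr j): y ∈ spx x B {i} ⊓ U (s = 0 as before), y - s e ∈ spx x B' {j} ⊓ U: s≠0: e4; s=0: u6 (spx x B' {j} ≤ sp x B').
 (inr, inr): y - s e ∈ spx x B' {j,j'} ⊓ U = ⊥, y = s e, y ∈ sp x B, so s = 0.
hs: equality gives (τ0,τ1)≠0 with c_j(y)=0 and hgt x B' e y=0, y ∈ sp x B'. inl i: y∈ spx x B {i} ⊓ sp x B' ⊓ U = ⊥ (u6). inr j: y ∈ spx x B' {j} ⊓ sp x B ⊓ U = ⊥ (u6 with B, B' exchanged).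
-/

open Finset Function
open scoped Classical

namespace KS37

private theorem P2g3_inl {E V : Type} [AddCommGroup E] [Module ℝ E] [Fintype V] {r : ℕ} {x : V → E}
    {T : (Fin r → V) → Prop} (hS : Sys r x T) {e : E} {B : Fin r → V} (hB : Injective B)
    (he : e ∉ sp x B) {i : Fin r} {y : E} (hy : y ∈ sp x B) (h0 : kap x B e i y = 0) :
    y ∈ spx x B {i} := by
  obtain ⟨s, hs⟩ := (kap_eq_zero_iff hS B hB e he i y).1 h0
  have h1 : s • e ∈ sp x B := by
    have := (sp x B).sub_mem hy (spx_le_sp B {i} hs)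
    rwa [sub_sub_cancel] at this
  by_cases hs0 : s = 0
  · rwa [hs0, zero_smul, sub_zero] at hs
  · exact absurd (((sp x B).smul_mem_iff hs0).1 h1) he

private theorem P2g3_e {E : Type} [AddCommGroup E] [Module ℝ E] {P Q : Submodule ℝ E} {e y : E}
    {s : ℝ} (hs : s ≠ 0) (hy : y ∈ P) (h : y - s • e ∈ Q) : e ∈ P ⊔ Q := by
  have h1 : s • e ∈ P ⊔ Q := by
    have := (P ⊔ Q).sub_mem (Submodule.mem_sup_left hy) (Submodule.mem_sup_right h)
    rwa [sub_sub_cancel] at this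
  exact ((P ⊔ Q).smul_mem_iff hs).1 h1

theorem p2_good {E V : Type} [AddCommGroup E] [Module ℝ E] [Fintype V] {r : ℕ} {x : V → E}
    {T : (Fin r → V) → Prop} (hS : Sys r x T) (hr : 2 ≤ r) {U : Submodule ℝ E}
    {f1 f2 : Module.Dual ℝ E} {e : E} (h : P2Hyp r x U f1) (hE : P2E r x U f1 f2 e) :
    P2Good r x U f1 f2 e := by
  have hq : ∀ B : Fin r → V, Injective B → qv x U f1 f2 B ∈ sp x B ⊓ U ∧
      f1 (qv x U f1 f2 B) = 0 ∧ f2 (qv x U f1 f2 B) = 1 := fun B hB =>
    solv_spec (hE.iso B hB) 0 1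
  have ha : ∀ B : Fin r → V, Injective B → av x U f1 f2 B ∈ sp x B ⊓ U ∧
      f1 (av x U f1 f2 B) = 1 ∧ f2 (av x U f1 f2 B) = 0 := fun B hB =>
    solv_spec (hE.iso B hB) 1 0
  have hq0 : ∀ B : Fin r → V, Injective B → qv x U f1 f2 B ≠ 0 := by
    intro B hB h0
    have := (hq B hB).2.2
    rw [h0, map_zero] at this
    exact zero_ne_one this
  have hkapq : ∀ B B' : Fin r → V, Injective B → Injective B' → ∀ j,
      kap x B' e j (qv x U f1 f2 B) ≠ 0 := by
    intro B B' hB hB' j h0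
    obtain ⟨s, hs⟩ := (kap_eq_zero_iff hS B' hB' e (hE.enot B' hB') j _).1 h0
    obtain ⟨h1, h2, h3⟩ := hq B hB
    have hsU : qv x U f1 f2 B - s • e ∈ U :=
      U.sub_mem (Submodule.mem_inf.1 h1).2 (U.smul_mem s hE.eU)
    by_cases hs0 : s = 0
    · rw [hs0, zero_smul, sub_zero] at hs
      exact hq0 B hB (h.ridge B' hB' j _ (Submodule.mem_inf.2 ⟨hs, (Submodule.mem_inf.1 h1).2⟩) h2)
    · exact hE.e3 B B' hB hB' j (P2g3_e hs0 (Submodule.mem_span_singleton_self _)
        (Submodule.mem_inf.2 ⟨hs, hsU⟩))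
  have hbe : ∀ B B' : Fin r → V, Injective B → Injective B' → ∀ j,
      be2 x U f1 f2 e B B' j ≠ 0 := by
    intro B B' hB hB' j
    rcases j with i | j
    · exact hkapq B B hB hB i
    · exact hkapq B B' hB hB' j
  have hdisj : ∀ B B' : Fin r → V, Disj B B' → Disj B' B := fun B B' hd i j h1 => hd j i h1.symm
  -- the vector killed by the coordinate `j`
  have hy : ∀ B B' : Fin r → V, Injective B → Injective B' → ∀ j, ∀ y : E,
      y = be2 x U f1 f2 e B B' j • av x U f1 f2 B - al2 x U f1 f2 e B B' j • qv x U f1 f2 B →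
      y ∈ sp x B ∧ y ∈ U ∧ y ≠ 0 := by
    intro B B' hB hB' j y hyd
    obtain ⟨h1, h2, h3⟩ := hq B hB
    obtain ⟨g1, g2, g3⟩ := ha B hB
    have h4 : y ∈ sp x B ⊓ U := by
      rw [hyd]
      exact Submodule.sub_mem _ (Submodule.smul_mem _ _ g1) (Submodule.smul_mem _ _ h1)
    refine ⟨(Submodule.mem_inf.1 h4).1, (Submodule.mem_inf.1 h4).2, ?_⟩
    intro hy0
    have h5 : f1 y = be2 x U f1 f2 e B B' j := by
      rw [hyd, map_sub, map_smul, map_smul, g2, h2, smul_eq_mul, smul_eq_mul, mul_one, mul_zero,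
        sub_zero]
    rw [hy0, map_zero] at h5
    exact hbe B B' hB hB' j h5.symm
  refine ⟨hE.eU, hE.iso, hE.enot, hkapq, ?_, ?_, ?_⟩
  · intro B B' hB hB' hd h0
    obtain ⟨h1, h2, h3⟩ := hq B hB
    have h4 := (hgt_eq_zero_iff hS B' hB' e (hE.enot B' hB') _).1 h0
    exact hq0 B hB (h.dbl B B' hB hB' hd _ (Submodule.mem_inf.2 ⟨Submodule.mem_inf.2
      ⟨(Submodule.mem_inf.1 h1).1, h4⟩, (Submodule.mem_inf.1 h1).2⟩) h2)
  · intro B B' hB hB' hd j l hjl heq
    obtain ⟨y, hyd⟩ : ∃ y : E, y =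
      be2 x U f1 f2 e B B' j • av x U f1 f2 B - al2 x U f1 f2 e B B' j • qv x U f1 f2 B := ⟨_, rfl⟩
    obtain ⟨y1, y2, y3⟩ := hy B B' hB hB' j y hyd
    have heB := hE.enot B hB
    have heB' := hE.enot B' hB'
    have hinl : ∀ i, kap x B e i y = 0 → y ∈ spx x B {i} := fun i h0 =>
      P2g3_inl hS hB heB y1 h0
    have hcase : ∀ i j', kap x B e i y = 0 → kap x B' e j' y = 0 → False := by
      intro i j' h0 h1
      have h2 := hinl i h0
      obtain ⟨s, hs⟩ := (kap_eq_zero_iff hS B' hB' e heB' j' y).1 h1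
      by_cases hs0 : s = 0
      · rw [hs0, zero_smul, sub_zero] at hs
        have h3 : y ∈ spx x B {i} ⊓ sp x B' ⊓ U :=
          Submodule.mem_inf.2 ⟨Submodule.mem_inf.2 ⟨h2, spx_le_sp B' _ hs⟩, y2⟩
        rw [h.u6 B B' hB hB' hd i] at h3
        exact y3 ((Submodule.mem_bot ℝ).1 h3)
      · exact hE.e4 B B' hB hB' i j' (P2g3_e hs0 (Submodule.mem_inf.2 ⟨h2, y2⟩)
          (Submodule.mem_inf.2 ⟨hs, U.sub_mem y2 (U.smul_mem s hE.eU)⟩))
    rcases j with i | j <;> rcases l with i' | j'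
    · have hii : i ≠ i' := fun h' => hjl (by rw [h'])
      have hc1 : kap x B e i y = 0 := by
        rw [hyd, map_sub, map_smul, map_smul]
        simp only [al2, be2, Sum.elim_inl, smul_eq_mul]
        ring
      have hc2 : kap x B e i' y = 0 := by
        rw [hyd, map_sub, map_smul, map_smul]
        simp only [al2, be2, Sum.elim_inl, smul_eq_mul] at heq ⊢
        linear_combination -heq
      obtain ⟨s, hs⟩ := (kap_eq_zero_iff2 hS B hB e heB i i' y).1 ⟨hc1, hc2⟩
      have h1 : s • e ∈ sp x B := by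
        have := (sp x B).sub_mem y1 (spx_le_sp B {i, i'} hs)
        rwa [sub_sub_cancel] at this
      have hs0 : s = 0 := by
        by_contra hs0
        exact heB (((sp x B).smul_mem_iff hs0).1 h1)
      rw [hs0, zero_smul, sub_zero] at hs
      have h3 : y ∈ spx x B {i, i'} ⊓ U := Submodule.mem_inf.2 ⟨hs, y2⟩
      rw [h.u3 B hB i i' hii] at h3
      exact y3 ((Submodule.mem_bot ℝ).1 h3)
    · refine hcase i j' ?_ ?_
      · rw [hyd, map_sub, map_smul, map_smul]
        simp only [al2, be2, Sum.elim_inl, smul_eq_mul]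
        ring
      · rw [hyd, map_sub, map_smul, map_smul]
        simp only [al2, be2, Sum.elim_inl, Sum.elim_inr, smul_eq_mul] at heq ⊢
        linear_combination -heq
    · refine hcase i' j ?_ ?_
      · rw [hyd, map_sub, map_smul, map_smul]
        simp only [al2, be2, Sum.elim_inl, Sum.elim_inr, smul_eq_mul] at heq ⊢
        linear_combination -heq
      · rw [hyd, map_sub, map_smul, map_smul]
        simp only [al2, be2, Sum.elim_inr, smul_eq_mul]
        ring
    · have hjj : j ≠ j' := fun h' => hjl (by rw [h'])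
      have hc1 : kap x B' e j y = 0 := by
        rw [hyd, map_sub, map_smul, map_smul]
        simp only [al2, be2, Sum.elim_inr, smul_eq_mul]
        ring
      have hc2 : kap x B' e j' y = 0 := by
        rw [hyd, map_sub, map_smul, map_smul]
        simp only [al2, be2, Sum.elim_inr, smul_eq_mul] at heq ⊢
        linear_combination -heq
      obtain ⟨s, hs⟩ := (kap_eq_zero_iff2 hS B' hB' e heB' j j' y).1 ⟨hc1, hc2⟩
      have h3 : y - s • e ∈ spx x B' {j, j'} ⊓ U :=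
        Submodule.mem_inf.2 ⟨hs, U.sub_mem y2 (U.smul_mem s hE.eU)⟩
      rw [h.u3 B' hB' j j' hjj] at h3
      have h4 : y = s • e := sub_eq_zero.1 ((Submodule.mem_bot ℝ).1 h3)
      by_cases hs0 : s = 0
      · rw [hs0, zero_smul] at h4
        exact y3 h4
      · rw [h4] at y1
        exact heB (((sp x B).smul_mem_iff hs0).1 y1)
  · intro B B' hB hB' hd j heq
    obtain ⟨y, hyd⟩ : ∃ y : E, y =
      be2 x U f1 f2 e B B' j • av x U f1 f2 B - al2 x U f1 f2 e B B' j • qv x U f1 f2 B := ⟨_, rfl⟩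
    obtain ⟨y1, y2, y3⟩ := hy B B' hB hB' j y hyd
    have heB := hE.enot B hB
    have heB' := hE.enot B' hB'
    have h0 : hgt x B' e y = 0 := by
      rw [hyd, map_sub, map_smul, map_smul]
      simp only [smul_eq_mul]
      linear_combination heq
    have hyB' := (hgt_eq_zero_iff hS B' hB' e heB' _).1 h0
    rcases j with i | j
    · have hc1 : kap x B e i y = 0 := by
        rw [hyd, map_sub, map_smul, map_smul]
        simp only [al2, be2, Sum.elim_inl, smul_eq_mul]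
        ring
      have h3 : y ∈ spx x B {i} ⊓ sp x B' ⊓ U :=
        Submodule.mem_inf.2 ⟨Submodule.mem_inf.2 ⟨P2g3_inl hS hB heB y1 hc1, hyB'⟩, y2⟩
      rw [h.u6 B B' hB hB' hd i] at h3
      exact y3 ((Submodule.mem_bot ℝ).1 h3)
    · have hc1 : kap x B' e j y = 0 := by
        rw [hyd, map_sub, map_smul, map_smul]
        simp only [al2, be2, Sum.elim_inr, smul_eq_mul]
        ring
      have h3 : y ∈ spx x B' {j} ⊓ sp x B ⊓ U :=
        Submodule.mem_inf.2 ⟨Submodule.mem_inf.2 ⟨P2g3_inl hS hB' heB' hyB' hc1, y1⟩, y2⟩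
      rw [h.u6 B' B hB' hB (hdisj B B' hd) j] at h3
      exact y3 ((Submodule.mem_bot ℝ).1 h3)

end KS37
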