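import Pool.Agent.LibKS37.Basic

/-!
# KS37: definitions for the sweeps (2D potential in a slice `U`, 3D potential, count inside `sp x B1`)
-/

open Finset Function
open scoped Classical

namespace KS37

section
variable {E V : Type} [AddCommGroup E] [Module ℝ E]

/-- the point with `f1 = 1`, `f2 = 0` in `sp x B ⊓ U`. -/
noncomputable def av {r : ℕ} (x : V → E) (U : Submodule ℝ E) (f1 f2 : Module.Dual ℝ E)
    (B : Fin r → V) : E := solv (sp x B ⊓ U) f1 f2 1 0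

/-- the point with `f1 = 0`, `f2 = 1` in `sp x B ⊓ U`. -/
noncomputable def qv {r : ℕ} (x : V → E) (U : Submodule ℝ E) (f1 f2 : Module.Dual ℝ E)
    (B : Fin r → V) : E := solv (sp x B ⊓ U) f1 f2 0 1

/-! ### P2: pairs of facets in a slice `U` of dimension 3 -/

/-- values at `av B` of the coordinates in `B` and in `B'`. -/
noncomputable def al2 {r : ℕ} (x : V → E) (U : Submodule ℝ E) (f1 f2 : Module.Dual ℝ E) (e : E)
    (B B' : Fin r → V) : Fin r ⊕ Fin r → ℝ :=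
  Sum.elim (fun i => kap x B e i (av x U f1 f2 B)) (fun j => kap x B' e j (av x U f1 f2 B))

/-- slopes: values at `qv B` of the coordinates in `B` and in `B'`. -/
noncomputable def be2 {r : ℕ} (x : V → E) (U : Submodule ℝ E) (f1 f2 : Module.Dual ℝ E) (e : E)
    (B B' : Fin r → V) : Fin r ⊕ Fin r → ℝ :=
  Sum.elim (fun i => kap x B e i (qv x U f1 f2 B)) (fun j => kap x B' e j (qv x U f1 f2 B))

/-- hypotheses on the slice `U` and the first functional. -/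
structure P2Hyp (r : ℕ) (x : V → E) (U : Submodule ℝ E) (f1 : Module.Dual ℝ E) : Prop where
  fin : Module.finrank ℝ U = 3
  u3 : ∀ B : Fin r → V, Injective B → ∀ i j, i ≠ j → spx x B {i, j} ⊓ U = ⊥
  u6 : ∀ B B' : Fin r → V, Injective B → Injective B' → Disj B B' → ∀ i,
    spx x B {i} ⊓ sp x B' ⊓ U = ⊥
  ridge : ∀ B : Fin r → V, Injective B → ∀ i, ∀ y ∈ spx x B {i} ⊓ U, f1 y = 0 → y = 0
  dbl : ∀ B B' : Fin r → V, Injective B → Injective B' → Disj B B' →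
    ∀ y ∈ sp x B ⊓ sp x B' ⊓ U, f1 y = 0 → y = 0

/-- `f2` and the vertical direction `e` are generic. -/
structure P2Good (r : ℕ) (x : V → E) (U : Submodule ℝ E) (f1 f2 : Module.Dual ℝ E) (e : E) :
    Prop where
  eU : e ∈ U
  iso : ∀ B : Fin r → V, Injective B → Iso2 (sp x B ⊓ U) f1 f2
  enot : ∀ B : Fin r → V, Injective B → e ∉ sp x B
  kapq : ∀ B B' : Fin r → V, Injective B → Injective B' → ∀ j,
    kap x B' e j (qv x U f1 f2 B) ≠ 0
  hq : ∀ B B' : Fin r → V, Injective B → Injective B' → Disj B B' →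
    hgt x B' e (qv x U f1 f2 B) ≠ 0
  nd : ∀ B B' : Fin r → V, Injective B → Injective B' → Disj B B' →
    Nondeg (al2 x U f1 f2 e B B') (be2 x U f1 f2 e B B')
  hs : ∀ B B' : Fin r → V, Injective B → Injective B' → Disj B B' → ∀ j,
    hgt x B' e (av x U f1 f2 B) * be2 x U f1 f2 e B B' j ≠
      hgt x B' e (qv x U f1 f2 B) * al2 x U f1 f2 e B B' j

/-- contribution of the event `j` of the object `(B, B')`. -/
noncomputable def W2 {r : ℕ} (x : V → E) (T : (Fin r → V) → Prop) (U : Submodule ℝ E)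
    (f1 f2 : Module.Dual ℝ E) (e : E) (B B' : Fin r → V) (j : Fin r ⊕ Fin r) : ℝ :=
  ind (T B ∧ T B' ∧ Disj B B') * (ind (Ev (al2 x U f1 f2 e B B') (be2 x U f1 f2 e B B') j) *
    (sg (be2 x U f1 f2 e B B' j) * eps (al2 x U f1 f2 e B B') (be2 x U f1 f2 e B B')
      (hgt x B' e (av x U f1 f2 B)) (hgt x B' e (qv x U f1 f2 B)) j))

/-- objects present at `t = +∞`. -/
noncomputable def NP2 {r : ℕ} [Fintype V] (x : V → E) (T : (Fin r → V) → Prop)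
    (U : Submodule ℝ E) (f1 f2 : Module.Dual ℝ E) (e : E) : ℝ :=
  ∑ B : Fin r → V, ∑ B' : Fin r → V,
    ind (T B ∧ T B' ∧ Disj B B' ∧ ∀ j, 0 < be2 x U f1 f2 e B B' j)

/-! ### P3: triples of facets in a rank 3 system -/

/-- values at the point of `sp x B ⊓ sp x B'` with `f1 = 1`, `f2 = 0`. -/
noncomputable def al3 (x : V → E) (f1 f2 : Module.Dual ℝ E) (e : E)
    (B B' B'' : Fin 3 → V) : Fin 3 ⊕ (Fin 3 ⊕ Fin 3) → ℝ :=
  Sum.elim (fun i => kap x B e i (av x (sp x B') f1 f2 B))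
    (Sum.elim (fun i => kap x B' e i (av x (sp x B') f1 f2 B))
      (fun i => kap x B'' e i (av x (sp x B') f1 f2 B)))

/-- slopes. -/
noncomputable def be3 (x : V → E) (f1 f2 : Module.Dual ℝ E) (e : E)
    (B B' B'' : Fin 3 → V) : Fin 3 ⊕ (Fin 3 ⊕ Fin 3) → ℝ :=
  Sum.elim (fun i => kap x B e i (qv x (sp x B') f1 f2 B))
    (Sum.elim (fun i => kap x B' e i (qv x (sp x B') f1 f2 B))
      (fun i => kap x B'' e i (qv x (sp x B') f1 f2 B)))

structure P3Good (x : V → E) (f1 f2 : Module.Dual ℝ E) (e : E) : Prop where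
  hyp : P2Hyp 3 x (LinearMap.ker f1) f2
  iso : ∀ B B' : Fin 3 → V, Injective B → Injective B' → Disj B B' →
    Iso2 (sp x B ⊓ sp x B') f1 f2
  enot : ∀ B : Fin 3 → V, Injective B → e ∉ sp x B
  ridge : ∀ B B' : Fin 3 → V, Injective B → Injective B' → Disj B B' →
    ∀ i, ∀ y ∈ spx x B {i} ⊓ sp x B', f1 y = 0 → y = 0
  kapq : ∀ B B' : Fin 3 → V, Injective B → Injective B' → Disj B B' →
    ∀ B'' : Fin 3 → V, Injective B'' → ∀ j, kap x B'' e j (qv x (sp x B') f1 f2 B) ≠ 0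
  hq : ∀ B B' B'' : Fin 3 → V, Injective B → Injective B' → Injective B'' → Disj B B' →
    Disj B B'' → Disj B' B'' → hgt x B'' e (qv x (sp x B') f1 f2 B) ≠ 0
  nd : ∀ B B' B'' : Fin 3 → V, Injective B → Injective B' → Injective B'' → Disj B B' →
    Disj B B'' → Disj B' B'' → Nondeg (al3 x f1 f2 e B B' B'') (be3 x f1 f2 e B B' B'')
  hs : ∀ B B' B'' : Fin 3 → V, Injective B → Injective B' → Injective B'' → Disj B B' →
    Disj B B'' → Disj B' B'' → ∀ j,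
    hgt x B'' e (av x (sp x B') f1 f2 B) * be3 x f1 f2 e B B' B'' j ≠
      hgt x B'' e (qv x (sp x B') f1 f2 B) * al3 x f1 f2 e B B' B'' j

/-- the live objects. -/
def Live3 (T : (Fin 3 → V) → Prop) (B B' B'' : Fin 3 → V) : Prop :=
  T B ∧ T B' ∧ T B'' ∧ Disj B B' ∧ Disj B B'' ∧ Disj B' B''

/-- contribution of the event `j` of the object `(B, B', B'')`. -/
noncomputable def W3 (x : V → E) (T : (Fin 3 → V) → Prop)
    (f1 f2 : Module.Dual ℝ E) (e : E) (B B' B'' : Fin 3 → V) (j : Fin 3 ⊕ (Fin 3 ⊕ Fin 3)) : ℝ :=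
  ind (Live3 T B B' B'') *
    (ind (Ev (al3 x f1 f2 e B B' B'') (be3 x f1 f2 e B B' B'') j) *
    (sg (be3 x f1 f2 e B B' B'' j) * eps (al3 x f1 f2 e B B' B'') (be3 x f1 f2 e B B' B'')
      (hgt x B'' e (av x (sp x B') f1 f2 B)) (hgt x B'' e (qv x (sp x B') f1 f2 B)) j))

/-- objects present at `t = +∞`. -/
noncomputable def NP3 [Fintype V] (x : V → E) (T : (Fin 3 → V) → Prop)
    (f1 f2 : Module.Dual ℝ E) (e : E) : ℝ :=
  ∑ B : Fin 3 → V, ∑ B' : Fin 3 → V, ∑ B'' : Fin 3 → V,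
    ind (Live3 T B B' B'' ∧ ∀ j, 0 < be3 x f1 f2 e B B' B'' j)

/-! ### P4: pairs of facets `F2 = a B2`, `F3 = a B3` of a rank 4 system inside `sp x B1` -/

/-- the facet `a B`. -/
def cc (a : V) (B : Fin 3 → V) : Fin 4 → V := Fin.cons a B

noncomputable def al4 (x : V → E) (B1 : Fin 3 → V) (b1 : Fin 3 → Module.Dual ℝ E)
    (f1 f2 : Module.Dual ℝ E) (e : E) (F2 F3 : Fin 4 → V) : Fin 3 ⊕ (Fin 4 ⊕ Fin 4) → ℝ :=
  Sum.elim (fun k => b1 k (av x (sp x B1) f1 f2 F2))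
    (Sum.elim (fun i => kap x F2 e i (av x (sp x B1) f1 f2 F2))
      (fun i => kap x F3 e i (av x (sp x B1) f1 f2 F2)))

noncomputable def be4 (x : V → E) (B1 : Fin 3 → V) (b1 : Fin 3 → Module.Dual ℝ E)
    (f1 f2 : Module.Dual ℝ E) (e : E) (F2 F3 : Fin 4 → V) : Fin 3 ⊕ (Fin 4 ⊕ Fin 4) → ℝ :=
  Sum.elim (fun k => b1 k (qv x (sp x B1) f1 f2 F2))
    (Sum.elim (fun i => kap x F2 e i (qv x (sp x B1) f1 f2 F2))
      (fun i => kap x F3 e i (qv x (sp x B1) f1 f2 F2)))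

/-- all ten vertices are distinct (`B1` injective is assumed separately). -/
def Dist4 (B1 : Fin 3 → V) (a : V) (B2 B3 : Fin 3 → V) : Prop :=
  Injective B2 ∧ Injective B3 ∧ Disj B1 B2 ∧ Disj B1 B3 ∧ Disj B2 B3 ∧
    (∀ i, B1 i ≠ a) ∧ (∀ i, B2 i ≠ a) ∧ (∀ i, B3 i ≠ a)

structure P4Good (x : V → E) (B1 : Fin 3 → V) (b1 : Fin 3 → Module.Dual ℝ E)
    (f1 f2 : Module.Dual ℝ E) (e : E) : Prop where
  eU : e ∈ sp x B1
  dual : ∀ k l, b1 k (x (B1 l)) = if k = l then 1 else 0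
  pos : ∀ k, 0 < f1 (x (B1 k))
  ridge : ∀ F : Fin 4 → V, Injective F → Disj F B1 → ∀ i, ∀ y ∈ spx x F {i} ⊓ sp x B1,
    f1 y = 0 → y = 0
  iso : ∀ F : Fin 4 → V, Injective F → Disj F B1 → Iso2 (sp x F ⊓ sp x B1) f1 f2
  enot : ∀ F : Fin 4 → V, Injective F → Disj F B1 → e ∉ sp x F
  kap1 : ∀ F : Fin 4 → V, Injective F → Disj F B1 → ∀ k, b1 k (qv x (sp x B1) f1 f2 F) ≠ 0
  kapq : ∀ F F' : Fin 4 → V, Injective F → Injective F' → Disj F B1 → Disj F' B1 → ∀ j,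
    kap x F' e j (qv x (sp x B1) f1 f2 F) ≠ 0
  hq : ∀ (a : V) (B2 B3 : Fin 3 → V), Dist4 B1 a B2 B3 →
    hgt x (cc a B3) e (qv x (sp x B1) f1 f2 (cc a B2)) ≠ 0
  nd : ∀ (a : V) (B2 B3 : Fin 3 → V), Dist4 B1 a B2 B3 →
    Nondeg (al4 x B1 b1 f1 f2 e (cc a B2) (cc a B3)) (be4 x B1 b1 f1 f2 e (cc a B2) (cc a B3))

/-- the live objects. -/
def Live4 (T : (Fin 4 → V) → Prop) (B1 : Fin 3 → V) (a : V) (B2 B3 : Fin 3 → V) : Prop :=
  T (cc a B2) ∧ T (cc a B3) ∧ Dist4 B1 a B2 B3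

/-- contribution of the event `j` of the object `(a, B2, B3)`. -/
noncomputable def W4 (x : V → E) (T : (Fin 4 → V) → Prop) (B1 : Fin 3 → V)
    (b1 : Fin 3 → Module.Dual ℝ E) (f1 f2 : Module.Dual ℝ E) (e : E)
    (a : V) (B2 B3 : Fin 3 → V) (j : Fin 3 ⊕ (Fin 4 ⊕ Fin 4)) : ℝ :=
  ind (Live4 T B1 a B2 B3) *
    (ind (Ev (al4 x B1 b1 f1 f2 e (cc a B2) (cc a B3)) (be4 x B1 b1 f1 f2 e (cc a B2) (cc a B3)) j) *
    (sg (be4 x B1 b1 f1 f2 e (cc a B2) (cc a B3) j) *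
      eps (al4 x B1 b1 f1 f2 e (cc a B2) (cc a B3)) (be4 x B1 b1 f1 f2 e (cc a B2) (cc a B3))
      (hgt x (cc a B3) e (av x (sp x B1) f1 f2 (cc a B2)))
      (hgt x (cc a B3) e (qv x (sp x B1) f1 f2 (cc a B2))) j))

/-- number of objects with the event `j`. -/
noncomputable def EV4 [Fintype V] (x : V → E) (T : (Fin 4 → V) → Prop) (B1 : Fin 3 → V)
    (b1 : Fin 3 → Module.Dual ℝ E) (f1 f2 : Module.Dual ℝ E) (e : E)
    (j : Fin 3 ⊕ (Fin 4 ⊕ Fin 4)) : ℝ :=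
  ∑ a : V, ∑ B2 : Fin 3 → V, ∑ B3 : Fin 3 → V,
    ind (Live4 T B1 a B2 B3 ∧
      Ev (al4 x B1 b1 f1 f2 e (cc a B2) (cc a B3)) (be4 x B1 b1 f1 f2 e (cc a B2) (cc a B3)) j)

/-- the number of `(a, B2, B3)` such that `B1`, `a B2`, `a B3` have a common ray. -/
noncomputable def OB4 [Fintype V] (x : V → E) (T : (Fin 4 → V) → Prop) (B1 : Fin 3 → V) : ℝ :=
  ∑ a : V, ∑ B2 : Fin 3 → V, ∑ B3 : Fin 3 → V,
    ind (Live4 T B1 a B2 B3 ∧ ∃ y, Cone x B1 y ∧ Cone x (cc a B2) y ∧ Cone x (cc a B3) y)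

end

end KS37
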