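import Pool.Agent.LibKS37.G2
import Pool.Agent.LibKS37.Sweep

/-!
# KS37 row P2ga: groups on the side of B
Exchange the sums: for fixed B' bound |Σ_B W2 B B' (inl i)| by (2+r) n^(r-1) with `group_sum` (K = 2+r), i.e. for every w:
|Σ_u W2 (update w i u) B' (inl i)| ≤ 2+r. If ¬T B', or the entries w l (l≠i) are not disjoint from B', all terms are 0. Otherwise
ind(T B_u ∧ T B' ∧ Disj B_u B') = ind(T B_u ∧ u ∉ X), X = image of B' (card ≤ r). Ev al2 be2 (inl i) is: EvB x B_u e i (av) (qv) and
for all j: 0 < kap x B' e j (av + tz • qv) =: side (linearity); eps with σ0 + σ1 t, h = hgt x B' e. Apply `ga` with U, f1, f2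
(h1: hH.ridge for the injective tuple B_u (if there is any u with T B_u; otherwise the sum is 0; spx x w {i} = spx x B_u {i}); h2: hG.enot, hG.iso, hG.kapq B_u B_u).
Sum over B': n^r.
-/

open Finset Function
open scoped Classical

namespace KS37

theorem P2ga_X {r : ℕ} {V : Type} [Fintype V] (B : Fin r → V) :
    ((Finset.univ.image B).card : ℝ) ≤ r := by
  have h := Finset.card_image_le (s := (Finset.univ : Finset (Fin r))) (f := B)
  rw [Finset.card_univ, Fintype.card_fin] at h
  exact_mod_cast h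

theorem P2ga_spx {E V : Type} [AddCommGroup E] [Module ℝ E] {r : ℕ} (x : V → E)
    (w : Fin r → V) (i : Fin r) (u : V) : spx x (update w i u) {i} = spx x w {i} := by
  unfold spx
  congr 1
  apply Set.image_congr
  intro l hl
  have : l ≠ i := fun h => hl (by rw [h]; exact Set.mem_singleton i)
  rw [update_of_ne this]

/-- one group -/
theorem P2ga_group {E V : Type} [AddCommGroup E] [Module ℝ E] [Fintype V] {r : ℕ} {x : V → E}
    {T : (Fin r → V) → Prop} (hS : Sys r x T) {U : Submodule ℝ E}
    {f1 f2 : Module.Dual ℝ E} {e : E} (hH : P2Hyp r x U f1) (hG : P2Good r x U f1 f2 e)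
    (i : Fin r) (B' w : Fin r → V) :
    |∑ u, W2 x T U f1 f2 e (update w i u) B' (Sum.inl i)| ≤ 2 + r := by
  have hr0 : (0 : ℝ) ≤ r := Nat.cast_nonneg r
  by_cases hT' : T B'
  swap
  · rw [Finset.sum_eq_zero, abs_zero]
    · linarith
    · intro u _
      unfold W2
      rw [ind_false (fun h => hT' h.2.1), zero_mul]
  by_cases hm : ∃ l, l ≠ i ∧ ∃ j, w l = B' j
  · obtain ⟨l, hl, j, hj⟩ := hm
    rw [Finset.sum_eq_zero, abs_zero]
    · linarith
    · intro u _
      unfold W2
      rw [ind_false (fun h => h.2.2 l j (by rw [update_of_ne hl]; exact hj)), zero_mul]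
  push Not at hm
  by_cases hex : ∃ u, T (update w i u)
  swap
  · rw [Finset.sum_eq_zero, abs_zero]
    · linarith
    · intro u _
      unfold W2
      rw [ind_false (fun h => hex ⟨u, h.1⟩), zero_mul]
  obtain ⟨u0, hu0⟩ := hex
  have hdisj : ∀ u, Disj (update w i u) B' ↔ u ∉ Finset.univ.image B' := by
    intro u
    constructor
    · intro h hu
      obtain ⟨j, _, hj⟩ := Finset.mem_image.1 hu
      exact h i j (by rw [update_self]; exact hj.symm)
    · intro hu l j
      by_cases hl : l = i
      · subst hl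
        rw [update_self]
        intro h
        exact hu (Finset.mem_image.2 ⟨j, Finset.mem_univ j, h.symm⟩)
      · rw [update_of_ne hl]
        exact hm l hl j
  have hga := ga hS U f1 f2 (hgt x B' e) e w i (Finset.univ.image B')
    (fun y => ∀ j, 0 < kap x B' e j y)
    (by
      rw [← P2ga_spx x w i u0]
      exact hH.ridge (update w i u0) (hS.inj _ hu0) i)
    (fun u hT _ => ⟨hG.enot _ (hS.inj _ hT), hG.iso _ (hS.inj _ hT),
      hG.kapq _ _ (hS.inj _ hT) (hS.inj _ hT) i⟩)
  have hX := P2ga_X B'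
  refine le_trans (le_of_eq ?_) (hga.trans (by linarith))
  congr 1
  refine Finset.sum_congr rfl fun u _ => ?_
  have hiff : (T (update w i u) ∧ T B' ∧ Disj (update w i u) B') ∧
      Ev (al2 x U f1 f2 e (update w i u) B') (be2 x U f1 f2 e (update w i u) B') (Sum.inl i) ↔
      (T (update w i u) ∧ u ∉ Finset.univ.image B' ∧
        EvB x (update w i u) e i (solv (sp x (update w i u) ⊓ U) f1 f2 1 0)
          (solv (sp x (update w i u) ⊓ U) f1 f2 0 1) ∧
        (fun y => ∀ j, 0 < kap x B' e j y) (solv (sp x (update w i u) ⊓ U) f1 f2 1 0 +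
          tz x (update w i u) e i (solv (sp x (update w i u) ⊓ U) f1 f2 1 0)
            (solv (sp x (update w i u) ⊓ U) f1 f2 0 1) •
            solv (sp x (update w i u) ⊓ U) f1 f2 0 1)) := by
    rw [hdisj u]
    constructor
    · rintro ⟨⟨h1, _, h3⟩, h4⟩
      refine ⟨h1, h3, ?_, ?_⟩
      · intro l hl
        exact h4 (Sum.inl l) (fun h => hl (Sum.inl_injective h))
      · intro j
        have := h4 (Sum.inr j) (by simp)
        rw [map_add, map_smul, smul_eq_mul, mul_comm (tz _ _ _ _ _ _)]
        exact this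
    · rintro ⟨h1, h3, h4, h5⟩
      refine ⟨⟨h1, hT', h3⟩, ?_⟩
      rintro (l | j) hl
      · exact h4 l (fun h => hl (by rw [h]))
      · have := h5 j
        rw [map_add, map_smul, smul_eq_mul, mul_comm (tz _ _ _ _ _ _)] at this
        exact this
  unfold W2
  rw [← mul_assoc, ← ind_and, ind_congr hiff]
  rfl

theorem p2_ga {E V : Type} [AddCommGroup E] [Module ℝ E] [Fintype V] {r : ℕ} {x : V → E}
    {T : (Fin r → V) → Prop} (hS : Sys r x T) {U : Submodule ℝ E}
    {f1 f2 : Module.Dual ℝ E} {e : E} (hH : P2Hyp r x U f1) (hG : P2Good r x U f1 f2 e)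
    (i : Fin r) :
    |∑ B : Fin r → V, ∑ B' : Fin r → V, W2 x T U f1 f2 e B B' (Sum.inl i)| ≤
      (2 + r) * nn V ^ (r - 1) * nn V ^ r := by
  rw [Finset.sum_comm]
  refine (Finset.abs_sum_le_sum_abs _ _).trans ?_
  have h1 : ∀ B' ∈ (Finset.univ : Finset (Fin r → V)),
      |∑ B : Fin r → V, W2 x T U f1 f2 e B B' (Sum.inl i)| ≤ (2 + r) * nn V ^ (r - 1) := by
    intro B' _
    exact group_sum (fun B => W2 x T U f1 f2 e B B' (Sum.inl i)) i (2 + r) (by positivity)
      (fun w => P2ga_group hS hH hG i B' w)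
  refine (Finset.sum_le_sum h1).trans ?_
  rw [sum_const_fun, mul_comm]

end KS37
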