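import Pool.Agent.LibKS37.G1
import Pool.Agent.LibKS37.Sweep

/-!
# KS37 row P2gv: groups on the side of B'
For fixed B: |Σ_u W2 B (update w j u) (inr j)| ≤ 2+r: `gv2` with p0 = av B, q = qv B, X = image of B,
side t := ∀ i, 0 < kap x B e i (av B) + kap x B e i (qv B) * t. (As P2ga; if ¬ T B or w l meets B for some l≠j all terms vanish; h: hG.enot, hG.kapq.)
Then `group_sum` and the sum over B.
-/

open Finset Function
open scoped Classical

namespace KS37

theorem P2gv_X {r : ℕ} {V : Type} [Fintype V] (B : Fin r → V) :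
    ((Finset.univ.image B).card : ℝ) ≤ r := by
  have h := Finset.card_image_le (s := (Finset.univ : Finset (Fin r))) (f := B)
  rw [Finset.card_univ, Fintype.card_fin] at h
  exact_mod_cast h

/-- one group -/
theorem P2gv_group {E V : Type} [AddCommGroup E] [Module ℝ E] [Fintype V] {r : ℕ} {x : V → E}
    {T : (Fin r → V) → Prop} (hS : Sys r x T) {U : Submodule ℝ E}
    {f1 f2 : Module.Dual ℝ E} {e : E} (hG : P2Good r x U f1 f2 e)
    (j : Fin r) (B w : Fin r → V) :
    |∑ u, W2 x T U f1 f2 e B (update w j u) (Sum.inr j)| ≤ 2 + r := by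
  have hr0 : (0 : ℝ) ≤ r := Nat.cast_nonneg r
  by_cases hT : T B
  swap
  · rw [Finset.sum_eq_zero, abs_zero]
    · linarith
    · intro u _
      unfold W2
      rw [ind_false (fun h => hT h.1), zero_mul]
  by_cases hm : ∃ l, l ≠ j ∧ ∃ i, B i = w l
  · obtain ⟨l, hl, i, hi⟩ := hm
    rw [Finset.sum_eq_zero, abs_zero]
    · linarith
    · intro u _
      unfold W2
      rw [ind_false (fun h => h.2.2 i l (by rw [update_of_ne hl]; exact hi)), zero_mul]
  push Not at hm
  have hdisj : ∀ u, Disj B (update w j u) ↔ u ∉ Finset.univ.image B := by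
    intro u
    constructor
    · intro h hu
      obtain ⟨i, _, hi⟩ := Finset.mem_image.1 hu
      exact h i j (by rw [update_self]; exact hi)
    · intro hu i l
      by_cases hl : l = j
      · subst hl
        rw [update_self]
        intro h
        exact hu (Finset.mem_image.2 ⟨i, Finset.mem_univ i, h⟩)
      · rw [update_of_ne hl]
        exact hm l hl i
  have hgv := gv2 hS w j (av x U f1 f2 B) (qv x U f1 f2 B) e (Finset.univ.image B)
    (fun t => ∀ i, 0 < kap x B e i (av x U f1 f2 B) + kap x B e i (qv x U f1 f2 B) * t)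
    (fun u hTu _ => ⟨hG.enot _ (hS.inj _ hTu), hG.kapq B _ (hS.inj _ hT) (hS.inj _ hTu) j⟩)
  have hX := P2gv_X B
  refine le_trans (le_of_eq ?_) (hgv.trans (by linarith))
  congr 1
  refine Finset.sum_congr rfl fun u _ => ?_
  have hiff : (T B ∧ T (update w j u) ∧ Disj B (update w j u)) ∧
      Ev (al2 x U f1 f2 e B (update w j u)) (be2 x U f1 f2 e B (update w j u)) (Sum.inr j) ↔
      (T (update w j u) ∧ u ∉ Finset.univ.image B ∧
        EvB x (update w j u) e j (av x U f1 f2 B) (qv x U f1 f2 B) ∧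
        (fun t => ∀ i, 0 < kap x B e i (av x U f1 f2 B) + kap x B e i (qv x U f1 f2 B) * t)
          (tz x (update w j u) e j (av x U f1 f2 B) (qv x U f1 f2 B))) := by
    rw [hdisj u]
    constructor
    · rintro ⟨⟨_, h2, h3⟩, h4⟩
      refine ⟨h2, h3, ?_, ?_⟩
      · intro l hl
        exact h4 (Sum.inr l) (fun h => hl (Sum.inr_injective h))
      · intro i
        exact h4 (Sum.inl i) (by simp)
    · rintro ⟨h1, h3, h4, h5⟩
      refine ⟨⟨hT, h1, h3⟩, ?_⟩
      rintro (i | l) hl
      · exact h5 i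
      · exact h4 l (fun h => hl (by rw [h]))
  unfold W2
  rw [← mul_assoc, ← ind_and, ind_congr hiff]
  rfl

theorem p2_gv {E V : Type} [AddCommGroup E] [Module ℝ E] [Fintype V] {r : ℕ} {x : V → E}
    {T : (Fin r → V) → Prop} (hS : Sys r x T) {U : Submodule ℝ E}
    {f1 f2 : Module.Dual ℝ E} {e : E} (hG : P2Good r x U f1 f2 e) (j : Fin r) :
    |∑ B : Fin r → V, ∑ B' : Fin r → V, W2 x T U f1 f2 e B B' (Sum.inr j)| ≤
      (2 + r) * nn V ^ (r - 1) * nn V ^ r := by
  refine (Finset.abs_sum_le_sum_abs _ _).trans ?_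
  have h1 : ∀ B ∈ (Finset.univ : Finset (Fin r → V)),
      |∑ B' : Fin r → V, W2 x T U f1 f2 e B B' (Sum.inr j)| ≤ (2 + r) * nn V ^ (r - 1) := by
    intro B _
    exact group_sum (fun B' => W2 x T U f1 f2 e B B' (Sum.inr j)) j (2 + r) (by positivity)
      (fun w => P2gv_group hS hG j B w)
  refine (Finset.sum_le_sum h1).trans ?_
  rw [sum_const_fun, mul_comm]

end KS37
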