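import Pool.Agent.LibKS37.A4
import Pool.Agent.LibKS37.Sweep

/-!
# KS37 row P2g1: dimensions in the slice
dim(sp x B ⊓ U) ≥ r + 3 - (r+1) = 2; dim(spx x B {i} ⊓ U) ≥ (r-1)+3-(r+1) = 1, and ≤ 1 because f1 is injective on it (h.ridge).
If U ≤ sp x B (dim of the intersection 3) then spx x B {i} ⊓ U has dimension ≥ (r-1)+3-r = 2, contradiction. (i exists: r ≥ 2.)
-/

open Finset Function
open scoped Classical

namespace KS37

/-- lower bound for the dimension of an intersection -/
private theorem P2g1_inf {E : Type} [AddCommGroup E] [Module ℝ E] [Module.Finite ℝ E]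
    (A B C : Submodule ℝ E) (hA : A ≤ C) (hB : B ≤ C) :
    Module.finrank ℝ A + Module.finrank ℝ B ≤
      Module.finrank ℝ (A ⊓ B : Submodule ℝ E) + Module.finrank ℝ C := by
  have h1 := Submodule.finrank_sup_add_finrank_inf_eq A B
  have h2 : Module.finrank ℝ (A ⊔ B : Submodule ℝ E) ≤ Module.finrank ℝ C :=
    Submodule.finrank_mono (sup_le hA hB)
  omega

theorem p2_geo {E V : Type} [AddCommGroup E] [Module ℝ E] [Fintype V] {r : ℕ} {x : V → E}
    {T : (Fin r → V) → Prop} (hS : Sys r x T) (hr : 2 ≤ r) {U : Submodule ℝ E}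
    {f1 : Module.Dual ℝ E} (h : P2Hyp r x U f1) :
    (∀ B : Fin r → V, Injective B → Module.finrank ℝ (sp x B ⊓ U : Submodule ℝ E) = 2) ∧
    (∀ B : Fin r → V, Injective B → ∀ i,
      Module.finrank ℝ (spx x B {i} ⊓ U : Submodule ℝ E) = 1) := by
  have hfin : Module.Finite ℝ E := finiteDimensional_of_sys hS
  have hrk := hS.rank
  have hU := h.fin
  -- upper bound for the ridges
  have hup : ∀ B : Fin r → V, Injective B → ∀ i,
      Module.finrank ℝ (spx x B {i} ⊓ U : Submodule ℝ E) ≤ 1 := by
    intro B hB i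
    have h1 : Injective (f1.domRestrict (spx x B {i} ⊓ U : Submodule ℝ E)) := by
      rw [← LinearMap.ker_eq_bot, LinearMap.ker_eq_bot']
      intro y hy
      exact Subtype.ext (h.ridge B hB i y y.2 hy)
    have h2 := LinearMap.finrank_le_finrank_of_injective h1
    rwa [Module.finrank_self] at h2
  have hspx : ∀ B : Fin r → V, Injective B → ∀ i,
      Module.finrank ℝ (spx x B {i} : Submodule ℝ E) + 1 = r := by
    obtain ⟨s, rfl⟩ : ∃ s, r = s + 1 := ⟨r - 1, by omega⟩
    intro B hB i
    rw [spx_single, finrank_sp hS (by omega) _ (fun a b hab => by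
      exact i.succAbove_right_injective (hB hab))]
  have hlow : ∀ B : Fin r → V, Injective B → ∀ i,
      1 ≤ Module.finrank ℝ (spx x B {i} ⊓ U : Submodule ℝ E) := by
    intro B hB i
    have h1 := P2g1_inf (spx x B {i}) U ⊤ le_top le_top
    have h2 := hspx B hB i
    rw [finrank_top] at h1
    omega
  refine ⟨fun B hB => ?_, fun B hB i => le_antisymm (hup B hB i) (hlow B hB i)⟩
  have h1 := P2g1_inf (sp x B) U ⊤ le_top le_top
  have h2 : Module.finrank ℝ (sp x B) = r := finrank_sp hS (by omega) B hB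
  rw [finrank_top] at h1
  have h3 : Module.finrank ℝ (sp x B ⊓ U : Submodule ℝ E) ≤ Module.finrank ℝ U :=
    Submodule.finrank_mono inf_le_right
  by_contra hne
  have h4 : Module.finrank ℝ (sp x B ⊓ U : Submodule ℝ E) = Module.finrank ℝ U := by omega
  have h5 : sp x B ⊓ U = U := Submodule.eq_of_le_of_finrank_eq inf_le_right h4
  have h6 : U ≤ sp x B := by
    rw [← h5]
    exact inf_le_left
  have i : Fin r := ⟨0, by omega⟩
  have h7 := P2g1_inf (spx x B {i}) U (sp x B) (spx_le_sp B {i}) h6
  have h8 := hspx B hB i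
  have h9 := hup B hB i
  omega

end KS37
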