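import Pool.Agent.LibKS37.C2
import Pool.Agent.LibKS37.P2g1

/-!
# KS37 row P2inf: the objects present at t = +∞
N = NN x T p e', K = 20 r n^(r-1). If no B has T B everything is 0. U ⊓ ker f1 has dimension 2 (f1 ≠ 0 on U: h.ridge); let e'' ≠ 0 in
U ⊓ ker f1 ⊓ ker f2, p' = qv B0. Then e'' ∉ sp x B (Iso2), q_B - p' ∈ U ⊓ ker f1 ⊓ ker f2 = ℝ e'' (this space has dimension ≤ 1: f2 q_B = 1 ≠ 0 on the
2-dimensional U ⊓ ker f1), so kap x B e'' i p' = kap x B e'' i q_B = kap x B e i q_B ≠ 0 (`kap_of_mem`, hG.kapq B B): TReg x T p' e'', hence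
Σ_B ind(T B ∧ ∀ i, 0 < kap x B e i q_B) = NN x T p' e'' ≥ N - K (`const`). For each B with T B: TReg x T q_B e (hG.enot, hG.kapq), so
NN x T q_B e ≥ N - K, and the B' which are not disjoint from B are at most r² n^(r-1) many. So NP2 ≥ (N-K)(N-K-r² n^(r-1)) if both
factors are ≥ 0; in all cases N² ≤ NP2 + (2K + r² n^(r-1)) N, N ≤ n^r.
-/

open Finset Function
open scoped Classical

namespace KS37

private theorem P2inf_one {V : Type} [Fintype V] {r : ℕ} (j : Fin r) (v : V) :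
    ∑ B : Fin r → V, ind (B j = v) ≤ nn V ^ (r - 1) := by
  have h := group_sum (fun B : Fin r → V => ind (B j = v)) j 1 zero_le_one (fun w => ?_)
  · rw [one_mul] at h
    exact (le_abs_self _).trans h
  · have h1 : ∀ u : V, ind (update w j u j = v) = if u = v then (1 : ℝ) else 0 := by
      intro u
      rw [update_self]
      rfl
    rw [Finset.sum_congr rfl (fun u _ => h1 u), Finset.sum_ite_eq']
    simp

private theorem P2inf_meet {V : Type} [Fintype V] {r : ℕ} (B B'' : Fin r → V) :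
    ind (¬ Disj B B'') ≤ ∑ i : Fin r, ∑ j : Fin r, ind (B'' j = B i) := by
  by_cases h : Disj B B''
  · rw [ind_false (fun hn => hn h)]
    exact Finset.sum_nonneg (fun i _ => Finset.sum_nonneg (fun j _ => ind_nonneg _))
  · rw [ind_true h]
    unfold Disj at h
    push Not at h
    obtain ⟨i, j, hij⟩ := h
    have h1 : ind (B'' j = B i) ≤ ∑ j : Fin r, ind (B'' j = B i) :=
      Finset.single_le_sum (f := fun j => ind (B'' j = B i)) (fun j _ => ind_nonneg _)
        (Finset.mem_univ j)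
    have h2 : ∑ j : Fin r, ind (B'' j = B i) ≤ ∑ i : Fin r, ∑ j : Fin r, ind (B'' j = B i) :=
      Finset.single_le_sum (f := fun i => ∑ j : Fin r, ind (B'' j = B i))
        (fun i _ => Finset.sum_nonneg (fun j _ => ind_nonneg _)) (Finset.mem_univ i)
    rw [ind_true hij.symm] at h1
    linarith

private theorem P2inf_meet_sum {V : Type} [Fintype V] {r : ℕ} (B : Fin r → V) :
    ∑ B'' : Fin r → V, ind (¬ Disj B B'') ≤ (r : ℝ) ^ 2 * nn V ^ (r - 1) := by
  have h1 : ∑ B'' : Fin r → V, ind (¬ Disj B B'') ≤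
      ∑ B'' : Fin r → V, ∑ i : Fin r, ∑ j : Fin r, ind (B'' j = B i) :=
    Finset.sum_le_sum (fun B'' _ => P2inf_meet B B'')
  refine h1.trans ?_
  rw [Finset.sum_comm]
  have h2 : ∀ i ∈ (Finset.univ : Finset (Fin r)),
      ∑ B'' : Fin r → V, ∑ j : Fin r, ind (B'' j = B i) ≤ (r : ℝ) * nn V ^ (r - 1) := by
    intro i _
    rw [Finset.sum_comm]
    have h3 : ∀ j ∈ (Finset.univ : Finset (Fin r)),
        ∑ B'' : Fin r → V, ind (B'' j = B i) ≤ nn V ^ (r - 1) := fun j _ => P2inf_one j (B i)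
    refine (Finset.sum_le_sum h3).trans ?_
    rw [Finset.sum_const, Finset.card_univ, Fintype.card_fin, nsmul_eq_mul]
  refine (Finset.sum_le_sum h2).trans ?_
  rw [Finset.sum_const, Finset.card_univ, Fintype.card_fin, nsmul_eq_mul]
  apply le_of_eq
  ring

/-- the line at infinity of the slice. -/
private theorem P2inf_line {E V : Type} [AddCommGroup E] [Module ℝ E] [Fintype V] {r : ℕ} {x : V → E}
    {T : (Fin r → V) → Prop} (hS : Sys r x T) {U : Submodule ℝ E}
    {f1 f2 : Module.Dual ℝ E} (hU : Module.finrank ℝ U = 3) (B0 : Fin r → V)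
    (hiso : Iso2 (sp x B0 ⊓ U) f1 f2) :
    ∃ e'' ∈ U, e'' ≠ 0 ∧ f1 e'' = 0 ∧ f2 e'' = 0 ∧
      ∀ z ∈ U, f1 z = 0 → f2 z = 0 → ∃ s : ℝ, z = s • e'' := by
  have hfd := finiteDimensional_of_sys hS
  let φ : U →ₗ[ℝ] ℝ × ℝ := (f1.prod f2).comp U.subtype
  have hφ : ∀ z : U, φ z = (f1 z, f2 z) := fun z => rfl
  have hsurj : LinearMap.range φ = ⊤ := by
    rw [LinearMap.range_eq_top]
    rintro ⟨s, t⟩
    obtain ⟨y, hy, h1, h2⟩ := hiso.2 s t
    exact ⟨⟨y, hy.2⟩, by rw [hφ]; exact Prod.ext h1 h2⟩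
  have hrk := LinearMap.finrank_range_add_finrank_ker φ
  rw [hsurj, finrank_top, hU, Module.finrank_prod, Module.finrank_self] at hrk
  have hk : Module.finrank ℝ (LinearMap.ker φ) = 1 := by omega
  obtain ⟨v, hv, hall⟩ := finrank_eq_one_iff'.1 hk
  have hvk := LinearMap.mem_ker.1 v.2
  rw [hφ] at hvk
  refine ⟨((v : U) : E), (v : U).2, ?_, (Prod.ext_iff.1 hvk).1, (Prod.ext_iff.1 hvk).2, ?_⟩
  · intro h0
    apply hv
    apply Subtype.ext
    apply Subtype.ext
    exact h0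
  · intro z hz h1 h2
    have hzk : (⟨z, hz⟩ : U) ∈ LinearMap.ker φ := by
      rw [LinearMap.mem_ker, hφ]
      exact Prod.ext h1 h2
    obtain ⟨c, hc⟩ := hall ⟨⟨z, hz⟩, hzk⟩
    refine ⟨c, ?_⟩
    have := congrArg (fun w : LinearMap.ker φ => ((w : U) : E)) hc
    exact this.symm

/-- the facets present at infinity. -/
private theorem P2inf_first {E V : Type} [AddCommGroup E] [Module ℝ E] [Fintype V] {r : ℕ} {x : V → E}
    {T : (Fin r → V) → Prop} (hS : Sys r x T) {U : Submodule ℝ E}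
    {f1 f2 : Module.Dual ℝ E} {e : E} (hH : P2Hyp r x U f1) (hG : P2Good r x U f1 f2 e)
    (p e' : E) (h : TReg x T p e') (B0 : Fin r → V) (h0 : T B0) :
    NN x T p e' - 20 * r * nn V ^ (r - 1) ≤
      ∑ B : Fin r → V, ind (T B ∧ ∀ i, 0 < kap x B e i (qv x U f1 f2 B)) := by
  obtain ⟨e'', heU, hne, h1, h2, hall⟩ := P2inf_line hS hH.fin B0 (hG.iso B0 (hS.inj B0 h0))
  have hnot : ∀ B, T B → e'' ∉ sp x B := by
    intro B hB hmem
    exact hne ((hG.iso B (hS.inj B hB)).1 e'' ⟨hmem, heU⟩ h1 h2)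
  have hq0 := solv_spec (hG.iso B0 (hS.inj B0 h0)) 0 1
  have hkap : ∀ B, T B → ∀ i, kap x B e'' i (qv x U f1 f2 B0) = kap x B e i (qv x U f1 f2 B) := by
    intro B hB i
    have hqB := solv_spec (hG.iso B (hS.inj B hB)) 0 1
    have hz : f1 (qv x U f1 f2 B0 - qv x U f1 f2 B) = 0 := by
      rw [map_sub]
      unfold qv
      rw [hq0.2.1, hqB.2.1, sub_zero]
    have hz2 : f2 (qv x U f1 f2 B0 - qv x U f1 f2 B) = 0 := by
      rw [map_sub]
      unfold qv
      rw [hq0.2.2, hqB.2.2, sub_self]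
    obtain ⟨s, hs⟩ := hall (qv x U f1 f2 B0 - qv x U f1 f2 B)
      (U.sub_mem hq0.1.2 hqB.1.2) hz hz2
    have hs' : qv x U f1 f2 B0 = qv x U f1 f2 B + s • e'' := by
      rw [← hs]
      abel
    rw [hs', map_add, map_smul, (kap_e hS B (hS.inj B hB) e'' (hnot B hB)).1 i, smul_zero, add_zero]
    exact (kap_of_mem hS B (hS.inj B hB) e e'' (hG.enot B (hS.inj B hB)) (hnot B hB) _
      hqB.1.1 i).symm
  have hreg : TReg x T (qv x U f1 f2 B0) e'' := by
    intro B hB
    refine ⟨hnot B hB, fun i => ?_⟩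
    rw [hkap B hB i]
    exact hG.kapq B B (hS.inj B hB) (hS.inj B hB) i
  have hc := (le_abs_self _).trans (const hS p e' _ e'' h hreg)
  have hle : NN x T (qv x U f1 f2 B0) e'' ≤
      ∑ B : Fin r → V, ind (T B ∧ ∀ i, 0 < kap x B e i (qv x U f1 f2 B)) := by
    unfold NN
    refine Finset.sum_le_sum (fun B _ => ind_mono ?_)
    rintro ⟨hB, hh⟩
    refine ⟨hB, fun i => ?_⟩
    rw [← hkap B hB i]
    exact hh i
  linarith

private theorem P2inf_second {E V : Type} [AddCommGroup E] [Module ℝ E] [Fintype V] {r : ℕ} {x : V → E}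
    {T : (Fin r → V) → Prop} (hS : Sys r x T) {U : Submodule ℝ E}
    {f1 f2 : Module.Dual ℝ E} {e : E} (hG : P2Good r x U f1 f2 e)
    (p e' : E) (h : TReg x T p e') (B : Fin r → V) :
    ind (T B ∧ ∀ i, 0 < kap x B e i (qv x U f1 f2 B)) *
      (NN x T p e' - 20 * r * nn V ^ (r - 1) - (r : ℝ) ^ 2 * nn V ^ (r - 1)) ≤
      ∑ B' : Fin r → V, ind (T B ∧ T B' ∧ Disj B B' ∧ ∀ j, 0 < be2 x U f1 f2 e B B' j) := by
  by_cases hB : T B ∧ ∀ i, 0 < kap x B e i (qv x U f1 f2 B)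
  · rw [ind_true hB, one_mul]
    obtain ⟨hTB, hpos⟩ := hB
    have hreg : TReg x T (qv x U f1 f2 B) e := fun B' hT' =>
      ⟨hG.enot B' (hS.inj B' hT'), fun i => hG.kapq B B' (hS.inj B hTB) (hS.inj B' hT') i⟩
    have hc := (le_abs_self _).trans (const hS p e' _ e h hreg)
    have hle : NN x T (qv x U f1 f2 B) e ≤ ∑ B' : Fin r → V,
        (ind (T B ∧ T B' ∧ Disj B B' ∧ ∀ j, 0 < be2 x U f1 f2 e B B' j) +
          ind (¬ Disj B B')) := by
      unfold NN
      refine Finset.sum_le_sum (fun B' _ => ?_)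
      by_cases h1 : Disj B B'
      · have h3 : ind (T B' ∧ Hit x B' e (qv x U f1 f2 B)) ≤
            ind (T B ∧ T B' ∧ Disj B B' ∧ ∀ j, 0 < be2 x U f1 f2 e B B' j) := by
          refine ind_mono ?_
          rintro ⟨hT', hh⟩
          refine ⟨hTB, hT', h1, ?_⟩
          rintro (i | i)
          · exact hpos i
          · exact hh i
        have h4 := ind_nonneg (¬ Disj B B')
        linarith
      · have h3 := ind_le_one (T B' ∧ Hit x B' e (qv x U f1 f2 B))
        have h4 := ind_nonneg (T B ∧ T B' ∧ Disj B B' ∧ ∀ j, 0 < be2 x U f1 f2 e B B' j)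
        rw [ind_true h1]
        linarith
    rw [Finset.sum_add_distrib] at hle
    have hm := P2inf_meet_sum B
    linarith
  · rw [ind_false hB, zero_mul]
    exact Finset.sum_nonneg (fun B' _ => ind_nonneg _)

theorem p2_inf {E V : Type} [AddCommGroup E] [Module ℝ E] [Fintype V] {r : ℕ} {x : V → E}
    {T : (Fin r → V) → Prop} (hS : Sys r x T) (hr : 2 ≤ r) {U : Submodule ℝ E}
    {f1 f2 : Module.Dual ℝ E} {e : E} (hH : P2Hyp r x U f1) (hG : P2Good r x U f1 f2 e)
    (p e' : E) (h : TReg x T p e') :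
    NN x T p e' ^ 2 ≤ NP2 x T U f1 f2 e + (40 * r + r ^ 2) * (nn V ^ (r - 1) * nn V ^ r) := by
  have hnn := nn_nonneg V
  have hNP : 0 ≤ NP2 x T U f1 f2 e :=
    Finset.sum_nonneg (fun B _ => Finset.sum_nonneg (fun B' _ => ind_nonneg _))
  have hN0 : 0 ≤ NN x T p e' := Finset.sum_nonneg (fun B _ => ind_nonneg _)
  have hNn : NN x T p e' ≤ nn V ^ r := by
    have := sum_ind_le (fun B : Fin r → V => T B ∧ Hit x B e' p)
    rw [card_fun_real] at this
    exact this
  have hr0 : (0 : ℝ) ≤ r := Nat.cast_nonneg r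
  have hP1 : 0 ≤ nn V ^ (r - 1) := pow_nonneg hnn _
  have hP2 : 0 ≤ nn V ^ r := pow_nonneg hnn _
  by_cases hex : ∃ B0, T B0
  · obtain ⟨B0, h0⟩ := hex
    have hfirst := P2inf_first hS hH hG p e' h B0 h0
    set K : ℝ := 20 * r * nn V ^ (r - 1) with hK
    set D : ℝ := (r : ℝ) ^ 2 * nn V ^ (r - 1) with hD
    have hK0 : 0 ≤ K := by positivity
    have hD0 : 0 ≤ D := by positivity
    have hfin : NN x T p e' ^ 2 ≤ NP2 x T U f1 f2 e + (2 * K + D) * NN x T p e' := by
      by_cases hc : 0 ≤ NN x T p e' - K - D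
      · have hsum : (∑ B : Fin r → V, ind (T B ∧ ∀ i, 0 < kap x B e i (qv x U f1 f2 B))) *
            (NN x T p e' - K - D) ≤ NP2 x T U f1 f2 e := by
          rw [Finset.sum_mul]
          exact Finset.sum_le_sum (fun B _ => P2inf_second hS hG p e' h B)
        have hmul := mul_le_mul_of_nonneg_right hfirst hc
        nlinarith [mul_nonneg hK0 hK0, mul_nonneg hK0 hD0]
      · push Not at hc
        nlinarith [mul_nonneg hN0 hK0, mul_nonneg hN0 hD0]
    have hlast : (2 * K + D) * NN x T p e' ≤ (2 * K + D) * nn V ^ r :=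
      mul_le_mul_of_nonneg_left hNn (by positivity)
    have heq : (2 * K + D) * nn V ^ r = (40 * r + r ^ 2) * (nn V ^ (r - 1) * nn V ^ r) := by
      rw [hK, hD]
      ring
    rw [← heq]
    linarith
  · have hz : NN x T p e' = 0 := by
      unfold NN
      refine Finset.sum_eq_zero (fun B _ => ind_false ?_)
      rintro ⟨hB, _⟩
      exact hex ⟨B, hB⟩
    rw [hz]
    have : (0 : ℝ) ≤ (40 * r + r ^ 2) * (nn V ^ (r - 1) * nn V ^ r) := by positivity
    nlinarith

end KS37
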