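import Pool.Agent.LibKS37.A1
import Pool.Agent.LibKS37.O1
import Pool.Agent.LibKS37.Sweep

/-!
# KS37 row P2sum: the object identity summed over all pairs
For T B, T B', Disj B B' (B, B' injective: hS.inj) apply `oi_eq` with α=al2, β=be2, σ0=hgt x B' e (av B), σ1=hgt x B' e (qv B)
(hβ: hG.kapq, hnd: hG.nd, hσ: hG.hq, hs: hG.hs). It gives ind(∀ 0<β) ≤ 2 ind(∃ t ...) + Σ_j ind(Ev)·(...). A t as in the first indicator gives
y = av B + t qv B ∈ sp x B ⊓ U: f1 y = 1 > 0, all kap x B e i y > 0 so Cone x B y; hgt x B' e y = 0 so y ∈ sp x B', Cone x B' y.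
Sum over B, B' (terms that are not live are 0), bound Σ_j by Σ_j |·|.
-/

open Finset Function
open scoped Classical

namespace KS37

/-- one pair of facets -/
theorem P2sum_pair {E V : Type} [AddCommGroup E] [Module ℝ E] [Fintype V] {r : ℕ} {x : V → E}
    {T : (Fin r → V) → Prop} (hS : Sys r x T) {U : Submodule ℝ E}
    {f1 f2 : Module.Dual ℝ E} {e : E} (hG : P2Good r x U f1 f2 e) (B B' : Fin r → V) :
    ind (T B ∧ T B' ∧ Disj B B' ∧ ∀ j, 0 < be2 x U f1 f2 e B B' j) ≤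
      2 * ind (T B ∧ T B' ∧ Disj B B' ∧ ∃ y ∈ U, Cone x B y ∧ Cone x B' y ∧ 0 < f1 y) +
        ∑ j : Fin r ⊕ Fin r, W2 x T U f1 f2 e B B' j := by
  by_cases hL : T B ∧ T B' ∧ Disj B B'
  · obtain ⟨hT, hT', hD⟩ := hL
    have hB := hS.inj _ hT
    have hB' := hS.inj _ hT'
    have hβ : ∀ j, be2 x U f1 f2 e B B' j ≠ 0 := by
      rintro (i | j)
      · exact hG.kapq B B hB hB i
      · exact hG.kapq B B' hB hB' j
    have hoi := oi_eq (al2 x U f1 f2 e B B') (be2 x U f1 f2 e B B')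
      (hgt x B' e (av x U f1 f2 B)) (hgt x B' e (qv x U f1 f2 B)) hβ (hG.nd B B' hB hB' hD)
      (hG.hq B B' hB hB' hD) (hG.hs B B' hB hB' hD)
    have e1 : ind (T B ∧ T B' ∧ Disj B B' ∧ ∀ j, 0 < be2 x U f1 f2 e B B' j) =
        ind (∀ j, 0 < be2 x U f1 f2 e B B' j) :=
      ind_congr ⟨fun h => h.2.2.2, fun h => ⟨hT, hT', hD, h⟩⟩
    have e2 : ∑ j : Fin r ⊕ Fin r, W2 x T U f1 f2 e B B' j =
        ∑ j, ind (Ev (al2 x U f1 f2 e B B') (be2 x U f1 f2 e B B') j) *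
          (sg (be2 x U f1 f2 e B B' j) * eps (al2 x U f1 f2 e B B') (be2 x U f1 f2 e B B')
            (hgt x B' e (av x U f1 f2 B)) (hgt x B' e (qv x U f1 f2 B)) j) := by
      refine Finset.sum_congr rfl fun j _ => ?_
      unfold W2
      rw [ind_true ⟨hT, hT', hD⟩, one_mul]
    have e3 : ind (∃ t : ℝ, (∀ j, 0 < al2 x U f1 f2 e B B' j + be2 x U f1 f2 e B B' j * t) ∧
          hgt x B' e (av x U f1 f2 B) + hgt x B' e (qv x U f1 f2 B) * t = 0) ≤
        ind (T B ∧ T B' ∧ Disj B B' ∧ ∃ y ∈ U, Cone x B y ∧ Cone x B' y ∧ 0 < f1 y) := by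
      apply ind_mono
      rintro ⟨t, ht, hs⟩
      obtain ⟨a1, a2, _⟩ := solv_spec (hG.iso B hB) 1 0
      obtain ⟨b1, b2, _⟩ := solv_spec (hG.iso B hB) 0 1
      have hy : av x U f1 f2 B + t • qv x U f1 f2 B ∈ sp x B ⊓ U :=
        Submodule.add_mem _ a1 (Submodule.smul_mem _ _ b1)
      refine ⟨hT, hT', hD, av x U f1 f2 B + t • qv x U f1 f2 B, hy.2, ?_, ?_, ?_⟩
      · rw [cone_iff_kap hS B hB e (hG.enot B hB)]
        refine ⟨hy.1, fun i => ?_⟩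
        have := ht (Sum.inl i)
        rw [map_add, map_smul, smul_eq_mul, mul_comm]
        exact this
      · rw [cone_iff_kap hS B' hB' e (hG.enot B' hB')]
        refine ⟨?_, fun i => ?_⟩
        · rw [← hgt_eq_zero_iff hS B' hB' e (hG.enot B' hB'), map_add, map_smul, smul_eq_mul, mul_comm]
          exact hs
        · have := ht (Sum.inr i)
          rw [map_add, map_smul, smul_eq_mul, mul_comm]
          exact this
      · have f1a : f1 (av x U f1 f2 B) = 1 := a2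
        have f1q : f1 (qv x U f1 f2 B) = 0 := b2
        rw [map_add, map_smul, f1a, f1q]
        simp
    rw [e1, e2]
    have h0 := ind_nonneg (∀ j, be2 x U f1 f2 e B B' j < 0)
    linarith
  · have h1 : ¬ (T B ∧ T B' ∧ Disj B B' ∧ ∀ j, 0 < be2 x U f1 f2 e B B' j) :=
      fun h => hL ⟨h.1, h.2.1, h.2.2.1⟩
    rw [ind_false h1]
    have h2 : ∑ j : Fin r ⊕ Fin r, W2 x T U f1 f2 e B B' j = 0 := by
      refine Finset.sum_eq_zero fun j _ => ?_
      unfold W2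
      rw [ind_false hL, zero_mul]
    rw [h2]
    have := ind_nonneg (T B ∧ T B' ∧ Disj B B' ∧ ∃ y ∈ U, Cone x B y ∧ Cone x B' y ∧ 0 < f1 y)
    linarith

theorem p2_sum {E V : Type} [AddCommGroup E] [Module ℝ E] [Fintype V] {r : ℕ} {x : V → E}
    {T : (Fin r → V) → Prop} (hS : Sys r x T) {U : Submodule ℝ E}
    {f1 f2 : Module.Dual ℝ E} {e : E} (hG : P2Good r x U f1 f2 e) :
    NP2 x T U f1 f2 e ≤ 2 * QS x T U f1 +
      ∑ j : Fin r ⊕ Fin r, |∑ B : Fin r → V, ∑ B' : Fin r → V, W2 x T U f1 f2 e B B' j| := by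
  have h1 : NP2 x T U f1 f2 e ≤ ∑ B : Fin r → V, ∑ B' : Fin r → V,
      (2 * ind (T B ∧ T B' ∧ Disj B B' ∧ ∃ y ∈ U, Cone x B y ∧ Cone x B' y ∧ 0 < f1 y) +
        ∑ j : Fin r ⊕ Fin r, W2 x T U f1 f2 e B B' j) :=
    Finset.sum_le_sum fun B _ => Finset.sum_le_sum fun B' _ => P2sum_pair hS hG B B'
  refine h1.trans ?_
  have h2 : ∑ B : Fin r → V, ∑ B' : Fin r → V,
      (2 * ind (T B ∧ T B' ∧ Disj B B' ∧ ∃ y ∈ U, Cone x B y ∧ Cone x B' y ∧ 0 < f1 y) +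
        ∑ j : Fin r ⊕ Fin r, W2 x T U f1 f2 e B B' j) = 2 * QS x T U f1 +
      ∑ j : Fin r ⊕ Fin r, ∑ B : Fin r → V, ∑ B' : Fin r → V, W2 x T U f1 f2 e B B' j := by
    have h3 : ∀ B : Fin r → V, ∑ B' : Fin r → V,
      (2 * ind (T B ∧ T B' ∧ Disj B B' ∧ ∃ y ∈ U, Cone x B y ∧ Cone x B' y ∧ 0 < f1 y) +
        ∑ j : Fin r ⊕ Fin r, W2 x T U f1 f2 e B B' j) =
        2 * (∑ B' : Fin r → V, ind (T B ∧ T B' ∧ Disj B B' ∧ ∃ y ∈ U, Cone x B y ∧ Cone x B' y ∧ 0 < f1 y)) +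
        ∑ j : Fin r ⊕ Fin r, ∑ B' : Fin r → V, W2 x T U f1 f2 e B B' j := by
      intro B
      rw [Finset.sum_add_distrib, ← Finset.mul_sum]
      congr 1
      exact Finset.sum_comm
    rw [Finset.sum_congr rfl fun B _ => h3 B, Finset.sum_add_distrib, ← Finset.mul_sum]
    congr 1
    exact Finset.sum_comm
  rw [h2]
  gcongr
  exact le_abs_self _

end KS37
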