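import Pool.Agent.LibKS37.P2g2
import Pool.Agent.LibKS37.P2g3
import Pool.Agent.LibKS37.P2sum
import Pool.Agent.LibKS37.P2ga
import Pool.Agent.LibKS37.P2gv
import Pool.Agent.LibKS37.P2inf

/-!
# KS37 row P2: 2D potential (assembly)
p2_exists, p2_good, then p2_inf + p2_sum + p2_ga (r times) + p2_gv (r times): 2 r (2+r) + 40 r + r² = 44 r + 3 r².
`p2_top`: r = 2, U = ⊤: choose f1 with f1 (x v) ≠ 0 for all v (x v ≠ 0: hS.gp 1; Gen.dual_ne) and f1 ≠ 0 on the lines sp x B ⊓ sp x B' (dimension 1 for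
disjoint injective B, B', `finrank_sp_inf`): P2Hyp 2 x ⊤ f1: u3: spx x B {0,1} = span ∅; u6: spx x B {i} = span of one vertex, not in sp x B'
(`sp_inf_eq_bot`); ridge: span{x v}. QS x T ⊤ f1 ≤ QQ x T. 44·2+3·4 = 100.
-/

open Finset Function
open scoped Classical

namespace KS37

theorem p2_main {E V : Type} [AddCommGroup E] [Module ℝ E] [Fintype V] {r : ℕ} {x : V → E}
    {T : (Fin r → V) → Prop} (hS : Sys r x T) (hr : 2 ≤ r) {U : Submodule ℝ E}
    {f1 : Module.Dual ℝ E} (hH : P2Hyp r x U f1) (p e : E) (h : TReg x T p e) :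
    NN x T p e ^ 2 ≤ 2 * QS x T U f1 + (44 * r + 3 * r ^ 2) * (nn V ^ (r - 1) * nn V ^ r) := by
  obtain ⟨f2, e0, hE⟩ := p2_exists hS hr hH
  have hG := p2_good hS hr hH hE
  have h1 := p2_inf hS hr hH hG p e h
  have h2 := p2_sum hS hG
  have h3 : ∑ j : Fin r ⊕ Fin r,
      |∑ B : Fin r → V, ∑ B' : Fin r → V, W2 x T U f1 f2 e0 B B' j| ≤
      2 * (r * ((2 + r) * nn V ^ (r - 1) * nn V ^ r)) := by
    rw [Fintype.sum_sum_type]
    have ha : ∑ i : Fin r, |∑ B : Fin r → V, ∑ B' : Fin r → V, W2 x T U f1 f2 e0 B B' (Sum.inl i)| ≤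
        r * ((2 + r) * nn V ^ (r - 1) * nn V ^ r) := by
      refine (Finset.sum_le_sum (fun i _ => p2_ga hS hH hG i)).trans ?_
      rw [Finset.sum_const, Finset.card_univ, Fintype.card_fin, nsmul_eq_mul]
    have hb : ∑ i : Fin r, |∑ B : Fin r → V, ∑ B' : Fin r → V, W2 x T U f1 f2 e0 B B' (Sum.inr i)| ≤
        r * ((2 + r) * nn V ^ (r - 1) * nn V ^ r) := by
      refine (Finset.sum_le_sum (fun i _ => p2_gv hS hG i)).trans ?_
      rw [Finset.sum_const, Finset.card_univ, Fintype.card_fin, nsmul_eq_mul]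
    linarith
  have h4 : NN x T p e ^ 2 ≤ 2 * QS x T U f1 + 2 * (r * ((2 + r) * nn V ^ (r - 1) * nn V ^ r)) +
      (40 * r + r ^ 2) * (nn V ^ (r - 1) * nn V ^ r) := by linarith
  refine h4.trans (le_of_eq ?_)
  ring

private theorem P2_line {E : Type} [AddCommGroup E] [Module ℝ E] (K : Submodule ℝ E)
    (h : Module.finrank ℝ K = 1) :
    Gen (fun f : Module.Dual ℝ E => ∀ y ∈ K, f y = 0 → y = 0) := by
  obtain ⟨v, hv, hall⟩ := finrank_eq_one_iff'.1 h
  have hv' : (v : E) ≠ 0 := fun h0 => hv (Subtype.ext h0)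
  refine (Gen.dual_ne hv').mono ?_
  intro f hf y hy hfy
  obtain ⟨c, hc⟩ := hall ⟨y, hy⟩
  have hc' : y = c • (v : E) := (congrArg (fun w : K => (w : E)) hc).symm
  rw [hc', map_smul, smul_eq_mul] at hfy
  rcases mul_eq_zero.1 hfy with h0 | h0
  · rw [hc', h0, zero_smul]
  · exact absurd h0 hf

private theorem P2_hyp {E V : Type} [AddCommGroup E] [Module ℝ E] [Fintype V] {x : V → E}
    {T : (Fin 2 → V) → Prop} (hS : Sys 2 x T) : ∃ f1 : Module.Dual ℝ E, P2Hyp 2 x ⊤ f1 := by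
  have hg1 : Gen (fun f : Module.Dual ℝ E => ∀ (B : Fin 2 → V), Injective B → ∀ i,
      ∀ y ∈ spx x B {i}, f y = 0 → y = 0) := by
    refine Gen.all (fun B => Gen.imp (fun hB => Gen.all (fun i => ?_)))
    rw [spx_single]
    exact P2_line _ (finrank_sp hS (by norm_num) _
      (hB.comp (Fin.succAbove_right_injective)))
  have hg2 : Gen (fun f : Module.Dual ℝ E => ∀ (B B' : Fin 2 → V), Injective B → Injective B' →
      Disj B B' → ∀ y ∈ sp x B ⊓ sp x B', f y = 0 → y = 0) := by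
    refine Gen.all (fun B => Gen.all (fun B' => Gen.imp (fun hB => Gen.imp (fun hB' =>
      Gen.imp (fun hd => ?_)))))
    refine P2_line _ ?_
    have := finrank_sp_inf hS B B' hB hB' hd (by norm_num) (by norm_num) (by norm_num)
    omega
  obtain ⟨f1, h1, h2⟩ := (hg1.and hg2).exists
  refine ⟨f1, ?_, ?_, ?_, ?_, ?_⟩
  · rw [finrank_top, hS.rank]
  · intro B _ i j hij
    have hempty : ({i, j} : Set (Fin 2))ᶜ = ∅ := by
      rw [Set.compl_empty_iff, Set.eq_univ_iff_forall]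
      intro l
      rw [Set.mem_insert_iff, Set.mem_singleton_iff]
      omega
    unfold spx
    rw [hempty, Set.image_empty, Submodule.span_empty, bot_inf_eq]
  · intro B B' hB hB' hd i
    rw [inf_top_eq, spx_single]
    exact sp_inf_eq_bot hS _ B' (hB.comp (Fin.succAbove_right_injective)) hB'
      (fun k l => hd _ l) (by norm_num)
  · intro B hB i y hy hfy
    exact h1 B hB i y hy.1 hfy
  · intro B B' hB hB' hd y hy hfy
    exact h2 B B' hB hB' hd y hy.1 hfy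

theorem p2_top {E V : Type} [AddCommGroup E] [Module ℝ E] [Fintype V] {x : V → E}
    {T : (Fin 2 → V) → Prop} (hS : Sys 2 x T) (p e : E) (h : TReg x T p e) :
    NN x T p e ^ 2 ≤ 2 * QQ x T + 100 * nn V ^ 3 := by
  obtain ⟨f1, hH⟩ := P2_hyp hS
  have h1 := p2_main hS le_rfl hH p e h
  have h2 : QS x T ⊤ f1 ≤ QQ x T := by
    unfold QS QQ
    refine Finset.sum_le_sum (fun B _ => Finset.sum_le_sum (fun B' _ => ind_mono ?_))
    rintro ⟨a, b, c, y, _, hy, hy', _⟩
    exact ⟨a, b, c, y, hy, hy'⟩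
  have h3 : (44 * ((2 : ℕ) : ℝ) + 3 * ((2 : ℕ) : ℝ) ^ 2) * (nn V ^ (2 - 1) * nn V ^ 2) =
      100 * nn V ^ 3 := by
    norm_num
    ring
  rw [h3] at h1
  linarith

end KS37
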