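import Pool.Agent.LibKS37.A1
import Pool.Agent.LibKS37.A3

/-!
# KS37 row K1: the link of a vertex is a balanced system of rank one less
rank: `Submodule.finrank_quotient_add_finrank`, span of a nonzero vector has dimension 1 (x a ≠ 0: gp with s = 1).
gp: for an injective v' : Fin s → LV a, s ≤ r+1, the family x a, x(v' i) (Fin.cons) is independent (hS.gp (s+1)); so is its image mod x a
(`LinearIndependent.cons`/`linearIndependent_fin_cons`, quotient: if Σ c_i mk(x(v' i)) = 0 then Σ c_i x(v' i) ∈ span{x a}, so = c x a, so all c_i = 0).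
inj: from hS.inj for `Fin.cons a _`. perm: the permutation of Fin (r+1) fixing 0 (`Equiv.Perm.decomposeFin`/`finSuccEquiv`), or
`Fin.cons a (w∘σ) = (Fin.cons a w) ∘ σ'`. bal: g∘mkQ vanishes on x a and on x(w l); hS.bal for `Fin.cons a w`, index i.succ;
`update (Fin.cons a w) i.succ u = Fin.cons a (update w i u)` (`Fin.cons_update`); the term u = a is 0 (not injective);
the sum over u ≠ a is the sum over LV a.
-/

open Finset Function
open scoped Classical

namespace KS37

theorem link_sys {E V : Type} [AddCommGroup E] [Module ℝ E] [Fintype V] {r : ℕ} {x : V → E}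
    {T : (Fin (r + 1) → V) → Prop} (hS : Sys (r + 1) x T) (a : V) :
    Sys r (lx x a) (lT T a) := by
  have hxa : x a ≠ 0 := by
    have := hS.gp 1 (by omega) (fun _ => a) (injective_of_subsingleton _)
    exact this.ne_zero 0
  have hcinj : ∀ {s : ℕ} (v : Fin s → LV a), Injective v →
      Injective (Fin.cons a (fun i => (v i).1) : Fin (s + 1) → V) := by
    intro s v hv
    rw [Fin.cons_injective_iff]
    refine ⟨?_, fun i j hij => hv (Subtype.ext hij)⟩
    rintro ⟨i, hi⟩
    exact (v i).2 hi
  have : Module.Finite ℝ E := Module.finite_of_finrank_pos (by rw [hS.rank]; omega)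
  refine ⟨?_, ?_, ?_, ?_, ?_⟩
  · have h1 := Submodule.finrank_quotient_add_finrank (Submodule.span ℝ {x a})
    rw [finrank_span_singleton hxa, hS.rank] at h1
    show Module.finrank ℝ (E ⧸ Submodule.span ℝ {x a}) = r + 1
    omega
  · intro s hs v hv
    have h1 := hS.gp (s + 1) (by omega) _ (hcinj v hv)
    rw [Fintype.linearIndependent_iff] at h1 ⊢
    intro c hc i
    have h2 : (Submodule.span ℝ {x a}).mkQ (∑ i, c i • x (v i).1) = 0 := by
      rw [map_sum]
      simp only [map_smul]
      exact hc
    rw [Submodule.mkQ_apply, Submodule.Quotient.mk_eq_zero, Submodule.mem_span_singleton] at h2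
    obtain ⟨t, ht⟩ := h2
    have h3 := h1 (Fin.cons (-t) c : Fin (s + 1) → ℝ) (by
      rw [Fin.sum_univ_succ]
      simp only [Fin.cons_zero, Fin.cons_succ]
      rw [← ht, neg_smul, neg_add_cancel]) i.succ
    simpa using h3
  · intro w hw i j hij
    have h1 := hS.inj _ hw
    have h2 : (Fin.cons a (fun i => (w i).1) : Fin (r + 1) → V) i.succ =
        (Fin.cons a (fun i => (w i).1) : Fin (r + 1) → V) j.succ := by
      simp only [Fin.cons_succ, hij]
    exact Fin.succ_injective _ (h1 h2)
  · intro w σ hw
    have h1 := hS.perm _ (Equiv.Perm.decomposeFin.symm (0, σ)) hw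
    have h2 : (fun i => (Fin.cons a (fun i => (w i).1) : Fin (r + 1) → V)
        (Equiv.Perm.decomposeFin.symm (0, σ) i)) = Fin.cons a (fun i => (w (σ i)).1) := by
      funext i
      refine Fin.cases ?_ (fun j => ?_) i
      · rw [Equiv.Perm.decomposeFin_symm_apply_zero]; rfl
      · rw [Equiv.Perm.decomposeFin_symm_apply_succ, Equiv.swap_self, Equiv.refl_apply,
          Fin.cons_succ, Fin.cons_succ]
    rw [h2] at h1
    exact h1
  · intro w i g hg
    have h1 := hS.bal (Fin.cons a (fun i => (w i).1)) i.succ
      (g ∘ₗ (Submodule.span ℝ {x a}).mkQ) ?_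
    · have h2 : ∑ u : V, ind (T (update (Fin.cons a (fun i => (w i).1) : Fin (r + 1) → V)
          i.succ u)) * sg ((g ∘ₗ (Submodule.span ℝ {x a}).mkQ) (x u)) =
          ∑ u : LV a, ind (lT T a (update w i u)) * sg (g (lx x a u)) := by
        have hz : ind (T (update (Fin.cons a (fun i => (w i).1) : Fin (r + 1) → V) i.succ a)) *
            sg ((g ∘ₗ (Submodule.span ℝ {x a}).mkQ) (x a)) = 0 := by
          rw [ind_false, zero_mul]
          intro hT
          have := hS.inj _ hT
          have h3 : update (Fin.cons a (fun i => (w i).1) : Fin (r + 1) → V) i.succ a 0 =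
              update (Fin.cons a (fun i => (w i).1) : Fin (r + 1) → V) i.succ a i.succ := by
            rw [update_self, update_of_ne (Fin.succ_ne_zero i).symm]; rfl
          exact (Fin.succ_ne_zero i) (this h3).symm
        rw [← Finset.sum_erase (f := fun u => ind (T (update
          (Fin.cons a (fun i => (w i).1) : Fin (r + 1) → V) i.succ u)) *
            sg ((g ∘ₗ (Submodule.span ℝ {x a}).mkQ) (x u))) Finset.univ hz,
          Finset.sum_subtype (Finset.univ.erase a) (p := fun v => v ≠ a) (by simp)]
        refine Finset.sum_congr rfl fun u _ => ?_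
        have h4 : (update (Fin.cons a (fun i => (w i).1) : Fin (r + 1) → V) i.succ u.1) =
            Fin.cons a (fun l => ((update w i u) l).1) := by
          rw [← Fin.cons_update]
          congr 1
          funext l
          by_cases hl : l = i
          · subst hl; simp
          · simp [update_of_ne hl]
        rw [h4]
        rfl
      rw [h2] at h1
      exact h1
    · intro l hl
      refine Fin.cases ?_ (fun j => ?_) l (motive := fun l => l ≠ i.succ →
        (g ∘ₗ (Submodule.span ℝ {x a}).mkQ)
          (x ((Fin.cons a (fun i => (w i).1) : Fin (r + 1) → V) l)) = 0) hl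
      · intro _
        rw [Fin.cons_zero, LinearMap.comp_apply, Submodule.mkQ_apply,
          (Submodule.Quotient.mk_eq_zero _).2 (Submodule.mem_span_singleton_self _), map_zero]
      · intro hj
        rw [Fin.cons_succ]
        exact hg j (fun h => hj (by rw [h]))

end KS37
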