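import Pool.Agent.LibKS37.Basic

/-!
# KS37 row A2: calculus of `Gen` (finite unions of proper subspaces)
`Gen.exists`: `Subspace.biUnion_ne_univ_of_top_notMem` (see KS39_L1.lean, `L1_avoid`).
`Gen.and`: union of the two finsets. `Gen.all`: `Finset.biUnion` over `ι` (choose).
`Gen.near`: take a generic g (`Gen.exists`). For every K of the finset at most one ε has z0 + ε g in K (two would give g in K).
So for all small ε>0 outside a finite set both hold.
`Gen.comap`: `Submodule.comap f K`; it is ⊤ iff K = ⊤ as f is surjective. `Gen.neg`: K is symmetric.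
`Gen.dual_ne`: {f | f y = 0} is a proper subspace of the dual if y ≠ 0 (`Module.exists_dual_forall_apply_ne_zero` / `Module.forall_dual_apply_eq_zero_iff`).
-/

open Finset Function
open scoped Classical

namespace KS37

section
variable {E : Type} [AddCommGroup E] [Module ℝ E]

theorem Gen.mono {P Q : E → Prop} (h : Gen P) (hPQ : ∀ z, P z → Q z) : Gen Q := by
  obtain ⟨s, hs, h1⟩ := h
  exact ⟨s, hs, fun z hz => hPQ z (h1 z hz)⟩

theorem Gen.of_forall {P : E → Prop} (h : ∀ z, P z) : Gen P :=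
  ⟨∅, fun K hK => absurd hK (Finset.notMem_empty K), fun z _ => h z⟩

theorem Gen.and {P Q : E → Prop} (h : Gen P) (h' : Gen Q) : Gen (fun z => P z ∧ Q z) := by
  obtain ⟨s, hs, h1⟩ := h
  obtain ⟨t, ht, h2⟩ := h'
  refine ⟨s ∪ t, fun K hK => ?_, fun z hz => ⟨h1 z fun K hK => hz K (Finset.mem_union_left _ hK),
    h2 z fun K hK => hz K (Finset.mem_union_right _ hK)⟩⟩
  rcases Finset.mem_union.1 hK with h | h
  · exact hs K h
  · exact ht K h

theorem Gen.all {ι : Type} [Finite ι] {P : ι → E → Prop} (h : ∀ i, Gen (P i)) :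
    Gen (fun z => ∀ i, P i z) := by
  haveI := Fintype.ofFinite ι
  choose s hs h1 using h
  refine ⟨Finset.univ.biUnion s, fun K hK => ?_, fun z hz i => h1 i z fun K hK =>
    hz K (Finset.mem_biUnion.2 ⟨i, Finset.mem_univ i, hK⟩)⟩
  obtain ⟨i, _, hi⟩ := Finset.mem_biUnion.1 hK
  exact hs i K hi

theorem Gen.imp {p : Prop} {P : E → Prop} (h : p → Gen P) : Gen (fun z => p → P z) := by
  by_cases hp : p
  · exact (h hp).mono (fun z hz _ => hz)
  · exact Gen.of_forall fun z h => absurd h hp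

theorem Gen.notMem {K : Submodule ℝ E} (h : K ≠ ⊤) : Gen (fun z => z ∉ K) :=
  ⟨{K}, fun K' hK' => by rw [Finset.mem_singleton.1 hK']; exact h,
    fun z hz => hz K (Finset.mem_singleton_self K)⟩

theorem Gen.ne_zero {f : Module.Dual ℝ E} (h : f ≠ 0) : Gen (fun z => f z ≠ 0) :=
  (Gen.notMem (K := LinearMap.ker f) (fun h' => h (LinearMap.ker_eq_top.1 h'))).mono
    (fun _ hz h0 => hz (LinearMap.mem_ker.2 h0))

theorem Gen.dual_ne {y : E} (h : y ≠ 0) : Gen (fun f : Module.Dual ℝ E => f y ≠ 0) := by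
  refine (Gen.ne_zero (f := Module.Dual.eval ℝ E y) ?_).mono (fun f hf => hf)
  intro h0
  apply h
  rw [← Module.forall_dual_apply_eq_zero_iff ℝ y]
  intro f
  have := LinearMap.congr_fun h0 f
  simpa using this

theorem Gen.neg {P : E → Prop} (h : Gen P) : Gen (fun z => P (-z)) := by
  obtain ⟨s, hs, h1⟩ := h
  exact ⟨s, hs, fun z hz => h1 (-z) (fun K hK h => hz K hK (K.neg_mem_iff.1 h))⟩

theorem Gen.comap {E' : Type} [AddCommGroup E'] [Module ℝ E'] {P : E' → Prop} (h : Gen P)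
    (f : E →ₗ[ℝ] E') (hf : Surjective f) : Gen (fun z => P (f z)) := by
  obtain ⟨s, hs, h1⟩ := h
  refine ⟨s.image (Submodule.comap f), fun K hK => ?_, fun z hz => h1 (f z) (fun K hK h =>
    hz _ (Finset.mem_image_of_mem _ hK) (Submodule.mem_comap.2 h))⟩
  obtain ⟨K', hK', rfl⟩ := Finset.mem_image.1 hK
  intro h2
  apply hs K' hK'
  rw [eq_top_iff]
  intro y _
  obtain ⟨z, rfl⟩ := hf y
  have : z ∈ Submodule.comap f K' := by rw [h2]; trivial
  exact this

theorem Gen.exists {P : E → Prop} (h : Gen P) : ∃ z, P z := by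
  obtain ⟨s, hs, h1⟩ := h
  by_contra hc
  push Not at hc
  have h2 : (⊤ : Submodule ℝ E) ∉ s := fun h => hs _ h rfl
  apply Subspace.biUnion_ne_univ_of_top_notMem h2
  rw [Set.eq_univ_iff_forall]
  intro z
  by_contra hz
  apply hc z
  apply h1
  intro K hK hzK
  exact hz (Set.mem_biUnion (Finset.mem_coe.2 hK) hzK)

/-- generic points near `z0`. -/
theorem Gen.near {P Q : E → Prop} (h : Gen P) (z0 : E)
    (hQ : ∀ g : E, ∃ ε0 : ℝ, 0 < ε0 ∧ ∀ ε : ℝ, 0 < ε → ε < ε0 → Q (z0 + ε • g)) :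
    ∃ z, P z ∧ Q z := by
  obtain ⟨s, hs, h1⟩ := h
  obtain ⟨g, hg⟩ := Gen.exists (P := fun g : E => ∀ K ∈ s, g ∉ K) ⟨s, hs, fun z hz => hz⟩
  obtain ⟨ε0, h0, h2⟩ := hQ g
  have hfin : ({ε : ℝ | ∃ K ∈ s, z0 + ε • g ∈ K}).Finite := by
    have : {ε : ℝ | ∃ K ∈ s, z0 + ε • g ∈ K} = ⋃ K ∈ s, {ε : ℝ | z0 + ε • g ∈ K} := by
      ext ε; simp
    rw [this]
    refine Set.Finite.biUnion s.finite_toSet (fun K hK => Set.Subsingleton.finite ?_)
    intro a ha b hb
    by_contra hab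
    apply hg K hK
    have h3 : (a - b) • g ∈ K := by
      have := K.sub_mem ha hb
      have h4 : z0 + a • g - (z0 + b • g) = (a - b) • g := by rw [sub_smul]; abel
      rwa [h4] at this
    exact (K.smul_mem_iff (sub_ne_zero.2 hab)).1 h3
  obtain ⟨ε, hε, hb⟩ := ((Set.Ioo_infinite h0).diff hfin).nonempty
  exact ⟨z0 + ε • g, h1 _ (fun K hK h => hb ⟨K, hK, h⟩), h2 ε hε.1 hε.2⟩

/-- a generic element of the subspace `U`. -/
theorem Gen.exists_mem {U : Submodule ℝ E} {P : U → Prop} (h : Gen P) :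
    ∃ z : E, ∃ hz : z ∈ U, P ⟨z, hz⟩ := by
  obtain ⟨⟨z, hz⟩, h⟩ := h.exists
  exact ⟨z, hz, h⟩

theorem Gen.sub_notMem {U K : Submodule ℝ E} (h : ¬ U ≤ K) : Gen (fun z : U => (z : E) ∉ K) := by
  refine (Gen.notMem (K := K.comap U.subtype) ?_).mono (fun z hz h' => hz h')
  intro h'
  apply h
  intro z hz
  have : (⟨z, hz⟩ : U) ∈ K.comap U.subtype := by rw [h']; trivial
  exact this

end

end KS37
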