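import Pool.Agent.LibKS37.C2

/-!
# KS37 row C3: upper bound for arbitrary (p,e), and Lovász' bound
`upper`: (i) find e' near e with e' ∉ sp x B for all B with T B, and Hit x B e p → Hit x B e' p for all B (`Gen.near`, z0 = e:
if Hit x B e p then e∉sp x B [otherwise kap = 0]; p = Σκ_l x_l + h e; g = Σγ_l x_l + η e, e'=e+εg, so for small ε:
p = Σ(κ_l - hεγ_l/(1+εη)) x_l + (h/(1+εη)) e', coordinates positive for small ε by continuity (or an explicit bound); finitely many B).
(ii) p' near p with TReg x T p' e' and Hit x B e' p → Hit x B e' p' (kap linear). (iii) NN(p,e) ≤ NN(p',e') ≤ NN(p0,e0)+20 r n^(r-1) (`const`).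
(r = 0 is harmless or use r ≥ 1.)
`lovasz`: ℓ(x v)>0 for all v. Choose e0 ∈ ker ℓ with e0∉sp x B for all B with T B (sp x B has dimension r = dim ker ℓ and contains x(B 0) ∉ ker ℓ,
so ¬ ker ℓ ≤ sp x B; `Gen.sub_notMem`, `Gen.exists_mem`), then p0 with TReg x T p0 e0, TReg x T (-p0) e0, ℓ(p0)≠0 (`treg_gen`); take the sign with ℓ<0.
Then NN x T p0 e0 = 0 (p0+s e0 in a cone has ℓ>0 but ℓ(p0+s e0)=ℓ(p0)<0). Use `upper`.
-/

open Finset Function
open scoped Classical

namespace KS37

private theorem C3_lin (c d : ℝ) (hc : 0 < c) :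
    ∀ᶠ ε in nhdsWithin (0 : ℝ) (Set.Ioi 0), 0 < c + ε * d := by
  have h : Filter.Tendsto (fun ε : ℝ => c + ε * d) (nhds 0) (nhds (c + 0 * d)) :=
    (continuous_const.add (continuous_id.mul continuous_const)).tendsto 0
  rw [zero_mul, add_zero] at h
  exact nhdsWithin_le_nhds (h.eventually (lt_mem_nhds hc))

private theorem C3_ev {Q : ℝ → Prop} (h : ∀ᶠ ε in nhdsWithin (0 : ℝ) (Set.Ioi 0), Q ε) :
    ∃ ε0 : ℝ, 0 < ε0 ∧ ∀ ε : ℝ, 0 < ε → ε < ε0 → Q ε := by
  obtain ⟨u, hu, hs⟩ := mem_nhdsGT_iff_exists_Ioo_subset.1 h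
  exact ⟨u, hu, fun ε h1 h2 => hs ⟨h1, h2⟩⟩

theorem upper {E V : Type} [AddCommGroup E] [Module ℝ E] [Fintype V] {r : ℕ} {x : V → E}
    {T : (Fin r → V) → Prop} (hS : Sys r x T) (p e p0 e0 : E) (h : TReg x T p0 e0) :
    NN x T p e ≤ NN x T p0 e0 + 20 * r * nn V ^ (r - 1) := by
  have hgen : Gen (fun e : E => ∀ B : Fin r → V, e ∉ sp x B) := by
    apply Gen.all; intro B
    apply Gen.notMem; intro htop
    have h2 : Module.finrank ℝ (sp x B) ≤ r := by
      have := finrank_range_le_card (R := ℝ) (fun i => x (B i))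
      rw [Fintype.card_fin] at this
      exact this
    rw [htop, finrank_top, hS.rank] at h2
    omega
  -- (i)
  obtain ⟨e', he', hQ⟩ : ∃ e' : E, (∀ B : Fin r → V, e' ∉ sp x B) ∧
      ∀ B : Fin r → V, T B → Hit x B e p → Hit x B e' p := by
    refine hgen.near e (Q := fun e' => ∀ B : Fin r → V, T B → Hit x B e p → Hit x B e' p) ?_
    intro g
    apply C3_ev
    rw [Filter.eventually_all]
    intro B
    by_cases hT : T B
    swap
    · exact Filter.Eventually.of_forall fun ε hB => absurd hB hT
    by_cases hH : Hit x B e p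
    swap
    · exact Filter.Eventually.of_forall fun ε _ hB => absurd hB hH
    have hinj := hS.inj B hT
    by_cases heB : e ∈ sp x B
    · -- then all coordinates are zero, so r = 0
      have hr : ∀ i : Fin r, False := by
        intro i
        have hi := hH i
        have hnb : ¬ (LinearIndependent ℝ (frame x B e) ∧
            ⊤ ≤ Submodule.span ℝ (Set.range (frame x B e))) := by
          rintro ⟨hli, _⟩
          obtain ⟨c, hc⟩ := (mem_sp_iff B e).1 heB
          have hfr := linearIndependent_iff'.1 hli Finset.univ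
            (fun o => o.elim (-1) c) ?_ none (Finset.mem_univ _)
          · simp at hfr
          · rw [Fintype.sum_option]
            simp only [Option.elim, frame]
            rw [← hc]
            simp
        unfold kap coord at hi
        rw [dif_neg hnb] at hi
        simp at hi
      exact Filter.Eventually.of_forall fun ε _ _ i => (hr i).elim
    · have hp := kap_sum hS B hinj e heB p
      have hg := kap_sum hS B hinj e heB g
      have hη : ∀ᶠ ε in nhdsWithin (0 : ℝ) (Set.Ioi 0), 0 < 1 + ε * hgt x B e g :=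
        C3_lin 1 _ one_pos
      have hco : ∀ᶠ ε in nhdsWithin (0 : ℝ) (Set.Ioi 0), ∀ i, 0 < kap x B e i p +
          ε * (kap x B e i p * hgt x B e g - hgt x B e p * kap x B e i g) := by
        rw [Filter.eventually_all]
        exact fun i => C3_lin _ _ (hH i)
      filter_upwards [hη, hco] with ε h1 h2 _ _ i
      have hhe : hgt x B e (e + ε • g) = 1 + ε * hgt x B e g := by
        rw [map_add, map_smul, (kap_e hS B hinj e heB).2, smul_eq_mul]
      have hne : e + ε • g ∉ sp x B := by
        rw [← hgt_eq_zero_iff hS B hinj e heB, hhe]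
        exact h1.ne'
      have hk := (kap_eq hS B hinj (e + ε • g) hne p
        (fun l => kap x B e l p - hgt x B e p * ε * kap x B e l g / (1 + ε * hgt x B e g))
        (hgt x B e p / (1 + ε * hgt x B e g)) ?_).1 i
      · rw [hk]
        have := h2 i
        have e3 : kap x B e i p - hgt x B e p * ε * kap x B e i g / (1 + ε * hgt x B e g) =
            (kap x B e i p + ε * (kap x B e i p * hgt x B e g - hgt x B e p * kap x B e i g)) /
              (1 + ε * hgt x B e g) := by
          field_simp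
          ring
        rw [e3]
        exact div_pos this h1
      · -- the identity
        have e4 : e + ε • g = ε • (∑ i, kap x B e i g • x (B i)) +
            (1 + ε * hgt x B e g) • e := by
          conv_lhs => rw [hg]
          rw [smul_add, smul_smul, add_smul, one_smul]
          abel
        rw [e4, smul_add, smul_smul, smul_smul, div_mul_cancel₀ _ h1.ne', ← add_assoc,
          Finset.smul_sum, ← Finset.sum_add_distrib]
        conv_lhs => rw [hp]
        congr 1
        refine Finset.sum_congr rfl fun l _ => ?_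
        rw [smul_smul, ← add_smul]
        congr 1
        field_simp
        ring
  -- (ii)
  obtain ⟨p', hp', hQ'⟩ : ∃ p' : E, (TReg x T p' e' ∧ TReg x T (-p') e' ∧ TReg x T e' p') ∧
      ∀ B : Fin r → V, T B → Hit x B e' p → Hit x B e' p' := by
    refine (treg_gen hS e' (fun B _ => he' B)).near p
      (Q := fun p' => ∀ B : Fin r → V, T B → Hit x B e' p → Hit x B e' p') ?_
    intro g
    apply C3_ev
    rw [Filter.eventually_all]
    intro B
    by_cases hH : Hit x B e' p
    swap
    · exact Filter.Eventually.of_forall fun ε _ hB => absurd hB hH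
    have hco : ∀ᶠ ε in nhdsWithin (0 : ℝ) (Set.Ioi 0), ∀ i, 0 < kap x B e' i p +
        ε * kap x B e' i g := by
      rw [Filter.eventually_all]
      exact fun i => C3_lin _ _ (hH i)
    filter_upwards [hco] with ε h1 _ _ i
    rw [map_add, map_smul, smul_eq_mul]
    exact h1 i
  -- (iii)
  have h1 : NN x T p e ≤ NN x T p' e' := by
    unfold NN
    refine Finset.sum_le_sum fun B _ => ind_mono ?_
    rintro ⟨hT, hH⟩
    exact ⟨hT, hQ' B hT (hQ B hT hH)⟩
  have h2 := const hS p' e' p0 e0 hp'.1 h
  rw [abs_le] at h2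
  linarith [h2.1, h2.2]

theorem lovasz {E V : Type} [AddCommGroup E] [Module ℝ E] [Fintype V] {r : ℕ} (hr : 1 ≤ r)
    {x : V → E} {T : (Fin r → V) → Prop} (hS : Sys r x T) (ℓ : Module.Dual ℝ E)
    (hℓ : ∀ v, 0 < ℓ (x v)) (p e : E) : NN x T p e ≤ 20 * r * nn V ^ (r - 1) := by
  have : Module.Finite ℝ E := Module.finite_of_finrank_pos (by rw [hS.rank]; omega)
  -- finite rank facts
  have hker : ∀ B : Fin r → V, T B → ¬ LinearMap.ker ℓ ≤ sp x B := by
    intro B _ hle
    have hx : 0 < ℓ (x (B ⟨0, hr⟩)) := hℓ _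
    have h1 : Module.finrank ℝ (sp x B) ≤ r := by
      have := finrank_range_le_card (R := ℝ) (fun i => x (B i))
      rw [Fintype.card_fin] at this
      exact this
    have h2 := LinearMap.finrank_range_add_finrank_ker ℓ
    rw [hS.rank] at h2
    have h3 : Module.finrank ℝ (LinearMap.range ℓ) ≤ 1 := by
      have := Submodule.finrank_le (LinearMap.range ℓ)
      rwa [Module.finrank_self] at this
    have h4 : LinearMap.ker ℓ = sp x B := Submodule.eq_of_le_of_finrank_le hle (by omega)
    have h5 : x (B ⟨0, hr⟩) ∈ LinearMap.ker ℓ := by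
      rw [h4]
      exact Submodule.subset_span ⟨_, rfl⟩
    rw [LinearMap.mem_ker] at h5
    linarith
  by_cases hV : Nonempty V
  swap
  · have : IsEmpty (Fin r → V) := ⟨fun B => hV ⟨B ⟨0, hr⟩⟩⟩
    unfold NN
    rw [Fintype.sum_empty]
    have := nn_nonneg V
    positivity
  obtain ⟨v⟩ := hV
  have hℓ0 : ℓ ≠ 0 := by
    intro h0
    have := hℓ v
    rw [h0] at this
    simp at this
  obtain ⟨e0, he0, hnot⟩ := Gen.exists_mem (U := LinearMap.ker ℓ)
    (P := fun z => ∀ B : Fin r → V, T B → (z : E) ∉ sp x B)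
    (Gen.all fun B => Gen.imp fun hB => Gen.sub_notMem (hker B hB))
  simp only at hnot
  rw [LinearMap.mem_ker] at he0
  obtain ⟨p1, ⟨a1, a2, _⟩, a4⟩ := ((treg_gen hS e0 hnot).and (Gen.ne_zero hℓ0)).exists
  obtain ⟨p2, hp2, hneg⟩ : ∃ p2 : E, TReg x T p2 e0 ∧ ℓ p2 < 0 := by
    rcases lt_or_gt_of_ne a4 with h | h
    · exact ⟨p1, a1, h⟩
    · exact ⟨-p1, a2, by rw [map_neg]; linarith⟩
  have hz : NN x T p2 e0 = 0 := by
    unfold NN
    refine Finset.sum_eq_zero fun B _ => ind_false ?_
    rintro ⟨hT, hH⟩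
    obtain ⟨s, c, hc, hcs⟩ := (hit_iff hS B (hS.inj B hT) e0 (hnot B hT) p2).1 hH
    have h1 : ℓ (p2 + s • e0) = ℓ p2 := by
      rw [map_add, map_smul, he0, smul_zero, add_zero]
    rw [hcs, map_sum] at h1
    have h2 : 0 ≤ ∑ i, ℓ (c i • x (B i)) := by
      refine Finset.sum_nonneg fun i _ => ?_
      rw [map_smul, smul_eq_mul]
      exact (mul_pos (hc i) (hℓ _)).le
    linarith
  have := upper hS p e p2 e0 hp2
  rw [hz, zero_add] at this
  exact this

end KS37
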