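import Pool.Agent.LibKS37.Basic

/-!
# KS37 row A4: dimensions of spans of vertex sets
`vs x A` = span of x '' A. For a finite set A of at most r+1 vertices the family x|A is independent (hS.gp with an enumeration
`A.equivFin`), so finrank = |A| (`finrank_span_eq_card` / `LinearIndependent.span...`), and for disjoint A, A' with |A|+|A'| ≤ r+1
vs A ⊓ vs A' = ⊥ (`LinearIndepOn`/`LinearIndependent.disjoint_span_image`). For |A|+|A'| ≥ r+1 vs A ⊔ vs A' = ⊤ (contains an independent set
of r+1 vectors) and `Submodule.finrank_sup_add_finrank_inf_eq` gives the last lemma.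
`sp x B = vs x (range B)`, `spx x B I = vs x (B '' Iᶜ)` by rewriting the images. The remaining lemmas are the cases used later.
-/

open Finset Function
open scoped Classical

namespace KS37

/-- span of the vectors of a set of vertices. -/
def vs {E V : Type} [AddCommGroup E] [Module ℝ E] (x : V → E) (A : Set V) : Submodule ℝ E :=
  Submodule.span ℝ (x '' A)

section
variable {E V : Type} [AddCommGroup E] [Module ℝ E] [Fintype V] {r : ℕ} {x : V → E}
  {T : (Fin r → V) → Prop}

theorem sp_eq_vs {s : ℕ} (B : Fin s → V) : sp x B = vs x (Set.range B) := by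
  unfold sp vs
  rw [← Set.range_comp]
  rfl

theorem spx_eq_vs {s : ℕ} (B : Fin s → V) (I : Set (Fin s)) : spx x B I = vs x (B '' Iᶜ) := by
  unfold spx vs
  rw [Set.image_image]

theorem spx_single {s : ℕ} (B : Fin (s + 1) → V) (i : Fin (s + 1)) :
    spx x B {i} = sp x (fun l => B (i.succAbove l)) := by
  unfold spx sp
  rw [← Fin.range_succAbove i, ← Set.range_comp]
  rfl

private theorem A4_indep (hS : Sys r x T) (A : Finset V) (hA : A.card ≤ r + 1) :
    LinearIndependent ℝ (fun a : A => x a) := by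
  have h1 := hS.gp A.card hA (fun i => (A.equivFin.symm i : V))
    (Subtype.val_injective.comp A.equivFin.symm.injective)
  have h2 := h1.comp A.equivFin A.equivFin.injective
  have h3 : (fun i : Fin A.card => x (A.equivFin.symm i : V)) ∘ A.equivFin =
      (fun a : A => x a) := by
    funext a
    simp
  rwa [h3] at h2

theorem finrank_vs (hS : Sys r x T) (A : Finset V) (hA : A.card ≤ r + 1) :
    Module.finrank ℝ (vs x (A : Set V)) = A.card := by
  have h := finrank_span_eq_card (A4_indep hS A hA)
  have h1 : Set.range (fun a : A => x a) = x '' (A : Set V) := by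
    ext y; simp
  rw [h1, Fintype.card_coe] at h
  exact h

theorem vs_inf_eq_bot (hS : Sys r x T) (A A' : Finset V) (hd : Disjoint A A')
    (h : A.card + A'.card ≤ r + 1) : vs x (A : Set V) ⊓ vs x (A' : Set V) = ⊥ := by
  have h1 := A4_indep hS (A ∪ A') (by rw [Finset.card_union_of_disjoint hd]; exact h)
  have h2 : Disjoint {a : (A ∪ A' : Finset V) | (a : V) ∈ A} {a | (a : V) ∈ A'} := by
    rw [Set.disjoint_left]
    intro a ha ha'
    exact Finset.disjoint_left.1 hd ha ha'
  have h3 := h1.disjoint_span_image h2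
  have h4 : (fun a : (A ∪ A' : Finset V) => x a) '' {a | (a : V) ∈ A} = x '' (A : Set V) := by
    ext y
    constructor
    · rintro ⟨a, ha, rfl⟩
      exact ⟨a, ha, rfl⟩
    · rintro ⟨a, ha, rfl⟩
      exact ⟨⟨a, Finset.mem_union_left _ ha⟩, ha, rfl⟩
  have h5 : (fun a : (A ∪ A' : Finset V) => x a) '' {a | (a : V) ∈ A'} = x '' (A' : Set V) := by
    ext y
    constructor
    · rintro ⟨a, ha, rfl⟩
      exact ⟨a, ha, rfl⟩
    · rintro ⟨a, ha, rfl⟩
      exact ⟨⟨a, Finset.mem_union_right _ ha⟩, ha, rfl⟩
  rw [h4, h5] at h3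
  exact h3.eq_bot

theorem finiteDimensional_of_sys (hS : Sys r x T) : Module.Finite ℝ E :=
  Module.finite_of_finrank_pos (by rw [hS.rank]; exact Nat.succ_pos r)

theorem finrank_vs_inf (hS : Sys r x T) (A A' : Finset V) (hd : Disjoint A A')
    (hA : A.card ≤ r + 1) (hA' : A'.card ≤ r + 1) (h : r + 1 ≤ A.card + A'.card) :
    Module.finrank ℝ (vs x (A : Set V) ⊓ vs x (A' : Set V) : Submodule ℝ E) + (r + 1) =
      A.card + A'.card := by
  haveI := finiteDimensional_of_sys hS
  have h1 := Submodule.finrank_sup_add_finrank_inf_eq (vs x (A : Set V)) (vs x (A' : Set V))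
  rw [finrank_vs hS A hA, finrank_vs hS A' hA'] at h1
  have h2 : vs x (A : Set V) ⊔ vs x (A' : Set V) = ⊤ := by
    obtain ⟨C, hC, hc⟩ := Finset.exists_subset_card_eq
      (s := A ∪ A') (n := r + 1) (by rw [Finset.card_union_of_disjoint hd]; exact h)
    have h3 : vs x (C : Set V) = ⊤ := by
      apply Submodule.eq_top_of_finrank_eq
      rw [finrank_vs hS C hc.le, hc, hS.rank]
    rw [eq_top_iff, ← h3]
    unfold vs
    rw [← Submodule.span_union, ← Set.image_union]
    apply Submodule.span_mono
    apply Set.image_mono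
    rw [← Finset.coe_union]
    exact_mod_cast hC
  rw [h2, finrank_top, hS.rank] at h1
  omega

private theorem A4_range {s : ℕ} (B : Fin s → V) :
    Set.range B = ((Finset.univ.image B : Finset V) : Set V) := by
  simp

private theorem A4_card {s : ℕ} {B : Fin s → V} (hB : Injective B) :
    (Finset.univ.image B).card = s := by
  rw [Finset.card_image_of_injective _ hB, Finset.card_univ, Fintype.card_fin]

private theorem A4_disj {s s' : ℕ} {B : Fin s → V} {B' : Fin s' → V} (hd : Disj B B') :
    Disjoint (Finset.univ.image B) (Finset.univ.image B') := by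
  rw [Finset.disjoint_left]
  intro a ha ha'
  obtain ⟨i, _, rfl⟩ := Finset.mem_image.1 ha
  obtain ⟨j, _, hj⟩ := Finset.mem_image.1 ha'
  exact hd i j hj.symm

theorem finrank_sp (hS : Sys r x T) {s : ℕ} (hs : s ≤ r + 1) (B : Fin s → V)
    (hB : Injective B) : Module.finrank ℝ (sp x B) = s := by
  rw [sp_eq_vs, A4_range, finrank_vs hS _ (by rw [A4_card hB]; exact hs), A4_card hB]

theorem sp_inf_eq_bot (hS : Sys r x T) {s s' : ℕ} (B : Fin s → V) (B' : Fin s' → V)
    (hB : Injective B) (hB' : Injective B') (hd : Disj B B') (h : s + s' ≤ r + 1) :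
    sp x B ⊓ sp x B' = ⊥ := by
  rw [sp_eq_vs, sp_eq_vs, A4_range, A4_range]
  exact vs_inf_eq_bot hS _ _ (A4_disj hd) (by rw [A4_card hB, A4_card hB']; exact h)

theorem finrank_sp_inf (hS : Sys r x T) {s s' : ℕ} (B : Fin s → V) (B' : Fin s' → V)
    (hB : Injective B) (hB' : Injective B') (hd : Disj B B') (hs : s ≤ r + 1)
    (hs' : s' ≤ r + 1) (h : r + 1 ≤ s + s') :
    Module.finrank ℝ (sp x B ⊓ sp x B' : Submodule ℝ E) + (r + 1) = s + s' := by
  rw [sp_eq_vs, sp_eq_vs, A4_range, A4_range]
  have h1 := finrank_vs_inf hS _ _ (A4_disj hd) (by rw [A4_card hB]; exact hs)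
    (by rw [A4_card hB']; exact hs') (by rw [A4_card hB, A4_card hB']; exact h)
  rw [A4_card hB, A4_card hB'] at h1
  exact h1

/-- the vector of a vertex is not in the span of `≤ r` other vertices. -/
theorem x_notMem_sp (hS : Sys r x T) {s : ℕ} (hs : s ≤ r) (B : Fin s → V) (hB : Injective B)
    (v : V) (hv : ∀ i, B i ≠ v) : x v ∉ sp x B := by
  have h1 := hS.gp (s + 1) (Nat.succ_le_succ hs) (Fin.cons v B) (by
    rw [Fin.cons_injective_iff]
    exact ⟨fun ⟨i, hi⟩ => hv i hi, hB⟩)
  have h2 : (fun i : Fin (s + 1) => x ((Fin.cons v B : Fin (s + 1) → V) i)) =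
      Fin.cons (x v) (fun i => x (B i)) := by
    funext i
    refine Fin.cases ?_ (fun j => ?_) i
    · rfl
    · rfl
  rw [h2, linearIndependent_finCons] at h1
  exact h1.2

theorem spx_le_sp {s : ℕ} (B : Fin s → V) (I : Set (Fin s)) : spx x B I ≤ sp x B := by
  unfold spx sp
  exact Submodule.span_mono (Set.image_subset_range _ _)

end

end KS37
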