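import Pool.Agent.LibKS37.A1
import Pool.Agent.LibKS37.A3
import Pool.Agent.LibKS37.A4
import Pool.Agent.LibKS37.K1
import Pool.Agent.LibKS37.Sweep

/-!
# KS37 row K5: triple points of the links (page 6, first lines)
Let B1,B2,B3 : Fin 3 → LV a be facets of the link, pairwise disjoint, with a common ray mod x a: y_j ∈ Cone x Bj (lifted with the same coefficients), y_1 = y_j + μ_j x a, μ_1 = 0.
Let μ_j be minimal; for k ≠ j: y_j = y_k + (μ_k - μ_j) x a. If μ_k = μ_j for some k≠j then y_j = y_k ∈ sp x Bj ⊓ sp x Bk and (third index l) y_j = y_l + (..) x a ∈ sp x (cc a Bl):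
G3 gives y_j = 0, but Cone x Bj 0 is impossible (independent). So μ_k-μ_j > 0 and y_j ∈ Cone x (cc a Bk) for both k≠j: (a; Bj; Bk, Bl) is counted in OB4 x T Bj.
So ZZ(link a) ≤ Σ_{B1,B2,B3} (three indicators), and the three sums are equal by renaming (`Finset.sum_comm`); for the ordered pair (Bk,Bl) take k<l. Then `sum_subtype_tuple` (three times) and
exchange of the sum over a with the sum over B1.
-/

open Finset Function
open scoped Classical

namespace KS37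

section
variable {E V : Type} [AddCommGroup E] [Module ℝ E] {x : V → E}
    {T : (Fin 4 → V) → Prop}

private theorem K5_cone_cons {B : Fin 3 → V} {a : V} {y y' : E} {s : ℝ} (hs : 0 < s)
    (h : Cone x B y) (hy : y' = y + s • x a) : Cone x (cc a B) y' := by
  obtain ⟨c, hc, hc'⟩ := h
  refine ⟨Fin.cons s c, fun i => ?_, ?_⟩
  · refine Fin.cases ?_ (fun l => ?_) i
    · rw [Fin.cons_zero]; exact hs
    · rw [Fin.cons_succ]; exact hc l
  · rw [Fin.sum_univ_succ]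
    simp only [cc, Fin.cons_zero, Fin.cons_succ]
    rw [hy, hc', add_comm]

private theorem K5_cone_sp {s : ℕ} {B : Fin s → V} {y : E} (h : Cone x B y) : y ∈ sp x B := by
  obtain ⟨c, -, hc⟩ := h
  rw [hc]
  exact Submodule.sum_mem _ fun i _ => Submodule.smul_mem _ _ (Submodule.subset_span ⟨i, rfl⟩)

private theorem K5_sp_cons {B : Fin 3 → V} {a : V} {y y' : E} {s : ℝ}
    (h : Cone x B y) (hy : y' = y + s • x a) : y' ∈ sp x (Fin.cons a B : Fin 4 → V) := by
  obtain ⟨c, -, hc⟩ := h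
  rw [hy, hc]
  refine Submodule.add_mem _ (Submodule.sum_mem _ fun i _ => Submodule.smul_mem _ _
    (Submodule.subset_span ⟨i.succ, ?_⟩)) (Submodule.smul_mem _ _ (Submodule.subset_span ⟨0, ?_⟩))
  · simp only [Fin.cons_succ]
  · simp only [Fin.cons_zero]

variable [Fintype V]

private theorem K5_cone_ne (hS : Sys 4 x T) {B : Fin 3 → V} (hB : Injective B) {y : E}
    (h : Cone x B y) : y ≠ 0 := by
  obtain ⟨c, hc, hc'⟩ := h
  intro h0
  have h1 := Fintype.linearIndependent_iff.1 (hS.gp 3 (by norm_num) B hB) c (by rw [← hc', h0]) 0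
  exact (hc 0).ne' h1

private theorem K5_ne (hS : Sys 4 x T) (hG : G3 x) {a : V} {B1 B2 B3 : Fin 3 → V}
    (i1 : Injective B1) (i2 : Injective B2) (i3 : Injective B3) (d12 : Disj B1 B2)
    (d13 : Disj B1 B3) (d23 : Disj B2 B3) (a1 : ∀ i, B1 i ≠ a) (a2 : ∀ i, B2 i ≠ a)
    (a3 : ∀ i, B3 i ≠ a) {y1 y2 y3 : E} (h1 : Cone x B1 y1) (h2 : Cone x B2 y2)
    (h3 : Cone x B3 y3) {t : ℝ} (h12 : y1 = y2) (h13 : y1 = y3 + t • x a) : False := by
  have hmem : y1 ∈ sp x B1 ⊓ sp x B2 ⊓ sp x (Fin.cons a B3 : Fin 4 → V) :=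
    ⟨⟨K5_cone_sp h1, by rw [h12]; exact K5_cone_sp h2⟩, K5_sp_cons h3 h13⟩
  rw [hG a B1 B2 B3 i1 i2 i3 d12 d13 d23 a1 a2 a3, Submodule.mem_bot] at hmem
  exact K5_cone_ne hS i1 h1 hmem

/-- the indicator of the right side -/
private noncomputable def K5Phi (x : V → E) (T : (Fin 4 → V) → Prop) (a : V)
    (B1 B2 B3 : Fin 3 → V) : ℝ :=
  ind (Injective B1) *
    ind (Live4 T B1 a B2 B3 ∧ ∃ y, Cone x B1 y ∧ Cone x (cc a B2) y ∧ Cone x (cc a B3) y)

private theorem K5Phi_nonneg (a : V) (B1 B2 B3 : Fin 3 → V) : 0 ≤ K5Phi x T a B1 B2 B3 :=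
  mul_nonneg (ind_nonneg _) (ind_nonneg _)

omit [Fintype V] in
private theorem K5Phi_one {a : V} {B1 B2 B3 : Fin 3 → V} (h2 : T (cc a B2)) (h3 : T (cc a B3))
    (i1 : Injective B1) (i2 : Injective B2) (i3 : Injective B3) (d12 : Disj B1 B2)
    (d13 : Disj B1 B3) (d23 : Disj B2 B3) (a1 : ∀ i, B1 i ≠ a) (a2 : ∀ i, B2 i ≠ a)
    (a3 : ∀ i, B3 i ≠ a) {y : E} (c1 : Cone x B1 y) (c2 : Cone x (cc a B2) y)
    (c3 : Cone x (cc a B3) y) : K5Phi x T a B1 B2 B3 = 1 := by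
  rw [K5Phi, ind_true i1, one_mul]
  exact ind_true ⟨⟨h2, h3, i2, i3, d12, d13, d23, a1, a2, a3⟩, y, c1, c2, c3⟩

private theorem K5_lift {a : V} {B : Fin 3 → LV a} {y : LE x a} (h : Cone (lx x a) B y) :
    ∃ y' : E, Cone x (fun i => (B i).1) y' ∧ (Submodule.span ℝ {x a}).mkQ y' = y := by
  obtain ⟨c, hc, hc'⟩ := h
  refine ⟨∑ i, c i • x (B i).1, ⟨c, hc, rfl⟩, ?_⟩
  rw [map_sum, hc']
  exact Finset.sum_congr rfl fun i _ => by rw [map_smul]; rfl

private theorem K5_diff {a : V} {y y' : E}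
    (h : (Submodule.span ℝ {x a}).mkQ y = (Submodule.span ℝ {x a}).mkQ y') :
    ∃ s : ℝ, y = y' + s • x a := by
  have h1 : (Submodule.span ℝ {x a}).mkQ (y - y') = 0 := by rw [map_sub, h, sub_self]
  rw [Submodule.mkQ_apply, Submodule.Quotient.mk_eq_zero, Submodule.mem_span_singleton] at h1
  obtain ⟨d, hd⟩ := h1
  exact ⟨d, by rw [hd]; abel⟩

private theorem K5_point (hS : Sys 4 x T) (hG : G3 x) (a : V) (B1 B2 B3 : Fin 3 → LV a) :
    ind (lT T a B1 ∧ lT T a B2 ∧ lT T a B3 ∧ Disj B1 B2 ∧ Disj B1 B3 ∧ Disj B2 B3 ∧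
      ∃ y, Cone (lx x a) B1 y ∧ Cone (lx x a) B2 y ∧ Cone (lx x a) B3 y) ≤
    K5Phi x T a (fun i => (B1 i).1) (fun i => (B2 i).1) (fun i => (B3 i).1) +
    K5Phi x T a (fun i => (B2 i).1) (fun i => (B1 i).1) (fun i => (B3 i).1) +
    K5Phi x T a (fun i => (B3 i).1) (fun i => (B1 i).1) (fun i => (B2 i).1) := by
  by_cases hP : lT T a B1 ∧ lT T a B2 ∧ lT T a B3 ∧ Disj B1 B2 ∧ Disj B1 B3 ∧ Disj B2 B3 ∧
      ∃ y, Cone (lx x a) B1 y ∧ Cone (lx x a) B2 y ∧ Cone (lx x a) B3 y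
  swap
  · rw [ind_false hP]
    exact add_nonneg (add_nonneg (K5Phi_nonneg _ _ _ _) (K5Phi_nonneg _ _ _ _))
      (K5Phi_nonneg _ _ _ _)
  rw [ind_true hP]
  obtain ⟨t1, t2, t3, d12, d13, d23, y, c1, c2, c3⟩ := hP
  have inj : ∀ B : Fin 3 → LV a, lT T a B → Injective (fun i => (B i).1) := by
    intro B hB i j hij
    have h1 := hS.inj _ hB
    have h2 : (Fin.cons a (fun i => (B i).1) : Fin 4 → V) i.succ =
        (Fin.cons a (fun i => (B i).1) : Fin 4 → V) j.succ := by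
      rw [Fin.cons_succ, Fin.cons_succ]; exact hij
    exact Fin.succ_injective _ (h1 h2)
  have dj : ∀ B B' : Fin 3 → LV a, Disj B B' → Disj (fun i => (B i).1) (fun i => (B' i).1) :=
    fun B B' h i j hij => h i j (Subtype.ext hij)
  have dsym : ∀ B B' : Fin 3 → V, Disj B B' → Disj B' B := fun B B' h i j hij => h j i hij.symm
  obtain ⟨y1, e1, m1⟩ := K5_lift c1
  obtain ⟨y2, e2, m2⟩ := K5_lift c2
  obtain ⟨y3, e3, m3⟩ := K5_lift c3
  obtain ⟨s, hs⟩ := K5_diff (m1.trans m2.symm)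
  obtain ⟨t, ht⟩ := K5_diff (m1.trans m3.symm)
  have i1 := inj _ t1
  have i2 := inj _ t2
  have i3 := inj _ t3
  have D12 := dj _ _ d12
  have D13 := dj _ _ d13
  have D23 := dj _ _ d23
  have a1 : ∀ i, (B1 i).1 ≠ a := fun i => (B1 i).2
  have a2 : ∀ i, (B2 i).1 ≠ a := fun i => (B2 i).2
  have a3 : ∀ i, (B3 i).1 ≠ a := fun i => (B3 i).2
  have hs0 : s ≠ 0 := by
    rintro rfl
    exact K5_ne hS hG i1 i2 i3 D12 D13 D23 a1 a2 a3 e1 e2 e3 (by rw [hs]; simp) ht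
  have ht0 : t ≠ 0 := by
    rintro rfl
    exact K5_ne hS hG i1 i3 i2 D13 D12 (dsym _ _ D23) a1 a3 a2 e1 e3 e2 (by rw [ht]; simp) hs
  have hst : s ≠ t := by
    rintro rfl
    have h23 : y2 = y3 := by
      have := hs.symm.trans ht
      exact add_right_cancel this
    exact K5_ne hS hG i2 i3 i1 D23 (dsym _ _ D12) (dsym _ _ D13) a2 a3 a1 e2 e3 e1 h23
      (t := -s) (by rw [hs]; module)
  have n1 := K5Phi_nonneg (x := x) (T := T) a (fun i => (B1 i).1) (fun i => (B2 i).1)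
    (fun i => (B3 i).1)
  have n2 := K5Phi_nonneg (x := x) (T := T) a (fun i => (B2 i).1) (fun i => (B1 i).1)
    (fun i => (B3 i).1)
  have n3 := K5Phi_nonneg (x := x) (T := T) a (fun i => (B3 i).1) (fun i => (B1 i).1)
    (fun i => (B2 i).1)
  have case1 : 0 < s → 0 < t → K5Phi x T a (fun i => (B1 i).1) (fun i => (B2 i).1)
      (fun i => (B3 i).1) = 1 := fun h h' =>
    K5Phi_one t2 t3 i1 i2 i3 D12 D13 D23 a1 a2 a3 e1 (K5_cone_cons h e2 hs)
      (K5_cone_cons h' e3 ht)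
  have case2 : s < 0 → s < t → K5Phi x T a (fun i => (B2 i).1) (fun i => (B1 i).1)
      (fun i => (B3 i).1) = 1 := fun h h' =>
    K5Phi_one t1 t3 i2 i1 i3 (dsym _ _ D12) D23 D13 a2 a1 a3 e2
      (K5_cone_cons (s := -s) (by linarith) e1 (by rw [hs]; module))
      (K5_cone_cons (s := t - s) (by linarith) e3 (by
        have : y2 = y1 - s • x a := by rw [hs]; abel
        rw [this, ht]; module))
  have case3 : t < 0 → t < s → K5Phi x T a (fun i => (B3 i).1) (fun i => (B1 i).1)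
      (fun i => (B2 i).1) = 1 := fun h h' =>
    K5Phi_one t1 t2 i3 i1 i2 (dsym _ _ D13) (dsym _ _ D23) D12 a3 a1 a2 e3
      (K5_cone_cons (s := -t) (by linarith) e1 (by rw [ht]; module))
      (K5_cone_cons (s := s - t) (by linarith) e2 (by
        have : y3 = y1 - t • x a := by rw [ht]; abel
        rw [this, hs]; module))
  rcases lt_or_gt_of_ne hs0 with h | h
  · rcases lt_or_gt_of_ne hst with h' | h'
    · rw [case2 h h']; linarith
    · rw [case3 (h'.trans h) h']; linarith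
  · rcases lt_or_gt_of_ne ht0 with h' | h'
    · rw [case3 h' (h'.trans h)]; linarith
    · rw [case1 h h']; linarith

private theorem K5_sub (a : V) (G : (Fin 3 → V) → ℝ) (hG : ∀ w, 0 ≤ G w) :
    ∑ w : Fin 3 → LV a, G (fun i => (w i).1) ≤ ∑ w, G w := by
  rw [sum_subtype_tuple]
  exact Finset.sum_le_sum fun w _ => mul_le_of_le_one_left (hG w) (ind_le_one _)

private theorem K5_sub3 (a : V) (G : (Fin 3 → V) → (Fin 3 → V) → (Fin 3 → V) → ℝ)
    (hG : ∀ u v w, 0 ≤ G u v w) :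
    ∑ u : Fin 3 → LV a, ∑ v : Fin 3 → LV a, ∑ w : Fin 3 → LV a,
      G (fun i => (u i).1) (fun i => (v i).1) (fun i => (w i).1) ≤
    ∑ u, ∑ v, ∑ w, G u v w := by
  refine (Finset.sum_le_sum fun u _ => (Finset.sum_le_sum fun v _ =>
    K5_sub a (fun w => G (fun i => (u i).1) (fun i => (v i).1) w) fun w => hG _ _ _).trans
    (K5_sub a (fun v => ∑ w, G (fun i => (u i).1) v w)
      fun v => Finset.sum_nonneg fun w _ => hG _ _ _)).trans ?_
  exact K5_sub a (fun u => ∑ v, ∑ w, G u v w)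
    fun u => Finset.sum_nonneg fun v _ => Finset.sum_nonneg fun w _ => hG _ _ _

end

theorem tr3 {E V : Type} [AddCommGroup E] [Module ℝ E] [Fintype V] {x : V → E}
    {T : (Fin 4 → V) → Prop} (hS : Sys 4 x T) (hG : G3 x) :
    ∑ a, ZZ (lx x a) (lT T a) ≤ 3 * ∑ B1 : Fin 3 → V, ind (Injective B1) * OB4 x T B1 := by
  have h1 : ∀ a, ZZ (lx x a) (lT T a) ≤
      3 * ∑ B1, ∑ B2, ∑ B3, K5Phi x T a B1 B2 B3 := by
    intro a
    have e1 := K5_sub3 a (K5Phi x T a) (K5Phi_nonneg a)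
    have e2 := K5_sub3 a (fun u v w => K5Phi x T a v u w) fun u v w => K5Phi_nonneg a v u w
    have e3 := K5_sub3 a (fun u v w => K5Phi x T a w u v) fun u v w => K5Phi_nonneg a w u v
    have f2 : ∑ u, ∑ v, ∑ w, K5Phi x T a v u w = ∑ u, ∑ v, ∑ w, K5Phi x T a u v w :=
      Finset.sum_comm
    have f3 : ∑ u, ∑ v, ∑ w, K5Phi x T a w u v = ∑ u, ∑ v, ∑ w, K5Phi x T a u v w := by
      rw [Finset.sum_congr rfl fun u _ => Finset.sum_comm]
      exact Finset.sum_comm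
    rw [f2] at e2
    rw [f3] at e3
    have h2 : ZZ (lx x a) (lT T a) ≤
        ∑ u : Fin 3 → LV a, ∑ v : Fin 3 → LV a, ∑ w : Fin 3 → LV a,
        (K5Phi x T a (fun i => (u i).1) (fun i => (v i).1) (fun i => (w i).1) +
          K5Phi x T a (fun i => (v i).1) (fun i => (u i).1) (fun i => (w i).1) +
          K5Phi x T a (fun i => (w i).1) (fun i => (u i).1) (fun i => (v i).1)) :=
      Finset.sum_le_sum fun u _ => Finset.sum_le_sum fun v _ => Finset.sum_le_sum fun w _ =>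
        K5_point hS hG a u v w
    simp only [Finset.sum_add_distrib] at h2
    linarith
  refine (Finset.sum_le_sum fun a _ => h1 a).trans (le_of_eq ?_)
  rw [← Finset.mul_sum, Finset.sum_comm]
  congr 1
  refine Finset.sum_congr rfl fun B1 _ => ?_
  rw [OB4, Finset.mul_sum]
  refine Finset.sum_congr rfl fun a _ => ?_
  rw [Finset.mul_sum]
  refine Finset.sum_congr rfl fun B2 _ => ?_
  rw [Finset.mul_sum]
  rfl

end KS37
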