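import Pool.Agent.LibKS37.A1
import Pool.Agent.LibKS37.A3
import Pool.Agent.LibKS37.A4
import Pool.Agent.LibKS37.Sweep

/-!
# KS37 row P4a: event: the a-coordinate of F2 vanishes
y = av + t qv (t the event time): kap x F2 e 0 y = 0, y ∈ sp x F2 (hgt = 0), so y = Σ_l kap_{l+1}(y) x (B2 l): Cone x B2 y (coordinates positive by Ev), y ∈ sp x B1, and
Hit x (cc a B3) e y (Ev, linearity). So the event implies ∃ y ∈ sp x B1 ⊓ sp x B2, Cone x B2 y ∧ Hit x (cc a B3) e y. For fixed B2 (injective, disjoint from B1) sp x B1 ⊓ sp x B2 has dimension 1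
(`finrank_sp_inf`), so all y with Cone x B2 y in it are positive multiples of one z (if any): (y = c z, coordinates positive ⇒ c>0), Hit x F e y ↔ Hit x F e z.
Σ_{a,B3} ind ≤ Σ_F ind(T F ∧ Hit x F e z) = NN x T z e ≤ K (`sum_cons`; 0 ≤ NN ≤ K if there is no z). Sum over B2: n³.
-/

open Finset Function
open scoped Classical

namespace KS37

section P4a_helpers
variable {E V : Type} [AddCommGroup E] [Module ℝ E] [Fintype V] {x : V → E}
  {T : (Fin 4 → V) → Prop}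

theorem P4a_cc_inj {a : V} {B : Fin 3 → V} (hB : Injective B) (ha : ∀ i, B i ≠ a) :
    Injective (cc a B) := by
  unfold cc
  rw [Fin.cons_injective_iff]
  refine ⟨?_, hB⟩
  rintro ⟨i, hi⟩
  exact ha i hi

theorem P4a_cc_disj {a : V} {B B1 : Fin 3 → V} (hd : Disj B1 B) (ha : ∀ i, B1 i ≠ a) :
    Disj (cc a B) B1 := by
  intro i j
  refine Fin.cases ?_ (fun l => ?_) i
  · exact fun h => ha j h.symm
  · exact fun h => hd j l h.symm

theorem P4a_key (hS : Sys 4 x T) (B1 : Fin 3 → V)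
    {b1 : Fin 3 → Module.Dual ℝ E} {f1 f2 : Module.Dual ℝ E} {e : E}
    (hG : P4Good x B1 b1 f1 f2 e) (a : V) (B2 B3 : Fin 3 → V) (hd : Dist4 B1 a B2 B3)
    (hev : Ev (al4 x B1 b1 f1 f2 e (cc a B2) (cc a B3)) (be4 x B1 b1 f1 f2 e (cc a B2) (cc a B3))
      (Sum.inr (Sum.inl 0))) :
    ∃ y, y ∈ sp x B1 ⊓ sp x B2 ∧ Cone x B2 y ∧ Hit x (cc a B3) e y := by
  obtain ⟨hi2, hi3, h12, h13, h23, ha1, ha2, ha3⟩ := hd
  have hF2i : Injective (cc a B2) := P4a_cc_inj hi2 ha2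
  have hF2d : Disj (cc a B2) B1 := P4a_cc_disj h12 ha1
  have hiso := hG.iso (cc a B2) hF2i hF2d
  have hen := hG.enot (cc a B2) hF2i hF2d
  have hA := (solv_spec hiso 1 0).1
  have hQ := (solv_spec hiso 0 1).1
  set A := av x (sp x B1) f1 f2 (cc a B2) with hAdef
  set Q := qv x (sp x B1) f1 f2 (cc a B2) with hQdef
  have hA' : A ∈ sp x (cc a B2) ⊓ sp x B1 := hA
  have hQ' : Q ∈ sp x (cc a B2) ⊓ sp x B1 := hQ
  have hne : kap x (cc a B2) e 0 Q ≠ 0 := hG.kapq (cc a B2) (cc a B2) hF2i hF2i hF2d hF2d 0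
  set t : ℝ := -(kap x (cc a B2) e 0 A) / kap x (cc a B2) e 0 Q with ht
  set y := A + t • Q with hy
  have hymem : y ∈ sp x (cc a B2) ⊓ sp x B1 :=
    Submodule.add_mem _ hA' (Submodule.smul_mem _ _ hQ')
  have hy0 : kap x (cc a B2) e 0 y = 0 := by
    rw [hy, map_add, map_smul, smul_eq_mul, ht]
    field_simp
    ring
  have hyl : ∀ l : Fin 3, 0 < kap x (cc a B2) e l.succ y := by
    intro l
    have h := hev (Sum.inr (Sum.inl l.succ)) (by
      intro hh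
      have h1 := Sum.inl.inj (Sum.inr.inj hh)
      exact absurd h1 (Fin.succ_ne_zero l))
    rw [hy, map_add, map_smul, smul_eq_mul, mul_comm]
    exact h
  have hyh : Hit x (cc a B3) e y := by
    intro i
    have h := hev (Sum.inr (Sum.inr i)) (by
      intro hh
      have h1 := Sum.inr.inj hh
      exact absurd h1 (by simp))
    rw [hy, map_add, map_smul, smul_eq_mul, mul_comm]
    exact h
  have hg0 : hgt x (cc a B2) e y = 0 := (hgt_eq_zero_iff hS _ hF2i e hen y).2 hymem.1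
  have hsum := kap_sum hS (cc a B2) hF2i e hen y
  rw [hg0, zero_smul, add_zero, Fin.sum_univ_succ, hy0, zero_smul, zero_add] at hsum
  have hcone : Cone x B2 y := ⟨fun l => kap x (cc a B2) e l.succ y, hyl, hsum⟩
  refine ⟨y, ⟨hymem.2, ?_⟩, hcone, hyh⟩
  exact (mem_sp_iff B2 y).2 ⟨_, hsum⟩

theorem P4a_cone_unique (hS : Sys 4 x T) (B1 B2 : Fin 3 → V) (hB1 : Injective B1)
    (hB2 : Injective B2) (hd : Disj B1 B2) {y z : E} (hy : y ∈ sp x B1 ⊓ sp x B2)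
    (hz : z ∈ sp x B1 ⊓ sp x B2) (hcy : Cone x B2 y) (hcz : Cone x B2 z) :
    ∃ c : ℝ, 0 < c ∧ z = c • y := by
  have hfr := finrank_sp_inf hS B1 B2 hB1 hB2 hd (by norm_num) (by norm_num) (by norm_num)
  have hfr1 : Module.finrank ℝ (sp x B1 ⊓ sp x B2 : Submodule ℝ E) = 1 := by omega
  have hli := hS.gp 3 (by norm_num) B2 hB2
  obtain ⟨c, hc, hyc⟩ := hcy
  obtain ⟨d, hdp, hzd⟩ := hcz
  have hy0 : y ≠ 0 := by
    intro h0
    rw [h0] at hyc
    have := Fintype.linearIndependent_iff.1 hli c hyc.symm 0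
    exact absurd this (hc 0).ne'
  have hy0' : (⟨y, hy⟩ : (sp x B1 ⊓ sp x B2 : Submodule ℝ E)) ≠ 0 := by
    intro h
    exact hy0 (congrArg Subtype.val h)
  obtain ⟨s, hs⟩ := (finrank_eq_one_iff_of_nonzero' _ hy0').1 hfr1 ⟨z, hz⟩
  have hs' : s • y = z := congrArg Subtype.val hs
  refine ⟨s, ?_, hs'.symm⟩
  have hcoef : ∀ i, d i - s * c i = 0 := by
    apply Fintype.linearIndependent_iff.1 hli (fun i => d i - s * c i)
    have : ∑ i, (d i - s * c i) • x (B2 i) = z - s • y := by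
      rw [hzd, hyc, Finset.smul_sum, ← Finset.sum_sub_distrib]
      refine Finset.sum_congr rfl (fun i _ => ?_)
      rw [sub_smul, mul_smul]
    rw [this, hs', sub_self]
  have h0 := hcoef 0
  have hc0 := hc 0
  have hd0 := hdp 0
  by_contra hneg
  have hneg' : s ≤ 0 := not_lt.1 hneg
  have : s * c 0 ≤ 0 := mul_nonpos_of_nonpos_of_nonneg hneg' hc0.le
  linarith

theorem P4a_NN_nonneg (p e : E) : 0 ≤ NN x T p e := by
  unfold NN
  exact Finset.sum_nonneg (fun _ _ => ind_nonneg _)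

theorem P4a_fix (hS : Sys 4 x T) (K : ℝ) (hK : ∀ p e, NN x T p e ≤ K)
    (B1 : Fin 3 → V) (hB : Injective B1)
    {b1 : Fin 3 → Module.Dual ℝ E} {f1 f2 : Module.Dual ℝ E} {e : E}
    (hG : P4Good x B1 b1 f1 f2 e) (B2 : Fin 3 → V) :
    ∑ a : V, ∑ B3 : Fin 3 → V,
      ind (Live4 T B1 a B2 B3 ∧
        Ev (al4 x B1 b1 f1 f2 e (cc a B2) (cc a B3)) (be4 x B1 b1 f1 f2 e (cc a B2) (cc a B3))
          (Sum.inr (Sum.inl 0))) ≤ K := by
  by_cases hex : ∃ a B3, Live4 T B1 a B2 B3 ∧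
        Ev (al4 x B1 b1 f1 f2 e (cc a B2) (cc a B3)) (be4 x B1 b1 f1 f2 e (cc a B2) (cc a B3))
          (Sum.inr (Sum.inl 0))
  · obtain ⟨a0, B30, hL0, hE0⟩ := hex
    obtain ⟨z, hz, hcz, -⟩ := P4a_key hS B1 hG a0 B2 B30 hL0.2.2 hE0
    refine le_trans ?_ (hK z e)
    unfold NN
    rw [sum_cons]
    refine Finset.sum_le_sum (fun a _ => Finset.sum_le_sum (fun B3 _ => ind_mono ?_))
    rintro ⟨hL, hE⟩
    obtain ⟨y, hy, hcy, hhy⟩ := P4a_key hS B1 hG a B2 B3 hL.2.2 hE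
    obtain ⟨c, hc, hzc⟩ := P4a_cone_unique hS B1 B2 hB hL.2.2.1 hL.2.2.2.2.1 hy hz hcy hcz
    refine ⟨hL.2.1, ?_⟩
    rw [hzc]
    exact Hit.smul hhy hc
  · have h0 : ∑ a : V, ∑ B3 : Fin 3 → V,
      ind (Live4 T B1 a B2 B3 ∧
        Ev (al4 x B1 b1 f1 f2 e (cc a B2) (cc a B3)) (be4 x B1 b1 f1 f2 e (cc a B2) (cc a B3))
          (Sum.inr (Sum.inl 0))) = 0 := by
      refine Finset.sum_eq_zero (fun a _ => Finset.sum_eq_zero (fun B3 _ => ind_false ?_))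
      intro h
      exact hex ⟨a, B3, h⟩
    rw [h0]
    exact (P4a_NN_nonneg (x := x) (T := T) 0 e).trans (hK 0 e)

end P4a_helpers

theorem p4_a {E V : Type} [AddCommGroup E] [Module ℝ E] [Fintype V] {x : V → E}
    {T : (Fin 4 → V) → Prop} (hS : Sys 4 x T) (K : ℝ) (hK : ∀ p e, NN x T p e ≤ K)
    (B1 : Fin 3 → V) (hB : Injective B1)
    {b1 : Fin 3 → Module.Dual ℝ E} {f1 f2 : Module.Dual ℝ E} {e : E}
    (hG : P4Good x B1 b1 f1 f2 e) :
    EV4 x T B1 b1 f1 f2 e (Sum.inr (Sum.inl 0)) ≤ nn V ^ 3 * K := by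
  unfold EV4
  rw [Finset.sum_comm, ← sum_const_fun V 3 K]
  exact Finset.sum_le_sum (fun B2 _ => P4a_fix hS K hK B1 hB hG B2)

end KS37
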