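import Pool.Agent.LibKS37.A4

/-!
# KS37 row P3g0: dimensions in a rank 3 system (dim E = 4)
First two: `finrank_sp_inf` (3+3-4, and spx x B {i} = sp x (B∘succAbove), 2+3-4). Third: P = sp x B ⊓ sp x B' has dimension 2; dim (P ⊓ sp x B'') ≥ 2+3-4 = 1;
if it were 2 then P ≤ sp x B'', but P contains the line spx x B {0} ⊓ sp x B' ≠ ⊥ while G2 (R = B∘succAbove 0) says
spx x B {0} ⊓ sp x B' ⊓ sp x B'' = ⊥.
-/

open Finset Function
open scoped Classical

namespace KS37

section
variable {E V : Type} [AddCommGroup E] [Module ℝ E] [Fintype V] {x : V → E}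
  {T : (Fin 3 → V) → Prop}

theorem p3_finrank2 (hS : Sys 3 x T) (B B' : Fin 3 → V) (hB : Injective B) (hB' : Injective B')
    (hd : Disj B B') : Module.finrank ℝ (sp x B ⊓ sp x B' : Submodule ℝ E) = 2 := by
  have h := finrank_sp_inf hS B B' hB hB' hd (by norm_num) (by norm_num) (by norm_num)
  omega

theorem p3_finrank1 (hS : Sys 3 x T) (B B' : Fin 3 → V) (hB : Injective B) (hB' : Injective B')
    (hd : Disj B B') (i : Fin 3) :
    Module.finrank ℝ (spx x B {i} ⊓ sp x B' : Submodule ℝ E) = 1 := by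
  rw [spx_single (s := 2) B i]
  have h := finrank_sp_inf hS (fun l : Fin 2 => B (i.succAbove l)) B'
    (hB.comp Fin.succAbove_right_injective) hB' (fun l j => hd _ j) (by norm_num) (by norm_num)
    (by norm_num)
  omega

/-- G2 in terms of `spx`. -/
theorem g2_spx (hG : G2 x) (B B' B'' : Fin 3 → V) (hB : Injective B) (hB' : Injective B')
    (hB'' : Injective B'') (h1 : Disj B B') (h2 : Disj B B'') (h3 : Disj B' B'') (i : Fin 3) :
    spx x B {i} ⊓ sp x B' ⊓ sp x B'' = ⊥ := by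
  rw [spx_single (s := 2) B i]
  exact hG (fun l : Fin 2 => B (i.succAbove l)) B' B'' (hB.comp Fin.succAbove_right_injective)
    hB' hB'' (fun l j => h1 _ j) (fun l j => h2 _ j) h3

theorem p3_finrank_triple (hS : Sys 3 x T) (hG : G2 x) (B B' B'' : Fin 3 → V)
    (hB : Injective B) (hB' : Injective B') (hB'' : Injective B'') (h1 : Disj B B')
    (h2 : Disj B B'') (h3 : Disj B' B'') :
    Module.finrank ℝ (sp x B ⊓ sp x B' ⊓ sp x B'' : Submodule ℝ E) = 1 := by
  haveI := finiteDimensional_of_sys hS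
  have a1 := Submodule.finrank_sup_add_finrank_inf_eq (sp x B ⊓ sp x B') (sp x B'')
  rw [p3_finrank2 hS B B' hB hB' h1, finrank_sp hS (by norm_num) B'' hB''] at a1
  have a2 : Module.finrank ℝ (sp x B ⊓ sp x B' ⊔ sp x B'' : Submodule ℝ E) ≤ 4 := by
    have := Submodule.finrank_le (sp x B ⊓ sp x B' ⊔ sp x B'' : Submodule ℝ E)
    rw [hS.rank] at this
    exact this
  have a3 : Module.finrank ℝ (sp x B ⊓ sp x B' ⊓ sp x B'' : Submodule ℝ E) ≤ 2 := by
    have := Submodule.finrank_mono (inf_le_left : sp x B ⊓ sp x B' ⊓ sp x B'' ≤ sp x B ⊓ sp x B')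
    rwa [p3_finrank2 hS B B' hB hB' h1] at this
  have a4 : Module.finrank ℝ (sp x B ⊓ sp x B' ⊓ sp x B'' : Submodule ℝ E) ≠ 2 := by
    intro h
    have b1 : sp x B ⊓ sp x B' ⊓ sp x B'' = sp x B ⊓ sp x B' :=
      Submodule.eq_of_le_of_finrank_eq inf_le_left
        (by rw [h, p3_finrank2 hS B B' hB hB' h1])
    have b2 : sp x B ⊓ sp x B' ≤ sp x B'' := by
      rw [← b1]; exact inf_le_right
    have b3 : spx x B {0} ⊓ sp x B' ≤ spx x B {0} ⊓ sp x B' ⊓ sp x B'' := by
      refine le_inf le_rfl (le_trans ?_ b2)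
      exact inf_le_inf_right _ (spx_le_sp B {0})
    rw [g2_spx hG B B' B'' hB hB' hB'' h1 h2 h3 0, le_bot_iff] at b3
    have b4 := p3_finrank1 hS B B' hB hB' h1 0
    rw [b3, finrank_bot] at b4
    norm_num at b4
  omega

end

end KS37
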