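import Pool.Agent.LibKS37.A1
import Pool.Agent.LibKS37.P3g0
import Pool.Agent.LibKS37.SweepE

/-!
# KS37 row P3g4: non-degeneracy for triples
If α_j β_l = α_l β_j (j≠l) there is (τ0,τ1) ≠ 0 with y = τ0 a + τ1 q killed by both coordinate functionals (a = av x (sp x B') f1 f2 B, q = qv ...; if both
(α_j,β_j), (α_l,β_l) vanish take any; in general a 2x2 determinant is 0). y ≠ 0 since f1 y = τ0, f2 y = τ1. y ∈ sp x B ⊓ sp x B'.
(B i, B i'): `kap_eq_zero_iff2`: y - s e ∈ spx x B {i,i'} ≤ sp x B, so s=0 (hE.enot), y = c x v, v ∈ B, y ∈ sp x B', so y=0 (`x_notMem_sp`).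
(B' i, B' i'): the same. (B i, B' i'): y ∈ spx x B {i} ⊓ spx x B' {i'} = ⊥ (`sp_inf_eq_bot`, 2+2 ≤ 4).
(B i, B'' j): y ∈ spx x B {i} ⊓ sp x B', y - s e ∈ spx x B'' {j}: s≠0: hE.e4; s=0: spx x B {i} ⊓ spx x B'' {j} = ⊥.
(B' i, B'' j): y ∈ spx x B' {i} ⊓ sp x B; the same with hE.e4 for (B', B).
(B'' j, B'' j'): y - s e ∈ spx x B'' {j,j'} = ℝ x v: s≠0: hE.e5; s=0: y = c x v ∈ sp x B, v ∉ B: y=0.
-/

open Finset Function
open scoped Classical

namespace KS37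

section
variable {E V : Type} [AddCommGroup E] [Module ℝ E] [Fintype V] {r : ℕ} {x : V → E}
  {T : (Fin r → V) → Prop}

theorem P3g4_e {P Q : Submodule ℝ E} {y e : E} {s : ℝ} (hy : y ∈ P) (hQ : y - s • e ∈ Q)
    (he : e ∉ P ⊔ Q) : s = 0 := by
  by_contra hs
  apply he
  have h1 : e = s⁻¹ • (y - (y - s • e)) := by
    rw [sub_sub_cancel, smul_smul, inv_mul_cancel₀ hs, one_smul]
  rw [h1]
  exact Submodule.smul_mem _ _ (Submodule.sub_mem _ (Submodule.mem_sup_left hy)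
    (Submodule.mem_sup_right hQ))

theorem P3g4_e' {P Q : Submodule ℝ E} {y e : E} {s : ℝ} (hy : y ∈ P) (hQ : y - s • e ∈ Q)
    (hPQ : Q ≤ P) (he : e ∉ P) : s = 0 := by
  apply P3g4_e hy hQ
  rwa [sup_eq_left.2 hPQ]

/-- the vertex set of a tuple without the indices of `I`. -/
noncomputable def P3g4_A {s : ℕ} (B : Fin s → V) (I : Finset (Fin s)) : Finset V :=
  (Iᶜ).image B

theorem P3g4_le {s : ℕ} (B : Fin s → V) (I : Finset (Fin s)) :
    spx x B (I : Set (Fin s)) = vs x (P3g4_A B I : Set V) := by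
  unfold P3g4_A
  rw [spx_eq_vs]
  congr 1
  rw [Finset.coe_image, Finset.coe_compl]

theorem P3g4_card {s : ℕ} (B : Fin s → V) (I : Finset (Fin s)) :
    (P3g4_A B I).card ≤ s - I.card := by
  unfold P3g4_A
  refine Finset.card_image_le.trans ?_
  rw [Finset.card_compl, Fintype.card_fin]

theorem P3g4_disj {s s' : ℕ} {B : Fin s → V} {B' : Fin s' → V} (hd : Disj B B')
    (I : Finset (Fin s)) (I' : Finset (Fin s')) : Disjoint (P3g4_A B I) (P3g4_A B' I') := by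
  rw [Finset.disjoint_left]
  intro a ha ha'
  obtain ⟨i, _, hi⟩ := Finset.mem_image.1 ha
  obtain ⟨j, _, hj⟩ := Finset.mem_image.1 ha'
  exact hd i j (hi.trans hj.symm)

theorem P3g4_bot (hS : Sys r x T) {s s' : ℕ} {B : Fin s → V} {B' : Fin s' → V} (hd : Disj B B')
    (I : Finset (Fin s)) (I' : Finset (Fin s')) (h : (s - I.card) + (s' - I'.card) ≤ r + 1) {y : E}
    (hy : y ∈ spx x B (I : Set (Fin s))) (hy' : y ∈ spx x B' (I' : Set (Fin s'))) : y = 0 := by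
  rw [P3g4_le] at hy hy'
  have h1 := vs_inf_eq_bot hS _ _ (P3g4_disj hd I I')
    (le_trans (Nat.add_le_add (P3g4_card B I) (P3g4_card B' I')) h)
  have h2 : y ∈ vs x (P3g4_A B I : Set V) ⊓ vs x (P3g4_A B' I' : Set V) := ⟨hy, hy'⟩
  rw [h1] at h2
  exact (Submodule.mem_bot ℝ).1 h2

theorem P3g4_sp {s : ℕ} (B : Fin s → V) : sp x B = spx x B ((∅ : Finset (Fin s)) : Set (Fin s)) := by
  unfold sp spx
  rw [Finset.coe_empty, Set.compl_empty, Set.image_univ]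

theorem P3g4_two {f g : E →ₗ[ℝ] ℝ} {a q : E} (h : f a * g q = g a * f q) :
    ∃ t0 t1 : ℝ, (t0 ≠ 0 ∨ t1 ≠ 0) ∧ f (t0 • a + t1 • q) = 0 ∧ g (t0 • a + t1 • q) = 0 := by
  have hv : ∀ (φ : E →ₗ[ℝ] ℝ) (t0 t1 : ℝ), φ (t0 • a + t1 • q) = t0 * φ a + t1 * φ q := by
    intro φ t0 t1
    rw [map_add, map_smul, map_smul, smul_eq_mul, smul_eq_mul]
  by_cases h1 : f a = 0 ∧ f q = 0
  · by_cases h2 : g a = 0 ∧ g q = 0
    · refine ⟨1, 0, Or.inl one_ne_zero, ?_, ?_⟩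
      · rw [hv, h1.1, h1.2]; ring
      · rw [hv, h2.1, h2.2]; ring
    · refine ⟨g q, -g a, ?_, ?_, ?_⟩
      · by_contra h3
        push Not at h3
        exact h2 ⟨neg_eq_zero.1 h3.2, h3.1⟩
      · rw [hv, h1.1, h1.2]; ring
      · rw [hv]; ring
  · refine ⟨f q, -f a, ?_, ?_, ?_⟩
    · by_contra h3
      push Not at h3
      exact h1 ⟨neg_eq_zero.1 h3.2, h3.1⟩
    · rw [hv]; ring
    · rw [hv]; linarith

end

theorem P3g4_third : ∀ j j' : Fin 3, j ≠ j' → ∃ m : Fin 3, ∀ l, l ≠ j → l ≠ j' → l = m := by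
  decide

section
variable {E V : Type} [AddCommGroup E] [Module ℝ E] [Fintype V] {x : V → E}
  {T : (Fin 3 → V) → Prop}

theorem P3g4_c (i : Fin 3) : (({i} : Finset (Fin 3)) : Set (Fin 3)) = {i} := by
  rw [Finset.coe_singleton]

theorem P3g4_c2 (i j : Fin 3) : (({i, j} : Finset (Fin 3)) : Set (Fin 3)) = {i, j} := by
  rw [Finset.coe_insert, Finset.coe_singleton]

/-- (B i, B i') -/
theorem P3g4_BB (hS : Sys 3 x T) {B B' : Fin 3 → V} (hB : Injective B) {e : E}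
    (he : e ∉ sp x B) (hd : Disj B B') {i i' : Fin 3} (hi : i ≠ i') {y : E}
    (hy : y ∈ sp x B ⊓ sp x B') (h1 : kap x B e i y = 0) (h2 : kap x B e i' y = 0) : y = 0 := by
  obtain ⟨s, hs⟩ := (kap_eq_zero_iff2 hS B hB e he i i' y).1 ⟨h1, h2⟩
  have h0 := P3g4_e' hy.1 hs (spx_le_sp B _) he
  rw [h0, zero_smul, sub_zero, ← P3g4_c2] at hs
  have h3 := hy.2
  rw [P3g4_sp] at h3
  refine P3g4_bot hS hd {i, i'} ∅ ?_ hs h3
  rw [Finset.card_pair hi, Finset.card_empty]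

/-- (B i, B' i') -/
theorem P3g4_BB' (hS : Sys 3 x T) {B B' : Fin 3 → V} (hB : Injective B) (hB' : Injective B')
    {e : E} (he : e ∉ sp x B) (he' : e ∉ sp x B') (hd : Disj B B') {i i' : Fin 3} {y : E}
    (hy : y ∈ sp x B ⊓ sp x B') (h1 : kap x B e i y = 0) (h2 : kap x B' e i' y = 0) : y = 0 := by
  obtain ⟨s, hs⟩ := (kap_eq_zero_iff hS B hB e he i y).1 h1
  obtain ⟨s', hs'⟩ := (kap_eq_zero_iff hS B' hB' e he' i' y).1 h2
  have h0 := P3g4_e' hy.1 hs (spx_le_sp B _) he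
  have h0' := P3g4_e' hy.2 hs' (spx_le_sp B' _) he'
  rw [h0, zero_smul, sub_zero, ← P3g4_c] at hs
  rw [h0', zero_smul, sub_zero, ← P3g4_c] at hs'
  refine P3g4_bot hS hd {i} {i'} ?_ hs hs'
  rw [Finset.card_singleton, Finset.card_singleton]

/-- (B i, B'' j) -/
theorem P3g4_BC (hS : Sys 3 x T) {B B' B'' : Fin 3 → V} (hB : Injective B)
    (hB'' : Injective B'') {e : E} (he : e ∉ sp x B) (he'' : e ∉ sp x B'') (hd : Disj B B'')
    {i j : Fin 3} (he4 : e ∉ (spx x B {i} ⊓ sp x B') ⊔ spx x B'' {j}) {y : E}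
    (hy : y ∈ sp x B ⊓ sp x B') (h1 : kap x B e i y = 0) (h2 : kap x B'' e j y = 0) : y = 0 := by
  obtain ⟨s, hs⟩ := (kap_eq_zero_iff hS B hB e he i y).1 h1
  obtain ⟨s', hs'⟩ := (kap_eq_zero_iff hS B'' hB'' e he'' j y).1 h2
  have h0 := P3g4_e' hy.1 hs (spx_le_sp B _) he
  rw [h0, zero_smul, sub_zero] at hs
  have h0' := P3g4_e (P := spx x B {i} ⊓ sp x B') ⟨hs, hy.2⟩ hs' he4
  rw [h0', zero_smul, sub_zero, ← P3g4_c] at hs'
  rw [← P3g4_c] at hs
  refine P3g4_bot hS hd {i} {j} ?_ hs hs'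
  rw [Finset.card_singleton, Finset.card_singleton]

/-- (B'' j, B'' j') -/
theorem P3g4_CC (hS : Sys 3 x T) {B B' B'' : Fin 3 → V}
    (hB'' : Injective B'') {e : E} (he'' : e ∉ sp x B'') (hd : Disj B'' B)
    {j j' : Fin 3} (hj : j ≠ j')
    (he5 : ∀ v, e ∉ (sp x B ⊓ sp x B') ⊔ Submodule.span ℝ {x v}) {y : E}
    (hy : y ∈ sp x B ⊓ sp x B') (h1 : kap x B'' e j y = 0) (h2 : kap x B'' e j' y = 0) :
    y = 0 := by
  obtain ⟨s, hs⟩ := (kap_eq_zero_iff2 hS B'' hB'' e he'' j j' y).1 ⟨h1, h2⟩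
  obtain ⟨m, hm⟩ := P3g4_third j j' hj
  have h3 : spx x B'' {j, j'} ≤ Submodule.span ℝ {x (B'' m)} := by
    unfold spx
    apply Submodule.span_mono
    rintro z ⟨l, hl, rfl⟩
    have h4 : l = m := by
      apply hm
      · rintro rfl; exact hl (Or.inl rfl)
      · rintro rfl; exact hl (Or.inr rfl)
    rw [h4]; rfl
  have h0 := P3g4_e hy (h3 hs) (he5 (B'' m))
  rw [h0, zero_smul, sub_zero, ← P3g4_c2] at hs
  have h5 := hy.1
  rw [P3g4_sp] at h5
  refine P3g4_bot hS hd {j, j'} ∅ ?_ hs h5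
  rw [Finset.card_pair hj, Finset.card_empty]

end

theorem p3_nd {E V : Type} [AddCommGroup E] [Module ℝ E] [Fintype V] {x : V → E}
    {T : (Fin 3 → V) → Prop} (hS : Sys 3 x T) {f1 f2 : Module.Dual ℝ E} {e : E}
    (hE : P3E x f1 f2 e) (B B' B'' : Fin 3 → V) (hB : Injective B) (hB' : Injective B')
    (hB'' : Injective B'') (h1 : Disj B B') (h2 : Disj B B'') (h3 : Disj B' B'') :
    Nondeg (al3 x f1 f2 e B B' B'') (be3 x f1 f2 e B B' B'') := by
  have hsym : ∀ {s s' : ℕ} {C : Fin s → V} {C' : Fin s' → V}, Disj C C' → Disj C' C :=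
    fun h i j h' => h j i h'.symm
  have he := hE.enot B hB
  have he' := hE.enot B' hB'
  have he'' := hE.enot B'' hB''
  have hiso := hE.iso B B' hB hB' h1
  have ha := solv_spec hiso 1 0
  have hq := solv_spec hiso 0 1
  -- the coordinate functionals
  let φ : Fin 3 ⊕ (Fin 3 ⊕ Fin 3) → E →ₗ[ℝ] ℝ :=
    Sum.elim (fun i => kap x B e i) (Sum.elim (fun i => kap x B' e i) (fun i => kap x B'' e i))
  have hα : ∀ j, al3 x f1 f2 e B B' B'' j = φ j (av x (sp x B') f1 f2 B) := by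
    rintro (i | i | i) <;> rfl
  have hβ : ∀ j, be3 x f1 f2 e B B' B'' j = φ j (qv x (sp x B') f1 f2 B) := by
    rintro (i | i | i) <;> rfl
  have key : ∀ j l, j ≠ l → ∀ y ∈ sp x B ⊓ sp x B', φ j y = 0 → φ l y = 0 → y = 0 := by
    rintro (i | i | i) (l | l | l) hne y hy hj hl
    · exact P3g4_BB hS hB he h1 (fun h => hne (by rw [h])) hy hj hl
    · exact P3g4_BB' hS hB hB' he he' h1 hy hj hl
    · exact P3g4_BC hS hB hB'' he he'' h2 (hE.e4 B B' hB hB' h1 i B'' hB'' l) hy hj hl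
    · exact P3g4_BB' hS hB hB' he he' h1 hy hl hj
    · exact P3g4_BB hS hB' he' (hsym h1) (fun h => hne (by rw [h])) hy.symm hj hl
    · exact P3g4_BC hS hB' hB'' he' he'' h3 (hE.e4 B' B hB' hB (hsym h1) i B'' hB'' l)
        hy.symm hj hl
    · exact P3g4_BC hS hB hB'' he he'' h2 (hE.e4 B B' hB hB' h1 l B'' hB'' i) hy hl hj
    · exact P3g4_BC hS hB' hB'' he' he'' h3 (hE.e4 B' B hB' hB (hsym h1) l B'' hB'' i)
        hy.symm hl hj
    · exact P3g4_CC hS hB'' he'' (hsym h2) (fun h => hne (by rw [h]))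
        (fun v => hE.e5 B B' hB hB' h1 v) hy hj hl
  intro j l hjl heq
  rw [hα, hα, hβ, hβ] at heq
  obtain ⟨t0, t1, ht, hf, hg⟩ := P3g4_two heq
  have hy : t0 • av x (sp x B') f1 f2 B + t1 • qv x (sp x B') f1 f2 B ∈ sp x B ⊓ sp x B' :=
    Submodule.add_mem _ (Submodule.smul_mem _ _ ha.1) (Submodule.smul_mem _ _ hq.1)
  have h0 := key j l hjl _ hy hf hg
  have hf1 := congrArg f1 h0
  have hf2 := congrArg f2 h0
  unfold av qv at hf1 hf2
  rw [map_add, map_smul, map_smul, ha.2.1, hq.2.1, map_zero] at hf1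
  rw [map_add, map_smul, map_smul, ha.2.2, hq.2.2, map_zero] at hf2
  simp only [smul_eq_mul, mul_one, mul_zero, add_zero, zero_add] at hf1 hf2
  rcases ht with ht | ht
  · exact ht hf1
  · exact ht hf2

end KS37
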