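import Pool.Agent.LibKS37.A4
import Pool.Agent.LibKS37.P3g4
import Pool.Agent.LibKS37.Sweep

/-!
# KS37 row P4g0: dimensions in a rank 4 system (dim E = 5), B1 : Fin 3 → V, F : Fin 4 → V disjoint from B1
`finrank_sp_inf`: 4+3-5 = 2, 3+3-5 = 1, 4+2-5 = 1. Last: sp x F2 ⊓ sp x B1 and sp x F3 ⊓ sp x B1 are 2-dimensional subspaces of the 3-dimensional sp x B1, so their
intersection has dimension ≥ 1; if it were 2 then sp x F2 ⊓ sp x B1 ≤ sp x F3; but it contains sp x B2 ⊓ sp x B1 ≠ ⊥ (dimension 1) and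
G3: sp x B1 ⊓ sp x B2 ⊓ sp x (cc a B3) = ⊥. `g3_pairs`: the four cases of c_j, d_k (page 6): i=0 means F2 without a = B2.
 i=0,j=0: sp x B2 ⊓ sp x B3 ⊓ sp x B1 ≤ G3. i=0, j≠0: spx x (cc a B3) {j} ≤ sp x (cc a B3). i≠0, j=0: G3 with B2, B3 exchanged.
 i≠0, j≠0: y = α x a + (two of B2) = α' x a + (two of B3), five independent vectors, so y = α x a ∈ sp x B1, so y = 0.
-/

open Finset Function
open scoped Classical

namespace KS37

section
variable {E V : Type} [AddCommGroup E] [Module ℝ E] [Fintype V] {x : V → E}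
  {T : (Fin 4 → V) → Prop}

theorem P4g0_cc {V : Type} {a : V} {B1 B2 : Fin 3 → V} (hB2 : Injective B2) (h12 : Disj B1 B2)
    (ha1 : ∀ i, B1 i ≠ a) (ha2 : ∀ i, B2 i ≠ a) :
    Injective (cc a B2) ∧ Disj (cc a B2) B1 := by
  unfold cc
  refine ⟨?_, ?_⟩
  · rw [Fin.cons_injective_iff]
    exact ⟨fun ⟨i, hi⟩ => ha2 i hi, hB2⟩
  · intro i j
    refine Fin.cases ?_ (fun i => ?_) i
    · rw [Fin.cons_zero]; exact (ha1 j).symm
    · rw [Fin.cons_succ]; exact (h12 j i).symm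

theorem P4g0_le (a : V) (B : Fin 3 → V) : sp x B ≤ sp x (cc a B) := by
  unfold sp
  apply Submodule.span_mono
  rintro z ⟨l, rfl⟩
  exact ⟨l.succ, by simp only [cc, Fin.cons_succ]⟩

theorem P4g0_zero (a : V) (B : Fin 3 → V) : spx x (cc a B) {0} = sp x B := by
  rw [spx_single]
  congr 1

/-- splitting off `x a`. -/
theorem P4g0_split (a : V) (B : Fin 3 → V) (i : Fin 3) {y : E}
    (hy : y ∈ spx x (cc a B) {i.succ}) : ∃ α : ℝ, y - α • x a ∈ spx x B {i} := by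
  obtain ⟨c, hc, hy2⟩ := (mem_spx_iff (cc a B) _ y).1 hy
  refine ⟨c 0, (mem_spx_iff B _ _).2 ⟨fun l => c l.succ, ?_, ?_⟩⟩
  · intro l hl
    rw [Set.mem_singleton_iff] at hl
    rw [hl]; exact hc _ rfl
  · rw [hy2, Fin.sum_univ_succ]
    simp only [cc, Fin.cons_zero, Fin.cons_succ]
    rw [add_sub_cancel_left]

theorem P4g0_a (a : V) (B : Fin 3 → V) (j : Fin 3) : x a ∈ spx x (cc a B) {j.succ} := by
  unfold spx
  apply Submodule.subset_span
  refine ⟨0, ?_, ?_⟩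
  · intro h
    rw [Set.mem_singleton_iff] at h
    exact (Fin.succ_ne_zero j) h.symm
  · simp only [cc, Fin.cons_zero]

theorem p4_finrank2 (hS : Sys 4 x T) (B1 : Fin 3 → V) (F : Fin 4 → V) (hB : Injective B1)
    (hF : Injective F) (hd : Disj F B1) :
    Module.finrank ℝ (sp x F ⊓ sp x B1 : Submodule ℝ E) = 2 := by
  have h := finrank_sp_inf hS F B1 hF hB hd (by norm_num) (by norm_num) (by norm_num)
  omega

theorem p4_finrank1 (hS : Sys 4 x T) (B1 : Fin 3 → V) (F : Fin 4 → V) (hB : Injective B1)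
    (hF : Injective F) (hd : Disj F B1) (i : Fin 4) :
    Module.finrank ℝ (spx x F {i} ⊓ sp x B1 : Submodule ℝ E) = 1 := by
  rw [spx_single]
  have h := finrank_sp_inf hS (fun l => F (i.succAbove l)) B1
    (hF.comp Fin.succAbove_right_injective) hB (fun l m => hd _ m) (by norm_num) (by norm_num)
    (by norm_num)
  omega

theorem p4_finrank_edge (hS : Sys 4 x T) (B1 : Fin 3 → V) (F : Fin 4 → V) (hB : Injective B1)
    (hF : Injective F) (hd : Disj F B1) (k : Fin 3) :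
    Module.finrank ℝ (sp x F ⊓ spx x B1 {k} : Submodule ℝ E) = 1 := by
  rw [spx_single]
  have h := finrank_sp_inf hS F (fun l => B1 (k.succAbove l)) hF
    (hB.comp Fin.succAbove_right_injective) (fun l m => hd l _) (by norm_num) (by norm_num)
    (by norm_num)
  omega

theorem p4_finrank_dbl (hS : Sys 4 x T) (hG : G3 x) (B1 : Fin 3 → V) (hB : Injective B1)
    (a : V) (B2 B3 : Fin 3 → V) (hD : Dist4 B1 a B2 B3) :
    Module.finrank ℝ (sp x (cc a B2) ⊓ sp x (cc a B3) ⊓ sp x B1 : Submodule ℝ E) = 1 := by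
  haveI := finiteDimensional_of_sys hS
  obtain ⟨hB2, hB3, h12, h13, h23, ha1, ha2, ha3⟩ := id hD
  obtain ⟨i2, d2⟩ := P4g0_cc hB2 h12 ha1 ha2
  obtain ⟨i3, d3⟩ := P4g0_cc hB3 h13 ha1 ha3
  have hP2 := p4_finrank2 hS B1 (cc a B2) hB i2 d2
  have hP3 := p4_finrank2 hS B1 (cc a B3) hB i3 d3
  have h0 : sp x (cc a B2) ⊓ sp x (cc a B3) ⊓ sp x B1 =
      (sp x (cc a B2) ⊓ sp x B1) ⊓ (sp x (cc a B3) ⊓ sp x B1) := by
    ext y
    simp only [Submodule.mem_inf]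
    tauto
  rw [h0]
  have h1 := Submodule.finrank_sup_add_finrank_inf_eq (sp x (cc a B2) ⊓ sp x B1)
    (sp x (cc a B3) ⊓ sp x B1)
  rw [hP2, hP3] at h1
  have h2 : Module.finrank ℝ ((sp x (cc a B2) ⊓ sp x B1) ⊔ (sp x (cc a B3) ⊓ sp x B1) :
      Submodule ℝ E) ≤ 3 := by
    have h3 := finrank_sp hS (by norm_num) B1 hB
    exact (Submodule.finrank_mono (sup_le inf_le_right inf_le_right)).trans h3.le
  have h4 : Module.finrank ℝ ((sp x (cc a B2) ⊓ sp x B1) ⊓ (sp x (cc a B3) ⊓ sp x B1) :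
      Submodule ℝ E) ≤ 2 := by
    exact (Submodule.finrank_mono inf_le_left).trans hP2.le
  have h5 : Module.finrank ℝ ((sp x (cc a B2) ⊓ sp x B1) ⊓ (sp x (cc a B3) ⊓ sp x B1) :
      Submodule ℝ E) ≠ 2 := by
    intro h6
    have h7 : (sp x (cc a B2) ⊓ sp x B1) ⊓ (sp x (cc a B3) ⊓ sp x B1) =
        sp x (cc a B2) ⊓ sp x B1 :=
      Submodule.eq_of_le_of_finrank_eq inf_le_left (by rw [h6, hP2])
    have h8 := finrank_sp_inf hS B2 B1 hB2 hB (fun i j h => h12 j i h.symm) (by norm_num)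
      (by norm_num) (by norm_num)
    have h9 : sp x B2 ⊓ sp x B1 = ⊥ := by
      rw [eq_bot_iff]
      intro y hy
      have h10 : y ∈ sp x (cc a B2) ⊓ sp x B1 := ⟨P4g0_le a B2 hy.1, hy.2⟩
      rw [← h7] at h10
      have h11 := hG a B1 B2 B3 hB hB2 hB3 h12 h13 h23 ha1 ha2 ha3
      rw [← h11]
      exact ⟨⟨hy.2, hy.1⟩, h10.2.1⟩
    rw [h9, finrank_bot] at h8
    omega
  omega

theorem g3_pairs (hS : Sys 4 x T) (hG : G3 x) (B1 : Fin 3 → V) (hB : Injective B1)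
    (a : V) (B2 B3 : Fin 3 → V) (hD : Dist4 B1 a B2 B3) (i j : Fin 4) :
    spx x (cc a B2) {i} ⊓ spx x (cc a B3) {j} ⊓ sp x B1 = ⊥ := by
  obtain ⟨hB2, hB3, h12, h13, h23, ha1, ha2, ha3⟩ := id hD
  have h32 : Disj B3 B2 := fun i j h => h23 j i h.symm
  obtain ⟨i3, d3⟩ := P4g0_cc hB3 h23 ha2 ha3
  rw [eq_bot_iff]
  rintro y ⟨⟨hy1, hy2⟩, hy3⟩
  rw [Submodule.mem_bot]
  rcases Fin.eq_zero_or_eq_succ i with rfl | ⟨i', rfl⟩
  · rw [P4g0_zero] at hy1
    have h11 := hG a B1 B2 B3 hB hB2 hB3 h12 h13 h23 ha1 ha2 ha3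
    have h12 : y ∈ sp x B1 ⊓ sp x B2 ⊓ sp x (Fin.cons a B3 : Fin 4 → V) :=
      ⟨⟨hy3, hy1⟩, spx_le_sp _ _ hy2⟩
    rw [h11] at h12
    exact (Submodule.mem_bot ℝ).1 h12
  · rcases Fin.eq_zero_or_eq_succ j with rfl | ⟨j', rfl⟩
    · rw [P4g0_zero] at hy2
      have h11 := hG a B1 B3 B2 hB hB3 hB2 h13 h12 h32 ha1 ha3 ha2
      have h12 : y ∈ sp x B1 ⊓ sp x B3 ⊓ sp x (Fin.cons a B2 : Fin 4 → V) :=
        ⟨⟨hy3, hy2⟩, spx_le_sp _ _ hy1⟩
      rw [h11] at h12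
      exact (Submodule.mem_bot ℝ).1 h12
    · obtain ⟨α, hα⟩ := P4g0_split a B2 i' hy1
      have h14 : y - α • x a ∈ spx x (cc a B3) {j'.succ} :=
        Submodule.sub_mem _ hy2 (Submodule.smul_mem _ _ (P4g0_a a B3 j'))
      have h15 : y - α • x a = 0 := by
        refine P3g4_bot hS (fun i j h => d3 j i h.symm) {i'} {j'.succ} ?_ ?_ ?_
        · rw [Finset.card_singleton, Finset.card_singleton]
        · rw [Finset.coe_singleton]; exact hα
        · rw [Finset.coe_singleton]; exact h14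
      have h16 : y ∈ sp x (fun _ : Fin 1 => a) := by
        rw [sub_eq_zero.1 h15]
        exact Submodule.smul_mem _ _ (Submodule.subset_span ⟨0, rfl⟩)
      rw [P3g4_sp] at h16 hy3
      refine P3g4_bot hS (fun _ i h => ha1 i h.symm) ∅ ∅ ?_ h16 hy3
      simp

end

end KS37
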