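import Pool.Agent.LibKS37.A1
import Pool.Agent.LibKS37.P4g0
import Pool.Agent.LibKS37.SweepE

/-!
# KS37 row P4g2: kap1, kapq, hq
q = qv x (sp x B1) f1 f2 F ∈ sp x F ⊓ sp x B1, f1 q = 0, f2 q = 1, q ≠ 0. `b1_sum`: for y ∈ sp x B1, y = Σ b1 k y • x (B1 k); so b1 k y = 0 iff y ∈ spx x B1 {k}.
kap1: b1 k q = 0 → q ∈ spx x B1 {k}: hE.edge gives q = 0. kapq: q - s e ∈ spx x F' {j}, both in sp x B1: s≠0: e ∈ span{q} ⊔ ..: hE.e3; s=0: hE.ridge gives q = 0.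
hq: q ∈ sp x (cc a B3): hE.dbl gives q = 0.
-/

open Finset Function
open scoped Classical

namespace KS37

/-- the vector `q` -/
private theorem P4g2_q {E V : Type} [AddCommGroup E] [Module ℝ E] {x : V → E}
    {B1 : Fin 3 → V} {b1 : Fin 3 → Module.Dual ℝ E} {f1 f2 : Module.Dual ℝ E} {e : E}
    (hE : P4E x B1 b1 f1 f2 e) (F : Fin 4 → V) (hF : Injective F) (hd : Disj F B1) :
    qv x (sp x B1) f1 f2 F ∈ sp x F ∧ qv x (sp x B1) f1 f2 F ∈ sp x B1 ∧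
      f1 (qv x (sp x B1) f1 f2 F) = 0 ∧ qv x (sp x B1) f1 f2 F ≠ 0 := by
  obtain ⟨h1, h2, h3⟩ := solv_spec (hE.iso F hF hd) 0 1
  refine ⟨h1.1, h1.2, h2, fun h0 => ?_⟩
  have h4 : f2 (qv x (sp x B1) f1 f2 F) = 1 := h3
  rw [h0, map_zero] at h4
  exact zero_ne_one h4

private theorem P4g2_cc {V : Type} {a : V} {B1 B : Fin 3 → V} (hB : Injective B)
    (hd : Disj B1 B) (ha : ∀ i, B1 i ≠ a) (hb : ∀ i, B i ≠ a) :
    Injective (cc a B) ∧ Disj (cc a B) B1 := by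
  constructor
  · unfold cc
    rw [Fin.cons_injective_iff]
    exact ⟨fun ⟨i, hi⟩ => hb i hi, hB⟩
  · intro i j
    unfold cc
    refine Fin.cases ?_ (fun l => ?_) i
    · rw [Fin.cons_zero]
      exact (ha j).symm
    · rw [Fin.cons_succ]
      exact (hd j l).symm

theorem b1_sum {E V : Type} [AddCommGroup E] [Module ℝ E] [Fintype V] {x : V → E}
    {T : (Fin 4 → V) → Prop} (hS : Sys 4 x T)
    (B1 : Fin 3 → V) {b1 : Fin 3 → Module.Dual ℝ E}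
    (hb : ∀ k l, b1 k (x (B1 l)) = if k = l then 1 else 0) (y : E) (hy : y ∈ sp x B1) :
    y = ∑ k, b1 k y • x (B1 k) := by
  obtain ⟨c, hc⟩ := (mem_sp_iff B1 y).1 hy
  have h1 : ∀ k, b1 k y = c k := by
    intro k
    rw [hc, map_sum, Finset.sum_eq_single k]
    · rw [map_smul, hb, if_pos rfl, smul_eq_mul, mul_one]
    · intro l _ hl
      rw [map_smul, hb, if_neg (Ne.symm hl), smul_zero]
    · intro h
      exact absurd (Finset.mem_univ k) h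
  rw [Finset.sum_congr rfl fun k _ => by rw [h1 k]]
  exact hc

theorem p4_kap1 {E V : Type} [AddCommGroup E] [Module ℝ E] [Fintype V] {x : V → E}
    {T : (Fin 4 → V) → Prop} (hS : Sys 4 x T) (B1 : Fin 3 → V) (hB : Injective B1)
    {b1 : Fin 3 → Module.Dual ℝ E} {f1 f2 : Module.Dual ℝ E} {e : E}
    (hE : P4E x B1 b1 f1 f2 e) (F : Fin 4 → V) (hF : Injective F) (hd : Disj F B1) (k : Fin 3) :
    b1 k (qv x (sp x B1) f1 f2 F) ≠ 0 := by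
  obtain ⟨h1, h2, h3, h4⟩ := P4g2_q hE F hF hd
  intro h0
  apply h4
  refine hE.edge F hF hd k _ ⟨h1, ?_⟩ h3
  apply (mem_spx_iff B1 {k} _).2
  refine ⟨fun l => b1 l (qv x (sp x B1) f1 f2 F), ?_, b1_sum hS B1 hE.dual _ h2⟩
  intro i hi
  rw [Set.mem_singleton_iff] at hi
  rw [hi]
  exact h0

theorem p4_kapq {E V : Type} [AddCommGroup E] [Module ℝ E] [Fintype V] {x : V → E}
    {T : (Fin 4 → V) → Prop} (hS : Sys 4 x T) (B1 : Fin 3 → V) (hB : Injective B1)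
    {b1 : Fin 3 → Module.Dual ℝ E} {f1 f2 : Module.Dual ℝ E} {e : E}
    (hE : P4E x B1 b1 f1 f2 e) (F F' : Fin 4 → V) (hF : Injective F) (hF' : Injective F')
    (hd : Disj F B1) (hd' : Disj F' B1) (j : Fin 4) :
    kap x F' e j (qv x (sp x B1) f1 f2 F) ≠ 0 := by
  obtain ⟨h1, h2, h3, h4⟩ := P4g2_q hE F hF hd
  intro h0
  obtain ⟨s, hs⟩ := (kap_eq_zero_iff hS F' hF' e (hE.enot F' hF' hd') j _).1 h0
  have h5 : qv x (sp x B1) f1 f2 F - s • e ∈ sp x B1 :=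
    Submodule.sub_mem _ h2 (Submodule.smul_mem _ _ hE.eU)
  by_cases hs0 : s = 0
  · rw [hs0, zero_smul, sub_zero] at hs
    exact h4 (hE.ridge F' hF' hd' j _ ⟨hs, h2⟩ h3)
  · apply hE.e3 F F' hF hF' hd hd' j
    have h6 : e = s⁻¹ • (qv x (sp x B1) f1 f2 F - (qv x (sp x B1) f1 f2 F - s • e)) := by
      rw [sub_sub_cancel, smul_smul, inv_mul_cancel₀ hs0, one_smul]
    rw [h6]
    apply Submodule.smul_mem
    apply Submodule.sub_mem
    · exact Submodule.mem_sup_left (Submodule.mem_span_singleton_self _)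
    · exact Submodule.mem_sup_right ⟨hs, h5⟩

theorem p4_hq {E V : Type} [AddCommGroup E] [Module ℝ E] [Fintype V] {x : V → E}
    {T : (Fin 4 → V) → Prop} (hS : Sys 4 x T) (B1 : Fin 3 → V) (hB : Injective B1)
    {b1 : Fin 3 → Module.Dual ℝ E} {f1 f2 : Module.Dual ℝ E} {e : E}
    (hE : P4E x B1 b1 f1 f2 e) (a : V) (B2 B3 : Fin 3 → V) (hD : Dist4 B1 a B2 B3) :
    hgt x (cc a B3) e (qv x (sp x B1) f1 f2 (cc a B2)) ≠ 0 := by
  obtain ⟨hB2, hB3, h12, h13, -, ha1, ha2, ha3⟩ := id hD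
  obtain ⟨i2, d2⟩ := P4g2_cc hB2 h12 ha1 ha2
  obtain ⟨i3, d3⟩ := P4g2_cc hB3 h13 ha1 ha3
  obtain ⟨h1, h2, h3, h4⟩ := P4g2_q hE (cc a B2) i2 d2
  intro h0
  have h5 := (hgt_eq_zero_iff hS (cc a B3) i3 e (hE.enot _ i3 d3) _).1 h0
  exact h4 (hE.dbl a B2 B3 hD _ ⟨⟨h1, h5⟩, h2⟩ h3)

end KS37
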