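import Pool.Agent.LibKS37.A1
import Pool.Agent.LibKS37.A3
import Pool.Agent.LibKS37.A4
import Pool.Agent.LibKS37.P4g2
import Pool.Agent.LibKS37.Sweep

/-!
# KS37 row P4b: event: a B1-coordinate vanishes
y = av + t qv ∈ sp x B1, b1 k y = 0, the other two positive: y = α x (B1 c) + β x (B1 d), c = k.succAbove 0, d = k.succAbove 1, α, β > 0 (`b1_sum`); all F2-coordinates positive,
y ∈ sp x F2: Cone x F2 y. (1/α) y = x (B1 c) + (β/α) x (B1 d): Hit x F2 (x (B1 d)) (x (B1 c)) (`hit_iff`; x (B1 d) ∉ sp x F2 by `x_notMem_sp`, s ≤ r: 4 ≤ 4).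
So Σ_{a,B2} ind ≤ NN x T (x (B1 c)) (x (B1 d)) ≤ K for every B3 (`sum_cons`); sum over B3: n³.
-/

open Finset Function
open scoped Classical

namespace KS37

theorem P4b_disj {V : Type} {B1 B2 : Fin 3 → V} {a : V} (h1 : Disj B1 B2)
    (h2 : ∀ i, B1 i ≠ a) : Disj (cc a B2) B1 := by
  intro i j
  refine Fin.cases ?_ (fun i => ?_) i
  · exact (h2 j).symm
  · exact (h1 j i).symm

theorem P4b_hit {E V : Type} [AddCommGroup E] [Module ℝ E] [Fintype V] {x : V → E}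
    {T : (Fin 4 → V) → Prop} (hS : Sys 4 x T) (B1 : Fin 3 → V)
    {b1 : Fin 3 → Module.Dual ℝ E} {f1 f2 : Module.Dual ℝ E} {e : E}
    (hG : P4Good x B1 b1 f1 f2 e) (k : Fin 3) (a : V) (B2 B3 : Fin 3 → V)
    (hL : Live4 T B1 a B2 B3)
    (hEv : Ev (al4 x B1 b1 f1 f2 e (cc a B2) (cc a B3)) (be4 x B1 b1 f1 f2 e (cc a B2) (cc a B3))
      (Sum.inl k)) :
    Hit x (cc a B2) (x (B1 (k.succAbove 1))) (x (B1 (k.succAbove 0))) := by
  obtain ⟨hT2, hT3, hB2, hB3, h12, h13, h23, ha1, ha2, ha3⟩ := hL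
  have hF2 := hS.inj _ hT2
  have hd2 : Disj (cc a B2) B1 := P4b_disj h12 ha1
  have he2 := hG.enot _ hF2 hd2
  have hiso := hG.iso _ hF2 hd2
  have hav : av x (sp x B1) f1 f2 (cc a B2) ∈ sp x (cc a B2) ⊓ sp x B1 := (solv_spec hiso 1 0).1
  have hqv : qv x (sp x B1) f1 f2 (cc a B2) ∈ sp x (cc a B2) ⊓ sp x B1 := (solv_spec hiso 0 1).1
  have hβ := hG.kap1 _ hF2 hd2 k
  obtain ⟨t, ht⟩ : ∃ t : ℝ, t = -al4 x B1 b1 f1 f2 e (cc a B2) (cc a B3) (Sum.inl k) /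
    be4 x B1 b1 f1 f2 e (cc a B2) (cc a B3) (Sum.inl k) := ⟨_, rfl⟩
  obtain ⟨p, hp⟩ : ∃ p : E, p = av x (sp x B1) f1 f2 (cc a B2) +
    t • qv x (sp x B1) f1 f2 (cc a B2) := ⟨_, rfl⟩
  have hlin : ∀ g : E →ₗ[ℝ] ℝ, g p = g (av x (sp x B1) f1 f2 (cc a B2)) +
      g (qv x (sp x B1) f1 f2 (cc a B2)) * t := by
    intro g
    rw [hp, map_add, map_smul, smul_eq_mul, mul_comm]
  have hpmem : p ∈ sp x (cc a B2) ⊓ sp x B1 := by
    rw [hp]
    exact Submodule.add_mem _ hav (Submodule.smul_mem _ _ hqv)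
  have hk0 : b1 k p = 0 := by
    rw [hlin, ht]
    simp only [al4, be4, Sum.elim_inl]
    field_simp
    ring
  have hk1 : ∀ l : Fin 3, l ≠ k → 0 < b1 l p := by
    intro l hl
    rw [hlin, ht]
    exact hEv (Sum.inl l) (fun h => hl (Sum.inl_injective h))
  have hk2 : ∀ l : Fin 4, 0 < kap x (cc a B2) e l p := by
    intro l
    rw [hlin, ht]
    exact hEv (Sum.inr (Sum.inl l)) (fun h => Sum.inr_ne_inl h)
  have hcone : Cone x (cc a B2) p :=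
    (cone_iff_kap hS (cc a B2) hF2 e he2 p).2 ⟨hpmem.1, hk2⟩
  have hsum := b1_sum hS B1 hG.dual p hpmem.2
  rw [Fin.sum_univ_succAbove _ k, hk0, zero_smul, zero_add, Fin.sum_univ_two] at hsum
  have hα : 0 < b1 (k.succAbove 0) p := hk1 _ (Fin.succAbove_ne k 0)
  have hnot : x (B1 (k.succAbove 1)) ∉ sp x (cc a B2) :=
    x_notMem_sp hS (le_refl 4) (cc a B2) hF2 _ (fun i => hd2 i _)
  rw [hit_iff hS (cc a B2) hF2 _ hnot]
  refine ⟨(b1 (k.succAbove 0) p)⁻¹ * b1 (k.succAbove 1) p, ?_⟩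
  have h1 := hcone.smul (inv_pos.2 hα)
  have h2 : (b1 (k.succAbove 0) p)⁻¹ • p = x (B1 (k.succAbove 0)) +
      ((b1 (k.succAbove 0) p)⁻¹ * b1 (k.succAbove 1) p) • x (B1 (k.succAbove 1)) := by
    have key : ∀ (α β : ℝ) (u v q : E), 0 < α → q = α • u + β • v →
        α⁻¹ • q = u + (α⁻¹ * β) • v := by
      intro α β u v q h0 h
      rw [h, smul_add, smul_smul, smul_smul, inv_mul_cancel₀ h0.ne', one_smul]
    exact key _ _ _ _ _ hα hsum
  rw [h2] at h1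
  exact h1

theorem p4_b {E V : Type} [AddCommGroup E] [Module ℝ E] [Fintype V] {x : V → E}
    {T : (Fin 4 → V) → Prop} (hS : Sys 4 x T) (K : ℝ) (hK : ∀ p e, NN x T p e ≤ K)
    (B1 : Fin 3 → V) (hB : Injective B1)
    {b1 : Fin 3 → Module.Dual ℝ E} {f1 f2 : Module.Dual ℝ E} {e : E}
    (hG : P4Good x B1 b1 f1 f2 e) (k : Fin 3) :
    EV4 x T B1 b1 f1 f2 e (Sum.inl k) ≤ nn V ^ 3 * K := by
  have hbound : ∀ B3 : Fin 3 → V, ∑ a : V, ∑ B2 : Fin 3 → V,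
      ind (Live4 T B1 a B2 B3 ∧
        Ev (al4 x B1 b1 f1 f2 e (cc a B2) (cc a B3)) (be4 x B1 b1 f1 f2 e (cc a B2) (cc a B3))
          (Sum.inl k)) ≤ K := by
    intro B3
    refine le_trans ?_ (hK (x (B1 (k.succAbove 0))) (x (B1 (k.succAbove 1))))
    unfold NN
    rw [sum_cons]
    refine Finset.sum_le_sum fun a _ => Finset.sum_le_sum fun B2 _ => ind_mono ?_
    rintro ⟨hL, hEv⟩
    exact ⟨hL.1, P4b_hit hS B1 hG k a B2 B3 hL hEv⟩
  unfold EV4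
  rw [Finset.sum_congr rfl fun a _ => Finset.sum_comm, Finset.sum_comm]
  refine (Finset.sum_le_sum fun B3 _ => hbound B3).trans ?_
  rw [sum_const_fun]

end KS37
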