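import Pool.Agent.LibKS37.A1
import Pool.Agent.LibKS37.A3
import Pool.Agent.LibKS37.A4
import Pool.Agent.LibKS37.Sweep

/-!
# KS37 row P4d: event: the a-coordinate of F3 vanishes
p = av + t qv ∈ sp x F2 ⊓ sp x B1, all b1- and F2-coordinates positive, kap x F3 e 0 p = 0, the other F3-coordinates positive. z' := p - (hgt x F3 e p) e = Σ_l kap_{l+1}(p) x (B3 l):
Cone x B3 z', z' ∈ sp x B1 (p, e ∈ sp x B1). kap x F2 e i z' = kap x F2 e i p > 0 (`kap_e`): Hit x F2 e z'. As in P4a with (B3, F2) in place of (B2, F3): for fixed B3 Σ_{a,B2} ≤ K.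
-/

open Finset Function
open scoped Classical

namespace KS37

theorem P4d_disj {V : Type} {B1 B2 : Fin 3 → V} {a : V} (h1 : Disj B1 B2)
    (h2 : ∀ i, B1 i ≠ a) : Disj (cc a B2) B1 := by
  intro i j
  refine Fin.cases ?_ (fun i => ?_) i
  · exact (h2 j).symm
  · exact (h1 j i).symm

theorem P4d_ray {E V : Type} [AddCommGroup E] [Module ℝ E] [Fintype V] {x : V → E}
    {T : (Fin 4 → V) → Prop} (hS : Sys 4 x T) (B1 B3 : Fin 3 → V) (hB1 : Injective B1)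
    (hB3 : Injective B3) (hd : Disj B1 B3) :
    ∃ z : E, ∀ y ∈ sp x B1, Cone x B3 y → ∃ c : ℝ, 0 < c ∧ y = c • z := by
  by_cases h : ∃ z ∈ sp x B1, Cone x B3 z
  · obtain ⟨z, hz1, hz2⟩ := h
    refine ⟨z, fun y hy1 hy2 => ?_⟩
    have hfr := finrank_sp_inf hS B1 B3 hB1 hB3 hd (by norm_num) (by norm_num) (by norm_num)
    have hfr1 : Module.finrank ℝ (sp x B1 ⊓ sp x B3 : Submodule ℝ E) = 1 := by omega
    have hli := hS.gp 3 (by norm_num) B3 hB3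
    obtain ⟨c, hc, hzc⟩ := hz2
    obtain ⟨c', hc', hyc⟩ := hy2
    have hz3 : z ∈ sp x B3 := (mem_sp_iff B3 z).2 ⟨c, hzc⟩
    have hy3 : y ∈ sp x B3 := (mem_sp_iff B3 y).2 ⟨c', hyc⟩
    rw [Fintype.linearIndependent_iff] at hli
    have hz0 : z ≠ 0 := by
      intro h0
      rw [h0] at hzc
      have := hli c hzc.symm 0
      exact (hc 0).ne' this
    have hz0' : (⟨z, ⟨hz1, hz3⟩⟩ : (sp x B1 ⊓ sp x B3 : Submodule ℝ E)) ≠ 0 := by
      intro h0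
      exact hz0 (congrArg Subtype.val h0)
    obtain ⟨t, ht⟩ := (finrank_eq_one_iff_of_nonzero' _ hz0').1 hfr1 ⟨y, ⟨hy1, hy3⟩⟩
    have ht' : t • z = y := congrArg Subtype.val ht
    have h1 : ∑ i, (t * c i - c' i) • x (B3 i) = 0 := by
      simp only [sub_smul, mul_smul, Finset.sum_sub_distrib, ← Finset.smul_sum]
      rw [← hzc, ← hyc, ht', sub_self]
    have h2 : t * c 0 = c' 0 := sub_eq_zero.1 (hli _ h1 0)
    refine ⟨t, ?_, ht'.symm⟩
    have h3 : 0 < t * c 0 := by rw [h2]; exact hc' 0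
    exact pos_of_mul_pos_left h3 (hc 0).le
  · exact ⟨0, fun y hy1 hy2 => absurd ⟨y, hy1, hy2⟩ h⟩

theorem P4d_hit {E V : Type} [AddCommGroup E] [Module ℝ E] [Fintype V] {x : V → E}
    {T : (Fin 4 → V) → Prop} (hS : Sys 4 x T) (B1 : Fin 3 → V)
    {b1 : Fin 3 → Module.Dual ℝ E} {f1 f2 : Module.Dual ℝ E} {e : E}
    (hG : P4Good x B1 b1 f1 f2 e) (a : V) (B2 B3 : Fin 3 → V) (hL : Live4 T B1 a B2 B3)
    (hEv : Ev (al4 x B1 b1 f1 f2 e (cc a B2) (cc a B3)) (be4 x B1 b1 f1 f2 e (cc a B2) (cc a B3))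
      (Sum.inr (Sum.inr 0))) :
    ∃ y ∈ sp x B1, Cone x B3 y ∧ Hit x (cc a B2) e y := by
  obtain ⟨hT2, hT3, hB2, hB3, h12, h13, h23, ha1, ha2, ha3⟩ := hL
  have hF2 := hS.inj _ hT2
  have hF3 := hS.inj _ hT3
  have hd2 : Disj (cc a B2) B1 := P4d_disj h12 ha1
  have hd3 : Disj (cc a B3) B1 := P4d_disj h13 ha1
  have he2 := hG.enot _ hF2 hd2
  have he3 := hG.enot _ hF3 hd3
  have hiso := hG.iso _ hF2 hd2
  have hav : av x (sp x B1) f1 f2 (cc a B2) ∈ sp x (cc a B2) ⊓ sp x B1 := (solv_spec hiso 1 0).1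
  have hqv : qv x (sp x B1) f1 f2 (cc a B2) ∈ sp x (cc a B2) ⊓ sp x B1 := (solv_spec hiso 0 1).1
  have hβ := hG.kapq _ _ hF2 hF3 hd2 hd3 0
  obtain ⟨t, ht⟩ : ∃ t : ℝ, t = -al4 x B1 b1 f1 f2 e (cc a B2) (cc a B3) (Sum.inr (Sum.inr 0)) /
    be4 x B1 b1 f1 f2 e (cc a B2) (cc a B3) (Sum.inr (Sum.inr 0)) := ⟨_, rfl⟩
  obtain ⟨p, hp⟩ : ∃ p : E, p = av x (sp x B1) f1 f2 (cc a B2) +
    t • qv x (sp x B1) f1 f2 (cc a B2) := ⟨_, rfl⟩
  have hlin : ∀ g : E →ₗ[ℝ] ℝ, g p = g (av x (sp x B1) f1 f2 (cc a B2)) +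
      g (qv x (sp x B1) f1 f2 (cc a B2)) * t := by
    intro g
    rw [hp, map_add, map_smul, smul_eq_mul, mul_comm]
  have hpmem : p ∈ sp x (cc a B2) ⊓ sp x B1 := by
    rw [hp]
    exact Submodule.add_mem _ hav (Submodule.smul_mem _ _ hqv)
  have hk0 : kap x (cc a B3) e 0 p = 0 := by
    rw [hlin, ht]
    simp only [al4, be4, Sum.elim_inr]
    field_simp
    ring
  have hk3 : ∀ l : Fin 3, 0 < kap x (cc a B3) e l.succ p := by
    intro l
    rw [hlin, ht]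
    exact hEv (Sum.inr (Sum.inr l.succ)) (by
      intro h
      exact Fin.succ_ne_zero l (Sum.inr_injective (Sum.inr_injective h)))
  have hk2 : ∀ l : Fin 4, 0 < kap x (cc a B2) e l p := by
    intro l
    rw [hlin, ht]
    exact hEv (Sum.inr (Sum.inl l)) (by
      intro h
      exact Sum.inl_ne_inr (Sum.inr_injective h))
  have hsum := kap_sum hS (cc a B3) hF3 e he3 p
  refine ⟨p - hgt x (cc a B3) e p • e, ?_, ?_, ?_⟩
  · exact Submodule.sub_mem _ hpmem.2 (Submodule.smul_mem _ _ hG.eU)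
  · refine ⟨fun l => kap x (cc a B3) e l.succ p, hk3, ?_⟩
    rw [Fin.sum_univ_succ, hk0, zero_smul, zero_add] at hsum
    exact sub_eq_iff_eq_add.2 hsum
  · intro i
    rw [map_sub, map_smul, (kap_e hS (cc a B2) hF2 e he2).1 i, smul_zero, sub_zero]
    exact hk2 i

theorem p4_d {E V : Type} [AddCommGroup E] [Module ℝ E] [Fintype V] {x : V → E}
    {T : (Fin 4 → V) → Prop} (hS : Sys 4 x T) (K : ℝ) (hK : ∀ p e, NN x T p e ≤ K)
    (B1 : Fin 3 → V) (hB : Injective B1)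
    {b1 : Fin 3 → Module.Dual ℝ E} {f1 f2 : Module.Dual ℝ E} {e : E}
    (hG : P4Good x B1 b1 f1 f2 e) :
    EV4 x T B1 b1 f1 f2 e (Sum.inr (Sum.inr 0)) ≤ nn V ^ 3 * K := by
  have hK0 : 0 ≤ K := by
    refine le_trans ?_ (hK 0 0)
    exact Finset.sum_nonneg fun _ _ => ind_nonneg _
  have hbound : ∀ B3 : Fin 3 → V, ∑ a : V, ∑ B2 : Fin 3 → V,
      ind (Live4 T B1 a B2 B3 ∧
        Ev (al4 x B1 b1 f1 f2 e (cc a B2) (cc a B3)) (be4 x B1 b1 f1 f2 e (cc a B2) (cc a B3))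
          (Sum.inr (Sum.inr 0))) ≤ K := by
    intro B3
    by_cases h : Injective B3 ∧ Disj B1 B3
    · obtain ⟨z, hz⟩ := P4d_ray hS B1 B3 hB h.1 h.2
      refine le_trans ?_ (hK z e)
      unfold NN
      rw [sum_cons]
      refine Finset.sum_le_sum fun a _ => Finset.sum_le_sum fun B2 _ => ind_mono ?_
      rintro ⟨hL, hEv⟩
      obtain ⟨y, hy1, hy2, hy3⟩ := P4d_hit hS B1 hG a B2 B3 hL hEv
      obtain ⟨c, hc, hyc⟩ := hz y hy1 hy2
      refine ⟨hL.1, ?_⟩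
      have h1 := hy3.smul (inv_pos.2 hc)
      rw [hyc, smul_smul, inv_mul_cancel₀ hc.ne', one_smul] at h1
      exact h1
    · refine le_trans (le_of_eq ?_) hK0
      refine Finset.sum_eq_zero fun a _ => Finset.sum_eq_zero fun B2 _ => ind_false ?_
      rintro ⟨hL, _⟩
      exact h ⟨hL.2.2.2.1, hL.2.2.2.2.2.1⟩
  unfold EV4
  rw [Finset.sum_congr rfl fun a _ => Finset.sum_comm, Finset.sum_comm]
  refine (Finset.sum_le_sum fun B3 _ => hbound B3).trans ?_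
  rw [sum_const_fun]

end KS37
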