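import Pool.Agent.LibKS37.G2
import Pool.Agent.LibKS37.Sweep

/-!
# KS37 row P4ga: groups on the side of F2, vertex in B2
For fixed a, B3 and every w : Fin 3 → V: |Σ_u W4 a (update w j u) B3 (inr (inl j.succ))| ≤ 9: cc a (update w j u) = update (cc a w) j.succ u (`Fin.cons_update`). If T (cc a B3),
the part of Dist4 not involving w j, fails then all terms are 0; otherwise live iff T (update (cc a w) j.succ u) ∧ u ∉ X, X = image B1 ∪ image B3 ∪ {a} (≤ 7;
injectivity of update w j u follows from T, hS.inj). `ga` with r=4, U = sp x B1, h = hgt x (cc a B3) e, side y := (∀ k, 0 < b1 k y) ∧ ∀ i, 0 < kap x (cc a B3) e i y; h1: hG.ridge,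
h2: hG.enot, hG.iso, hG.kapq. `group_sum` (K=9): 9 n², then sums over B3 (n³) and a (n).
-/

open Finset Function
open scoped Classical

namespace KS37

theorem P4ga_disj {V : Type} (B1 : Fin 3 → V) (a : V) (B2 : Fin 3 → V) (h1 : Disj B1 B2)
    (h2 : ∀ i, B1 i ≠ a) : Disj (cc a B2) B1 := by
  intro i j
  unfold cc
  refine Fin.cases ?_ (fun l => ?_) i
  · rw [Fin.cons_zero]
    exact fun h => h2 j h.symm
  · rw [Fin.cons_succ]
    exact fun h => h1 j l h.symm

theorem P4ga_X {V : Type} [Fintype V] (B B' : Fin 3 → V) (a : V) :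
    ((Finset.univ.image B ∪ Finset.univ.image B' ∪ {a} : Finset V).card : ℝ) ≤ 7 := by
  have h := Finset.card_image_le (s := (Finset.univ : Finset (Fin 3))) (f := B)
  have h' := Finset.card_image_le (s := (Finset.univ : Finset (Fin 3))) (f := B')
  rw [Finset.card_univ, Fintype.card_fin] at h h'
  have h2 := Finset.card_union_le (Finset.univ.image B) (Finset.univ.image B')
  have h3 := Finset.card_union_le (Finset.univ.image B ∪ Finset.univ.image B') {a}
  rw [Finset.card_singleton] at h3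
  have : (Finset.univ.image B ∪ Finset.univ.image B' ∪ {a}).card ≤ 7 := by omega
  exact_mod_cast this

theorem P4ga_cc {V : Type} (a : V) (w : Fin 3 → V) (j : Fin 3) (u : V) :
    cc a (update w j u) = update (cc a w) j.succ u := by
  unfold cc
  funext i
  refine Fin.cases ?_ (fun l => ?_) i
  · rw [Fin.cons_zero, update_of_ne (Ne.symm (Fin.succ_ne_zero j)), Fin.cons_zero]
  · rw [Fin.cons_succ]
    by_cases h : l = j
    · subst h
      rw [update_self, update_self]
    · rw [update_of_ne h, update_of_ne (fun e => h (Fin.succ_injective _ e)), Fin.cons_succ]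

/-- the live objects of a group -/
theorem P4ga_live {E V : Type} [AddCommGroup E] [Module ℝ E] [Fintype V] {x : V → E}
    {T : (Fin 4 → V) → Prop} (hS : Sys 4 x T) (B1 : Fin 3 → V) (a : V) (B3 w : Fin 3 → V) (j : Fin 3)
    (hi3 : Injective B3) (hd13 : Disj B1 B3) (ha1 : ∀ i, B1 i ≠ a) (ha3 : ∀ i, B3 i ≠ a)
    (hw1 : ∀ l, l ≠ j → ∀ i, B1 i ≠ w l) (hw3 : ∀ l, l ≠ j → ∀ i, B3 i ≠ w l)
    (hwa : ∀ l, l ≠ j → w l ≠ a) (u : V) :
    (T (cc a (update w j u)) ∧ Injective (update w j u) ∧ Injective B3 ∧ Disj B1 (update w j u) ∧ Disj B1 B3 ∧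
      Disj (update w j u) B3 ∧ (∀ i, B1 i ≠ a) ∧ (∀ i, update w j u i ≠ a) ∧ (∀ i, B3 i ≠ a)) ↔
      (T (update (cc a w) j.succ u) ∧ u ∉ Finset.univ.image B1 ∪ Finset.univ.image B3 ∪ {a}) := by
  rw [← P4ga_cc a w j u]
  constructor
  · rintro ⟨h1, h2, h3, h4, h5, h6, h7, h8, h9⟩
    refine ⟨h1, ?_⟩
    intro hu
    rcases Finset.mem_union.1 hu with hu | hu
    · rcases Finset.mem_union.1 hu with hu | hu
      · obtain ⟨i, _, hi⟩ := Finset.mem_image.1 hu
        exact h4 i j (by rw [update_self]; exact hi)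
      · obtain ⟨i, _, hi⟩ := Finset.mem_image.1 hu
        exact h6 j i (by rw [update_self]; exact hi.symm)
    · exact h8 j (by rw [update_self]; exact Finset.mem_singleton.1 hu)
  · rintro ⟨h1, hu⟩
    have hu1 : ∀ i, B1 i ≠ u := fun i hi => hu (Finset.mem_union_left _ (Finset.mem_union_left _
      (Finset.mem_image.2 ⟨i, Finset.mem_univ i, hi⟩)))
    have hu3 : ∀ i, B3 i ≠ u := fun i hi => hu (Finset.mem_union_left _ (Finset.mem_union_right _
      (Finset.mem_image.2 ⟨i, Finset.mem_univ i, hi⟩)))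
    have hua : u ≠ a := fun h => hu (Finset.mem_union_right _ (Finset.mem_singleton.2 h))
    have hinj := hS.inj _ h1
    refine ⟨h1, ?_, hi3, ?_, hd13, ?_, ha1, ?_, ha3⟩
    · intro l l' h
      have h2 : cc a (update w j u) l.succ = cc a (update w j u) l'.succ := by
        unfold cc
        rw [Fin.cons_succ, Fin.cons_succ]
        exact h
      exact Fin.succ_injective _ (hinj h2)
    · intro i l
      by_cases hl : l = j
      · subst hl
        rw [update_self]
        exact hu1 i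
      · rw [update_of_ne hl]
        exact hw1 l hl i
    · intro l i
      by_cases hl : l = j
      · subst hl
        rw [update_self]
        exact fun h => hu3 i h.symm
      · rw [update_of_ne hl]
        exact fun h => hw3 l hl i h.symm
    · intro l
      by_cases hl : l = j
      · subst hl
        rw [update_self]
        exact hua
      · rw [update_of_ne hl]
        exact hwa l hl

theorem P4ga_spx {E V : Type} [AddCommGroup E] [Module ℝ E] {r : ℕ} (x : V → E)
    (w : Fin r → V) (i : Fin r) (u : V) : spx x (update w i u) {i} = spx x w {i} := by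
  unfold spx
  congr 1
  apply Set.image_congr
  intro l hl
  have : l ≠ i := fun h => hl (by rw [h]; exact Set.mem_singleton i)
  rw [update_of_ne this]

/-- one group -/
theorem P4ga_group {E V : Type} [AddCommGroup E] [Module ℝ E] [Fintype V] {x : V → E}
    {T : (Fin 4 → V) → Prop} (hS : Sys 4 x T) (B1 : Fin 3 → V)
    {b1 : Fin 3 → Module.Dual ℝ E} {f1 f2 : Module.Dual ℝ E} {e : E}
    (hG : P4Good x B1 b1 f1 f2 e) (j : Fin 3) (a : V) (B3 w : Fin 3 → V) :
    |∑ u, W4 x T B1 b1 f1 f2 e a (update w j u) B3 (Sum.inr (Sum.inl j.succ))| ≤ 9 := by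
  have hzero : (∀ u, ¬ Live4 T B1 a (update w j u) B3) →
      |∑ u, W4 x T B1 b1 f1 f2 e a (update w j u) B3 (Sum.inr (Sum.inl j.succ))| ≤ 9 := by
    intro h
    rw [Finset.sum_eq_zero, abs_zero]
    · norm_num
    · intro u _
      unfold W4
      rw [ind_false (h u), zero_mul]
  by_cases hA : T (cc a B3) ∧ Injective B3 ∧ Disj B1 B3 ∧ (∀ i, B1 i ≠ a) ∧ (∀ i, B3 i ≠ a)
  swap
  · exact hzero fun u h => hA ⟨h.2.1, h.2.2.2.1, h.2.2.2.2.2.1, h.2.2.2.2.2.2.2.1, h.2.2.2.2.2.2.2.2.2⟩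
  obtain ⟨hT3, hi3, hd13, ha1, ha3⟩ := hA
  by_cases hw1 : ∀ l, l ≠ j → ∀ i, B1 i ≠ w l
  swap
  · push Not at hw1
    obtain ⟨l, hl, i, hi⟩ := hw1
    exact hzero fun u h => h.2.2.2.2.1 i l (by rw [update_of_ne hl]; exact hi)
  by_cases hw3 : ∀ l, l ≠ j → ∀ i, B3 i ≠ w l
  swap
  · push Not at hw3
    obtain ⟨l, hl, i, hi⟩ := hw3
    exact hzero fun u h => h.2.2.2.2.2.2.1 l i (by rw [update_of_ne hl]; exact hi.symm)
  by_cases hwa : ∀ l, l ≠ j → w l ≠ a
  swap
  · push Not at hwa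
    obtain ⟨l, hl, hi⟩ := hwa
    exact hzero fun u h => h.2.2.2.2.2.2.2.2.1 l (by rw [update_of_ne hl]; exact hi)
  have hlive := P4ga_live hS B1 a B3 w j hi3 hd13 ha1 ha3 hw1 hw3 hwa
  have hlive' : ∀ u, Live4 T B1 a (update w j u) B3 ↔
      (T (update (cc a w) j.succ u) ∧ u ∉ Finset.univ.image B1 ∪ Finset.univ.image B3 ∪ {a}) := by
    intro u
    rw [← hlive u]
    unfold Live4 Dist4
    constructor
    · rintro ⟨h1, _, h3⟩
      exact ⟨h1, h3⟩
    · rintro ⟨h1, h3⟩
      exact ⟨h1, hT3, h3⟩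
  by_cases hex : ∃ u, Live4 T B1 a (update w j u) B3
  swap
  · exact hzero fun u h => hex ⟨u, h⟩
  obtain ⟨u0, hu0⟩ := hex
  have hdisj : ∀ u, Live4 T B1 a (update w j u) B3 → Disj (update (cc a w) j.succ u) B1 := by
    intro u h
    rw [← P4ga_cc a w j u]
    exact P4ga_disj B1 a _ h.2.2.2.2.1 ha1
  have hF3 := hS.inj _ hT3
  have hF31 := P4ga_disj B1 a B3 hd13 ha1
  have hga := ga hS (sp x B1) f1 f2 (hgt x (cc a B3) e) e (cc a w) j.succ
    (Finset.univ.image B1 ∪ Finset.univ.image B3 ∪ {a})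
    (fun y => (∀ k, 0 < b1 k y) ∧ ∀ i, 0 < kap x (cc a B3) e i y)
    (by
      rw [← P4ga_spx x (cc a w) j.succ u0]
      exact hG.ridge _ (hS.inj _ ((hlive' u0).1 hu0).1) (hdisj u0 hu0) j.succ)
    (fun u hT hX => by
      have hl := (hlive' u).2 ⟨hT, hX⟩
      have hinj := hS.inj _ hT
      have hd := hdisj u hl
      exact ⟨hG.enot _ hinj hd, hG.iso _ hinj hd, hG.kapq _ _ hinj hinj hd hd j.succ⟩)
  have hX := P4ga_X B1 B3 a
  refine le_trans (le_of_eq ?_) (hga.trans (by linarith))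
  congr 1
  refine Finset.sum_congr rfl fun u _ => ?_
  unfold W4
  rw [P4ga_cc a w j u]
  have hiff : Live4 T B1 a (update w j u) B3 ∧
      Ev (al4 x B1 b1 f1 f2 e (update (cc a w) j.succ u) (cc a B3))
        (be4 x B1 b1 f1 f2 e (update (cc a w) j.succ u) (cc a B3)) (Sum.inr (Sum.inl j.succ)) ↔
      (T (update (cc a w) j.succ u) ∧ u ∉ Finset.univ.image B1 ∪ Finset.univ.image B3 ∪ {a} ∧
        EvB x (update (cc a w) j.succ u) e j.succ (solv (sp x (update (cc a w) j.succ u) ⊓ sp x B1) f1 f2 1 0)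
          (solv (sp x (update (cc a w) j.succ u) ⊓ sp x B1) f1 f2 0 1) ∧
        (fun y => (∀ k, 0 < b1 k y) ∧ ∀ i, 0 < kap x (cc a B3) e i y)
          (solv (sp x (update (cc a w) j.succ u) ⊓ sp x B1) f1 f2 1 0 +
          tz x (update (cc a w) j.succ u) e j.succ (solv (sp x (update (cc a w) j.succ u) ⊓ sp x B1) f1 f2 1 0)
            (solv (sp x (update (cc a w) j.succ u) ⊓ sp x B1) f1 f2 0 1) •
            solv (sp x (update (cc a w) j.succ u) ⊓ sp x B1) f1 f2 0 1)) := by
    rw [hlive' u, and_assoc]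
    constructor
    · rintro ⟨h1, h3, h5⟩
      refine ⟨h1, h3, ?_, ?_, ?_⟩
      · intro l hl
        exact h5 (Sum.inr (Sum.inl l)) (fun h => hl (Sum.inl_injective (Sum.inr_injective h)))
      · intro k
        have := h5 (Sum.inl k) (by simp)
        rw [map_add, map_smul, smul_eq_mul, mul_comm (tz _ _ _ _ _ _)]
        exact this
      · intro i
        have := h5 (Sum.inr (Sum.inr i)) (by simp)
        rw [map_add, map_smul, smul_eq_mul, mul_comm (tz _ _ _ _ _ _)]
        exact this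
    · rintro ⟨h1, h3, h5, h6, h7⟩
      refine ⟨h1, h3, ?_⟩
      rintro (k | l | i) hl
      · have := h6 k
        rw [map_add, map_smul, smul_eq_mul, mul_comm (tz _ _ _ _ _ _)] at this
        exact this
      · exact h5 l (fun h => hl (by rw [h]))
      · have := h7 i
        rw [map_add, map_smul, smul_eq_mul, mul_comm (tz _ _ _ _ _ _)] at this
        exact this
  rw [← mul_assoc, ← ind_and, ind_congr hiff]
  rfl

theorem p4_ga {E V : Type} [AddCommGroup E] [Module ℝ E] [Fintype V] {x : V → E}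
    {T : (Fin 4 → V) → Prop} (hS : Sys 4 x T) (B1 : Fin 3 → V) (hB : Injective B1)
    {b1 : Fin 3 → Module.Dual ℝ E} {f1 f2 : Module.Dual ℝ E} {e : E}
    (hG : P4Good x B1 b1 f1 f2 e) (j : Fin 3) :
    |∑ a : V, ∑ B2 : Fin 3 → V, ∑ B3 : Fin 3 → V,
        W4 x T B1 b1 f1 f2 e a B2 B3 (Sum.inr (Sum.inl j.succ))| ≤ 9 * nn V ^ 6 := by
  have h0 : ∀ a : V, |∑ B2 : Fin 3 → V, ∑ B3 : Fin 3 → V,
      W4 x T B1 b1 f1 f2 e a B2 B3 (Sum.inr (Sum.inl j.succ))| ≤ nn V ^ 3 * (9 * nn V ^ (3 - 1)) := by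
    intro a
    rw [Finset.sum_comm]
    refine (Finset.abs_sum_le_sum_abs _ _).trans ?_
    have h1 : ∀ B3 ∈ (Finset.univ : Finset (Fin 3 → V)),
        |∑ B2 : Fin 3 → V, W4 x T B1 b1 f1 f2 e a B2 B3 (Sum.inr (Sum.inl j.succ))| ≤ 9 * nn V ^ (3 - 1) := by
      intro B3 _
      exact group_sum (fun B2 => W4 x T B1 b1 f1 f2 e a B2 B3 (Sum.inr (Sum.inl j.succ))) j 9 (by norm_num)
        (fun w => P4ga_group hS B1 hG j a B3 w)
    refine (Finset.sum_le_sum h1).trans ?_
    rw [sum_const_fun]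
  refine (Finset.abs_sum_le_sum_abs _ _).trans ?_
  refine (Finset.sum_le_sum (fun a _ => h0 a)).trans (le_of_eq ?_)
  rw [Finset.sum_const, nsmul_eq_mul, Finset.card_univ]
  show nn V * (nn V ^ 3 * (9 * nn V ^ (3 - 1))) = 9 * nn V ^ 6
  ring

end KS37
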