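import Pool.Agent.LibKS37.G1
import Pool.Agent.LibKS37.Sweep

/-!
# KS37 row P4gv: groups on the side of F3, vertex in B3
For fixed a, B2 and every w: |Σ_u W4 a B2 (update w j u) (inr (inr j.succ))| ≤ 9: `gv2` with r=4, w := cc a w, i := j.succ, p0 = av x (sp x B1) f1 f2 (cc a B2), q = qv ..,
X = image B1 ∪ image B2 ∪ {a}, side t := the b1- and F2-coordinates of p0 + t q are positive; h: hG.enot, hG.kapq. As P4ga.
-/

open Finset Function
open scoped Classical

namespace KS37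

theorem P4gv_disj {V : Type} (B1 : Fin 3 → V) (a : V) (B2 : Fin 3 → V) (h1 : Disj B1 B2)
    (h2 : ∀ i, B1 i ≠ a) : Disj (cc a B2) B1 := by
  intro i j
  unfold cc
  refine Fin.cases ?_ (fun l => ?_) i
  · rw [Fin.cons_zero]
    exact fun h => h2 j h.symm
  · rw [Fin.cons_succ]
    exact fun h => h1 j l h.symm

theorem P4gv_X {V : Type} [Fintype V] (B B' : Fin 3 → V) (a : V) :
    ((Finset.univ.image B ∪ Finset.univ.image B' ∪ {a} : Finset V).card : ℝ) ≤ 7 := by
  have h := Finset.card_image_le (s := (Finset.univ : Finset (Fin 3))) (f := B)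
  have h' := Finset.card_image_le (s := (Finset.univ : Finset (Fin 3))) (f := B')
  rw [Finset.card_univ, Fintype.card_fin] at h h'
  have h2 := Finset.card_union_le (Finset.univ.image B) (Finset.univ.image B')
  have h3 := Finset.card_union_le (Finset.univ.image B ∪ Finset.univ.image B') {a}
  rw [Finset.card_singleton] at h3
  have : (Finset.univ.image B ∪ Finset.univ.image B' ∪ {a}).card ≤ 7 := by omega
  exact_mod_cast this

theorem P4gv_cc {V : Type} (a : V) (w : Fin 3 → V) (j : Fin 3) (u : V) :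
    cc a (update w j u) = update (cc a w) j.succ u := by
  unfold cc
  funext i
  refine Fin.cases ?_ (fun l => ?_) i
  · rw [Fin.cons_zero, update_of_ne (Ne.symm (Fin.succ_ne_zero j)), Fin.cons_zero]
  · rw [Fin.cons_succ]
    by_cases h : l = j
    · subst h
      rw [update_self, update_self]
    · rw [update_of_ne h, update_of_ne (fun e => h (Fin.succ_injective _ e)), Fin.cons_succ]

/-- the live objects of a group -/
theorem P4gv_live {E V : Type} [AddCommGroup E] [Module ℝ E] [Fintype V] {x : V → E}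
    {T : (Fin 4 → V) → Prop} (hS : Sys 4 x T) (B1 : Fin 3 → V) (a : V) (B3 w : Fin 3 → V) (j : Fin 3)
    (hi3 : Injective B3) (hd13 : Disj B1 B3) (ha1 : ∀ i, B1 i ≠ a) (ha3 : ∀ i, B3 i ≠ a)
    (hw1 : ∀ l, l ≠ j → ∀ i, B1 i ≠ w l) (hw3 : ∀ l, l ≠ j → ∀ i, B3 i ≠ w l)
    (hwa : ∀ l, l ≠ j → w l ≠ a) (u : V) :
    (T (cc a (update w j u)) ∧ Injective (update w j u) ∧ Injective B3 ∧ Disj B1 (update w j u) ∧ Disj B1 B3 ∧
      Disj (update w j u) B3 ∧ (∀ i, B1 i ≠ a) ∧ (∀ i, update w j u i ≠ a) ∧ (∀ i, B3 i ≠ a)) ↔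
      (T (update (cc a w) j.succ u) ∧ u ∉ Finset.univ.image B1 ∪ Finset.univ.image B3 ∪ {a}) := by
  rw [← P4gv_cc a w j u]
  constructor
  · rintro ⟨h1, h2, h3, h4, h5, h6, h7, h8, h9⟩
    refine ⟨h1, ?_⟩
    intro hu
    rcases Finset.mem_union.1 hu with hu | hu
    · rcases Finset.mem_union.1 hu with hu | hu
      · obtain ⟨i, _, hi⟩ := Finset.mem_image.1 hu
        exact h4 i j (by rw [update_self]; exact hi)
      · obtain ⟨i, _, hi⟩ := Finset.mem_image.1 hu
        exact h6 j i (by rw [update_self]; exact hi.symm)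
    · exact h8 j (by rw [update_self]; exact Finset.mem_singleton.1 hu)
  · rintro ⟨h1, hu⟩
    have hu1 : ∀ i, B1 i ≠ u := fun i hi => hu (Finset.mem_union_left _ (Finset.mem_union_left _
      (Finset.mem_image.2 ⟨i, Finset.mem_univ i, hi⟩)))
    have hu3 : ∀ i, B3 i ≠ u := fun i hi => hu (Finset.mem_union_left _ (Finset.mem_union_right _
      (Finset.mem_image.2 ⟨i, Finset.mem_univ i, hi⟩)))
    have hua : u ≠ a := fun h => hu (Finset.mem_union_right _ (Finset.mem_singleton.2 h))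
    have hinj := hS.inj _ h1
    refine ⟨h1, ?_, hi3, ?_, hd13, ?_, ha1, ?_, ha3⟩
    · intro l l' h
      have h2 : cc a (update w j u) l.succ = cc a (update w j u) l'.succ := by
        unfold cc
        rw [Fin.cons_succ, Fin.cons_succ]
        exact h
      exact Fin.succ_injective _ (hinj h2)
    · intro i l
      by_cases hl : l = j
      · subst hl
        rw [update_self]
        exact hu1 i
      · rw [update_of_ne hl]
        exact hw1 l hl i
    · intro l i
      by_cases hl : l = j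
      · subst hl
        rw [update_self]
        exact fun h => hu3 i h.symm
      · rw [update_of_ne hl]
        exact fun h => hw3 l hl i h.symm
    · intro l
      by_cases hl : l = j
      · subst hl
        rw [update_self]
        exact hua
      · rw [update_of_ne hl]
        exact hwa l hl

/-- one group -/
theorem P4gv_group {E V : Type} [AddCommGroup E] [Module ℝ E] [Fintype V] {x : V → E}
    {T : (Fin 4 → V) → Prop} (hS : Sys 4 x T) (B1 : Fin 3 → V)
    {b1 : Fin 3 → Module.Dual ℝ E} {f1 f2 : Module.Dual ℝ E} {e : E}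
    (hG : P4Good x B1 b1 f1 f2 e) (j : Fin 3) (a : V) (B2 w : Fin 3 → V) :
    |∑ u, W4 x T B1 b1 f1 f2 e a B2 (update w j u) (Sum.inr (Sum.inr j.succ))| ≤ 9 := by
  have hzero : (∀ u, ¬ Live4 T B1 a B2 (update w j u)) →
      |∑ u, W4 x T B1 b1 f1 f2 e a B2 (update w j u) (Sum.inr (Sum.inr j.succ))| ≤ 9 := by
    intro h
    rw [Finset.sum_eq_zero, abs_zero]
    · norm_num
    · intro u _
      unfold W4
      rw [ind_false (h u), zero_mul]
  by_cases hA : T (cc a B2) ∧ Injective B2 ∧ Disj B1 B2 ∧ (∀ i, B1 i ≠ a) ∧ (∀ i, B2 i ≠ a)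
  swap
  · exact hzero fun u h => hA ⟨h.1, h.2.2.1, h.2.2.2.2.1, h.2.2.2.2.2.2.2.1, h.2.2.2.2.2.2.2.2.1⟩
  obtain ⟨hT2, hi2, hd12, ha1, ha2⟩ := hA
  by_cases hw1 : ∀ l, l ≠ j → ∀ i, B1 i ≠ w l
  swap
  · push Not at hw1
    obtain ⟨l, hl, i, hi⟩ := hw1
    exact hzero fun u h => h.2.2.2.2.2.1 i l (by rw [update_of_ne hl]; exact hi)
  by_cases hw3 : ∀ l, l ≠ j → ∀ i, B2 i ≠ w l
  swap
  · push Not at hw3
    obtain ⟨l, hl, i, hi⟩ := hw3
    exact hzero fun u h => h.2.2.2.2.2.2.1 i l (by rw [update_of_ne hl]; exact hi)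
  by_cases hwa : ∀ l, l ≠ j → w l ≠ a
  swap
  · push Not at hwa
    obtain ⟨l, hl, hi⟩ := hwa
    exact hzero fun u h => h.2.2.2.2.2.2.2.2.2 l (by rw [update_of_ne hl]; exact hi)
  have hlive := P4gv_live hS B1 a B2 w j hi2 hd12 ha1 ha2 hw1 hw3 hwa
  have hlive' : ∀ u, Live4 T B1 a B2 (update w j u) ↔
      (T (update (cc a w) j.succ u) ∧ u ∉ Finset.univ.image B1 ∪ Finset.univ.image B2 ∪ {a}) := by
    intro u
    rw [← hlive u]
    unfold Live4 Dist4
    constructor
    · rintro ⟨_, h1, h2, h3, h4, h5, h6, h7, h8, h9⟩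
      exact ⟨h1, h3, h2, h5, h4, fun i l h => h6 l i h.symm, h7, h9, h8⟩
    · rintro ⟨h1, h2, h3, h4, h5, h6, h7, h8, h9⟩
      exact ⟨hT2, h1, h3, h2, h5, h4, fun i l h => h6 l i h.symm, h7, h9, h8⟩
  have hdisj : ∀ u, Live4 T B1 a B2 (update w j u) → Disj (update (cc a w) j.succ u) B1 := by
    intro u h
    rw [← P4gv_cc a w j u]
    exact P4gv_disj B1 a _ h.2.2.2.2.2.1 ha1
  have hF2 := hS.inj _ hT2
  have hF21 := P4gv_disj B1 a B2 hd12 ha1
  have hgv := gv2 hS (cc a w) j.succ (av x (sp x B1) f1 f2 (cc a B2)) (qv x (sp x B1) f1 f2 (cc a B2)) e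
    (Finset.univ.image B1 ∪ Finset.univ.image B2 ∪ {a})
    (fun t => (∀ k, 0 < b1 k (av x (sp x B1) f1 f2 (cc a B2)) + b1 k (qv x (sp x B1) f1 f2 (cc a B2)) * t) ∧
      ∀ i, 0 < kap x (cc a B2) e i (av x (sp x B1) f1 f2 (cc a B2)) +
        kap x (cc a B2) e i (qv x (sp x B1) f1 f2 (cc a B2)) * t)
    (fun u hT hX => by
      have hl := (hlive' u).2 ⟨hT, hX⟩
      have hinj := hS.inj _ hT
      have hd := hdisj u hl
      exact ⟨hG.enot _ hinj hd, hG.kapq _ _ hF2 hinj hF21 hd j.succ⟩)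
  have hX := P4gv_X B1 B2 a
  refine le_trans (le_of_eq ?_) (hgv.trans (by linarith))
  congr 1
  refine Finset.sum_congr rfl fun u _ => ?_
  unfold W4
  rw [P4gv_cc a w j u]
  have hiff : Live4 T B1 a B2 (update w j u) ∧
      Ev (al4 x B1 b1 f1 f2 e (cc a B2) (update (cc a w) j.succ u))
        (be4 x B1 b1 f1 f2 e (cc a B2) (update (cc a w) j.succ u)) (Sum.inr (Sum.inr j.succ)) ↔
      (T (update (cc a w) j.succ u) ∧ u ∉ Finset.univ.image B1 ∪ Finset.univ.image B2 ∪ {a} ∧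
        EvB x (update (cc a w) j.succ u) e j.succ (av x (sp x B1) f1 f2 (cc a B2))
          (qv x (sp x B1) f1 f2 (cc a B2)) ∧
        (fun t => (∀ k, 0 < b1 k (av x (sp x B1) f1 f2 (cc a B2)) +
            b1 k (qv x (sp x B1) f1 f2 (cc a B2)) * t) ∧
          ∀ i, 0 < kap x (cc a B2) e i (av x (sp x B1) f1 f2 (cc a B2)) +
            kap x (cc a B2) e i (qv x (sp x B1) f1 f2 (cc a B2)) * t)
          (tz x (update (cc a w) j.succ u) e j.succ (av x (sp x B1) f1 f2 (cc a B2))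
            (qv x (sp x B1) f1 f2 (cc a B2)))) := by
    rw [hlive' u, and_assoc]
    constructor
    · rintro ⟨h1, h3, h5⟩
      refine ⟨h1, h3, ?_, ?_, ?_⟩
      · intro l hl
        exact h5 (Sum.inr (Sum.inr l)) (fun h => hl (Sum.inr_injective (Sum.inr_injective h)))
      · intro k
        exact h5 (Sum.inl k) (by simp)
      · intro i
        exact h5 (Sum.inr (Sum.inl i)) (by simp)
    · rintro ⟨h1, h3, h5, h6, h7⟩
      refine ⟨h1, h3, ?_⟩
      rintro (k | i | l) hl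
      · exact h6 k
      · exact h7 i
      · exact h5 l (fun h => hl (by rw [h]))
  rw [← mul_assoc, ← ind_and, ind_congr hiff]
  rfl

theorem p4_gv {E V : Type} [AddCommGroup E] [Module ℝ E] [Fintype V] {x : V → E}
    {T : (Fin 4 → V) → Prop} (hS : Sys 4 x T) (B1 : Fin 3 → V) (hB : Injective B1)
    {b1 : Fin 3 → Module.Dual ℝ E} {f1 f2 : Module.Dual ℝ E} {e : E}
    (hG : P4Good x B1 b1 f1 f2 e) (j : Fin 3) :
    |∑ a : V, ∑ B2 : Fin 3 → V, ∑ B3 : Fin 3 → V,
        W4 x T B1 b1 f1 f2 e a B2 B3 (Sum.inr (Sum.inr j.succ))| ≤ 9 * nn V ^ 6 := by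
  have h0 : ∀ a : V, |∑ B2 : Fin 3 → V, ∑ B3 : Fin 3 → V,
      W4 x T B1 b1 f1 f2 e a B2 B3 (Sum.inr (Sum.inr j.succ))| ≤ nn V ^ 3 * (9 * nn V ^ (3 - 1)) := by
    intro a
    refine (Finset.abs_sum_le_sum_abs _ _).trans ?_
    have h1 : ∀ B2 ∈ (Finset.univ : Finset (Fin 3 → V)),
        |∑ B3 : Fin 3 → V, W4 x T B1 b1 f1 f2 e a B2 B3 (Sum.inr (Sum.inr j.succ))| ≤ 9 * nn V ^ (3 - 1) := by
      intro B2 _
      exact group_sum (fun B3 => W4 x T B1 b1 f1 f2 e a B2 B3 (Sum.inr (Sum.inr j.succ))) j 9 (by norm_num)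
        (fun w => P4gv_group hS B1 hG j a B2 w)
    refine (Finset.sum_le_sum h1).trans ?_
    rw [sum_const_fun]
  refine (Finset.abs_sum_le_sum_abs _ _).trans ?_
  refine (Finset.sum_le_sum (fun a _ => h0 a)).trans (le_of_eq ?_)
  rw [Finset.sum_const, nsmul_eq_mul, Finset.card_univ]
  show nn V * (nn V ^ 3 * (9 * nn V ^ (3 - 1))) = 9 * nn V ^ 6
  ring

end KS37
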