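import Pool.Agent.LibKS37.Basic

/-!
# KS37 row O2: object inequality (zero of s at an endpoint allowed)
The same as O1 without `hs`: now ε(t1)-ε(t0) ∈ {0,1,2} (ε monotone, values in {-1,0,1}) and it is 2 if the zero is in the open interval.
-/

open Finset Function
open scoped Classical

namespace KS37

private theorem O2_up {a b t : ℝ} (hb : 0 < b) : 0 < a + b * t ↔ -a / b < t := by
  rw [div_lt_iff₀ hb]
  constructor <;> intro h <;> linarith

private theorem O2_dn {a b t : ℝ} (hb : b < 0) : 0 < a + b * t ↔ t < -a / b := by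
  rw [lt_div_iff_of_neg hb]
  constructor <;> intro h <;> linarith

private theorem O2_pos {a b t : ℝ} (hb : b ≠ 0) :
    0 < a + b * t ↔ (0 < b → -a / b < t) ∧ (b < 0 → t < -a / b) := by
  rcases lt_or_gt_of_ne hb with h | h
  · rw [O2_dn h]
    exact ⟨fun h1 => ⟨fun h2 => absurd h2 (not_lt.2 h.le), fun _ => h1⟩, fun h1 => h1.2 h⟩
  · rw [O2_up h]
    exact ⟨fun h1 => ⟨fun _ => h1, fun h2 => absurd h2 (not_lt.2 (le_of_lt h))⟩, fun h1 => h1.1 h⟩

/-- the four shapes of the set where all the functions are positive. -/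
private theorem O2_core {J : Type} [Fintype J] (t β : J → ℝ) (hβ : ∀ j, β j ≠ 0)
    (ht : ∀ j l, j ≠ l → t j ≠ t l) (Q : J → Prop)
    (hQ : ∀ j, Q j ↔ ∀ l, l ≠ j → (0 < β l → t l < t j) ∧ (β l < 0 → t j < t l)) :
    IsEmpty J ∨
    (∃ j0, (∀ j, 0 < β j) ∧ (∀ l, t l ≤ t j0) ∧
      ∀ F : J → ℝ, ∑ j, ind (Q j) * (sg (β j) * F j) = F j0) ∨
    (∃ j1, (∀ j, β j < 0) ∧ (∀ l, t j1 ≤ t l) ∧
      ∀ F : J → ℝ, ∑ j, ind (Q j) * (sg (β j) * F j) = -F j1) ∨
    (∃ j0 j1, 0 < β j0 ∧ β j1 < 0 ∧ (∀ l, 0 < β l → t l ≤ t j0) ∧ (∀ l, β l < 0 → t j1 ≤ t l) ∧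
      ((t j0 < t j1 ∧ ∀ F : J → ℝ, ∑ j, ind (Q j) * (sg (β j) * F j) = F j0 - F j1) ∨
        (t j1 < t j0 ∧ ∀ F : J → ℝ, ∑ j, ind (Q j) * (sg (β j) * F j) = 0))) := by
  by_cases hL : ∃ j, 0 < β j
  · obtain ⟨a, ha⟩ := hL
    obtain ⟨j0, hj0, hmax⟩ := Finset.exists_max_image (Finset.univ.filter fun j => 0 < β j) t
      ⟨a, Finset.mem_filter.2 ⟨Finset.mem_univ a, ha⟩⟩
    have hj0' : 0 < β j0 := (Finset.mem_filter.1 hj0).2
    have hmax' : ∀ l, 0 < β l → t l ≤ t j0 := fun l hl =>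
      hmax l (Finset.mem_filter.2 ⟨Finset.mem_univ l, hl⟩)
    by_cases hU : ∃ j, β j < 0
    · obtain ⟨b, hb⟩ := hU
      obtain ⟨j1, hj1, hmin⟩ := Finset.exists_min_image (Finset.univ.filter fun j => β j < 0) t
        ⟨b, Finset.mem_filter.2 ⟨Finset.mem_univ b, hb⟩⟩
      have hj1' : β j1 < 0 := (Finset.mem_filter.1 hj1).2
      have hmin' : ∀ l, β l < 0 → t j1 ≤ t l := fun l hl =>
        hmin l (Finset.mem_filter.2 ⟨Finset.mem_univ l, hl⟩)
      have hne : j0 ≠ j1 := by
        rintro rfl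
        linarith
      refine Or.inr (Or.inr (Or.inr ⟨j0, j1, hj0', hj1', hmax', hmin', ?_⟩))
      rcases lt_or_gt_of_ne (ht j0 j1 hne) with h01 | h01
      · refine Or.inl ⟨h01, fun F => ?_⟩
        have hQ0 : Q j0 := by
          rw [hQ]
          intro l hl
          refine ⟨fun h => lt_of_le_of_ne (hmax' l h) (ht l j0 hl), fun h => ?_⟩
          exact lt_of_lt_of_le h01 (hmin' l h)
        have hQ1 : Q j1 := by
          rw [hQ]
          intro l hl
          refine ⟨fun h => lt_of_le_of_lt (hmax' l h) h01, fun h => ?_⟩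
          exact lt_of_le_of_ne (hmin' l h) (ht j1 l (Ne.symm hl))
        rw [Fintype.sum_eq_add j0 j1 hne]
        · rw [ind_true hQ0, ind_true hQ1, sg_pos hj0', sg_neg hj1']
          ring
        · intro l hl
          rw [ind_false, zero_mul]
          intro h
          rw [hQ] at h
          rcases lt_or_gt_of_ne (hβ l) with h' | h'
          · have := (h j1 (Ne.symm hl.2)).2 hj1'
            exact absurd this (not_lt.2 (hmin' l h'))
          · have := (h j0 (Ne.symm hl.1)).1 hj0'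
            exact absurd this (not_lt.2 (hmax' l h'))
      · refine Or.inr ⟨h01, fun F => ?_⟩
        have hnQ : ∀ j, ¬ Q j := by
          intro j h
          rw [hQ] at h
          rcases lt_or_gt_of_ne (hβ j) with h' | h'
          · have h1 : j0 ≠ j := by
              rintro rfl
              linarith
            have h2 := (h j0 h1).1 hj0'
            by_cases h3 : j1 = j
            · subst h3
              linarith
            · have h4 := (h j1 h3).2 hj1'
              linarith [hmin' j h']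
          · have h1 : j1 ≠ j := by
              rintro rfl
              linarith
            have h2 := (h j1 h1).2 hj1'
            by_cases h3 : j0 = j
            · subst h3
              linarith
            · have h4 := (h j0 h3).1 hj0'
              linarith [hmax' j h']
        refine Finset.sum_eq_zero fun j _ => ?_
        rw [ind_false (hnQ j), zero_mul]
    · push Not at hU
      have hU' : ∀ j, 0 < β j := fun j => lt_of_le_of_ne (hU j) (Ne.symm (hβ j))
      have hQ0 : Q j0 := by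
        rw [hQ]
        intro l hl
        exact ⟨fun h => lt_of_le_of_ne (hmax' l h) (ht l j0 hl), fun h =>
          absurd h (not_lt.2 (hU l))⟩
      refine Or.inr (Or.inl ⟨j0, hU', fun l => hmax' l (hU' l), fun F => ?_⟩)
      rw [Fintype.sum_eq_single j0]
      · rw [ind_true hQ0, sg_pos hj0']
        ring
      · intro l hl
        rw [ind_false, zero_mul]
        intro h
        rw [hQ] at h
        have := (h j0 (Ne.symm hl)).1 hj0'
        exact absurd this (not_lt.2 (hmax' l (hU' l)))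
  · push Not at hL
    have hL' : ∀ j, β j < 0 := fun j => lt_of_le_of_ne (hL j) (hβ j)
    by_cases hJ : Nonempty J
    · obtain ⟨b⟩ := hJ
      obtain ⟨j1, _, hmin⟩ := Finset.exists_min_image (Finset.univ : Finset J) t
        ⟨b, Finset.mem_univ b⟩
      have hmin' : ∀ l, t j1 ≤ t l := fun l => hmin l (Finset.mem_univ l)
      have hQ1 : Q j1 := by
        rw [hQ]
        intro l hl
        exact ⟨fun h => absurd h (not_lt.2 (hL l)), fun h =>
          lt_of_le_of_ne (hmin' l) (ht j1 l (Ne.symm hl))⟩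
      refine Or.inr (Or.inr (Or.inl ⟨j1, hL', hmin', fun F => ?_⟩))
      rw [Fintype.sum_eq_single j1]
      · rw [ind_true hQ1, sg_neg (hL' j1)]
        ring
      · intro l hl
        rw [ind_false, zero_mul]
        intro h
        rw [hQ] at h
        have := (h j1 (Ne.symm hl)).2 (hL' j1)
        exact absurd this (not_lt.2 (hmin' l))
    · exact Or.inl (not_nonempty_iff.1 hJ)

/-- the core for `Ev`. -/
private theorem O2_ev {J : Type} [Fintype J] (α β : J → ℝ) (hβ : ∀ j, β j ≠ 0)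
    (hnd : Nondeg α β) :
    IsEmpty J ∨
    (∃ j0, (∀ j, 0 < β j) ∧ (∀ l, -α l / β l ≤ -α j0 / β j0) ∧
      ∀ F : J → ℝ, ∑ j, ind (Ev α β j) * (sg (β j) * F j) = F j0) ∨
    (∃ j1, (∀ j, β j < 0) ∧ (∀ l, -α j1 / β j1 ≤ -α l / β l) ∧
      ∀ F : J → ℝ, ∑ j, ind (Ev α β j) * (sg (β j) * F j) = -F j1) ∨
    (∃ j0 j1, 0 < β j0 ∧ β j1 < 0 ∧ (∀ l, 0 < β l → -α l / β l ≤ -α j0 / β j0) ∧
      (∀ l, β l < 0 → -α j1 / β j1 ≤ -α l / β l) ∧
      ((-α j0 / β j0 < -α j1 / β j1 ∧
        ∀ F : J → ℝ, ∑ j, ind (Ev α β j) * (sg (β j) * F j) = F j0 - F j1) ∨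
        (-α j1 / β j1 < -α j0 / β j0 ∧
          ∀ F : J → ℝ, ∑ j, ind (Ev α β j) * (sg (β j) * F j) = 0))) := by
  refine O2_core (fun j => -α j / β j) β hβ ?_ (Ev α β) ?_
  · intro j l hjl h
    apply hnd j l hjl
    have h' : -α j / β j = -α l / β l := h
    rw [div_eq_div_iff (hβ j) (hβ l)] at h'
    linarith
  · intro j
    unfold Ev
    constructor
    · intro h l hl
      exact (O2_pos (hβ l)).1 (h l hl)
    · intro h l hl
      exact (O2_pos (hβ l)).2 (h l hl)

theorem oi_le {J : Type} [Fintype J] (α β : J → ℝ) (σ0 σ1 : ℝ) (hβ : ∀ j, β j ≠ 0)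
    (hnd : Nondeg α β) (hσ : σ1 ≠ 0) :
    2 * ind (∃ t : ℝ, (∀ j, 0 < α j + β j * t) ∧ σ0 + σ1 * t = 0) ≤
      ind (∀ j, 0 < β j) + ind (∀ j, β j < 0) -
        ∑ j, ind (Ev α β j) * (sg (β j) * eps α β σ0 σ1 j) := by
  have h1 : ∀ j, eps α β σ0 σ1 j = sg (-α j / β j - -σ0 / σ1) := by
    intro j
    unfold eps
    rw [← sg_mul]
    have h2 : (σ0 + σ1 * (-α j / β j)) * σ1 = σ1 ^ 2 * (-α j / β j - -σ0 / σ1) := by
      field_simp
      ring
    rw [h2, sg_mul, sg_pos (by positivity), one_mul]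
  have h3 : (∃ t : ℝ, (∀ j, 0 < α j + β j * t) ∧ σ0 + σ1 * t = 0) ↔
      ∀ j, (0 < β j → -α j / β j < -σ0 / σ1) ∧ (β j < 0 → -σ0 / σ1 < -α j / β j) := by
    constructor
    · rintro ⟨t, h, hst⟩ j
      have h4 : t = -σ0 / σ1 := by
        rw [eq_div_iff hσ]
        linarith
      rw [← h4]
      exact (O2_pos (hβ j)).1 (h j)
    · intro h
      refine ⟨-σ0 / σ1, fun j => (O2_pos (hβ j)).2 (h j), ?_⟩
      field_simp
      ring
  rw [h3]
  simp only [h1]
  set z : ℝ := -σ0 / σ1 with hz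
  have hsg1 : ∀ y : ℝ, sg y ≤ 1 := fun y => (abs_le.1 (abs_sg_le y)).2
  have hsg2 : ∀ y : ℝ, -1 ≤ sg y := fun y => (abs_le.1 (abs_sg_le y)).1
  rcases O2_ev α β hβ hnd with hJ | ⟨j0, hp, hm, hF⟩ | ⟨j1, hn, hm, hF⟩ |
    ⟨j0, j1, h0, h1', hm0, hm1, hF⟩
  · rw [ind_true (fun j => isEmptyElim j), ind_true (fun j => isEmptyElim j),
      ind_true (fun j => isEmptyElim j)]
    simp
    norm_num
  · rw [hF, ind_true hp]
    have hn : ¬ ∀ j, β j < 0 := fun h => absurd (h j0) (not_lt.2 (hp j0).le)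
    rw [ind_false hn]
    rcases lt_or_ge (-α j0 / β j0) z with h | h
    · rw [sg_neg (sub_neg.2 h)]
      linarith [ind_le_one (∀ j, (0 < β j → -α j / β j < z) ∧ (β j < 0 → z < -α j / β j))]
    · rw [ind_false (fun h' => absurd ((h' j0).1 (hp j0)) (not_lt.2 h))]
      linarith [hsg1 (-α j0 / β j0 - z)]
  · rw [hF, ind_true hn]
    have hp : ¬ ∀ j, 0 < β j := fun h => absurd (h j1) (not_lt.2 (hn j1).le)
    rw [ind_false hp]
    rcases lt_or_ge z (-α j1 / β j1) with h | h
    · rw [sg_pos (sub_pos.2 h)]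
      linarith [ind_le_one (∀ j, (0 < β j → -α j / β j < z) ∧ (β j < 0 → z < -α j / β j))]
    · rw [ind_false (fun h' => absurd ((h' j1).2 (hn j1)) (not_lt.2 h))]
      linarith [hsg2 (-α j1 / β j1 - z)]
  · have hn : ¬ ∀ j, β j < 0 := fun h => absurd (h j0) (not_lt.2 h0.le)
    have hp : ¬ ∀ j, 0 < β j := fun h => absurd (h j1) (not_lt.2 h1'.le)
    rw [ind_false hn, ind_false hp]
    rcases hF with ⟨h01, hF⟩ | ⟨h01, hF⟩
    · rw [hF]
      rcases lt_or_ge (-α j0 / β j0) z with h | h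
      · rcases lt_or_ge z (-α j1 / β j1) with h' | h'
        · rw [sg_neg (sub_neg.2 h), sg_pos (sub_pos.2 h')]
          linarith [ind_le_one (∀ j, (0 < β j → -α j / β j < z) ∧ (β j < 0 → z < -α j / β j))]
        · rw [ind_false (fun h'' => absurd ((h'' j1).2 h1') (not_lt.2 h')), sg_neg (sub_neg.2 h)]
          linarith [hsg2 (-α j1 / β j1 - z)]
      · rw [ind_false (fun h'' => absurd ((h'' j0).1 h0) (not_lt.2 h)),
          sg_pos (sub_pos.2 (lt_of_le_of_lt h h01))]
        linarith [hsg1 (-α j0 / β j0 - z)]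
    · rw [hF, ind_false]
      · norm_num
      · intro h
        have h2 := (h j0).1 h0
        have h4 := (h j1).2 h1'
        linarith

end KS37
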