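import Pool.Agent.LibKS37.A1
import Pool.Agent.LibKS37.O2
import Pool.Agent.LibKS37.Sweep

/-!
# KS37 row P4sum: object inequality inside sp x B1
For a live (a,B2,B3) (F2 = cc a B2, F3 = cc a B3; injective, disjoint from B1, from Dist4) `oi_le` with al4, be4, σ0 = hgt x F3 e (av .. F2), σ1 = hgt x F3 e (qv .. F2).
(1) a common ray y ∈ Cone B1 ⊓ Cone F2 ⊓ Cone F3: y ∈ sp x F2 ⊓ sp x B1, f1 y > 0 (hG.pos), y/f1 y = av + t qv (`solv_unique`), all functionals positive at it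
(b1 k (Σ c_l x (B1 l)) = c_k), hgt x F3 e y = 0: the indicator on the left is 1.
(2) ind(∀ 0<β) = 0: all b1 k q > 0, q = Σ b1 k q • x (B1 k) ∈ sp x B1, so f1 q > 0, but f1 q = 0. The same for ∀ β<0.
(3) the terms j = inl k, inr (inl 0), inr (inr 0) are bounded by ind(Ev) (|sg|,|eps| ≤ 1), the others are kept. Sum over (a,B2,B3).
-/

open Finset Function
open scoped Classical

namespace KS37

theorem P4sum_disj {V : Type} (B1 : Fin 3 → V) (a : V) (B2 : Fin 3 → V) (h1 : Disj B1 B2)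
    (h2 : ∀ i, B1 i ≠ a) : Disj (cc a B2) B1 := by
  intro i j
  unfold cc
  refine Fin.cases ?_ (fun l => ?_) i
  · rw [Fin.cons_zero]
    exact fun h => h2 j h.symm
  · rw [Fin.cons_succ]
    exact fun h => h1 j l h.symm

theorem P4sum_f1pos {E V : Type} [AddCommGroup E] [Module ℝ E] {x : V → E} (B1 : Fin 3 → V)
    (f1 : Module.Dual ℝ E) (hpos : ∀ k, 0 < f1 (x (B1 k))) (c : Fin 3 → ℝ) (hc : ∀ k, 0 < c k) :
    0 < f1 (∑ k, c k • x (B1 k)) := by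
  rw [map_sum]
  apply Finset.sum_pos
  · intro k _
    rw [map_smul, smul_eq_mul]
    exact mul_pos (hc k) (hpos k)
  · exact ⟨0, Finset.mem_univ _⟩

theorem P4sum_b1 {E V : Type} [AddCommGroup E] [Module ℝ E] {x : V → E} (B1 : Fin 3 → V)
    (b1 : Fin 3 → Module.Dual ℝ E) (hdual : ∀ k l, b1 k (x (B1 l)) = if k = l then 1 else 0)
    (c : Fin 3 → ℝ) (k : Fin 3) : b1 k (∑ l, c l • x (B1 l)) = c k := by
  rw [map_sum]
  have : ∀ l, b1 k (c l • x (B1 l)) = if k = l then c l else 0 := by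
    intro l
    rw [map_smul, hdual k l, smul_eq_mul]
    split_ifs <;> simp
  rw [Finset.sum_congr rfl fun l _ => this l]
  simp

theorem P4sum_abs {J : Type} (α β : J → ℝ) (σ0 σ1 : ℝ) (j : J) (P Q : Prop) :
    -(ind P * (ind Q * (sg (β j) * eps α β σ0 σ1 j))) ≤ ind (P ∧ Q) := by
  have h1 : |sg (β j) * eps α β σ0 σ1 j| ≤ 1 := by
    unfold eps
    rw [abs_mul, abs_mul]
    have a1 := abs_sg_le (β j)
    have a2 := abs_sg_le (σ0 + σ1 * (-α j / β j))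
    have a3 := abs_sg_le σ1
    exact mul_le_one₀ a1 (by positivity) (mul_le_one₀ a2 (abs_nonneg _) a3)
  rw [ind_and, ← mul_assoc, ← mul_neg]
  have h2 : 0 ≤ ind P * ind Q := mul_nonneg (ind_nonneg _) (ind_nonneg _)
  have h3 : -(sg (β j) * eps α β σ0 σ1 j) ≤ 1 := by
    have := neg_abs_le (sg (β j) * eps α β σ0 σ1 j)
    linarith
  calc ind P * ind Q * -(sg (β j) * eps α β σ0 σ1 j) ≤ ind P * ind Q * 1 :=
        mul_le_mul_of_nonneg_left h3 h2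
    _ = _ := mul_one _

/-- one object -/
theorem P4sum_one {E V : Type} [AddCommGroup E] [Module ℝ E] [Fintype V] {x : V → E}
    {T : (Fin 4 → V) → Prop} (hS : Sys 4 x T) (B1 : Fin 3 → V)
    {b1 : Fin 3 → Module.Dual ℝ E} {f1 f2 : Module.Dual ℝ E} {e : E}
    (hG : P4Good x B1 b1 f1 f2 e) (a : V) (B2 B3 : Fin 3 → V) :
    2 * ind (Live4 T B1 a B2 B3 ∧ ∃ y, Cone x B1 y ∧ Cone x (cc a B2) y ∧ Cone x (cc a B3) y) ≤
      ∑ j : Fin 3, -W4 x T B1 b1 f1 f2 e a B2 B3 (Sum.inr (Sum.inl j.succ)) +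
      ∑ j : Fin 3, -W4 x T B1 b1 f1 f2 e a B2 B3 (Sum.inr (Sum.inr j.succ)) +
      ∑ k : Fin 3, ind (Live4 T B1 a B2 B3 ∧
        Ev (al4 x B1 b1 f1 f2 e (cc a B2) (cc a B3)) (be4 x B1 b1 f1 f2 e (cc a B2) (cc a B3))
          (Sum.inl k)) +
      ind (Live4 T B1 a B2 B3 ∧
        Ev (al4 x B1 b1 f1 f2 e (cc a B2) (cc a B3)) (be4 x B1 b1 f1 f2 e (cc a B2) (cc a B3))
          (Sum.inr (Sum.inl 0))) +
      ind (Live4 T B1 a B2 B3 ∧
        Ev (al4 x B1 b1 f1 f2 e (cc a B2) (cc a B3)) (be4 x B1 b1 f1 f2 e (cc a B2) (cc a B3))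
          (Sum.inr (Sum.inr 0))) := by
  by_cases hL : Live4 T B1 a B2 B3
  swap
  · have h1 : ¬ (Live4 T B1 a B2 B3 ∧ ∃ y, Cone x B1 y ∧ Cone x (cc a B2) y ∧ Cone x (cc a B3) y) :=
      fun h => hL h.1
    rw [ind_false h1]
    have h2 : ∀ j, W4 x T B1 b1 f1 f2 e a B2 B3 j = 0 := by
      intro j
      unfold W4
      rw [ind_false hL, zero_mul]
    simp only [h2, neg_zero, Finset.sum_const_zero]
    have h3 : 0 ≤ ∑ k : Fin 3, ind (Live4 T B1 a B2 B3 ∧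
        Ev (al4 x B1 b1 f1 f2 e (cc a B2) (cc a B3)) (be4 x B1 b1 f1 f2 e (cc a B2) (cc a B3))
          (Sum.inl k)) := Finset.sum_nonneg fun _ _ => ind_nonneg _
    have h4 := ind_nonneg (Live4 T B1 a B2 B3 ∧
        Ev (al4 x B1 b1 f1 f2 e (cc a B2) (cc a B3)) (be4 x B1 b1 f1 f2 e (cc a B2) (cc a B3))
          (Sum.inr (Sum.inl 0)))
    have h5 := ind_nonneg (Live4 T B1 a B2 B3 ∧
        Ev (al4 x B1 b1 f1 f2 e (cc a B2) (cc a B3)) (be4 x B1 b1 f1 f2 e (cc a B2) (cc a B3))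
          (Sum.inr (Sum.inr 0)))
    linarith
  obtain ⟨hT2, hT3, hD⟩ := hL
  have hL : Live4 T B1 a B2 B3 := ⟨hT2, hT3, hD⟩
  obtain ⟨hi2, hi3, hd12, hd13, hd23, ha1, ha2, ha3⟩ := hD
  have hD : Dist4 B1 a B2 B3 := ⟨hi2, hi3, hd12, hd13, hd23, ha1, ha2, ha3⟩
  have hF2 := hS.inj _ hT2
  have hF3 := hS.inj _ hT3
  have hF21 := P4sum_disj B1 a B2 hd12 ha1
  have hF31 := P4sum_disj B1 a B3 hd13 ha1
  obtain ⟨F2, hF2d⟩ : ∃ F2, F2 = cc a B2 := ⟨_, rfl⟩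
  obtain ⟨F3, hF3d⟩ : ∃ F3, F3 = cc a B3 := ⟨_, rfl⟩
  have hβ : ∀ j, be4 x B1 b1 f1 f2 e (cc a B2) (cc a B3) j ≠ 0 := by
    rintro (k | i | i)
    · exact hG.kap1 _ hF2 hF21 k
    · exact hG.kapq _ _ hF2 hF2 hF21 hF21 i
    · exact hG.kapq _ _ hF2 hF3 hF21 hF31 i
  have hoi := oi_le (al4 x B1 b1 f1 f2 e (cc a B2) (cc a B3)) (be4 x B1 b1 f1 f2 e (cc a B2) (cc a B3))
    (hgt x (cc a B3) e (av x (sp x B1) f1 f2 (cc a B2)))
    (hgt x (cc a B3) e (qv x (sp x B1) f1 f2 (cc a B2))) hβ (hG.nd a B2 B3 hD) (hG.hq a B2 B3 hD)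
  have hiso := hG.iso _ hF2 hF21
  -- the point with a common ray
  have e3 : ind (Live4 T B1 a B2 B3 ∧ ∃ y, Cone x B1 y ∧ Cone x (cc a B2) y ∧ Cone x (cc a B3) y) ≤
      ind (∃ t : ℝ, (∀ j, 0 < al4 x B1 b1 f1 f2 e (cc a B2) (cc a B3) j +
        be4 x B1 b1 f1 f2 e (cc a B2) (cc a B3) j * t) ∧
          hgt x (cc a B3) e (av x (sp x B1) f1 f2 (cc a B2)) +
            hgt x (cc a B3) e (qv x (sp x B1) f1 f2 (cc a B2)) * t = 0) := by
    apply ind_mono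
    rintro ⟨_, y, ⟨c, hc, hy1⟩, hy2, hy3⟩
    have k2 := (cone_iff_kap hS _ hF2 e (hG.enot _ hF2 hF21) y).1 hy2
    have k3 := (cone_iff_kap hS _ hF3 e (hG.enot _ hF3 hF31) y).1 hy3
    have hyB1 : y ∈ sp x B1 := (mem_sp_iff B1 y).2 ⟨c, hy1⟩
    have hf1 : 0 < f1 y := by
      rw [hy1]
      exact P4sum_f1pos B1 f1 hG.pos c hc
    have hsol := solv_unique hiso (y := y) ⟨k2.1, hyB1⟩
    have hlin : ∀ g : Module.Dual ℝ E, g (av x (sp x B1) f1 f2 (cc a B2)) +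
        g (qv x (sp x B1) f1 f2 (cc a B2)) * (f2 y / f1 y) = g y / f1 y := by
      intro g
      have h1 : g y = f1 y * g (av x (sp x B1) f1 f2 (cc a B2)) +
          f2 y * g (qv x (sp x B1) f1 f2 (cc a B2)) := by
        conv_lhs => rw [hsol]
        rw [map_add, map_smul, map_smul, smul_eq_mul, smul_eq_mul]
        rfl
      rw [h1]
      field_simp
    refine ⟨f2 y / f1 y, ?_, ?_⟩
    · rintro (k | i | i)
      · have h1 : 0 < b1 k y := by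
          rw [hy1, P4sum_b1 B1 b1 hG.dual c k]
          exact hc k
        have h2 := hlin (b1 k)
        show 0 < b1 k (av x (sp x B1) f1 f2 (cc a B2)) + b1 k (qv x (sp x B1) f1 f2 (cc a B2)) * (f2 y / f1 y)
        rw [h2]
        positivity
      · have h1 := k2.2 i
        have h2 := hlin (kap x (cc a B2) e i)
        show 0 < kap x (cc a B2) e i (av x (sp x B1) f1 f2 (cc a B2)) +
          kap x (cc a B2) e i (qv x (sp x B1) f1 f2 (cc a B2)) * (f2 y / f1 y)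
        rw [h2]
        positivity
      · have h1 := k3.2 i
        have h2 := hlin (kap x (cc a B3) e i)
        show 0 < kap x (cc a B3) e i (av x (sp x B1) f1 f2 (cc a B2)) +
          kap x (cc a B3) e i (qv x (sp x B1) f1 f2 (cc a B2)) * (f2 y / f1 y)
        rw [h2]
        positivity
    · rw [hlin (hgt x (cc a B3) e), (hgt_eq_zero_iff hS _ hF3 e (hG.enot _ hF3 hF31) y).2 k3.1, zero_div]
  -- nothing at infinity
  have hq : qv x (sp x B1) f1 f2 (cc a B2) ∈ sp x (cc a B2) ⊓ sp x B1 ∧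
      f1 (qv x (sp x B1) f1 f2 (cc a B2)) = 0 := ⟨(solv_spec hiso 0 1).1, (solv_spec hiso 0 1).2.1⟩
  obtain ⟨c, hc⟩ := (mem_sp_iff B1 _).1 hq.1.2
  have hck : ∀ k, b1 k (qv x (sp x B1) f1 f2 (cc a B2)) = c k := by
    intro k
    rw [hc]
    exact P4sum_b1 B1 b1 hG.dual c k
  have i1 : ind (∀ j, 0 < be4 x B1 b1 f1 f2 e (cc a B2) (cc a B3) j) = 0 := by
    apply ind_false
    intro h
    have h1 : ∀ k, 0 < c k := fun k => by
      rw [← hck k]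
      exact h (Sum.inl k)
    have h2 := P4sum_f1pos B1 f1 hG.pos c h1
    rw [← hc, hq.2] at h2
    exact lt_irrefl _ h2
  have i2 : ind (∀ j, be4 x B1 b1 f1 f2 e (cc a B2) (cc a B3) j < 0) = 0 := by
    apply ind_false
    intro h
    have h1 : ∀ k, 0 < -c k := fun k => by
      have := h (Sum.inl k)
      rw [← hck k]
      exact neg_pos.2 this
    have h2 := P4sum_f1pos B1 f1 hG.pos (fun k => -c k) h1
    have h3 : ∑ k, (-c k) • x (B1 k) = -∑ k, c k • x (B1 k) := by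
      rw [← Finset.sum_neg_distrib]
      refine Finset.sum_congr rfl fun k _ => neg_smul _ _
    rw [h3, ← hc, map_neg, hq.2, neg_zero] at h2
    exact lt_irrefl _ h2
  rw [i1, i2, Fintype.sum_sum_type, Fintype.sum_sum_type, Fin.sum_univ_succ (n := 3), Fin.sum_univ_succ (n := 3)] at hoi
  have hW : ∀ j, W4 x T B1 b1 f1 f2 e a B2 B3 j =
      ind (Ev (al4 x B1 b1 f1 f2 e (cc a B2) (cc a B3)) (be4 x B1 b1 f1 f2 e (cc a B2) (cc a B3)) j) *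
    (sg (be4 x B1 b1 f1 f2 e (cc a B2) (cc a B3) j) *
      eps (al4 x B1 b1 f1 f2 e (cc a B2) (cc a B3)) (be4 x B1 b1 f1 f2 e (cc a B2) (cc a B3))
      (hgt x (cc a B3) e (av x (sp x B1) f1 f2 (cc a B2)))
      (hgt x (cc a B3) e (qv x (sp x B1) f1 f2 (cc a B2))) j) := by
    intro j
    unfold W4
    rw [ind_true hL, one_mul]
  simp only [← hW] at hoi
  have hneg : ∀ j, -W4 x T B1 b1 f1 f2 e a B2 B3 j ≤ ind (Live4 T B1 a B2 B3 ∧
        Ev (al4 x B1 b1 f1 f2 e (cc a B2) (cc a B3)) (be4 x B1 b1 f1 f2 e (cc a B2) (cc a B3)) j) := by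
    intro j
    unfold W4
    exact P4sum_abs _ _ _ _ j _ _
  have hneg1 : -∑ k : Fin 3, W4 x T B1 b1 f1 f2 e a B2 B3 (Sum.inl k) ≤ ∑ k : Fin 3, ind (Live4 T B1 a B2 B3 ∧
        Ev (al4 x B1 b1 f1 f2 e (cc a B2) (cc a B3)) (be4 x B1 b1 f1 f2 e (cc a B2) (cc a B3))
          (Sum.inl k)) := by
    rw [← Finset.sum_neg_distrib]
    exact Finset.sum_le_sum fun k _ => hneg (Sum.inl k)
  have hneg2 := hneg (Sum.inr (Sum.inl 0))
  have hneg3 := hneg (Sum.inr (Sum.inr 0))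
  rw [Finset.sum_neg_distrib, Finset.sum_neg_distrib]
  linarith

theorem p4_sum {E V : Type} [AddCommGroup E] [Module ℝ E] [Fintype V] {x : V → E}
    {T : (Fin 4 → V) → Prop} (hS : Sys 4 x T) (B1 : Fin 3 → V) (hB : Injective B1)
    {b1 : Fin 3 → Module.Dual ℝ E} {f1 f2 : Module.Dual ℝ E} {e : E}
    (hG : P4Good x B1 b1 f1 f2 e) :
    2 * OB4 x T B1 ≤
      (∑ j : Fin 3, |∑ a : V, ∑ B2 : Fin 3 → V, ∑ B3 : Fin 3 → V,
        W4 x T B1 b1 f1 f2 e a B2 B3 (Sum.inr (Sum.inl j.succ))|) +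
      (∑ j : Fin 3, |∑ a : V, ∑ B2 : Fin 3 → V, ∑ B3 : Fin 3 → V,
        W4 x T B1 b1 f1 f2 e a B2 B3 (Sum.inr (Sum.inr j.succ))|) +
      (∑ k : Fin 3, EV4 x T B1 b1 f1 f2 e (Sum.inl k)) +
      EV4 x T B1 b1 f1 f2 e (Sum.inr (Sum.inl 0)) +
      EV4 x T B1 b1 f1 f2 e (Sum.inr (Sum.inr 0)) := by
  have hswap : ∀ (G : Fin 3 → V → (Fin 3 → V) → (Fin 3 → V) → ℝ),
      ∑ a : V, ∑ B2 : Fin 3 → V, ∑ B3 : Fin 3 → V, ∑ j : Fin 3, G j a B2 B3 =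
      ∑ j : Fin 3, ∑ a : V, ∑ B2 : Fin 3 → V, ∑ B3 : Fin 3 → V, G j a B2 B3 := by
    intro G
    have h1 : ∀ (a : V) (B2 : Fin 3 → V), ∑ B3 : Fin 3 → V, ∑ j : Fin 3, G j a B2 B3 =
        ∑ j : Fin 3, ∑ B3 : Fin 3 → V, G j a B2 B3 := fun a B2 => Finset.sum_comm
    have h2 : ∀ a : V, ∑ B2 : Fin 3 → V, ∑ j : Fin 3, ∑ B3 : Fin 3 → V, G j a B2 B3 =
        ∑ j : Fin 3, ∑ B2 : Fin 3 → V, ∑ B3 : Fin 3 → V, G j a B2 B3 := fun a => Finset.sum_comm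
    simp only [h1, h2]
    exact Finset.sum_comm
  have hsum : ∑ a : V, ∑ B2 : Fin 3 → V, ∑ B3 : Fin 3 → V,
      2 * ind (Live4 T B1 a B2 B3 ∧ ∃ y, Cone x B1 y ∧ Cone x (cc a B2) y ∧ Cone x (cc a B3) y) ≤ _ :=
    Finset.sum_le_sum fun a _ => Finset.sum_le_sum fun B2 _ => Finset.sum_le_sum fun B3 _ =>
      P4sum_one hS B1 hG a B2 B3
  simp only [Finset.sum_add_distrib] at hsum
  rw [hswap (fun j a B2 B3 => -W4 x T B1 b1 f1 f2 e a B2 B3 (Sum.inr (Sum.inl j.succ))),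
    hswap (fun j a B2 B3 => -W4 x T B1 b1 f1 f2 e a B2 B3 (Sum.inr (Sum.inr j.succ))),
    hswap (fun k a B2 B3 => ind (Live4 T B1 a B2 B3 ∧
        Ev (al4 x B1 b1 f1 f2 e (cc a B2) (cc a B3)) (be4 x B1 b1 f1 f2 e (cc a B2) (cc a B3))
          (Sum.inl k)))] at hsum
  have hOB : 2 * OB4 x T B1 = ∑ a : V, ∑ B2 : Fin 3 → V, ∑ B3 : Fin 3 → V,
      2 * ind (Live4 T B1 a B2 B3 ∧ ∃ y, Cone x B1 y ∧ Cone x (cc a B2) y ∧ Cone x (cc a B3) y) := by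
    unfold OB4
    simp only [Finset.mul_sum]
  rw [hOB]
  refine hsum.trans ?_
  have hn : ∀ j : Fin 3 ⊕ (Fin 4 ⊕ Fin 4), ∑ a : V, ∑ B2 : Fin 3 → V, ∑ B3 : Fin 3 → V,
      -W4 x T B1 b1 f1 f2 e a B2 B3 j ≤ |∑ a : V, ∑ B2 : Fin 3 → V, ∑ B3 : Fin 3 → V,
        W4 x T B1 b1 f1 f2 e a B2 B3 j| := by
    intro j
    simp only [Finset.sum_neg_distrib]
    exact neg_le_abs _
  have s1 : ∑ j : Fin 3, ∑ a : V, ∑ B2 : Fin 3 → V, ∑ B3 : Fin 3 → V,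
      -W4 x T B1 b1 f1 f2 e a B2 B3 (Sum.inr (Sum.inl j.succ)) ≤
      ∑ j : Fin 3, |∑ a : V, ∑ B2 : Fin 3 → V, ∑ B3 : Fin 3 → V,
        W4 x T B1 b1 f1 f2 e a B2 B3 (Sum.inr (Sum.inl j.succ))| :=
    Finset.sum_le_sum fun j _ => hn _
  have s2 : ∑ j : Fin 3, ∑ a : V, ∑ B2 : Fin 3 → V, ∑ B3 : Fin 3 → V,
      -W4 x T B1 b1 f1 f2 e a B2 B3 (Sum.inr (Sum.inr j.succ)) ≤
      ∑ j : Fin 3, |∑ a : V, ∑ B2 : Fin 3 → V, ∑ B3 : Fin 3 → V,
        W4 x T B1 b1 f1 f2 e a B2 B3 (Sum.inr (Sum.inr j.succ))| :=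
    Finset.sum_le_sum fun j _ => hn _
  unfold EV4
  linarith

end KS37
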