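import Pool.Agent.LibKS37.P4g
import Pool.Agent.LibKS37.P4sum
import Pool.Agent.LibKS37.P4ga
import Pool.Agent.LibKS37.P4gv
import Pool.Agent.LibKS37.P4a
import Pool.Agent.LibKS37.P4d
import Pool.Agent.LibKS37.P4b
import Pool.Agent.LibKS37.K5
import Pool.Agent.LibKS37.C3

/-!
# KS37 row K6: Σ_a Z_a ≤ C n^9 (assembly)
For injective B1: 2 OB4 ≤ 27 n^6 + 27 n^6 + 5 n³ K. `tr3`: Σ ZZ ≤ 3 · n³ · (27 n^6 + (5/2) n³ K) ≤ 81 n^9 + 8 n^6 K; K = 80 n³ (`lovasz`): 721 n^9.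
-/

open Finset Function
open scoped Classical

namespace KS37

theorem K6_NN0 {E V : Type} [AddCommGroup E] [Module ℝ E] [Fintype V] {r : ℕ} (x : V → E)
    (T : (Fin r → V) → Prop) (p e : E) : 0 ≤ NN x T p e :=
  Finset.sum_nonneg fun _ _ => ind_nonneg _

theorem K6_one {E V : Type} [AddCommGroup E] [Module ℝ E] [Fintype V] {x : V → E}
    {T : (Fin 4 → V) → Prop} (hS : Sys 4 x T) (hG : G3 x) (K : ℝ)
    (hK : ∀ p e, NN x T p e ≤ K) (B1 : Fin 3 → V) (hB : Injective B1) :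
    OB4 x T B1 ≤ 27 * nn V ^ 6 + 5 / 2 * (nn V ^ 3 * K) := by
  obtain ⟨b1, f1, f2, e, h⟩ := p4_good hS hG B1 hB
  have h0 := p4_sum hS B1 hB h
  have h1 : (∑ j : Fin 3, |∑ a : V, ∑ B2 : Fin 3 → V, ∑ B3 : Fin 3 → V,
        W4 x T B1 b1 f1 f2 e a B2 B3 (Sum.inr (Sum.inl j.succ))|) ≤ 27 * nn V ^ 6 := by
    refine (Finset.sum_le_sum fun j _ => p4_ga hS B1 hB h j).trans ?_
    rw [Finset.sum_const, Finset.card_univ, Fintype.card_fin, nsmul_eq_mul]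
    push_cast; linarith
  have h2 : (∑ j : Fin 3, |∑ a : V, ∑ B2 : Fin 3 → V, ∑ B3 : Fin 3 → V,
        W4 x T B1 b1 f1 f2 e a B2 B3 (Sum.inr (Sum.inr j.succ))|) ≤ 27 * nn V ^ 6 := by
    refine (Finset.sum_le_sum fun j _ => p4_gv hS B1 hB h j).trans ?_
    rw [Finset.sum_const, Finset.card_univ, Fintype.card_fin, nsmul_eq_mul]
    push_cast; linarith
  have h3 : (∑ k : Fin 3, EV4 x T B1 b1 f1 f2 e (Sum.inl k)) ≤ 3 * (nn V ^ 3 * K) := by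
    refine (Finset.sum_le_sum fun k _ => p4_b hS K hK B1 hB h k).trans ?_
    rw [Finset.sum_const, Finset.card_univ, Fintype.card_fin, nsmul_eq_mul]
    push_cast; linarith
  have h4 := p4_a hS K hK B1 hB h
  have h5 := p4_d hS K hK B1 hB h
  linarith

theorem thCK {E V : Type} [AddCommGroup E] [Module ℝ E] [Fintype V] {x : V → E}
    {T : (Fin 4 → V) → Prop} (hS : Sys 4 x T) (hG : G3 x) (K : ℝ)
    (hK : ∀ p e, NN x T p e ≤ K) :
    ∑ a, ZZ (lx x a) (lT T a) ≤ 81 * nn V ^ 9 + 8 * nn V ^ 6 * K := by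
  have hn := nn_nonneg V
  have hK0 : 0 ≤ K := (K6_NN0 x T 0 0).trans (hK 0 0)
  have hb : 0 ≤ 27 * nn V ^ 6 + 5 / 2 * (nn V ^ 3 * K) := by positivity
  have h1 : ∑ B1 : Fin 3 → V, ind (Injective B1) * OB4 x T B1 ≤
      nn V ^ 3 * (27 * nn V ^ 6 + 5 / 2 * (nn V ^ 3 * K)) := by
    rw [← sum_const_fun V 3]
    refine Finset.sum_le_sum fun B1 _ => ?_
    by_cases hB : Injective B1
    · rw [ind_true hB, one_mul]
      exact K6_one hS hG K hK B1 hB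
    · rw [ind_false hB, zero_mul]
      exact hb
  have h2 := tr3 hS hG
  have h3 : 0 ≤ nn V ^ 6 * K := by positivity
  calc ∑ a, ZZ (lx x a) (lT T a) ≤ 3 * ∑ B1 : Fin 3 → V, ind (Injective B1) * OB4 x T B1 := h2
    _ ≤ 3 * (nn V ^ 3 * (27 * nn V ^ 6 + 5 / 2 * (nn V ^ 3 * K))) := by linarith
    _ = 81 * nn V ^ 9 + 15 / 2 * (nn V ^ 6 * K) := by ring
    _ ≤ 81 * nn V ^ 9 + 8 * nn V ^ 6 * K := by linarith

theorem thC {E V : Type} [AddCommGroup E] [Module ℝ E] [Fintype V] {x : V → E}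
    {T : (Fin 4 → V) → Prop} (hS : Sys 4 x T) (hG : G3 x) (ℓ : Module.Dual ℝ E)
    (hℓ : ∀ v, 0 < ℓ (x v)) : ∑ a, ZZ (lx x a) (lT T a) ≤ 721 * nn V ^ 9 := by
  have h1 := thCK hS hG (80 * nn V ^ 3) (fun p e => by
    have h2 := lovasz (by norm_num : 1 ≤ 4) hS ℓ hℓ p e
    refine h2.trans (le_of_eq ?_)
    norm_num)
  refine h1.trans (le_of_eq ?_)
  ring

end KS37
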