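import Pool.Agent.LibKS37.P3g0
import Pool.Agent.LibKS37.SweepE

/-!
# KS37 row P3g2: the slice ker f1 satisfies P2Hyp
fin: dim ker f1 = 3 (f1 ≠ 0: if V has no vertex then use ... f1 ≠ 0 is given here as hf). u3: spx x B {i,j} is spanned by the third vector x v, f1 (x v) ≠ 0.
u6: hE.ridge. ridge: hE.f2r. dbl: y ∈ sp x B ⊓ sp x B' ⊓ ker f1, f2 y = 0: hE.iso.1.
-/

open Finset Function
open scoped Classical

namespace KS37

private theorem P3g2_third (i j : Fin 3) (hij : i ≠ j) :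
    ∃ l : Fin 3, ({i, j} : Set (Fin 3))ᶜ = {l} := by
  have h : ∀ i j : Fin 3, i ≠ j → ∃ l : Fin 3, ∀ k, (k ≠ i ∧ k ≠ j) ↔ k = l := by decide
  obtain ⟨l, hl⟩ := h i j hij
  refine ⟨l, ?_⟩
  ext k
  rw [Set.mem_compl_iff, Set.mem_insert_iff, Set.mem_singleton_iff, Set.mem_singleton_iff, ← hl k,
    not_or]

theorem p3_hyp {E V : Type} [AddCommGroup E] [Module ℝ E] [Fintype V] {x : V → E}
    {T : (Fin 3 → V) → Prop} (hS : Sys 3 x T) {f1 f2 : Module.Dual ℝ E} {e : E}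
    (hf : f1 ≠ 0) (hE : P3E x f1 f2 e) : P2Hyp 3 x (LinearMap.ker f1) f2 := by
  haveI := finiteDimensional_of_sys hS
  refine ⟨?_, ?_, ?_, ?_, ?_⟩
  · have h1 := LinearMap.finrank_range_add_finrank_ker f1
    have h2 : LinearMap.range f1 = ⊤ := by
      rw [LinearMap.range_eq_top]
      exact LinearMap.surjective hf
    rw [h2, finrank_top, Module.finrank_self, hS.rank] at h1
    omega
  · intro B _ i j hij
    rw [eq_bot_iff]
    rintro y ⟨hy, hfy⟩
    obtain ⟨l, hl⟩ := P3g2_third i j hij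
    unfold spx at hy
    rw [SetLike.mem_coe, hl, Set.image_singleton, Submodule.mem_span_singleton] at hy
    obtain ⟨c, rfl⟩ := hy
    rw [SetLike.mem_coe, LinearMap.mem_ker, map_smul, smul_eq_mul] at hfy
    rcases mul_eq_zero.1 hfy with h0 | h0
    · rw [h0, zero_smul]; exact Submodule.zero_mem _
    · exact absurd h0 (hE.fx _)
  · intro B B' hB hB' hd i
    rw [eq_bot_iff]
    rintro y ⟨hy, hfy⟩
    exact (Submodule.mem_bot ℝ).2 (hE.ridge B B' hB hB' hd i y hy (LinearMap.mem_ker.1 hfy))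
  · intro B hB i y hy h
    exact hE.f2r B hB i y hy h
  · rintro B B' hB hB' hd y ⟨hy, hfy⟩ h
    exact (hE.iso B B' hB hB' hd).1 y hy (LinearMap.mem_ker.1 hfy) h

end KS37
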