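import Pool.Agent.LibKS37.A1
import Pool.Agent.LibKS37.P3g0
import Pool.Agent.LibKS37.SweepE

/-!
# KS37 row P3g3: coordinates and height at q
q = qv x (sp x B') f1 f2 B ∈ sp x B ⊓ sp x B', f1 q = 0, f2 q = 1 (`solv_spec`, hE.iso), so q ≠ 0.
kapq: if kap x B'' e j q = 0 then q - s e ∈ spx x B'' {j} (`kap_eq_zero_iff`). s ≠ 0: e ∈ span{q} ⊔ spx x B'' {j}, hE.e3. s = 0: q ∈ spx x B'' {j} =
span(x v, x v'), {v,v'} the two other vertices of B''. Cases: (both in B) spx x B'' {j} = spx x B {i}: hE.ridge gives q=0. (both in B') the same with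
B, B' exchanged (hE.ridge B' B). (v ∈ B, v' ∉ B) q = c x v + c' x v' ∈ sp x B so c' = 0 (`x_notMem_sp`), q = c x v ∈ sp x B', v ∉ B' so c = 0.
(both outside B, one or none in B'): if v ∈ B', v'∉B': q ∈ sp x B' gives c'=0, then q=c x v ∈ sp x B, v∉B, c=0. Both outside B∪B':
G2 with R = (v,v'): sp x R ⊓ sp x B ⊓ sp x B' = ⊥.
hq: hgt x B'' e q = 0 → q ∈ sp x B'': hE.triple gives q = 0.
-/

open Finset Function
open scoped Classical

namespace KS37

section P3g3aux
variable {E V : Type} [AddCommGroup E] [Module ℝ E] [Fintype V] {x : V → E}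
  {T : (Fin 3 → V) → Prop}

private theorem P3g3_pair (R : Fin 2 → V) (z : E) (hz : z ∈ sp x R) :
    ∃ c0 c1 : ℝ, z = c0 • x (R 0) + c1 • x (R 1) := by
  obtain ⟨c, hc⟩ := (mem_sp_iff R z).1 hz
  rw [Fin.sum_univ_two] at hc
  exact ⟨c 0, c 1, hc⟩

private theorem P3g3_out (hS : Sys 3 x T) (B : Fin 3 → V) (hB : Injective B) (v : V)
    (hv : ∀ i, B i ≠ v) (c : ℝ) (h : c • x v ∈ sp x B) : c = 0 := by
  by_contra hc
  exact x_notMem_sp hS le_rfl B hB v hv (((sp x B).smul_mem_iff hc).1 h)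

private theorem P3g3_in (B : Fin 3 → V) (i : Fin 3) (c : ℝ) : c • x (B i) ∈ sp x B :=
  Submodule.smul_mem _ _ (Submodule.subset_span ⟨i, rfl⟩)

/-- both vertices of the pair are vertices of `B`. -/
private theorem P3g3_both (B : Fin 3 → V) (a b : Fin 3) (hab : a ≠ b) (c0 c1 : ℝ) :
    ∃ i : Fin 3, c0 • x (B a) + c1 • x (B b) ∈ spx x B {i} := by
  have h : ∀ a b : Fin 3, a ≠ b → ∃ i : Fin 3, a ≠ i ∧ b ≠ i := by decide
  obtain ⟨i, ha, hb⟩ := h a b hab
  refine ⟨i, Submodule.add_mem _ (Submodule.smul_mem _ _ (Submodule.subset_span ⟨a, ha, rfl⟩))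
    (Submodule.smul_mem _ _ (Submodule.subset_span ⟨b, hb, rfl⟩))⟩

private theorem P3g3_zero (hS : Sys 3 x T) (hG : G2 x) {f1 f2 : Module.Dual ℝ E} {e : E}
    (hE : P3E x f1 f2 e) (B B' : Fin 3 → V) (hB : Injective B) (hB' : Injective B')
    (hd : Disj B B') (R : Fin 2 → V) (hR : Injective R) (z : E) (hz : z ∈ sp x R)
    (hzB : z ∈ sp x B) (hzB' : z ∈ sp x B') (hf : f1 z = 0) : z = 0 := by
  have h01 : R 0 ≠ R 1 := fun h => absurd (hR h) (by decide)
  have hd' : Disj B' B := fun i j h => hd j i h.symm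
  obtain ⟨c0, c1, hc⟩ := P3g3_pair R z hz
  have outB : ∀ a : Fin 3, ∀ i, B' i ≠ B a := fun a i h => hd a i h.symm
  have outB' : ∀ a : Fin 3, ∀ i, B i ≠ B' a := fun a i h => hd i a h
  by_cases a0 : ∃ a, B a = R 0
  · obtain ⟨a, ha⟩ := a0
    by_cases a1 : ∃ b, B b = R 1
    · obtain ⟨b, hb⟩ := a1
      have hab : a ≠ b := by
        rintro rfl
        exact h01 (ha.symm.trans hb)
      obtain ⟨i, hi⟩ := P3g3_both (x := x) B a b hab c0 c1
      rw [ha, hb, ← hc] at hi
      exact hE.ridge B B' hB hB' hd i z ⟨hi, hzB'⟩ hf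
    · push Not at a1
      have h1 : c1 • x (R 1) ∈ sp x B := by
        have h2 : c1 • x (R 1) = z - c0 • x (B a) := by rw [hc, ha]; abel
        rw [h2]
        exact Submodule.sub_mem _ hzB (P3g3_in B a c0)
      have h3 := P3g3_out hS B hB (R 1) a1 c1 h1
      have h4 : z = c0 • x (B a) := by rw [hc, h3, zero_smul, add_zero, ha]
      have h5 := P3g3_out hS B' hB' (B a) (outB a) c0 (h4 ▸ hzB')
      rw [h4, h5, zero_smul]
  · push Not at a0
    by_cases a1 : ∃ b, B b = R 1
    · obtain ⟨b, hb⟩ := a1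
      have h1 : c0 • x (R 0) ∈ sp x B := by
        have h2 : c0 • x (R 0) = z - c1 • x (B b) := by rw [hc, hb]; abel
        rw [h2]
        exact Submodule.sub_mem _ hzB (P3g3_in B b c1)
      have h3 := P3g3_out hS B hB (R 0) a0 c0 h1
      have h4 : z = c1 • x (B b) := by rw [hc, h3, zero_smul, zero_add, hb]
      have h5 := P3g3_out hS B' hB' (B b) (outB b) c1 (h4 ▸ hzB')
      rw [h4, h5, zero_smul]
    · push Not at a1
      by_cases b0 : ∃ a, B' a = R 0
      · obtain ⟨a, ha⟩ := b0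
        by_cases b1 : ∃ b, B' b = R 1
        · obtain ⟨b, hb⟩ := b1
          have hab : a ≠ b := by
            rintro rfl
            exact h01 (ha.symm.trans hb)
          obtain ⟨i, hi⟩ := P3g3_both (x := x) B' a b hab c0 c1
          rw [ha, hb, ← hc] at hi
          exact hE.ridge B' B hB' hB hd' i z ⟨hi, hzB⟩ hf
        · push Not at b1
          have h1 : c1 • x (R 1) ∈ sp x B' := by
            have h2 : c1 • x (R 1) = z - c0 • x (B' a) := by rw [hc, ha]; abel
            rw [h2]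
            exact Submodule.sub_mem _ hzB' (P3g3_in B' a c0)
          have h3 := P3g3_out hS B' hB' (R 1) b1 c1 h1
          have h4 : z = c0 • x (B' a) := by rw [hc, h3, zero_smul, add_zero, ha]
          have h5 := P3g3_out hS B hB (B' a) (outB' a) c0 (h4 ▸ hzB)
          rw [h4, h5, zero_smul]
      · push Not at b0
        by_cases b1 : ∃ b, B' b = R 1
        · obtain ⟨b, hb⟩ := b1
          have h1 : c0 • x (R 0) ∈ sp x B' := by
            have h2 : c0 • x (R 0) = z - c1 • x (B' b) := by rw [hc, hb]; abel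
            rw [h2]
            exact Submodule.sub_mem _ hzB' (P3g3_in B' b c1)
          have h3 := P3g3_out hS B' hB' (R 0) b0 c0 h1
          have h4 : z = c1 • x (B' b) := by rw [hc, h3, zero_smul, zero_add, hb]
          have h5 := P3g3_out hS B hB (B' b) (outB' b) c1 (h4 ▸ hzB)
          rw [h4, h5, zero_smul]
        · push Not at b1
          have hRB : Disj R B := by
            intro k i h
            fin_cases k
            · exact a0 i h.symm
            · exact a1 i h.symm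
          have hRB' : Disj R B' := by
            intro k i h
            fin_cases k
            · exact b0 i h.symm
            · exact b1 i h.symm
          have h1 := hG R B B' hR hB hB' hRB hRB' hd
          have h2 : z ∈ sp x R ⊓ sp x B ⊓ sp x B' := ⟨⟨hz, hzB⟩, hzB'⟩
          rw [h1] at h2
          exact (Submodule.mem_bot ℝ).1 h2

end P3g3aux

theorem p3_kapq {E V : Type} [AddCommGroup E] [Module ℝ E] [Fintype V] {x : V → E}
    {T : (Fin 3 → V) → Prop} (hS : Sys 3 x T) (hG : G2 x) {f1 f2 : Module.Dual ℝ E} {e : E}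
    (hE : P3E x f1 f2 e) (B B' : Fin 3 → V) (hB : Injective B) (hB' : Injective B')
    (hd : Disj B B') (B'' : Fin 3 → V) (hB'' : Injective B'') (j : Fin 3) :
    kap x B'' e j (qv x (sp x B') f1 f2 B) ≠ 0 := by
  intro h0
  obtain ⟨b1, b2, b3⟩ := solv_spec (hE.iso B B' hB hB' hd) 0 1
  change qv x (sp x B') f1 f2 B ∈ _ at b1
  change f1 (qv x (sp x B') f1 f2 B) = 0 at b2
  change f2 (qv x (sp x B') f1 f2 B) = 1 at b3
  obtain ⟨s, hs⟩ := (kap_eq_zero_iff hS B'' hB'' e (hE.enot B'' hB'') j _).1 h0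
  by_cases hs0 : s = 0
  · rw [hs0, zero_smul, sub_zero, spx_single (s := 2) B'' j] at hs
    have h1 := P3g3_zero hS hG hE B B' hB hB' hd (fun l : Fin 2 => B'' (j.succAbove l))
      (hB''.comp Fin.succAbove_right_injective) _ hs b1.1 b1.2 b2
    rw [h1, map_zero] at b3
    norm_num at b3
  · apply hE.e3 B B' hB hB' hd B'' hB'' j
    have h1 : e = s⁻¹ • qv x (sp x B') f1 f2 B -
        s⁻¹ • (qv x (sp x B') f1 f2 B - s • e) := by
      rw [smul_sub, smul_smul, inv_mul_cancel₀ hs0, one_smul]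
      abel
    rw [h1]
    refine Submodule.sub_mem _ ?_ ?_
    · exact Submodule.mem_sup_left (Submodule.smul_mem _ _ (Submodule.mem_span_singleton_self _))
    · exact Submodule.mem_sup_right (Submodule.smul_mem _ _ hs)

theorem p3_hq {E V : Type} [AddCommGroup E] [Module ℝ E] [Fintype V] {x : V → E}
    {T : (Fin 3 → V) → Prop} (hS : Sys 3 x T) {f1 f2 : Module.Dual ℝ E} {e : E}
    (hE : P3E x f1 f2 e) (B B' B'' : Fin 3 → V) (hB : Injective B) (hB' : Injective B')
    (hB'' : Injective B'') (h1 : Disj B B') (h2 : Disj B B'') (h3 : Disj B' B'') :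
    hgt x B'' e (qv x (sp x B') f1 f2 B) ≠ 0 := by
  intro h0
  obtain ⟨b1, b2, b3⟩ := solv_spec (hE.iso B B' hB hB' h1) 0 1
  change qv x (sp x B') f1 f2 B ∈ _ at b1
  change f1 (qv x (sp x B') f1 f2 B) = 0 at b2
  change f2 (qv x (sp x B') f1 f2 B) = 1 at b3
  have h4 := (hgt_eq_zero_iff hS B'' hB'' e (hE.enot B'' hB'') _).1 h0
  have h5 := hE.triple B B' B'' hB hB' hB'' h1 h2 h3 _ ⟨b1, h4⟩ b2
  rw [h5, map_zero] at b3
  norm_num at b3

end KS37
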