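import Pool.Agent.LibKS37.A1
import Pool.Agent.LibKS37.P3g0
import Pool.Agent.LibKS37.SweepE

/-!
# KS37 row P3g5: the height is not 0 at an event
If equality holds there is (τ0,τ1) ≠ 0 with y = τ0 a + τ1 q, hgt x B'' e y = 0 (so y ∈ sp x B'') and the j-th coordinate functional is 0 at y; y ≠ 0, y ∈ sp x B ⊓ sp x B'.
(B i): y ∈ spx x B {i} ⊓ sp x B' ⊓ sp x B'' = ⊥ (`g2_spx`). (B' i): spx x B' {i} ⊓ sp x B ⊓ sp x B'' = ⊥. (B'' i): y - s e ∈ spx x B'' {i}, y ∈ sp x B'' so s=0;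
spx x B'' {i} ⊓ sp x B ⊓ sp x B' = ⊥.
-/

open Finset Function
open scoped Classical

namespace KS37

/-- a vector of the span of a facet with `i`-th coordinate `0` is in the span of the ridge -/
private theorem P3g5_mem {E V : Type} [AddCommGroup E] [Module ℝ E] [Fintype V] {x : V → E}
    {T : (Fin 3 → V) → Prop} (hS : Sys 3 x T) (B : Fin 3 → V) (hB : Injective B) {e : E}
    (he : e ∉ sp x B) (i : Fin 3) {y : E} (hy : y ∈ sp x B) (h : kap x B e i y = 0) :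
    y ∈ spx x B {i} := by
  obtain ⟨s, hs⟩ := (kap_eq_zero_iff hS B hB e he i y).1 h
  by_cases h0 : s = 0
  · rwa [h0, zero_smul, sub_zero] at hs
  · exfalso
    apply he
    have h1 : s • e ∈ sp x B := by
      have h2 := (sp x B).sub_mem hy (spx_le_sp B {i} hs)
      rwa [sub_sub_cancel] at h2
    exact ((sp x B).smul_mem_iff h0).1 h1

/-- two functionals with vanishing determinant have a common zero -/
private theorem P3g5_det (a b c d : ℝ) (h : a * d = b * c) :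
    ∃ s t : ℝ, (s ≠ 0 ∨ t ≠ 0) ∧ s * a + t * b = 0 ∧ s * c + t * d = 0 := by
  by_cases h1 : a = 0 ∧ b = 0
  · by_cases h2 : c = 0 ∧ d = 0
    · exact ⟨1, 0, Or.inl one_ne_zero, by rw [h1.1, h1.2]; ring, by rw [h2.1, h2.2]; ring⟩
    · refine ⟨d, -c, ?_, by rw [h1.1, h1.2]; ring, by ring⟩
      by_contra h3
      push Not at h3
      exact h2 ⟨by linarith [h3.2], h3.1⟩
  · refine ⟨b, -a, ?_, by ring, by linarith⟩
    by_contra h3
    push Not at h3
    exact h1 ⟨by linarith [h3.2], h3.1⟩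

theorem p3_hs {E V : Type} [AddCommGroup E] [Module ℝ E] [Fintype V] {x : V → E}
    {T : (Fin 3 → V) → Prop} (hS : Sys 3 x T) (hG : G2 x) {f1 f2 : Module.Dual ℝ E} {e : E}
    (hE : P3E x f1 f2 e) (B B' B'' : Fin 3 → V) (hB : Injective B) (hB' : Injective B')
    (hB'' : Injective B'') (h1 : Disj B B') (h2 : Disj B B'') (h3 : Disj B' B'')
    (j : Fin 3 ⊕ (Fin 3 ⊕ Fin 3)) :
    hgt x B'' e (av x (sp x B') f1 f2 B) * be3 x f1 f2 e B B' B'' j ≠
      hgt x B'' e (qv x (sp x B') f1 f2 B) * al3 x f1 f2 e B B' B'' j := by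
  intro heq
  have hiso := hE.iso B B' hB hB' h1
  obtain ⟨ha, ha1, ha2⟩ := solv_spec hiso 1 0
  obtain ⟨hq, hq1, hq2⟩ := solv_spec hiso 0 1
  have ha' : av x (sp x B') f1 f2 B = solv (sp x B ⊓ sp x B') f1 f2 1 0 := rfl
  have hq' : qv x (sp x B') f1 f2 B = solv (sp x B ⊓ sp x B') f1 f2 0 1 := rfl
  -- the coordinate functional
  obtain ⟨κ, hκa, hκq, hκ⟩ : ∃ κ : E →ₗ[ℝ] ℝ,
      al3 x f1 f2 e B B' B'' j = κ (av x (sp x B') f1 f2 B) ∧
      be3 x f1 f2 e B B' B'' j = κ (qv x (sp x B') f1 f2 B) ∧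
      ∀ y ∈ sp x B ⊓ sp x B' ⊓ sp x B'', κ y = 0 → y = 0 := by
    rcases j with i | i | i
    · refine ⟨kap x B e i, rfl, rfl, fun y hy h0 => ?_⟩
      have h4 := P3g5_mem hS B hB (hE.enot B hB) i hy.1.1 h0
      have h5 := g2_spx hG B B' B'' hB hB' hB'' h1 h2 h3 i
      have h6 : y ∈ spx x B {i} ⊓ sp x B' ⊓ sp x B'' := ⟨⟨h4, hy.1.2⟩, hy.2⟩
      rw [h5] at h6
      exact (Submodule.mem_bot ℝ).1 h6
    · refine ⟨kap x B' e i, rfl, rfl, fun y hy h0 => ?_⟩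
      have h4 := P3g5_mem hS B' hB' (hE.enot B' hB') i hy.1.2 h0
      have h5 := g2_spx hG B' B B'' hB' hB hB'' (fun i j => (h1 j i).symm) h3 h2 i
      have h6 : y ∈ spx x B' {i} ⊓ sp x B ⊓ sp x B'' := ⟨⟨h4, hy.1.1⟩, hy.2⟩
      rw [h5] at h6
      exact (Submodule.mem_bot ℝ).1 h6
    · refine ⟨kap x B'' e i, rfl, rfl, fun y hy h0 => ?_⟩
      have h4 := P3g5_mem hS B'' hB'' (hE.enot B'' hB'') i hy.2 h0
      have h5 := g2_spx hG B'' B B' hB'' hB hB' (fun i j => (h2 j i).symm)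
        (fun i j => (h3 j i).symm) h1 i
      have h6 : y ∈ spx x B'' {i} ⊓ sp x B ⊓ sp x B' := ⟨⟨h4, hy.1.1⟩, hy.1.2⟩
      rw [h5] at h6
      exact (Submodule.mem_bot ℝ).1 h6
  rw [hκa, hκq, ha', hq'] at heq
  set a := solv (sp x B ⊓ sp x B') f1 f2 1 0 with hadef
  set q := solv (sp x B ⊓ sp x B') f1 f2 0 1 with hqdef
  obtain ⟨s, t, hst, e1, e2⟩ := P3g5_det (hgt x B'' e a) (hgt x B'' e q) (κ a) (κ q) heq
  have hyP : s • a + t • q ∈ sp x B ⊓ sp x B' :=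
    Submodule.add_mem _ (Submodule.smul_mem _ _ ha) (Submodule.smul_mem _ _ hq)
  have hy2 : s • a + t • q ∈ sp x B'' := by
    rw [← hgt_eq_zero_iff hS B'' hB'' e (hE.enot B'' hB''), map_add, map_smul, map_smul,
      smul_eq_mul, smul_eq_mul]
    exact e1
  have hy0 := hκ (s • a + t • q) ⟨hyP, hy2⟩ (by
    rw [map_add, map_smul, map_smul, smul_eq_mul, smul_eq_mul]
    exact e2)
  have k1 := congrArg f1 hy0
  have k2 := congrArg f2 hy0
  rw [map_add, map_smul, map_smul, map_zero, ha1, hq1, smul_eq_mul, smul_eq_mul] at k1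
  rw [map_add, map_smul, map_smul, map_zero, ha2, hq2, smul_eq_mul, smul_eq_mul] at k2
  rcases hst with h | h
  · apply h; linarith
  · apply h; linarith

end KS37
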