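import Pool.Agent.LibKS37.P3g1
import Pool.Agent.LibKS37.P3g2
import Pool.Agent.LibKS37.P3g3
import Pool.Agent.LibKS37.P3g4
import Pool.Agent.LibKS37.P3g5

/-!
# KS37 row P3g: P3Good exists (short assembly)
p3_exists, then the fields; f1 ≠ 0: if V has no injective Fin 3 tuple... f1 ≠ 0 may be added generically: choose v with f1 (x v) ≠ 0 if V is nonempty (hV).
-/

open Finset Function
open scoped Classical

namespace KS37

theorem p3_good {E V : Type} [AddCommGroup E] [Module ℝ E] [Fintype V] [Nonempty V] {x : V → E}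
    {T : (Fin 3 → V) → Prop} (hS : Sys 3 x T) (hG : G2 x) : ∃ f1 f2 e, P3Good x f1 f2 e := by
  obtain ⟨f1, f2, e, hE⟩ := p3_exists hS hG
  have hf : f1 ≠ 0 := by
    intro h0
    obtain ⟨v⟩ := ‹Nonempty V›
    apply hE.fx v
    rw [h0]; rfl
  exact ⟨f1, f2, e, p3_hyp hS hf hE, hE.iso, hE.enot, hE.ridge,
    fun B B' hB hB' hd B'' hB'' j => p3_kapq hS hG hE B B' hB hB' hd B'' hB'' j,
    fun B B' B'' hB hB' hB'' h1 h2 h3 => p3_hq hS hE B B' B'' hB hB' hB'' h1 h2 h3,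
    fun B B' B'' hB hB' hB'' h1 h2 h3 => p3_nd hS hE B B' B'' hB hB' hB'' h1 h2 h3,
    fun B B' B'' hB hB' hB'' h1 h2 h3 j => p3_hs hS hG hE B B' B'' hB hB' hB'' h1 h2 h3 j⟩

end KS37
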