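import Pool.Agent.LibKS37.G2
import Pool.Agent.LibKS37.Sweep

/-!
# KS37 row P3ga: groups on the side of B and of B'
(first) exchange sums; for fixed B', B'' and every w: |Σ_u W3 (update w i u) B' B'' (inl i)| ≤ 8: if ¬(T B' ∧ T B'' ∧ Disj B' B'') or some w l (l≠i) is in B' or B'' all
terms vanish; otherwise live iff T B_u ∧ u ∉ X, X = image B' ∪ image B'' (card ≤ 6). `ga` with U = sp x B', h = hgt x B'' e, side y := (∀ i, 0 < kap x B' e i y) ∧ ∀ i, 0 < kap x B'' e i y;
h1: hG.ridge B_u B'. `group_sum` K = 8, then the sums over B', B'': 8 n^2 · n^3 · n^3.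
(second) is the first after exchanging the names B, B': av x (sp x B') f1 f2 B = av x (sp x B) f1 f2 B' (`inf_comm`), al3 B B' B'' (inr (inl i)) = al3 B' B B'' (inl i), Ev: the
bijection of index sets exchanging inl and inr∘inl; Live3 is symmetric (Disj symmetric). Sum over B, B' with `Finset.sum_comm`.
-/

open Finset Function
open scoped Classical

namespace KS37

theorem P3ga_X {V : Type} [Fintype V] (B B' : Fin 3 → V) :
    ((Finset.univ.image B ∪ Finset.univ.image B').card : ℝ) ≤ 6 := by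
  have h := Finset.card_image_le (s := (Finset.univ : Finset (Fin 3))) (f := B)
  have h' := Finset.card_image_le (s := (Finset.univ : Finset (Fin 3))) (f := B')
  rw [Finset.card_univ, Fintype.card_fin] at h h'
  have h2 := Finset.card_union_le (Finset.univ.image B) (Finset.univ.image B')
  have : (Finset.univ.image B ∪ Finset.univ.image B').card ≤ 6 := by omega
  exact_mod_cast this

theorem P3ga_spx {E V : Type} [AddCommGroup E] [Module ℝ E] {r : ℕ} (x : V → E)
    (w : Fin r → V) (i : Fin r) (u : V) : spx x (update w i u) {i} = spx x w {i} := by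
  unfold spx
  congr 1
  apply Set.image_congr
  intro l hl
  have : l ≠ i := fun h => hl (by rw [h]; exact Set.mem_singleton i)
  rw [update_of_ne this]

theorem P3ga_disj {V : Type} {r s : ℕ} (w : Fin r → V) (i : Fin r) (B' : Fin s → V)
    (hm : ∀ l, l ≠ i → ∀ j, w l ≠ B' j) (u : V) :
    Disj (update w i u) B' ↔ u ∉ Finset.univ.image B' := by
  constructor
  · intro h hu
    obtain ⟨j, _, hj⟩ := Finset.mem_image.1 hu
    exact h i j (by rw [update_self]; exact hj.symm)
  · intro hu l j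
    by_cases hl : l = i
    · subst hl
      rw [update_self]
      intro h
      exact hu (Finset.mem_image.2 ⟨j, Finset.mem_univ j, h.symm⟩)
    · rw [update_of_ne hl]
      exact hm l hl j

/-- one group -/
theorem P3ga_group {E V : Type} [AddCommGroup E] [Module ℝ E] [Fintype V] {x : V → E}
    {T : (Fin 3 → V) → Prop} (hS : Sys 3 x T) {f1 f2 : Module.Dual ℝ E} {e : E}
    (hG : P3Good x f1 f2 e) (i : Fin 3) (B' B'' w : Fin 3 → V) :
    |∑ u, W3 x T f1 f2 e (update w i u) B' B'' (Sum.inl i)| ≤ 8 := by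
  by_cases hA : T B' ∧ T B'' ∧ Disj B' B''
  swap
  · rw [Finset.sum_eq_zero, abs_zero]
    · norm_num
    · intro u _
      unfold W3
      rw [ind_false (fun h => hA ⟨h.2.1, h.2.2.1, h.2.2.2.2.2⟩), zero_mul]
  obtain ⟨hT', hT'', hD⟩ := hA
  by_cases hm : ∀ l, l ≠ i → ∀ j, w l ≠ B' j
  swap
  · push Not at hm
    obtain ⟨l, hl, j, hj⟩ := hm
    rw [Finset.sum_eq_zero, abs_zero]
    · norm_num
    · intro u _
      unfold W3
      rw [ind_false (fun h => h.2.2.2.1 l j (by rw [update_of_ne hl]; exact hj)), zero_mul]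
  by_cases hm' : ∀ l, l ≠ i → ∀ j, w l ≠ B'' j
  swap
  · push Not at hm'
    obtain ⟨l, hl, j, hj⟩ := hm'
    rw [Finset.sum_eq_zero, abs_zero]
    · norm_num
    · intro u _
      unfold W3
      rw [ind_false (fun h => h.2.2.2.2.1 l j (by rw [update_of_ne hl]; exact hj)), zero_mul]
  by_cases hex : ∃ u, T (update w i u) ∧ u ∉ Finset.univ.image B'
  swap
  · rw [Finset.sum_eq_zero, abs_zero]
    · norm_num
    · intro u _
      unfold W3
      rw [ind_false (fun h => hex ⟨u, h.1, (P3ga_disj w i B' hm u).1 h.2.2.2.1⟩), zero_mul]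
  obtain ⟨u0, hu0, hu1⟩ := hex
  have hD0 : Disj (update w i u0) B' := (P3ga_disj w i B' hm u0).2 hu1
  have hB' := hS.inj _ hT'
  have hB'' := hS.inj _ hT''
  have hga := ga hS (sp x B') f1 f2 (hgt x B'' e) e w i (Finset.univ.image B' ∪ Finset.univ.image B'')
    (fun y => (∀ j, 0 < kap x B' e j y) ∧ ∀ j, 0 < kap x B'' e j y)
    (by
      rw [← P3ga_spx x w i u0]
      exact hG.ridge (update w i u0) B' (hS.inj _ hu0) hB' hD0 i)
    (fun u hT hX => by
      have hX1 : u ∉ Finset.univ.image B' := fun h => hX (Finset.mem_union_left _ h)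
      have hDu := (P3ga_disj w i B' hm u).2 hX1
      exact ⟨hG.enot _ (hS.inj _ hT), hG.iso _ _ (hS.inj _ hT) hB' hDu,
        hG.kapq _ _ (hS.inj _ hT) hB' hDu _ (hS.inj _ hT) i⟩)
  have hX := P3ga_X B' B''
  refine le_trans (le_of_eq ?_) (hga.trans (by linarith))
  congr 1
  refine Finset.sum_congr rfl fun u _ => ?_
  have hiff : Live3 T (update w i u) B' B'' ∧
      Ev (al3 x f1 f2 e (update w i u) B' B'') (be3 x f1 f2 e (update w i u) B' B'') (Sum.inl i) ↔
      (T (update w i u) ∧ u ∉ Finset.univ.image B' ∪ Finset.univ.image B'' ∧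
        EvB x (update w i u) e i (solv (sp x (update w i u) ⊓ sp x B') f1 f2 1 0)
          (solv (sp x (update w i u) ⊓ sp x B') f1 f2 0 1) ∧
        (fun y => (∀ j, 0 < kap x B' e j y) ∧ ∀ j, 0 < kap x B'' e j y)
          (solv (sp x (update w i u) ⊓ sp x B') f1 f2 1 0 +
          tz x (update w i u) e i (solv (sp x (update w i u) ⊓ sp x B') f1 f2 1 0)
            (solv (sp x (update w i u) ⊓ sp x B') f1 f2 0 1) •
            solv (sp x (update w i u) ⊓ sp x B') f1 f2 0 1)) := by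
    rw [Finset.mem_union, not_or, ← P3ga_disj w i B' hm u, ← P3ga_disj w i B'' hm' u]
    constructor
    · rintro ⟨⟨h1, _, _, h3, h4, _⟩, h5⟩
      refine ⟨h1, ⟨h3, h4⟩, ?_, ?_, ?_⟩
      · intro l hl
        exact h5 (Sum.inl l) (fun h => hl (Sum.inl_injective h))
      · intro j
        have := h5 (Sum.inr (Sum.inl j)) (by simp)
        rw [map_add, map_smul, smul_eq_mul, mul_comm (tz _ _ _ _ _ _)]
        exact this
      · intro j
        have := h5 (Sum.inr (Sum.inr j)) (by simp)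
        rw [map_add, map_smul, smul_eq_mul, mul_comm (tz _ _ _ _ _ _)]
        exact this
    · rintro ⟨h1, ⟨h3, h4⟩, h5, h6, h7⟩
      refine ⟨⟨h1, hT', hT'', h3, h4, hD⟩, ?_⟩
      rintro (l | j | j) hl
      · exact h5 l (fun h => hl (by rw [h]))
      · have := h6 j
        rw [map_add, map_smul, smul_eq_mul, mul_comm (tz _ _ _ _ _ _)] at this
        exact this
      · have := h7 j
        rw [map_add, map_smul, smul_eq_mul, mul_comm (tz _ _ _ _ _ _)] at this
        exact this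
  unfold W3
  rw [← mul_assoc, ← ind_and, ind_congr hiff]
  rfl

theorem p3_ga {E V : Type} [AddCommGroup E] [Module ℝ E] [Fintype V] {x : V → E}
    {T : (Fin 3 → V) → Prop} (hS : Sys 3 x T) {f1 f2 : Module.Dual ℝ E} {e : E}
    (hG : P3Good x f1 f2 e) (i : Fin 3) :
    |∑ B : Fin 3 → V, ∑ B' : Fin 3 → V, ∑ B'' : Fin 3 → V,
        W3 x T f1 f2 e B B' B'' (Sum.inl i)| ≤ 8 * nn V ^ 8 := by
  rw [Finset.sum_comm]
  have h0 : ∀ B' : Fin 3 → V, |∑ B : Fin 3 → V, ∑ B'' : Fin 3 → V,
      W3 x T f1 f2 e B B' B'' (Sum.inl i)| ≤ nn V ^ 3 * (8 * nn V ^ (3 - 1)) := by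
    intro B'
    rw [Finset.sum_comm]
    refine (Finset.abs_sum_le_sum_abs _ _).trans ?_
    have h1 : ∀ B'' ∈ (Finset.univ : Finset (Fin 3 → V)),
        |∑ B : Fin 3 → V, W3 x T f1 f2 e B B' B'' (Sum.inl i)| ≤ 8 * nn V ^ (3 - 1) := by
      intro B'' _
      exact group_sum (fun B => W3 x T f1 f2 e B B' B'' (Sum.inl i)) i 8 (by norm_num)
        (fun w => P3ga_group hS hG i B' B'' w)
    refine (Finset.sum_le_sum h1).trans ?_
    rw [sum_const_fun]
  refine (Finset.abs_sum_le_sum_abs _ _).trans ?_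
  refine (Finset.sum_le_sum (fun B' _ => h0 B')).trans (le_of_eq ?_)
  rw [sum_const_fun]
  ring

theorem P3ga_W3_swap {E V : Type} [AddCommGroup E] [Module ℝ E] [Fintype V] (x : V → E)
    (T : (Fin 3 → V) → Prop) (f1 f2 : Module.Dual ℝ E) (e : E) (B B' B'' : Fin 3 → V) (i : Fin 3) :
    W3 x T f1 f2 e B B' B'' (Sum.inr (Sum.inl i)) = W3 x T f1 f2 e B' B B'' (Sum.inl i) := by
  have ea : av x (sp x B') f1 f2 B = av x (sp x B) f1 f2 B' := by
    unfold av
    rw [inf_comm]
  have eq : qv x (sp x B') f1 f2 B = qv x (sp x B) f1 f2 B' := by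
    unfold qv
    rw [inf_comm]
  have hL : Live3 T B B' B'' ↔ Live3 T B' B B'' := by
    unfold Live3
    constructor
    · rintro ⟨h1, h2, h3, h4, h5, h6⟩
      exact ⟨h2, h1, h3, fun i j h => h4 j i h.symm, h6, h5⟩
    · rintro ⟨h1, h2, h3, h4, h5, h6⟩
      exact ⟨h2, h1, h3, fun i j h => h4 j i h.symm, h6, h5⟩
  have hE : Ev (al3 x f1 f2 e B B' B'') (be3 x f1 f2 e B B' B'') (Sum.inr (Sum.inl i)) ↔
      Ev (al3 x f1 f2 e B' B B'') (be3 x f1 f2 e B' B B'') (Sum.inl i) := by
    unfold Ev al3 be3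
    rw [ea, eq]
    constructor
    · intro h
      rintro (l | l | l) hl
      · exact h (Sum.inr (Sum.inl l)) (fun h1 => hl (by
          rw [Sum.inr_injective h1 |> Sum.inl_injective]))
      · exact h (Sum.inl l) (by simp)
      · exact h (Sum.inr (Sum.inr l)) (by simp)
    · intro h
      rintro (l | l | l) hl
      · exact h (Sum.inr (Sum.inl l)) (by simp)
      · exact h (Sum.inl l) (fun h1 => hl (by rw [Sum.inl_injective h1]))
      · exact h (Sum.inr (Sum.inr l)) (by simp)
  unfold W3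
  rw [ind_congr hL, ind_congr hE]
  unfold eps al3 be3
  rw [ea, eq]
  rfl

theorem p3_ga' {E V : Type} [AddCommGroup E] [Module ℝ E] [Fintype V] {x : V → E}
    {T : (Fin 3 → V) → Prop} (hS : Sys 3 x T) {f1 f2 : Module.Dual ℝ E} {e : E}
    (hG : P3Good x f1 f2 e) (i : Fin 3) :
    |∑ B : Fin 3 → V, ∑ B' : Fin 3 → V, ∑ B'' : Fin 3 → V,
        W3 x T f1 f2 e B B' B'' (Sum.inr (Sum.inl i))| ≤ 8 * nn V ^ 8 := by
  simp only [P3ga_W3_swap]
  rw [Finset.sum_comm]
  exact p3_ga hS hG i

end KS37
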