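import Pool.Agent.LibKS37.A1
import Pool.Agent.LibKS37.O1
import Pool.Agent.LibKS37.Sweep

/-!
# KS37 row P3sum: the object identity summed over all triples
As P2sum: for live triples `oi_eq` (al3, be3, σ0 = hgt x B'' e av, σ1 = hgt x B'' e qv; hG.kapq for B''=B, B', B'' (use hd.symm for B'?): note
be3 (inr (inl i)) = kap x B' e i (qv x (sp x B') f1 f2 B), this is hG.kapq with B'' := B'). A zero t gives y = av + t qv ∈ sp x B ⊓ sp x B' ⊓ sp x B'' with all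
coordinates positive: Cone x B y, Cone x B' y, Cone x B'' y.
-/

open Finset Function
open scoped Classical

namespace KS37

/-- one triple of facets -/
theorem P3sum_triple {E V : Type} [AddCommGroup E] [Module ℝ E] [Fintype V] {x : V → E}
    {T : (Fin 3 → V) → Prop} (hS : Sys 3 x T) {f1 f2 : Module.Dual ℝ E} {e : E}
    (hG : P3Good x f1 f2 e) (B B' B'' : Fin 3 → V) :
    ind (Live3 T B B' B'' ∧ ∀ j, 0 < be3 x f1 f2 e B B' B'' j) ≤
      2 * ind (T B ∧ T B' ∧ T B'' ∧ Disj B B' ∧ Disj B B'' ∧ Disj B' B'' ∧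
        ∃ y, Cone x B y ∧ Cone x B' y ∧ Cone x B'' y) +
        ∑ j : Fin 3 ⊕ (Fin 3 ⊕ Fin 3), W3 x T f1 f2 e B B' B'' j := by
  by_cases hL : Live3 T B B' B''
  · obtain ⟨hT, hT', hT'', hD, hD1, hD2⟩ := hL
    have hL : Live3 T B B' B'' := ⟨hT, hT', hT'', hD, hD1, hD2⟩
    have hB := hS.inj _ hT
    have hB' := hS.inj _ hT'
    have hB'' := hS.inj _ hT''
    have hβ : ∀ j, be3 x f1 f2 e B B' B'' j ≠ 0 := by
      rintro (i | i | i)
      · exact hG.kapq B B' hB hB' hD B hB i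
      · exact hG.kapq B B' hB hB' hD B' hB' i
      · exact hG.kapq B B' hB hB' hD B'' hB'' i
    have hoi := oi_eq (al3 x f1 f2 e B B' B'') (be3 x f1 f2 e B B' B'')
      (hgt x B'' e (av x (sp x B') f1 f2 B)) (hgt x B'' e (qv x (sp x B') f1 f2 B)) hβ
      (hG.nd B B' B'' hB hB' hB'' hD hD1 hD2)
      (hG.hq B B' B'' hB hB' hB'' hD hD1 hD2) (hG.hs B B' B'' hB hB' hB'' hD hD1 hD2)
    have e1 : ind (Live3 T B B' B'' ∧ ∀ j, 0 < be3 x f1 f2 e B B' B'' j) =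
        ind (∀ j, 0 < be3 x f1 f2 e B B' B'' j) :=
      ind_congr ⟨fun h => h.2, fun h => ⟨hL, h⟩⟩
    have e2 : ∑ j : Fin 3 ⊕ (Fin 3 ⊕ Fin 3), W3 x T f1 f2 e B B' B'' j =
        ∑ j, ind (Ev (al3 x f1 f2 e B B' B'') (be3 x f1 f2 e B B' B'') j) *
          (sg (be3 x f1 f2 e B B' B'' j) * eps (al3 x f1 f2 e B B' B'') (be3 x f1 f2 e B B' B'')
            (hgt x B'' e (av x (sp x B') f1 f2 B)) (hgt x B'' e (qv x (sp x B') f1 f2 B)) j) := by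
      refine Finset.sum_congr rfl fun j _ => ?_
      unfold W3
      rw [ind_true hL, one_mul]
    have e3 : ind (∃ t : ℝ, (∀ j, 0 < al3 x f1 f2 e B B' B'' j + be3 x f1 f2 e B B' B'' j * t) ∧
          hgt x B'' e (av x (sp x B') f1 f2 B) + hgt x B'' e (qv x (sp x B') f1 f2 B) * t = 0) ≤
        ind (T B ∧ T B' ∧ T B'' ∧ Disj B B' ∧ Disj B B'' ∧ Disj B' B'' ∧
          ∃ y, Cone x B y ∧ Cone x B' y ∧ Cone x B'' y) := by
      apply ind_mono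
      rintro ⟨t, ht, hs⟩
      obtain ⟨a1, _, _⟩ := solv_spec (hG.iso B B' hB hB' hD) 1 0
      obtain ⟨b1, _, _⟩ := solv_spec (hG.iso B B' hB hB' hD) 0 1
      have hy : av x (sp x B') f1 f2 B + t • qv x (sp x B') f1 f2 B ∈ sp x B ⊓ sp x B' :=
        Submodule.add_mem _ a1 (Submodule.smul_mem _ _ b1)
      refine ⟨hT, hT', hT'', hD, hD1, hD2, av x (sp x B') f1 f2 B + t • qv x (sp x B') f1 f2 B, ?_, ?_, ?_⟩
      · rw [cone_iff_kap hS B hB e (hG.enot B hB)]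
        refine ⟨hy.1, fun i => ?_⟩
        have := ht (Sum.inl i)
        rw [map_add, map_smul, smul_eq_mul, mul_comm]
        exact this
      · rw [cone_iff_kap hS B' hB' e (hG.enot B' hB')]
        refine ⟨hy.2, fun i => ?_⟩
        have := ht (Sum.inr (Sum.inl i))
        rw [map_add, map_smul, smul_eq_mul, mul_comm]
        exact this
      · rw [cone_iff_kap hS B'' hB'' e (hG.enot B'' hB'')]
        refine ⟨?_, fun i => ?_⟩
        · rw [← hgt_eq_zero_iff hS B'' hB'' e (hG.enot B'' hB''), map_add, map_smul, smul_eq_mul, mul_comm]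
          exact hs
        · have := ht (Sum.inr (Sum.inr i))
          rw [map_add, map_smul, smul_eq_mul, mul_comm]
          exact this
    rw [e1, e2]
    have h0 := ind_nonneg (∀ j, be3 x f1 f2 e B B' B'' j < 0)
    linarith
  · have h1 : ¬ (Live3 T B B' B'' ∧ ∀ j, 0 < be3 x f1 f2 e B B' B'' j) := fun h => hL h.1
    rw [ind_false h1]
    have h2 : ∑ j : Fin 3 ⊕ (Fin 3 ⊕ Fin 3), W3 x T f1 f2 e B B' B'' j = 0 := by
      refine Finset.sum_eq_zero fun j _ => ?_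
      unfold W3
      rw [ind_false hL, zero_mul]
    rw [h2]
    have := ind_nonneg (T B ∧ T B' ∧ T B'' ∧ Disj B B' ∧ Disj B B'' ∧ Disj B' B'' ∧
        ∃ y, Cone x B y ∧ Cone x B' y ∧ Cone x B'' y)
    linarith

theorem p3_sum {E V : Type} [AddCommGroup E] [Module ℝ E] [Fintype V] {x : V → E}
    {T : (Fin 3 → V) → Prop} (hS : Sys 3 x T) {f1 f2 : Module.Dual ℝ E} {e : E}
    (hG : P3Good x f1 f2 e) :
    NP3 x T f1 f2 e ≤ 2 * ZZ x T +
      ∑ j : Fin 3 ⊕ (Fin 3 ⊕ Fin 3), |∑ B : Fin 3 → V, ∑ B' : Fin 3 → V, ∑ B'' : Fin 3 → V,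
        W3 x T f1 f2 e B B' B'' j| := by
  have h1 : NP3 x T f1 f2 e ≤ ∑ B : Fin 3 → V, ∑ B' : Fin 3 → V, ∑ B'' : Fin 3 → V,
      (2 * ind (T B ∧ T B' ∧ T B'' ∧ Disj B B' ∧ Disj B B'' ∧ Disj B' B'' ∧
        ∃ y, Cone x B y ∧ Cone x B' y ∧ Cone x B'' y) +
        ∑ j : Fin 3 ⊕ (Fin 3 ⊕ Fin 3), W3 x T f1 f2 e B B' B'' j) :=
    Finset.sum_le_sum fun B _ => Finset.sum_le_sum fun B' _ => Finset.sum_le_sum fun B'' _ =>
      P3sum_triple hS hG B B' B''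
  refine h1.trans ?_
  have h2 : ∑ B : Fin 3 → V, ∑ B' : Fin 3 → V, ∑ B'' : Fin 3 → V,
      (2 * ind (T B ∧ T B' ∧ T B'' ∧ Disj B B' ∧ Disj B B'' ∧ Disj B' B'' ∧
        ∃ y, Cone x B y ∧ Cone x B' y ∧ Cone x B'' y) +
        ∑ j : Fin 3 ⊕ (Fin 3 ⊕ Fin 3), W3 x T f1 f2 e B B' B'' j) = 2 * ZZ x T +
      ∑ j : Fin 3 ⊕ (Fin 3 ⊕ Fin 3), ∑ B : Fin 3 → V, ∑ B' : Fin 3 → V, ∑ B'' : Fin 3 → V,
        W3 x T f1 f2 e B B' B'' j := by
    have h3 : ∀ B B' : Fin 3 → V, ∑ B'' : Fin 3 → V,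
      (2 * ind (T B ∧ T B' ∧ T B'' ∧ Disj B B' ∧ Disj B B'' ∧ Disj B' B'' ∧
        ∃ y, Cone x B y ∧ Cone x B' y ∧ Cone x B'' y) +
        ∑ j : Fin 3 ⊕ (Fin 3 ⊕ Fin 3), W3 x T f1 f2 e B B' B'' j) =
        2 * (∑ B'' : Fin 3 → V, ind (T B ∧ T B' ∧ T B'' ∧ Disj B B' ∧ Disj B B'' ∧ Disj B' B'' ∧
        ∃ y, Cone x B y ∧ Cone x B' y ∧ Cone x B'' y)) +
        ∑ j : Fin 3 ⊕ (Fin 3 ⊕ Fin 3), ∑ B'' : Fin 3 → V, W3 x T f1 f2 e B B' B'' j := by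
      intro B B'
      rw [Finset.sum_add_distrib, ← Finset.mul_sum]
      congr 1
      exact Finset.sum_comm
    have h4 : ∀ B : Fin 3 → V, ∑ B' : Fin 3 → V, ∑ B'' : Fin 3 → V,
      (2 * ind (T B ∧ T B' ∧ T B'' ∧ Disj B B' ∧ Disj B B'' ∧ Disj B' B'' ∧
        ∃ y, Cone x B y ∧ Cone x B' y ∧ Cone x B'' y) +
        ∑ j : Fin 3 ⊕ (Fin 3 ⊕ Fin 3), W3 x T f1 f2 e B B' B'' j) =
        2 * (∑ B' : Fin 3 → V, ∑ B'' : Fin 3 → V, ind (T B ∧ T B' ∧ T B'' ∧ Disj B B' ∧ Disj B B'' ∧ Disj B' B'' ∧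
        ∃ y, Cone x B y ∧ Cone x B' y ∧ Cone x B'' y)) +
        ∑ j : Fin 3 ⊕ (Fin 3 ⊕ Fin 3), ∑ B' : Fin 3 → V, ∑ B'' : Fin 3 → V, W3 x T f1 f2 e B B' B'' j := by
      intro B
      rw [Finset.sum_congr rfl fun B' _ => h3 B B', Finset.sum_add_distrib, ← Finset.mul_sum]
      congr 1
      exact Finset.sum_comm
    rw [Finset.sum_congr rfl fun B _ => h4 B, Finset.sum_add_distrib, ← Finset.mul_sum]
    congr 1
    exact Finset.sum_comm
  rw [h2]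
  gcongr
  exact le_abs_self _

end KS37
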