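import Pool.Agent.LibKS37.P2
import Pool.Agent.LibKS37.P3g
import Pool.Agent.LibKS37.P3sum
import Pool.Agent.LibKS37.P3ga
import Pool.Agent.LibKS37.P3gv
import Pool.Agent.LibKS37.P3inf

/-!
# KS37 row P3: 3D potential, L^3 ≤ C (Z + n^8)
N² ≤ 2 QS + 159 n^5 (`p2_main`, r = 3, U = ker f1, functional f2: 44·3+27 = 159), times N ≤ n³; QS·N ≤ NP3 + 78 n^8; NP3 ≤ 2 ZZ + 9·8 n^8.
N³ ≤ 2(2 ZZ + 72 n^8 + 78 n^8) + 159 n^8 = 4 ZZ + 459 n^8. (V empty: N = 0.)
-/

open Finset Function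
open scoped Classical

namespace KS37

theorem P3_W {E V : Type} [AddCommGroup E] [Module ℝ E] [Fintype V] {x : V → E}
    {T : (Fin 3 → V) → Prop} (hS : Sys 3 x T) {f1 f2 : Module.Dual ℝ E} {e : E}
    (hG : P3Good x f1 f2 e) :
    ∑ j : Fin 3 ⊕ (Fin 3 ⊕ Fin 3), |∑ B : Fin 3 → V, ∑ B' : Fin 3 → V, ∑ B'' : Fin 3 → V,
        W3 x T f1 f2 e B B' B'' j| ≤ 72 * nn V ^ 8 := by
  have h1 : ∀ j : Fin 3 ⊕ (Fin 3 ⊕ Fin 3),
      |∑ B : Fin 3 → V, ∑ B' : Fin 3 → V, ∑ B'' : Fin 3 → V, W3 x T f1 f2 e B B' B'' j| ≤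
        8 * nn V ^ 8 := by
    rintro (i | i | i)
    · exact p3_ga hS hG i
    · exact p3_ga' hS hG i
    · exact p3_gv hS hG i
  refine (Finset.sum_le_sum fun j _ => h1 j).trans ?_
  rw [Finset.sum_const, Finset.card_univ, Fintype.card_sum, Fintype.card_sum, Fintype.card_fin,
    nsmul_eq_mul]
  push_cast; linarith

theorem p3_main {E V : Type} [AddCommGroup E] [Module ℝ E] [Fintype V] {x : V → E}
    {T : (Fin 3 → V) → Prop} (hS : Sys 3 x T) (hG : G2 x) (p e : E) (h : TReg x T p e) :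
    NN x T p e ^ 3 ≤ 4 * ZZ x T + 459 * nn V ^ 8 := by
  have hn := nn_nonneg V
  have hN0 : 0 ≤ NN x T p e := Finset.sum_nonneg fun _ _ => ind_nonneg _
  have hN1 : NN x T p e ≤ nn V ^ 3 := by
    unfold NN
    refine (sum_ind_le _).trans ?_
    rw [card_fun_real]
  by_cases hV : Nonempty V
  · obtain ⟨f1, f2, e0, hg⟩ := p3_good hS hG
    have h2 := p2_main hS (by norm_num) hg.hyp p e h
    have h3 := p3_inf hS hg p e h
    have h4 := p3_sum hS hg
    have h5 := P3_W hS hg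
    have h6 : NN x T p e ^ 3 ≤ (2 * QS x T (LinearMap.ker f1) f2 + 159 * nn V ^ 5) *
        NN x T p e := by
      calc NN x T p e ^ 3 = NN x T p e ^ 2 * NN x T p e := by ring
        _ ≤ (2 * QS x T (LinearMap.ker f1) f2 +
            (44 * (3 : ℕ) + 3 * (3 : ℕ) ^ 2) * (nn V ^ (3 - 1) * nn V ^ 3)) * NN x T p e :=
          mul_le_mul_of_nonneg_right h2 hN0
        _ = (2 * QS x T (LinearMap.ker f1) f2 + 159 * nn V ^ 5) * NN x T p e := by
          norm_num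
          left; ring
    have h7 : 159 * nn V ^ 5 * NN x T p e ≤ 159 * nn V ^ 5 * nn V ^ 3 :=
      mul_le_mul_of_nonneg_left hN1 (by positivity)
    have h8 : 159 * nn V ^ 5 * nn V ^ 3 = 159 * nn V ^ 8 := by ring
    nlinarith
  · rw [not_nonempty_iff] at hV
    have h0 : nn V = 0 := by
      unfold nn
      rw [Fintype.card_eq_zero]; simp
    have h1 : NN x T p e = 0 := by
      rw [h0] at hN1
      norm_num at hN1
      exact le_antisymm hN1 hN0
    have h2 : 0 ≤ ZZ x T := Finset.sum_nonneg fun _ _ => Finset.sum_nonneg fun _ _ =>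
      Finset.sum_nonneg fun _ _ => ind_nonneg _
    rw [h1, h0]
    norm_num
    exact h2

end KS37
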