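import Pool.Agent.LibKS37.Defs

/-! # KS37: signs, indicators (proved) -/

open Finset Function
open scoped Classical

namespace KS37

theorem sg_pos {t : ℝ} (h : 0 < t) : sg t = 1 := by unfold sg; rw [if_pos h]
theorem sg_neg {t : ℝ} (h : t < 0) : sg t = -1 := by
  unfold sg; rw [if_neg (not_lt.2 h.le), if_pos h]
@[simp] theorem sg_zero : sg 0 = 0 := by unfold sg; simp
theorem sg_eq_sign (t : ℝ) : sg t = ((SignType.sign t : SignType) : ℝ) := by
  rcases lt_trichotomy t 0 with h | h | h
  · rw [sg_neg h, sign_neg h]; simp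
  · subst h; simp
  · rw [sg_pos h, sign_pos h]; simp
theorem sg_mul (s t : ℝ) : sg (s * t) = sg s * sg t := by
  rw [sg_eq_sign, sg_eq_sign, sg_eq_sign, sign_mul]; push_cast; rfl
@[simp] theorem sg_neg_arg (t : ℝ) : sg (-t) = -sg t := by
  rw [show -t = (-1) * t by ring, sg_mul, sg_neg (by norm_num : (-1 : ℝ) < 0)]; ring
theorem abs_sg_le (t : ℝ) : |sg t| ≤ 1 := by
  rcases lt_trichotomy t 0 with h | h | h
  · rw [sg_neg h]; norm_num
  · subst h; simp
  · rw [sg_pos h]; norm_num
theorem sg_mul_self {t : ℝ} (h : t ≠ 0) : sg t * sg t = 1 := by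
  rcases lt_or_gt_of_ne h with h | h
  · rw [sg_neg h]; norm_num
  · rw [sg_pos h]; norm_num
theorem sg_eq_zero_iff (t : ℝ) : sg t = 0 ↔ t = 0 := by
  constructor
  · intro h
    rcases lt_trichotomy t 0 with h' | h' | h'
    · rw [sg_neg h'] at h; norm_num at h
    · exact h'
    · rw [sg_pos h'] at h; norm_num at h
  · rintro rfl; simp
theorem sg_pos_iff (t : ℝ) : sg t = 1 ↔ 0 < t := by
  constructor
  · intro h
    rcases lt_trichotomy t 0 with h' | h' | h'
    · rw [sg_neg h'] at h; norm_num at h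
    · subst h'; simp at h
    · exact h'
  · exact sg_pos
theorem sg_neg_iff (t : ℝ) : sg t = -1 ↔ t < 0 := by
  constructor
  · intro h
    rcases lt_trichotomy t 0 with h' | h' | h'
    · exact h'
    · subst h'; simp at h
    · rw [sg_pos h'] at h; norm_num at h
  · exact sg_neg

theorem ind_true {P : Prop} (h : P) : ind P = 1 := by unfold ind; rw [if_pos h]
theorem ind_false {P : Prop} (h : ¬ P) : ind P = 0 := by unfold ind; rw [if_neg h]
theorem ind_nonneg (P : Prop) : 0 ≤ ind P := by unfold ind; split_ifs <;> norm_num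
theorem ind_le_one (P : Prop) : ind P ≤ 1 := by unfold ind; split_ifs <;> norm_num
theorem ind_mono {P Q : Prop} (h : P → Q) : ind P ≤ ind Q := by
  by_cases hP : P
  · rw [ind_true hP, ind_true (h hP)]
  · rw [ind_false hP]; exact ind_nonneg _
theorem ind_congr {P Q : Prop} (h : P ↔ Q) : ind P = ind Q := by rw [propext h]
theorem ind_and (P Q : Prop) : ind (P ∧ Q) = ind P * ind Q := by
  by_cases hP : P <;> by_cases hQ : Q <;> simp [ind, hP, hQ]
theorem ind_or_le (P Q : Prop) : ind (P ∨ Q) ≤ ind P + ind Q := by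
  by_cases hP : P <;> by_cases hQ : Q <;> simp [ind, hP, hQ]
theorem abs_ind_mul_le (P : Prop) (t : ℝ) (h : |t| ≤ 1) : |ind P * t| ≤ 1 := by
  unfold ind; split_ifs
  · rwa [one_mul]
  · simp
theorem nn_nonneg (V : Type) [Fintype V] : 0 ≤ nn V := by unfold nn; positivity
theorem nn_one_le (V : Type) [Fintype V] [Nonempty V] : 1 ≤ nn V := by
  unfold nn; exact_mod_cast Fintype.card_pos
theorem sum_ind_le {α : Type} [Fintype α] (P : α → Prop) :
    ∑ a, ind (P a) ≤ (Fintype.card α : ℝ) := by
  refine (Finset.sum_le_sum (fun a _ => ind_le_one (P a))).trans ?_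
  simp
theorem card_fun_real (V : Type) [Fintype V] (r : ℕ) :
    ((Fintype.card (Fin r → V) : ℕ) : ℝ) = nn V ^ r := by simp [nn]
theorem sum_const_fun (V : Type) [Fintype V] (r : ℕ) (c : ℝ) :
    ∑ _B : Fin r → V, c = nn V ^ r * c := by
  rw [Finset.sum_const, nsmul_eq_mul, Finset.card_univ, card_fun_real]

end KS37
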