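import Pool.Agent.LibKS37.A2
import Pool.Agent.LibKS37.O3
import Pool.Agent.LibKS37.G1

/-!
# KS37 row C1: paths p + t p1 with fixed e (page, section 3, type A)
Fix (p,e) regular. Generic p1 (A2): for all B with T B, all i: kap x B e i p1 ≠ 0, and for i ≠ j
kap_i(p) kap_j(p1) ≠ kap_j(p) kap_i(p1) (the functional kap_i(p)•kap_j - kap_j(p)•kap_i is ≠ 0: evaluate at x(B j), `kap_x`).
For such p1: O3 `oi_ray` for each B with α=kap(p), β=kap(p1); ind(∀ 0<α)=ind(Hit p), ind(∀ 0<β)=ind(Hit p1). Sum over B with T B: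
NN(p1)-NN(p) = Σ_i Σ_B ind(T B ∧ Ev ∧ 0<t)·sg(β_i); for each i: `group_sum` with K=2 and G1.gv1 (X=∅, side t := 0<t).
-/

open Finset Function
open scoped Classical

namespace KS37

section C1aux
variable {E V : Type} [AddCommGroup E] [Module ℝ E] [Fintype V] {r : ℕ} {x : V → E}
    {T : (Fin r → V) → Prop}

private theorem C1_one (p p1 e : E) (B : Fin r → V) (hT : T B)
    (ha : ∀ i, kap x B e i p ≠ 0) (hb : ∀ i, kap x B e i p1 ≠ 0)
    (hnd : ∀ i j, i ≠ j → kap x B e i p * kap x B e j p1 ≠ kap x B e j p * kap x B e i p1) :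
    ind (T B ∧ Hit x B e p1) - ind (T B ∧ Hit x B e p) =
      ∑ i, ind (T B ∧ EvB x B e i p p1 ∧ 0 < tz x B e i p p1) * sg (kap x B e i p1) := by
  have h1 := oi_ray (fun i => kap x B e i p) (fun i => kap x B e i p1) ha hb
    (fun j l hjl => hnd j l hjl)
  have h2 : ind (T B ∧ Hit x B e p1) = ind (∀ i, 0 < kap x B e i p1) :=
    ind_congr ⟨fun h => h.2, fun h => ⟨hT, h⟩⟩
  have h3 : ind (T B ∧ Hit x B e p) = ind (∀ i, 0 < kap x B e i p) :=
    ind_congr ⟨fun h => h.2, fun h => ⟨hT, h⟩⟩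
  rw [h2, h3, h1]
  refine Finset.sum_congr rfl (fun i _ => ?_)
  congr 1
  refine ind_congr ?_
  constructor
  · rintro ⟨a, b⟩
    exact ⟨hT, a, b⟩
  · rintro ⟨_, a, b⟩
    exact ⟨a, b⟩

private theorem C1_gen (hS : Sys r x T) (p e : E) (h : TReg x T p e) :
    Gen (fun p1 => ∀ B, T B → (∀ i, kap x B e i p1 ≠ 0) ∧
      ∀ i j, i ≠ j → kap x B e i p * kap x B e j p1 ≠ kap x B e j p * kap x B e i p1) := by
  refine Gen.all fun B => Gen.imp fun hT => Gen.and ?_ ?_
  · refine Gen.all fun i => Gen.ne_zero ?_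
    intro h0
    have h1 := (kap_x hS B (hS.inj B hT) e (h B hT).1 i).1 i
    rw [h0, if_pos rfl] at h1
    simp at h1
  · refine Gen.all fun i => Gen.all fun j => Gen.imp fun hij => ?_
    have h2 : kap x B e i p • kap x B e j - kap x B e j p • kap x B e i ≠ 0 := by
      intro h0
      have h1 : (kap x B e i p • kap x B e j - kap x B e j p • kap x B e i) (x (B j)) = 0 := by
        rw [h0]; rfl
      have h3 := (kap_x hS B (hS.inj B hT) e (h B hT).1 j).1
      rw [LinearMap.sub_apply, LinearMap.smul_apply, LinearMap.smul_apply, h3 j, h3 i,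
        if_pos rfl, if_neg hij] at h1
      simp at h1
      exact (h B hT).2 i h1
    refine (Gen.ne_zero h2).mono (fun z hz => ?_)
    rw [LinearMap.sub_apply, LinearMap.smul_apply, LinearMap.smul_apply, smul_eq_mul,
      smul_eq_mul] at hz
    exact sub_ne_zero.1 hz

end C1aux

theorem typeA {E V : Type} [AddCommGroup E] [Module ℝ E] [Fintype V] {r : ℕ} {x : V → E}
    {T : (Fin r → V) → Prop} (hS : Sys r x T) (p e : E) (h : TReg x T p e) :
    Gen (fun p1 => TReg x T p1 e ∧ |NN x T p1 e - NN x T p e| ≤ 2 * r * nn V ^ (r - 1)) := by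
  refine (C1_gen hS p e h).mono (fun p1 hp1 => ?_)
  refine ⟨fun B hT => ⟨(h B hT).1, (hp1 B hT).1⟩, ?_⟩
  have h1 : NN x T p1 e - NN x T p e = ∑ i, ∑ B : Fin r → V,
      ind (T B ∧ EvB x B e i p p1 ∧ 0 < tz x B e i p p1) * sg (kap x B e i p1) := by
    unfold NN
    rw [← Finset.sum_sub_distrib, Finset.sum_comm]
    refine Finset.sum_congr rfl (fun B _ => ?_)
    by_cases hT : T B
    · exact C1_one p p1 e B hT (h B hT).2 (hp1 B hT).1 (hp1 B hT).2
    · rw [ind_false (fun h => hT h.1), ind_false (fun h => hT h.1), sub_zero]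
      symm
      refine Finset.sum_eq_zero fun i _ => ?_
      rw [ind_false (fun h => hT h.1), zero_mul]
  rw [h1]
  refine (Finset.abs_sum_le_sum_abs _ _).trans ?_
  have h2 : ∀ i ∈ (Finset.univ : Finset (Fin r)), |∑ B : Fin r → V,
      ind (T B ∧ EvB x B e i p p1 ∧ 0 < tz x B e i p p1) * sg (kap x B e i p1)| ≤
      2 * nn V ^ (r - 1) := by
    intro i _
    refine group_sum (fun B : Fin r → V => ind (T B ∧ EvB x B e i p p1 ∧ 0 < tz x B e i p p1) *
      sg (kap x B e i p1)) i 2 (by norm_num) (fun w => ?_)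
    have h3 := gv1 hS w i p p1 e ∅ (fun t => 0 < t)
      (fun u hT _ => ⟨(h _ hT).1, (hp1 _ hT).1 i⟩)
    rw [Finset.card_empty, Nat.cast_zero, add_zero] at h3
    refine le_trans (le_of_eq ?_) h3
    congr 1
    refine Finset.sum_congr rfl (fun u _ => ?_)
    congr 1
    refine ind_congr ?_
    constructor
    · rintro ⟨a, b, c⟩
      exact ⟨a, Finset.notMem_empty u, b, c⟩
    · rintro ⟨a, _, b, c⟩
      exact ⟨a, b, c⟩
  refine (Finset.sum_le_sum h2).trans ?_
  rw [Finset.sum_const, Finset.card_univ, Fintype.card_fin, nsmul_eq_mul]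
  exact le_of_eq (by ring)

/-- the same `e`, two arbitrary regular `p`, `p'`. -/
theorem const_same {E V : Type} [AddCommGroup E] [Module ℝ E] [Fintype V] {r : ℕ} {x : V → E}
    {T : (Fin r → V) → Prop} (hS : Sys r x T) (p p' e : E) (h : TReg x T p e)
    (h' : TReg x T p' e) : |NN x T p e - NN x T p' e| ≤ 4 * r * nn V ^ (r - 1) := by
  obtain ⟨p1, ⟨_, h1⟩, ⟨_, h2⟩⟩ := ((typeA hS p e h).and (typeA hS p' e h')).exists
  have h3 : NN x T p e - NN x T p' e =
      (NN x T p1 e - NN x T p' e) - (NN x T p1 e - NN x T p e) := by ring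
  rw [h3]
  refine (abs_sub _ _).trans ?_
  linarith

end KS37
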