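import Mathlib

/-!
# KS37: definitions (k-hyperplanes of point sets in `ℝ^4`, MP_971713_co)

`E` is a real vector space, `V` a finite set of vertices, `x : V → E` their vectors,
`B : Fin r → V` an ordered facet (or any tuple), `T` the set of facets of the system.
-/

open Finset Function
open scoped Classical

namespace KS37

/-- sign with values in `ℝ`. -/
noncomputable def sg (t : ℝ) : ℝ := if 0 < t then 1 else if t < 0 then -1 else 0

/-- indicator of a proposition. -/
noncomputable def ind (P : Prop) : ℝ := if P then 1 else 0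

/-- number of vertices, as a real number. -/
noncomputable def nn (V : Type) [Fintype V] : ℝ := (Fintype.card V : ℝ)

section basic
variable {E V : Type} [AddCommGroup E] [Module ℝ E]

/-- span of the vectors of the tuple `B`. -/
def sp {r : ℕ} (x : V → E) (B : Fin r → V) : Submodule ℝ E :=
  Submodule.span ℝ (Set.range fun i => x (B i))

/-- span of the vectors of `B` without those with index in `I`. -/
def spx {r : ℕ} (x : V → E) (B : Fin r → V) (I : Set (Fin r)) : Submodule ℝ E :=
  Submodule.span ℝ ((fun i => x (B i)) '' Iᶜ)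

/-- `y` lies in the open cone spanned by the vectors of `B`. -/
def Cone {r : ℕ} (x : V → E) (B : Fin r → V) (y : E) : Prop :=
  ∃ c : Fin r → ℝ, (∀ i, 0 < c i) ∧ y = ∑ i, c i • x (B i)

/-- the two tuples have no common vertex. -/
def Disj {r s : ℕ} (B : Fin r → V) (B' : Fin s → V) : Prop := ∀ i j, B i ≠ B' j

/-- the vectors of `B` together with `e` (index `none`). -/
def frame {r : ℕ} (x : V → E) (B : Fin r → V) (e : E) : Option (Fin r) → E :=
  fun o => o.elim e (fun i => x (B i))

/-- coordinate functionals of a family of vectors; `0` if the family is not a basis. -/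
noncomputable def coord {ι : Type} (b : ι → E) (i : ι) : E →ₗ[ℝ] ℝ :=
  if h : LinearIndependent ℝ b ∧ ⊤ ≤ Submodule.span ℝ (Set.range b) then
    (Module.Basis.mk h.1 h.2).coord i
  else 0

/-- `i`-th coordinate in the basis `(x ∘ B, e)`. -/
noncomputable def kap {r : ℕ} (x : V → E) (B : Fin r → V) (e : E) (i : Fin r) : E →ₗ[ℝ] ℝ :=
  coord (frame x B e) (some i)

/-- coordinate at `e` in the basis `(x ∘ B, e)`. -/
noncomputable def hgt {r : ℕ} (x : V → E) (B : Fin r → V) (e : E) : E →ₗ[ℝ] ℝ :=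
  coord (frame x B e) none

/-- the line `p + ℝ e` meets the open cone of `B` (for `e` outside the span of `B`). -/
def Hit {r : ℕ} (x : V → E) (B : Fin r → V) (e p : E) : Prop := ∀ i, 0 < kap x B e i p

/-- zero of the `i`-th coordinate on the line `p0 + t q`. -/
noncomputable def tz {r : ℕ} (x : V → E) (B : Fin r → V) (e : E) (i : Fin r) (p0 q : E) : ℝ :=
  -kap x B e i p0 / kap x B e i q

/-- at the zero of the `i`-th coordinate on the line `p0 + t q` the other ones are positive. -/
def EvB {r : ℕ} (x : V → E) (B : Fin r → V) (e : E) (i : Fin r) (p0 q : E) : Prop :=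
  ∀ l, l ≠ i → 0 < kap x B e l p0 + kap x B e l q * tz x B e i p0 q

/-- number of facets met by the line `p + ℝ e`. -/
noncomputable def NN {r : ℕ} [Fintype V] (x : V → E) (T : (Fin r → V) → Prop) (p e : E) : ℝ :=
  ∑ B : Fin r → V, ind (T B ∧ Hit x B e p)

/-- the line `p + ℝ e` is in regular position with respect to all facets. -/
def TReg {r : ℕ} (x : V → E) (T : (Fin r → V) → Prop) (p e : E) : Prop :=
  ∀ B, T B → e ∉ sp x B ∧ ∀ i, kap x B e i p ≠ 0

/-- number of (ordered) facets. -/
noncomputable def NT {r : ℕ} [Fintype V] (T : (Fin r → V) → Prop) : ℝ :=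
  ∑ B : Fin r → V, ind (T B)

/-- `P z` holds for all `z` outside finitely many proper subspaces. -/
def Gen (P : E → Prop) : Prop :=
  ∃ s : Finset (Submodule ℝ E), (∀ K ∈ s, K ≠ ⊤) ∧ ∀ z, (∀ K ∈ s, z ∉ K) → P z

/-- `(f1, f2)` maps the subspace `P` isomorphically onto `ℝ²`. -/
def Iso2 (P : Submodule ℝ E) (f1 f2 : Module.Dual ℝ E) : Prop :=
  (∀ y ∈ P, f1 y = 0 → f2 y = 0 → y = 0) ∧ ∀ s t : ℝ, ∃ y ∈ P, f1 y = s ∧ f2 y = t

/-- the vector of `P` with `f1 = s`, `f2 = t`. -/
noncomputable def solv (P : Submodule ℝ E) (f1 f2 : Module.Dual ℝ E) (s t : ℝ) : E :=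
  if h : ∃ y, y ∈ P ∧ f1 y = s ∧ f2 y = t then h.choose else 0

end basic

/-- **Balanced system of rank `r`**: `E` has dimension `r + 1`, any `r + 1` of the vectors are
linearly independent, and the facets through a ridge are balanced. -/
structure Sys {E V : Type} [AddCommGroup E] [Module ℝ E] [Fintype V] (r : ℕ) (x : V → E)
    (T : (Fin r → V) → Prop) : Prop where
  rank : Module.finrank ℝ E = r + 1
  gp : ∀ s : ℕ, s ≤ r + 1 → ∀ v : Fin s → V, Injective v → LinearIndependent ℝ (fun i => x (v i))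
  inj : ∀ w, T w → Injective w
  perm : ∀ w (σ : Equiv.Perm (Fin r)), T w → T (fun i => w (σ i))
  bal : ∀ (w : Fin r → V) (i : Fin r) (g : Module.Dual ℝ E), (∀ l, l ≠ i → g (x (w l)) = 0) →
    |∑ u, ind (T (update w i u)) * sg (g (x u))| ≤ 2

/-- condition `j` fails at `t_j = -α_j/β_j` while all others hold there. -/
def Ev {J : Type} (α β : J → ℝ) (j : J) : Prop :=
  ∀ l, l ≠ j → 0 < α l + β l * (-α j / β j)

/-- `sign(s(t_j)) · sign(slope of s)`, `s(t) = σ0 + σ1 t`, `t_j = -α_j/β_j`. -/
noncomputable def eps {J : Type} (α β : J → ℝ) (σ0 σ1 : ℝ) (j : J) : ℝ :=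
  sg (σ0 + σ1 * (-α j / β j)) * sg σ1

/-- no two of the affine functions `α_j + β_j t` have a common zero (`∞` included). -/
def Nondeg {J : Type} (α β : J → ℝ) : Prop := ∀ j l, j ≠ l → α j * β l ≠ α l * β j

/-! ## links -/
section link
variable {E V : Type} [AddCommGroup E] [Module ℝ E]

/-- the space of the link of `a`. -/
abbrev LE (x : V → E) (a : V) : Type := E ⧸ Submodule.span ℝ {x a}

/-- the vertices of the link of `a`. -/
abbrev LV (a : V) : Type := {v : V // v ≠ a}

/-- the vectors of the link of `a`. -/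
def lx (x : V → E) (a : V) : LV a → LE x a :=
  fun v => (Submodule.span ℝ {x a}).mkQ (x v.1)

/-- the facets of the link of `a`. -/
def lT {r : ℕ} (T : (Fin (r + 1) → V) → Prop) (a : V) : (Fin r → LV a) → Prop :=
  fun w => T (Fin.cons a (fun i => (w i).1))

end link

/-! ## the counted quantities -/
section counts
variable {E V : Type} [AddCommGroup E] [Module ℝ E] [Fintype V]

/-- pairs of disjoint facets with a common ray. -/
noncomputable def QQ {r : ℕ} (x : V → E) (T : (Fin r → V) → Prop) : ℝ :=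
  ∑ B : Fin r → V, ∑ B' : Fin r → V,
    ind (T B ∧ T B' ∧ Disj B B' ∧ ∃ y, Cone x B y ∧ Cone x B' y)

/-- pairs of disjoint facets with a common ray in `U ∩ {f > 0}`. -/
noncomputable def QS {r : ℕ} (x : V → E) (T : (Fin r → V) → Prop) (U : Submodule ℝ E)
    (f : Module.Dual ℝ E) : ℝ :=
  ∑ B : Fin r → V, ∑ B' : Fin r → V,
    ind (T B ∧ T B' ∧ Disj B B' ∧ ∃ y ∈ U, Cone x B y ∧ Cone x B' y ∧ 0 < f y)

/-- triples of pairwise disjoint facets with a common ray. -/
noncomputable def ZZ {r : ℕ} (x : V → E) (T : (Fin r → V) → Prop) : ℝ :=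
  ∑ B : Fin r → V, ∑ B' : Fin r → V, ∑ B'' : Fin r → V,
    ind (T B ∧ T B' ∧ T B'' ∧ Disj B B' ∧ Disj B B'' ∧ Disj B' B'' ∧
      ∃ y, Cone x B y ∧ Cone x B' y ∧ Cone x B'' y)

/-- (G2), in a system of rank 3: a ridge, and two further facets have no common ray. -/
def G2 (x : V → E) : Prop :=
  ∀ (R : Fin 2 → V) (B B' : Fin 3 → V), Injective R → Injective B → Injective B' →
    Disj R B → Disj R B' → Disj B B' → sp x R ⊓ sp x B ⊓ sp x B' = ⊥

/-- (G3), in a system of rank 4. -/
def G3 (x : V → E) : Prop :=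
  ∀ (a : V) (B1 B2 B3 : Fin 3 → V), Injective B1 → Injective B2 → Injective B3 →
    Disj B1 B2 → Disj B1 B3 → Disj B2 B3 → (∀ i, B1 i ≠ a) → (∀ i, B2 i ≠ a) → (∀ i, B3 i ≠ a) →
    sp x B1 ⊓ sp x B2 ⊓ sp x (Fin.cons a B3 : Fin 4 → V) = ⊥

end counts

end KS37
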