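import Pool.Agent.LibKS37.A1
import Pool.Agent.LibKS37.A3
import Pool.Agent.LibKS37.A4
import Pool.Agent.LibKS37.K1

/-!
# KS37 row K3: crossing pairs in the links are edge-facet crossings (page 4(c))
In the link of b let g, g' be facets, disjoint, with a common ray: lifting, y = α x(g 0)+β x(g 1), y' = γ x(g' 0)+δ x(g' 1) (positive coefficients), y - y' = λ x b.
λ ≠ 0 (the 4 vectors of g, g' are independent: `sp_inf_eq_bot` would give y = 0, but y ≠ 0). λ>0: y = y' + λ x b ∈ Cone x (cons b g'), so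
(1/α) y = x(g 0) + (β/α) x(g 1): Hit x (cons b g') (x (g 1)) (x (g 0)) (`hit_iff`; x(g 1) ∉ sp x (cons b g'): `x_notMem_sp`). λ<0: the same with g, g' exchanged.
So QQ(link b) ≤ Σ_{g,g'} [ind(T (cons b g') ∧ Hit ..) + ind(T (cons b g) ∧ Hit ..)], both sums equal by symmetry; sum over b with `sum_cons`, `sum_subtype_tuple` (drop ind ≤ 1).
-/

open Finset Function
open scoped Classical

namespace KS37

private theorem K3_aux {E V : Type} [AddCommGroup E] [Module ℝ E] [Fintype V] {x : V → E}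
    {T : (Fin 3 → V) → Prop} (hS : Sys 3 x T) (b : V) (g g' : Fin 2 → LV b)
    (hT' : T (Fin.cons b (fun i => (g' i).1))) (hd : ∀ i j, (g i).1 ≠ (g' j).1)
    (c c' : Fin 2 → ℝ) (hc : ∀ i, 0 < c i) (hc' : ∀ i, 0 < c' i) (t : ℝ) (ht : 0 < t)
    (h : ∑ i, c i • x (g i).1 = ∑ i, c' i • x (g' i).1 + t • x b) :
    Hit x (Fin.cons b (fun i => (g' i).1)) (x (g 1).1) (x (g 0).1) := by
  have hinj := hS.inj _ hT'
  have hne : ∀ i, (Fin.cons b (fun i => (g' i).1) : Fin 3 → V) i ≠ (g 1).1 := by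
    intro i
    refine Fin.cases ?_ (fun j => ?_) i
    · rw [Fin.cons_zero]; exact (g 1).2.symm
    · rw [Fin.cons_succ]; exact (hd 1 j).symm
  have hnot := x_notMem_sp hS (le_refl 3) _ hinj _ hne
  rw [hit_iff hS _ hinj _ hnot]
  refine ⟨c 1 / c 0, fun i => (c 0)⁻¹ * (Fin.cons t c' : Fin 3 → ℝ) i, ?_, ?_⟩
  · intro i
    refine mul_pos (inv_pos.2 (hc 0)) ?_
    refine Fin.cases ?_ (fun j => ?_) i
    · rw [Fin.cons_zero]; exact ht
    · rw [Fin.cons_succ]; exact hc' j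
  · have h1 : ∑ i : Fin 3, ((c 0)⁻¹ * (Fin.cons t c' : Fin 3 → ℝ) i) •
        x ((Fin.cons b (fun i => (g' i).1) : Fin 3 → V) i) =
        (c 0)⁻¹ • ∑ i, c i • x (g i).1 := by
      rw [h, Fin.sum_univ_succ]
      simp only [Fin.cons_zero, Fin.cons_succ]
      rw [smul_add, Finset.smul_sum, smul_smul, add_comm]
      congr 1
      refine Finset.sum_congr rfl fun i _ => ?_
      rw [smul_smul]
    rw [h1, Fin.sum_univ_two, smul_add, smul_smul, smul_smul, inv_mul_cancel₀ (hc 0).ne',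
      one_smul, div_eq_inv_mul]

private theorem K3_pair {E V : Type} [AddCommGroup E] [Module ℝ E] [Fintype V] {x : V → E}
    {T : (Fin 3 → V) → Prop} (hS : Sys 3 x T) (b : V) (g g' : Fin 2 → LV b) :
    ind (lT T b g ∧ lT T b g' ∧ Disj g g' ∧ ∃ y, Cone (lx x b) g y ∧ Cone (lx x b) g' y) ≤
      ind (T (Fin.cons b (fun i => (g' i).1)) ∧
        Hit x (Fin.cons b (fun i => (g' i).1)) (x (g 1).1) (x (g 0).1)) +
      ind (T (Fin.cons b (fun i => (g i).1)) ∧
        Hit x (Fin.cons b (fun i => (g i).1)) (x (g' 1).1) (x (g' 0).1)) := by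
  refine le_trans (ind_mono ?_) (ind_or_le _ _)
  rintro ⟨hT, hT', hd, y, ⟨c, hc, hy⟩, c', hc', hy'⟩
  have hd1 : ∀ i j, (g i).1 ≠ (g' j).1 := fun i j h => hd i j (Subtype.ext h)
  have hginj : Injective (fun i => (g i).1) := by
    intro i j hij
    have h2 : (Fin.cons b (fun i => (g i).1) : Fin 3 → V) i.succ =
        (Fin.cons b (fun i => (g i).1) : Fin 3 → V) j.succ := by
      simpa only [Fin.cons_succ] using hij
    exact Fin.succ_injective _ (hS.inj _ hT h2)
  have hginj' : Injective (fun i => (g' i).1) := by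
    intro i j hij
    have h2 : (Fin.cons b (fun i => (g' i).1) : Fin 3 → V) i.succ =
        (Fin.cons b (fun i => (g' i).1) : Fin 3 → V) j.succ := by
      simpa only [Fin.cons_succ] using hij
    exact Fin.succ_injective _ (hS.inj _ hT' h2)
  have h0 : (Submodule.span ℝ {x b}).mkQ
      (∑ i, c i • x (g i).1 - ∑ i, c' i • x (g' i).1) = 0 := by
    rw [map_sub, map_sum, map_sum]
    simp only [map_smul]
    exact sub_eq_zero.2 (hy.symm.trans hy')
  rw [Submodule.mkQ_apply, Submodule.Quotient.mk_eq_zero, Submodule.mem_span_singleton] at h0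
  obtain ⟨t, ht⟩ := h0
  rcases lt_trichotomy t 0 with h | h | h
  · right
    refine ⟨hT, K3_aux hS b g' g hT (fun i j => (hd1 j i).symm) c' c hc' hc (-t)
      (by linarith) ?_⟩
    rw [neg_smul, ht]; abel
  · exfalso
    subst h
    rw [zero_smul] at ht
    have h1 : (∑ i, c i • x (g i).1) ∈ sp x (fun i => (g i).1) ⊓ sp x (fun i => (g' i).1) := by
      refine ⟨(mem_sp_iff (fun i => (g i).1) _).2 ⟨c, rfl⟩, ?_⟩
      rw [sub_eq_zero.1 ht.symm]
      exact (mem_sp_iff (fun i => (g' i).1) _).2 ⟨c', rfl⟩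
    rw [sp_inf_eq_bot hS _ _ hginj hginj' hd1 (by norm_num), Submodule.mem_bot] at h1
    have h2 := hS.gp 2 (by norm_num) _ hginj
    rw [Fintype.linearIndependent_iff] at h2
    exact (hc 0).ne' (h2 c h1 0)
  · left
    refine ⟨hT', K3_aux hS b g g' hT' hd1 c c' hc hc' t h ?_⟩
    rw [ht]; abel

private theorem K3_sub {V : Type} [Fintype V] (b : V) (G : (Fin 2 → V) → ℝ)
    (hG : ∀ w, 0 ≤ G w) : ∑ w : Fin 2 → LV b, G (fun i => (w i).1) ≤ ∑ w : Fin 2 → V, G w := by
  rw [sum_subtype_tuple b G]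
  refine Finset.sum_le_sum fun w _ => ?_
  exact mul_le_of_le_one_left (hG w) (ind_le_one _)

private theorem K3_sub2 {V : Type} [Fintype V] (b : V) (A : (Fin 2 → V) → (Fin 2 → V) → ℝ)
    (hA : ∀ g F, 0 ≤ A g F) :
    ∑ g : Fin 2 → LV b, ∑ g' : Fin 2 → LV b, A (fun i => (g i).1) (fun i => (g' i).1) ≤
      ∑ g : Fin 2 → V, ∑ g' : Fin 2 → V, A g g' := by
  refine le_trans (Finset.sum_le_sum fun g _ => K3_sub b (A (fun i => (g i).1)) (hA _)) ?_
  exact K3_sub b (fun w => ∑ g' : Fin 2 → V, A w g') (fun w => Finset.sum_nonneg fun _ _ => hA _ _)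

private theorem K3_sum {V : Type} [Fintype V] (b : V) (A : (Fin 2 → V) → (Fin 2 → V) → ℝ)
    (hA : ∀ g F, 0 ≤ A g F) :
    ∑ g : Fin 2 → LV b, ∑ g' : Fin 2 → LV b, (A (fun i => (g i).1) (fun i => (g' i).1) +
        A (fun i => (g' i).1) (fun i => (g i).1)) ≤
      2 * ∑ g : Fin 2 → V, ∑ g' : Fin 2 → V, A g g' := by
  have h1 := K3_sub2 b A hA
  have h2 := K3_sub2 b (fun g g' => A g' g) (fun g g' => hA g' g)
  rw [Finset.sum_comm (f := fun (g g' : Fin 2 → V) => A g' g)] at h2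
  simp only [Finset.sum_add_distrib]
  linarith

theorem tr2 {E V : Type} [AddCommGroup E] [Module ℝ E] [Fintype V] {x : V → E}
    {T : (Fin 3 → V) → Prop} (hS : Sys 3 x T) :
    ∑ b, QQ (lx x b) (lT T b) ≤
      2 * ∑ g : Fin 2 → V, ∑ F : Fin 3 → V, ind (T F ∧ Hit x F (x (g 1)) (x (g 0))) := by
  have h1 : ∀ b, QQ (lx x b) (lT T b) ≤
      2 * ∑ g : Fin 2 → V, ∑ g' : Fin 2 → V,
        ind (T (Fin.cons b g') ∧ Hit x (Fin.cons b g') (x (g 1)) (x (g 0))) := by
    intro b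
    refine le_trans (Finset.sum_le_sum fun g _ => Finset.sum_le_sum fun g' _ =>
      K3_pair hS b g g') ?_
    exact K3_sum b (fun g g' => ind (T (Fin.cons b g') ∧
      Hit x (Fin.cons b g') (x (g 1)) (x (g 0)))) (fun _ _ => ind_nonneg _)
  refine le_trans (Finset.sum_le_sum fun b _ => h1 b) (le_of_eq ?_)
  rw [← Finset.mul_sum, Finset.sum_comm]
  congr 1
  refine Finset.sum_congr rfl fun g _ => ?_
  rw [sum_cons (fun F => ind (T F ∧ Hit x F (x (g 1)) (x (g 0))))]

end KS37
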