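import Pool.Agent.LibKS37.K2
import Pool.Agent.LibKS37.K3
import Pool.Agent.LibKS37.C3
import Pool.Agent.LibKS37.P2

/-!
# KS37 row K4: (#T)² ≤ C(n³ L + n⁵) (page (A))
Let M_b, M'_b be the two numbers of `k_step`. M_b², M'_b² ≤ 2 QQ_b + 100 n³ (`p2_top` for `link_sys hS b`, nn (LV b) ≤ nn V). NT ≤ 3 Σ(M_b+M'_b), Cauchy-Schwarz:
NT² ≤ 9·n·Σ(M_b+M'_b)² ≤ 18 n Σ(M_b²+M'_b²) ≤ 18 n (4 Σ QQ_b + 200 n⁴). Σ QQ_b ≤ 2 Σ_g NN x T (x (g 0)) (x (g 1)) ≤ 2 n² (NN x T p e + 60 n²) (`tr2`, `upper` with r=3).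
NT² ≤ 144 n³ N + 8640 n⁵ + 3600 n⁵.
-/

open Finset Function
open scoped Classical

namespace KS37

private theorem K4_nn_link {V : Type} [Fintype V] (b : V) : nn (LV b) ≤ nn V := by
  unfold nn
  exact_mod_cast Fintype.card_le_of_injective (fun v : LV b => v.1) Subtype.val_injective

private theorem K4_link {E V : Type} [AddCommGroup E] [Module ℝ E] [Fintype V] {x : V → E}
    {T : (Fin 3 → V) → Prop} (hS : Sys 3 x T) (b : V) (p e : LE x b)
    (h : TReg (lx x b) (lT T b) p e) :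
    NN (lx x b) (lT T b) p e ^ 2 ≤ 2 * QQ (lx x b) (lT T b) + 100 * nn V ^ 3 := by
  have h1 := p2_top (link_sys hS b) p e h
  have h2 : nn (LV b) ^ 3 ≤ nn V ^ 3 := pow_le_pow_left₀ (nn_nonneg _) (K4_nn_link b) 3
  linarith

private theorem K4_sumQQ {E V : Type} [AddCommGroup E] [Module ℝ E] [Fintype V] {x : V → E}
    {T : (Fin 3 → V) → Prop} (hS : Sys 3 x T) (p e : E) (h : TReg x T p e) :
    ∑ b, QQ (lx x b) (lT T b) ≤ 2 * (nn V ^ 2 * (NN x T p e + 60 * nn V ^ 2)) := by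
  refine le_trans (tr2 hS) ?_
  refine mul_le_mul_of_nonneg_left ?_ (by norm_num)
  calc ∑ g : Fin 2 → V, ∑ F : Fin 3 → V, ind (T F ∧ Hit x F (x (g 1)) (x (g 0)))
      ≤ ∑ g : Fin 2 → V, (NN x T p e + 60 * nn V ^ 2) := by
        refine Finset.sum_le_sum fun g _ => ?_
        have h1 := upper hS (x (g 0)) (x (g 1)) p e h
        have h2 : NN x T (x (g 0)) (x (g 1)) =
          ∑ F : Fin 3 → V, ind (T F ∧ Hit x F (x (g 1)) (x (g 0))) := rfl
        rw [← h2]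
        refine le_trans h1 (le_of_eq ?_)
        norm_num
    _ = nn V ^ 2 * (NN x T p e + 60 * nn V ^ 2) := by
        rw [Finset.sum_const, nsmul_eq_mul]
        congr 1
        rw [Finset.card_univ, Fintype.card_fun, Fintype.card_fin]
        unfold nn
        push_cast
        rfl

theorem thA {E V : Type} [AddCommGroup E] [Module ℝ E] [Fintype V] {x : V → E}
    {T : (Fin 3 → V) → Prop} (hS : Sys 3 x T) (p e : E) (h : TReg x T p e) :
    NT T ^ 2 ≤ 144 * nn V ^ 3 * NN x T p e + 12240 * nn V ^ 5 := by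
  obtain ⟨p0, e0, hreg, hNT⟩ := k_step hS
  set M : V → ℝ := fun b => NN (lx x b) (lT T b) ((Submodule.span ℝ {x b}).mkQ p0)
        ((Submodule.span ℝ {x b}).mkQ e0) with hM
  set M' : V → ℝ := fun b => NN (lx x b) (lT T b) (-(Submodule.span ℝ {x b}).mkQ p0)
        ((Submodule.span ℝ {x b}).mkQ e0) with hM'
  have hn : 0 ≤ nn V := nn_nonneg V
  have hNT0 : 0 ≤ NT T := Finset.sum_nonneg fun B _ => ind_nonneg _
  have h1 : ∀ b, M b ^ 2 ≤ 2 * QQ (lx x b) (lT T b) + 100 * nn V ^ 3 :=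
    fun b => K4_link hS b _ _ (hreg b).1
  have h2 : ∀ b, M' b ^ 2 ≤ 2 * QQ (lx x b) (lT T b) + 100 * nn V ^ 3 :=
    fun b => K4_link hS b _ _ (hreg b).2
  have hNT' : NT T ≤ 3 * ∑ b, (M b + M' b) := hNT
  have h3 : (∑ b, (M b + M' b)) ^ 2 ≤ nn V * ∑ b, (M b + M' b) ^ 2 := by
    have h4 := sq_sum_le_card_mul_sum_sq (s := (Finset.univ : Finset V)) (f := fun b => M b + M' b)
    rw [Finset.card_univ] at h4
    exact h4
  have h5 : ∑ b, (M b + M' b) ^ 2 ≤ 8 * ∑ b, QQ (lx x b) (lT T b) + 400 * nn V ^ 4 := by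
    calc ∑ b, (M b + M' b) ^ 2 ≤ ∑ b, (8 * QQ (lx x b) (lT T b) + 400 * nn V ^ 3) := by
          refine Finset.sum_le_sum fun b _ => ?_
          nlinarith [h1 b, h2 b, sq_nonneg (M b - M' b)]
      _ = 8 * ∑ b, QQ (lx x b) (lT T b) + 400 * nn V ^ 4 := by
          rw [Finset.sum_add_distrib, ← Finset.mul_sum, Finset.sum_const, nsmul_eq_mul,
            Finset.card_univ]
          unfold nn
          ring
  have h6 := K4_sumQQ hS p e h
  have h7 : NT T ^ 2 ≤ (3 * ∑ b, (M b + M' b)) ^ 2 := pow_le_pow_left₀ hNT0 hNT' 2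
  have h8 : nn V * ∑ b, (M b + M' b) ^ 2 ≤
      nn V * (8 * (2 * (nn V ^ 2 * (NN x T p e + 60 * nn V ^ 2))) + 400 * nn V ^ 4) :=
    mul_le_mul_of_nonneg_left (by linarith) hn
  calc NT T ^ 2 ≤ 9 * (∑ b, (M b + M' b)) ^ 2 := by rw [mul_pow] at h7; linarith
    _ ≤ 9 * (nn V * (8 * (2 * (nn V ^ 2 * (NN x T p e + 60 * nn V ^ 2))) + 400 * nn V ^ 4)) := by
        linarith
    _ = 144 * nn V ^ 3 * NN x T p e + 12240 * nn V ^ 5 := by ring

end KS37
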