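import Pool.Agent.LibKS37.K1
import Pool.Agent.LibKS37.K4
import Pool.Agent.LibKS37.K6
import Pool.Agent.LibKS37.P3
import Pool.Agent.LibKS37.C2

/-!
# KS37 row F1: the end (page 7)
Vertices a: link system (`link_sys`), (p_a, e_a) regular (`treg_exists`), N_a = NN (lx x a) (lT T a) p_a e_a. nn (LV a) ≤ nn V.
NT T = Σ_a NT (lT T a) (`sum_cons`, `sum_subtype_tuple`; T (cons a w) implies w avoids a). thA: NT_a² ≤ 144 n³ N_a + 12240 n⁵. p3_main: N_a³ ≤ 4 ZZ_a + 459 n^8 (hG2 a).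
Σ N_a³ ≤ 4·721 n^9 + 459 n^9 = 3343 n^9; (Σ N_a)³ ≤ n² Σ N_a³ (power mean, `inner_le_nnorm_mul_nnorm`/`Finset.inner_mul_le...`/`inner_le_Lp`: `Real.inner_le..` or `pow_arith_mean_le_arith_mean_pow`).
S = NT T: S² ≤ n Σ NT_a² ≤ 144 n⁴ A + 12240 n⁷, A = Σ N_a, A³ ≤ 3343 n^11. (u+v)³ ≤ 4(u³+v³): S^6 ≤ 4(144³·3343 n^23 + 12240³ n^21).
-/

open Finset Function
open scoped Classical

namespace KS37

theorem F1_nn {V : Type} [Fintype V] (a : V) : nn (LV a) ≤ nn V := by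
  unfold nn
  exact_mod_cast Fintype.card_subtype_le (fun v : V => v ≠ a)

theorem F1_split {E V : Type} [AddCommGroup E] [Module ℝ E] [Fintype V] {x : V → E}
    {T : (Fin 4 → V) → Prop} (hS : Sys 4 x T) : NT T = ∑ a, NT (lT (r := 3) T a) := by
  unfold NT
  rw [sum_cons]
  apply Finset.sum_congr rfl
  intro a _
  have h1 := sum_subtype_tuple a (fun w : Fin 3 → V => ind (T (Fin.cons a w)))
  refine Eq.trans ?_ h1.symm
  apply Finset.sum_congr rfl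
  intro w _
  by_cases h : ∀ i, w i ≠ a
  · rw [ind_true h, one_mul]
  · rw [ind_false h, zero_mul]
    apply ind_false
    intro hT
    apply h
    intro i hi
    have hinj := hS.inj _ hT
    have h2 : i.succ = (0 : Fin 4) := by
      apply hinj
      rw [Fin.cons_succ, Fin.cons_zero, hi]
    exact Fin.succ_ne_zero i h2

theorem F1_pow {V : Type} [Fintype V] {a b : ℕ} (hab : a ≤ b) (ha : 1 ≤ a) :
    nn V ^ a ≤ nn V ^ b := by
  by_cases h : Nonempty V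
  · exact pow_le_pow_right₀ (nn_one_le V) hab
  · have h0 : nn V = 0 := by
      unfold nn
      rw [not_nonempty_iff] at h
      rw [Fintype.card_eq_zero]; simp
    rw [h0, zero_pow (by omega), zero_pow (by omega)]

theorem F1_num {V : Type} [Fintype V] (S N Z : V → ℝ) (hS : ∀ a, 0 ≤ S a) (hN : ∀ a, 0 ≤ N a)
    (h1 : ∀ a, S a ^ 2 ≤ 144 * nn V ^ 3 * N a + 12240 * nn V ^ 5)
    (h2 : ∀ a, N a ^ 3 ≤ 4 * Z a + 459 * nn V ^ 8) (h3 : ∑ a, Z a ≤ 721 * nn V ^ 9) :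
    (∑ a, S a) ^ 6 ≤ (4 * (144 ^ 3 * 3343 + 12240 ^ 3)) * nn V ^ 23 := by
  have hn := nn_nonneg V
  have hcard : ∀ c : ℝ, ∑ _a : V, c = nn V * c := by
    intro c
    rw [Finset.sum_const, nsmul_eq_mul, Finset.card_univ]; rfl
  have hA0 : 0 ≤ ∑ a, N a := Finset.sum_nonneg fun a _ => hN a
  have hS0 : 0 ≤ ∑ a, S a := Finset.sum_nonneg fun a _ => hS a
  have h4 : ∑ a, N a ^ 3 ≤ 3343 * nn V ^ 9 := by
    calc ∑ a, N a ^ 3 ≤ ∑ a, (4 * Z a + 459 * nn V ^ 8) := Finset.sum_le_sum fun a _ => h2 a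
      _ = 4 * ∑ a, Z a + nn V * (459 * nn V ^ 8) := by
        rw [Finset.sum_add_distrib, ← Finset.mul_sum, hcard]
      _ ≤ 4 * (721 * nn V ^ 9) + nn V * (459 * nn V ^ 8) := by linarith
      _ = 3343 * nn V ^ 9 := by ring
  have h5 : (∑ a, N a) ^ 3 ≤ 3343 * nn V ^ 11 := by
    by_cases h : Nonempty V
    · have hn1 := nn_one_le V
      have h6 := pow_sum_div_card_le_sum_pow (s := (univ : Finset V)) (f := N)
        (fun a _ => hN a) 2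
      have h7 : (((univ : Finset V).card : ℕ) : ℝ) = nn V := by unfold nn; rw [Finset.card_univ]
      rw [h7, div_le_iff₀ (by positivity)] at h6
      calc (∑ a, N a) ^ 3 ≤ (∑ a, N a ^ 3) * nn V ^ 2 := h6
        _ ≤ (3343 * nn V ^ 9) * nn V ^ 2 := mul_le_mul_of_nonneg_right h4 (by positivity)
        _ = 3343 * nn V ^ 11 := by ring
    · rw [not_nonempty_iff] at h
      rw [Finset.univ_eq_empty, Finset.sum_empty, zero_pow (by norm_num)]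
      positivity
  have h7 : (∑ a, S a) ^ 2 ≤ 144 * nn V ^ 4 * (∑ a, N a) + 12240 * nn V ^ 7 := by
    have h8 : (∑ a, S a) ^ 2 ≤ nn V * ∑ a, S a ^ 2 := by
      have := sq_sum_le_card_mul_sum_sq (s := (univ : Finset V)) (f := S)
      simpa [nn] using this
    refine h8.trans ?_
    calc nn V * ∑ a, S a ^ 2 ≤ nn V * ∑ a, (144 * nn V ^ 3 * N a + 12240 * nn V ^ 5) :=
          mul_le_mul_of_nonneg_left (Finset.sum_le_sum fun a _ => h1 a) hn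
      _ = nn V * (144 * nn V ^ 3 * (∑ a, N a) + nn V * (12240 * nn V ^ 5)) := by
        rw [Finset.sum_add_distrib, ← Finset.mul_sum, hcard]
      _ = 144 * nn V ^ 4 * (∑ a, N a) + 12240 * nn V ^ 7 := by ring
  have h9 : ∀ u v : ℝ, 0 ≤ u → 0 ≤ v → (u + v) ^ 3 ≤ 4 * (u ^ 3 + v ^ 3) := by
    intro u v hu hv
    nlinarith [mul_nonneg (add_nonneg hu hv) (sq_nonneg (u - v))]
  calc (∑ a, S a) ^ 6 = ((∑ a, S a) ^ 2) ^ 3 := by ring
    _ ≤ (144 * nn V ^ 4 * (∑ a, N a) + 12240 * nn V ^ 7) ^ 3 :=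
      pow_le_pow_left₀ (sq_nonneg _) h7 3
    _ ≤ 4 * ((144 * nn V ^ 4 * (∑ a, N a)) ^ 3 + (12240 * nn V ^ 7) ^ 3) :=
      h9 _ _ (by positivity) (by positivity)
    _ = 4 * (144 ^ 3 * nn V ^ 12 * (∑ a, N a) ^ 3 + 12240 ^ 3 * nn V ^ 21) := by ring
    _ ≤ 4 * (144 ^ 3 * nn V ^ 12 * (3343 * nn V ^ 11) + 12240 ^ 3 * nn V ^ 23) := by
      have h10 : nn V ^ 21 ≤ nn V ^ 23 := F1_pow (by norm_num) (by norm_num)
      have h11 : 144 ^ 3 * nn V ^ 12 * (∑ a, N a) ^ 3 ≤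
          144 ^ 3 * nn V ^ 12 * (3343 * nn V ^ 11) :=
        mul_le_mul_of_nonneg_left h5 (by positivity)
      linarith
    _ = (4 * (144 ^ 3 * 3343 + 12240 ^ 3)) * nn V ^ 23 := by ring

theorem F1_NN0 {E V : Type} [AddCommGroup E] [Module ℝ E] [Fintype V] {r : ℕ} (x : V → E)
    (T : (Fin r → V) → Prop) (p e : E) : 0 ≤ NN x T p e :=
  Finset.sum_nonneg fun _ _ => ind_nonneg _

theorem F1_NT0 {V : Type} [Fintype V] {r : ℕ} (T : (Fin r → V) → Prop) : 0 ≤ NT T :=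
  Finset.sum_nonneg fun _ _ => ind_nonneg _

theorem F1_link {E V : Type} [AddCommGroup E] [Module ℝ E] [Fintype V] {x : V → E}
    {T : (Fin 4 → V) → Prop} (hS : Sys 4 x T) (hG : ∀ a, G2 (lx x a)) (a : V) :
    ∃ N : ℝ, 0 ≤ N ∧
      NT (lT (r := 3) T a) ^ 2 ≤ 144 * nn V ^ 3 * N + 12240 * nn V ^ 5 ∧
      N ^ 3 ≤ 4 * ZZ (lx x a) (lT (r := 3) T a) + 459 * nn V ^ 8 := by
  have hL : Sys 3 (lx x a) (lT (r := 3) T a) := link_sys hS a
  obtain ⟨p, e, hpe⟩ := treg_exists hL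
  have hn := nn_nonneg V
  have hn1 := nn_nonneg (LV a)
  have hn2 := F1_nn a
  have hN0 := F1_NN0 (lx x a) (lT (r := 3) T a) p e
  refine ⟨NN (lx x a) (lT (r := 3) T a) p e, hN0, ?_, ?_⟩
  · refine (thA hL p e hpe).trans ?_
    have h3 : nn (LV a) ^ 3 ≤ nn V ^ 3 := pow_le_pow_left₀ hn1 hn2 3
    have h5 : nn (LV a) ^ 5 ≤ nn V ^ 5 := pow_le_pow_left₀ hn1 hn2 5
    have h6 := mul_le_mul_of_nonneg_right h3 hN0
    nlinarith
  · refine (p3_main hL (hG a) p e hpe).trans ?_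
    have h8 : nn (LV a) ^ 8 ≤ nn V ^ 8 := pow_le_pow_left₀ hn1 hn2 8
    linarith

theorem final_sys : ∃ C : ℝ, 0 < C ∧ ∀ (E V : Type) [AddCommGroup E] [Module ℝ E] [Fintype V]
    (x : V → E) (T : (Fin 4 → V) → Prop), Sys 4 x T → G3 x → (∀ a, G2 (lx x a)) →
    (∃ ℓ : Module.Dual ℝ E, ∀ v, 0 < ℓ (x v)) → NT T ^ 6 ≤ C * nn V ^ 23 := by
  refine ⟨4 * (144 ^ 3 * 3343 + 12240 ^ 3), by norm_num, ?_⟩
  intro E V _ _ _ x T hS hG3 hG2 hl
  obtain ⟨ℓ, hℓ⟩ := hl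
  choose N hN0 hN1 hN2 using F1_link hS hG2
  rw [F1_split hS]
  exact F1_num (fun a => NT (lT (r := 3) T a)) N (fun a => ZZ (lx x a) (lT (r := 3) T a))
    (fun a => F1_NT0 _) hN0 hN1 hN2 (thC hS hG3 ℓ hℓ)

end KS37
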