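import Pool.Agent.LibKS37.C2
import Pool.Agent.LibKS37.K1
import Pool.Agent.LibKS37.A4

/-!
# KS37 row K2: facets and the links (page 4(d))
Choose e ∉ sp x B for all B with T B; then p (generic: `treg_gen`, `Gen.comap` along mkQ, `Gen.all` over b) with TReg x T p e and, for all b,
TReg (lx x b) (lT T b) (mk p) (mk e), TReg .. (-mk p) (mk e). [mk e ∉ sp (lx x b) g for lT T b g: otherwise e ∈ sp x (cons b g).]
For B with T B: z = p + s e ∈ sp x B (s = -hgt x B e p), z = Σ κ_i x(B i), κ_i = kap x B e i p ≠ 0. Among three non-zero numbers two have the same sign: there is i0 with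
κ(i0.succAbove 0) κ(i0.succAbove 1) > 0. b = B i0, g = B∘i0.succAbove as a tuple of LV b; T (cons b g) by hS.perm, so lT T b g; mod x b: z̄ = κ x̄ + κ' x̄':
Hit g (mk e) (mk p) if κ,κ' > 0, Hit g (mk e) (-mk p) if κ,κ' < 0. So ind(T B) ≤ Σ_{i0} [ind(..)+ind(..)]; `sum_insertNth i0` and `sum_subtype_tuple`
(tuples g avoiding b: B injective) give NT ≤ 3 Σ_b (NN + NN).
-/

open Finset Function
open scoped Classical

namespace KS37

/-- two of three nonzero numbers have the same sign -/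
private theorem K2_signs (κ : Fin 3 → ℝ) (h : ∀ i, κ i ≠ 0) :
    ∃ i0 : Fin 3, (∀ l : Fin 2, 0 < κ (i0.succAbove l)) ∨ (∀ l : Fin 2, κ (i0.succAbove l) < 0) := by
  have e00 : (0 : Fin 3).succAbove 0 = 1 := rfl
  have e01 : (0 : Fin 3).succAbove 1 = 2 := rfl
  have e10 : (1 : Fin 3).succAbove 0 = 0 := rfl
  have e11 : (1 : Fin 3).succAbove 1 = 2 := rfl
  have e20 : (2 : Fin 3).succAbove 0 = 0 := rfl
  have e21 : (2 : Fin 3).succAbove 1 = 1 := rfl
  rcases lt_or_gt_of_ne (h 0) with h0 | h0 <;> rcases lt_or_gt_of_ne (h 1) with h1 | h1 <;>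
    rcases lt_or_gt_of_ne (h 2) with h2 | h2
  · exact ⟨2, Or.inr fun l => by fin_cases l; exacts [h0, h1]⟩
  · exact ⟨2, Or.inr fun l => by fin_cases l; exacts [h0, h1]⟩
  · exact ⟨1, Or.inr fun l => by fin_cases l; exacts [h0, h2]⟩
  · exact ⟨0, Or.inl fun l => by fin_cases l; exacts [h1, h2]⟩
  · exact ⟨0, Or.inr fun l => by fin_cases l; exacts [h1, h2]⟩
  · exact ⟨1, Or.inl fun l => by fin_cases l; exacts [h0, h2]⟩
  · exact ⟨2, Or.inl fun l => by fin_cases l; exacts [h0, h1]⟩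
  · exact ⟨2, Or.inl fun l => by fin_cases l; exacts [h0, h1]⟩

private theorem K2_or {P Q : Prop} (h : P ∨ Q) : (1 : ℝ) ≤ ind P + ind Q := by
  rcases h with h | h
  · rw [ind_true h]; linarith [ind_nonneg Q]
  · rw [ind_true h]; linarith [ind_nonneg P]

private theorem K2_cons {V : Type} {T : (Fin 3 → V) → Prop}
    (hperm : ∀ w (σ : Equiv.Perm (Fin 3)), T w → T (fun i => w (σ i))) (B : Fin 3 → V) (hB : T B)
    (i0 : Fin 3) : T (Fin.cons (B i0) fun l : Fin 2 => B (i0.succAbove l)) := by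
  have h1 : (Fin.cons (B i0) fun l : Fin 2 => B (i0.succAbove l) : Fin 3 → V) =
      fun i => B (i0.cycleRange.symm i) := by
    funext i
    refine Fin.cases ?_ (fun l => ?_) i
    · rw [Fin.cons_zero, Fin.cycleRange_symm_zero]
    · rw [Fin.cons_succ, Fin.cycleRange_symm_succ]
  rw [h1]
  exact hperm B _ hB

section
variable {E V : Type} [AddCommGroup E] [Module ℝ E] [Fintype V] {x : V → E}
    {T : (Fin 3 → V) → Prop}

private theorem K2_notMem (e : E) (he : ∀ B, T B → e ∉ sp x B) (b : V) (g : Fin 2 → LV b)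
    (hg : lT T b g) : (Submodule.span ℝ {x b}).mkQ e ∉ sp (lx x b) g := by
  intro hmem
  obtain ⟨c, hc⟩ := (mem_sp_iff g _).1 hmem
  apply he _ hg
  rw [mem_sp_iff]
  have h1 : (Submodule.span ℝ {x b}).mkQ (e - ∑ i, c i • x (g i).1) = 0 := by
    rw [map_sub, map_sum, hc, sub_eq_zero]
    exact Finset.sum_congr rfl fun i _ => by rw [map_smul]; rfl
  rw [Submodule.mkQ_apply, Submodule.Quotient.mk_eq_zero, Submodule.mem_span_singleton] at h1
  obtain ⟨d, hd⟩ := h1
  refine ⟨Fin.cons d c, ?_⟩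
  rw [Fin.sum_univ_succ]
  simp only [Fin.cons_zero, Fin.cons_succ]
  rw [hd]
  abel

/-- the number of hits in the link of `b` of a tuple -/
private noncomputable def K2Phi (x : V → E) (T : (Fin 3 → V) → Prop) (p e : E) (b : V)
    (w : Fin 2 → V) : ℝ :=
  if h : ∀ i, w i ≠ b then
    ind (lT T b (fun i => ⟨w i, h i⟩) ∧ Hit (lx x b) (fun i => (⟨w i, h i⟩ : LV b))
      ((Submodule.span ℝ {x b}).mkQ e) ((Submodule.span ℝ {x b}).mkQ p)) +
    ind (lT T b (fun i => ⟨w i, h i⟩) ∧ Hit (lx x b) (fun i => (⟨w i, h i⟩ : LV b))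
      ((Submodule.span ℝ {x b}).mkQ e) (-(Submodule.span ℝ {x b}).mkQ p))
  else 0

private theorem K2Phi_nonneg (p e : E) (b : V) (w : Fin 2 → V) : 0 ≤ K2Phi x T p e b w := by
  unfold K2Phi
  split_ifs
  · exact add_nonneg (ind_nonneg _) (ind_nonneg _)
  · exact le_rfl

private theorem K2_point (hS : Sys 3 x T) (p e : E) (he : ∀ B, T B → e ∉ sp x B)
    (hp : TReg x T p e) (B : Fin 3 → V) :
    ind (T B) ≤ ∑ i0 : Fin 3, K2Phi x T p e (B i0) (fun l => B (i0.succAbove l)) := by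
  by_cases hB : T B
  swap
  · rw [ind_false hB]
    exact Finset.sum_nonneg fun _ _ => K2Phi_nonneg _ _ _ _
  have hinj := hS.inj B hB
  obtain ⟨i0, hi0⟩ := K2_signs (fun i => kap x B e i p) (hp B hB).2
  refine le_trans ?_ (Finset.single_le_sum (fun i _ => K2Phi_nonneg p e (B i) _)
    (Finset.mem_univ i0))
  have hne : ∀ l : Fin 2, B (i0.succAbove l) ≠ B i0 := fun l h =>
    Fin.succAbove_ne i0 l (hinj h)
  have hT : lT T (B i0) (fun l => (⟨B (i0.succAbove l), hne l⟩ : LV (B i0))) :=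
    K2_cons hS.perm B hB i0
  have hginj : Injective (fun l => (⟨B (i0.succAbove l), hne l⟩ : LV (B i0))) := by
    intro l l' hll
    have := hinj (Subtype.ext_iff.1 hll)
    exact Fin.succAbove_right_injective this
  have hne' := K2_notMem e he (B i0) _ hT
  have hlin : (Submodule.span ℝ {x (B i0)}).mkQ p =
      ∑ l : Fin 2, kap x B e (i0.succAbove l) p •
        lx x (B i0) (⟨B (i0.succAbove l), hne l⟩ : LV (B i0)) +
      hgt x B e p • (Submodule.span ℝ {x (B i0)}).mkQ e := by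
    conv_lhs => rw [kap_sum hS B hinj e (he B hB) p, Fin.sum_univ_succAbove _ i0]
    rw [map_add, map_add, map_smul, map_smul, map_sum]
    have h0 : (Submodule.span ℝ {x (B i0)}).mkQ (x (B i0)) = 0 := by
      rw [Submodule.mkQ_apply, Submodule.Quotient.mk_eq_zero]
      exact Submodule.mem_span_singleton_self _
    rw [h0, smul_zero, zero_add]
    congr 1
  have hk := (kap_eq (link_sys hS (B i0)) _ hginj _ hne' _ _ _ hlin).1
  have hpos : (1 : ℝ) ≤ K2Phi x T p e (B i0) (fun l => B (i0.succAbove l)) := by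
    unfold K2Phi
    rw [dif_pos hne]
    rcases hi0 with h | h
    · have h1 : Hit (lx x (B i0)) (fun l => (⟨B (i0.succAbove l), hne l⟩ : LV (B i0)))
          ((Submodule.span ℝ {x (B i0)}).mkQ e) ((Submodule.span ℝ {x (B i0)}).mkQ p) :=
        fun l => by rw [hk l]; exact h l
      exact K2_or (Or.inl ⟨hT, h1⟩)
    · have h1 : Hit (lx x (B i0)) (fun l => (⟨B (i0.succAbove l), hne l⟩ : LV (B i0)))
          ((Submodule.span ℝ {x (B i0)}).mkQ e) (-(Submodule.span ℝ {x (B i0)}).mkQ p) :=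
        fun l => by rw [map_neg, hk l]; exact neg_pos.2 (h l)
      exact K2_or (Or.inr ⟨hT, h1⟩)
  exact (ind_le_one _).trans hpos

private theorem K2_sum (p e : E) (b : V) :
    ∑ w : Fin 2 → V, K2Phi x T p e b w =
      NN (lx x b) (lT T b) ((Submodule.span ℝ {x b}).mkQ p) ((Submodule.span ℝ {x b}).mkQ e) +
      NN (lx x b) (lT T b) (-(Submodule.span ℝ {x b}).mkQ p)
        ((Submodule.span ℝ {x b}).mkQ e) := by
  have h1 := sum_subtype_tuple b (K2Phi x T p e b)
  have h2 : ∀ w : Fin 2 → V, ind (∀ i, w i ≠ b) * K2Phi x T p e b w = K2Phi x T p e b w := by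
    intro w
    by_cases h : ∀ i, w i ≠ b
    · rw [ind_true h, one_mul]
    · rw [ind_false h, zero_mul, K2Phi, dif_neg h]
  rw [Finset.sum_congr rfl fun w _ => h2 w] at h1
  rw [← h1, NN, NN, ← Finset.sum_add_distrib]
  refine Finset.sum_congr rfl fun w _ => ?_
  rw [K2Phi, dif_pos fun i => (w i).2]

end

theorem k_step {E V : Type} [AddCommGroup E] [Module ℝ E] [Fintype V] {x : V → E}
    {T : (Fin 3 → V) → Prop} (hS : Sys 3 x T) : ∃ p e : E,
    (∀ b, TReg (lx x b) (lT T b) ((Submodule.span ℝ {x b}).mkQ p)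
        ((Submodule.span ℝ {x b}).mkQ e) ∧
      TReg (lx x b) (lT T b) (-(Submodule.span ℝ {x b}).mkQ p)
        ((Submodule.span ℝ {x b}).mkQ e)) ∧
    NT T ≤ 3 * ∑ b, (NN (lx x b) (lT T b) ((Submodule.span ℝ {x b}).mkQ p)
        ((Submodule.span ℝ {x b}).mkQ e) +
      NN (lx x b) (lT T b) (-(Submodule.span ℝ {x b}).mkQ p)
        ((Submodule.span ℝ {x b}).mkQ e)) := by
  have hfin : Module.Finite ℝ E := finiteDimensional_of_sys hS
  obtain ⟨e, he⟩ : ∃ e : E, ∀ B, T B → e ∉ sp x B := by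
    apply Gen.exists
    apply Gen.all
    intro B
    apply Gen.imp
    intro hB
    apply Gen.notMem
    intro htop
    have h1 := finrank_sp hS (by norm_num) B (hS.inj B hB)
    rw [htop, finrank_top, hS.rank] at h1
    omega
  obtain ⟨p, hp, hpb⟩ : ∃ p : E, (TReg x T p e ∧ TReg x T (-p) e ∧ TReg x T e p) ∧
      ∀ b, TReg (lx x b) (lT T b) ((Submodule.span ℝ {x b}).mkQ p)
          ((Submodule.span ℝ {x b}).mkQ e) ∧
        TReg (lx x b) (lT T b) (-(Submodule.span ℝ {x b}).mkQ p)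
          ((Submodule.span ℝ {x b}).mkQ e) ∧
        TReg (lx x b) (lT T b) ((Submodule.span ℝ {x b}).mkQ e)
          ((Submodule.span ℝ {x b}).mkQ p) := by
    apply Gen.exists
    refine (treg_gen hS e he).and (Gen.all fun b => ?_)
    exact (treg_gen (link_sys hS b) ((Submodule.span ℝ {x b}).mkQ e)
      (fun g hg => K2_notMem e he b g hg)).comap (Submodule.span ℝ {x b}).mkQ
      (Submodule.mkQ_surjective _)
  refine ⟨p, e, fun b => ⟨(hpb b).1, (hpb b).2.1⟩, ?_⟩
  rw [NT]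
  refine (Finset.sum_le_sum fun B _ => K2_point hS p e he hp.1 B).trans ?_
  rw [Finset.sum_comm]
  have h1 : ∀ i0 : Fin 3, ∑ B : Fin 3 → V, K2Phi x T p e (B i0) (fun l => B (i0.succAbove l)) =
      ∑ b, (NN (lx x b) (lT T b) ((Submodule.span ℝ {x b}).mkQ p)
        ((Submodule.span ℝ {x b}).mkQ e) +
      NN (lx x b) (lT T b) (-(Submodule.span ℝ {x b}).mkQ p)
        ((Submodule.span ℝ {x b}).mkQ e)) := by
    intro i0
    rw [sum_insertNth i0 fun B => K2Phi x T p e (B i0) (fun l => B (i0.succAbove l))]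
    refine Finset.sum_congr rfl fun b _ => ?_
    rw [← K2_sum]
    refine Finset.sum_congr rfl fun w _ => ?_
    rw [Fin.insertNth_apply_same]
    congr 1
    funext l
    rw [Fin.insertNth_apply_succAbove]
  rw [Finset.sum_congr rfl fun i0 _ => h1 i0, Finset.sum_const, Finset.card_univ, Fintype.card_fin,
    nsmul_eq_mul]
  norm_num

end KS37
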