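import Pool.Agent.LibKS37.P2g1
import Pool.Agent.LibKS37.A2
import Pool.Agent.LibKS37.SweepE

/-!
# KS37 row P2g2: existence of f2 and e for pairs in a slice
P_B = sp x B ⊓ U has dimension 2, f1 ≠ 0 on it (it contains the ridge line spx x B {i} ⊓ U, h.ridge). P_B ⊓ ker f1 is a line ℝ z_B:
f2 generic with f2 z_B ≠ 0 for all injective B (`Gen.dual_ne`, `Gen.all`, `Gen.exists`) gives Iso2 (injective on P_B, surjective by dimension 2).
Then e generic in U (`Gen.exists_mem`, `Gen.sub_notMem`): ¬ U ≤ sp x B (dim 2 < 3); the subspaces in e3, e4 have dimension ≤ 2 < 3 = dim U.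
-/

open Finset Function
open scoped Classical

namespace KS37

private theorem P2g2_iso {E : Type} [AddCommGroup E] [Module ℝ E] [Module.Finite ℝ E]
    {P : Submodule ℝ E} {f1 f2 : Module.Dual ℝ E} (hP : Module.finrank ℝ P = 2)
    (hinj : ∀ y ∈ P, f1 y = 0 → f2 y = 0 → y = 0) : Iso2 P f1 f2 := by
  refine ⟨hinj, ?_⟩
  let g : P →ₗ[ℝ] (ℝ × ℝ) := (f1.domRestrict P).prod (f2.domRestrict P)
  have hg : Injective g := by
    rw [← LinearMap.ker_eq_bot, LinearMap.ker_eq_bot']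
    intro y hy
    have h1 : f1 y = 0 := congrArg Prod.fst hy
    have h2 : f2 y = 0 := congrArg Prod.snd hy
    exact Subtype.ext (hinj y y.2 h1 h2)
  have hd : Module.finrank ℝ P = Module.finrank ℝ (ℝ × ℝ) := by
    rw [hP, Module.finrank_prod, Module.finrank_self]
  have hs : Surjective g := (LinearMap.injective_iff_surjective_of_finrank_eq_finrank hd).1 hg
  intro s t
  obtain ⟨y, hy⟩ := hs (s, t)
  exact ⟨y, y.2, congrArg Prod.fst hy, congrArg Prod.snd hy⟩

theorem p2_exists {E V : Type} [AddCommGroup E] [Module ℝ E] [Fintype V] {r : ℕ} {x : V → E}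
    {T : (Fin r → V) → Prop} (hS : Sys r x T) (hr : 2 ≤ r) {U : Submodule ℝ E}
    {f1 : Module.Dual ℝ E} (h : P2Hyp r x U f1) : ∃ f2 e, P2E r x U f1 f2 e := by
  have hfin : Module.Finite ℝ E := finiteDimensional_of_sys hS
  obtain ⟨g2, g1⟩ := p2_geo hS hr h
  let i0 : Fin r := ⟨0, by omega⟩
  -- the kernel of `f1` on `sp x B ⊓ U`
  have hz : ∀ B : Fin r → V, ∃ z : E, Injective B →
      ∀ y ∈ sp x B ⊓ U, f1 y = 0 → ∃ c : ℝ, y = c • z := by
    intro B
    by_cases hB : Injective B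
    · have hle : spx x B {i0} ⊓ U ≤ sp x B ⊓ U := inf_le_inf_right U (spx_le_sp B {i0})
      have hbot : (LinearMap.ker f1 ⊓ (sp x B ⊓ U)) ⊓ (spx x B {i0} ⊓ U) = ⊥ := by
        rw [eq_bot_iff]
        intro y hy
        obtain ⟨h1, h2⟩ := Submodule.mem_inf.1 hy
        exact (Submodule.mem_bot ℝ).2
          (h.ridge B hB i0 y h2 (LinearMap.mem_ker.1 (Submodule.mem_inf.1 h1).1))
      have h1 := Submodule.finrank_sup_add_finrank_inf_eq (LinearMap.ker f1 ⊓ (sp x B ⊓ U))
        (spx x B {i0} ⊓ U)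
      rw [hbot, finrank_bot, add_zero, g1 B hB i0] at h1
      have h2 : Module.finrank ℝ ((LinearMap.ker f1 ⊓ (sp x B ⊓ U)) ⊔ (spx x B {i0} ⊓ U) :
          Submodule ℝ E) ≤ 2 := by
        rw [← g2 B hB]
        exact Submodule.finrank_mono (sup_le inf_le_right hle)
      have h3 : Module.finrank ℝ (LinearMap.ker f1 ⊓ (sp x B ⊓ U) : Submodule ℝ E) ≤ 1 := by
        omega
      obtain ⟨z, hz⟩ := finrank_le_one_iff.1 h3
      refine ⟨z, fun _ y hy hy0 => ?_⟩
      obtain ⟨c, hc⟩ := hz ⟨y, Submodule.mem_inf.2 ⟨LinearMap.mem_ker.2 hy0, hy⟩⟩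
      exact ⟨c, (congrArg Subtype.val hc).symm⟩
    · exact ⟨0, fun h' => absurd h' hB⟩
  choose z hz using hz
  obtain ⟨f2, hf2⟩ := (Gen.all (E := Module.Dual ℝ E) (ι := Fin r → V)
    (P := fun B f => z B ≠ 0 → f (z B) ≠ 0)
    fun B => Gen.imp fun hB => Gen.dual_ne hB).exists
  have hiso : ∀ B : Fin r → V, Injective B → Iso2 (sp x B ⊓ U) f1 f2 := by
    intro B hB
    refine P2g2_iso (g2 B hB) fun y hy h1 h2 => ?_
    obtain ⟨c, hc⟩ := hz B hB y hy h1
    by_cases hz0 : z B = 0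
    · rw [hc, hz0, smul_zero]
    · rw [hc, map_smul, smul_eq_mul] at h2
      rcases mul_eq_zero.1 h2 with h3 | h3
      · rw [hc, h3, zero_smul]
      · exact absurd h3 (hf2 B hz0)
  have hnle : ∀ K : Submodule ℝ E, Module.finrank ℝ K ≤ 2 → ¬ U ≤ K := by
    intro K hK hle
    have h1 := Submodule.finrank_mono hle
    have h2 := h.fin
    omega
  have hG1 : Gen fun w : U => ∀ B : Fin r → V, Injective B → (w : E) ∉ sp x B := by
    refine Gen.all fun B => Gen.imp fun hB => Gen.sub_notMem fun hle => ?_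
    have h1 := g2 B hB
    rw [inf_eq_right.2 hle, h.fin] at h1
    omega
  have hG2 : Gen fun w : U => ∀ B : Fin r → V, ∀ B' : Fin r → V, Injective B → Injective B' →
      ∀ j, (w : E) ∉ Submodule.span ℝ {qv x U f1 f2 B} ⊔ (spx x B' {j} ⊓ U) := by
    refine Gen.all fun B => Gen.all fun B' => Gen.imp fun _ => Gen.imp fun hB' =>
      Gen.all fun j => Gen.sub_notMem (hnle _ ?_)
    refine (Submodule.finrank_add_le_finrank_add_finrank _ _).trans ?_
    have h1 : Module.finrank ℝ (Submodule.span ℝ {qv x U f1 f2 B}) ≤ 1 :=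
      (finrank_span_le_card _).trans (by simp)
    have h2 := g1 B' hB' j
    omega
  have hG3 : Gen fun w : U => ∀ B : Fin r → V, ∀ B' : Fin r → V, Injective B → Injective B' →
      ∀ i j, (w : E) ∉ (spx x B {i} ⊓ U) ⊔ (spx x B' {j} ⊓ U) := by
    refine Gen.all fun B => Gen.all fun B' => Gen.imp fun hB => Gen.imp fun hB' =>
      Gen.all fun i => Gen.all fun j => Gen.sub_notMem (hnle _ ?_)
    refine (Submodule.finrank_add_le_finrank_add_finrank _ _).trans ?_
    have h1 := g1 B hB i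
    have h2 := g1 B' hB' j
    omega
  obtain ⟨e, he, h1, h2, h3⟩ := ((hG1.and (hG2.and hG3))).exists_mem
  exact ⟨f2, e, he, hiso, h1, h2, h3⟩

end KS37
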