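import Pool.Agent.LibKS37.P3g0
import Pool.Agent.LibKS37.A2
import Pool.Agent.LibKS37.SweepE

/-!
# KS37 row P3g1: existence of f1, f2, e for triples
f1 generic: nonzero on x v (x v ≠ 0) and on a generator of each of the lines spx x B {i} ⊓ sp x B', sp x B ⊓ sp x B' ⊓ sp x B'' (P3g0;
on a line ℝ z, (f1 y = 0 → y = 0) follows from f1 z ≠ 0). f2 generic: nonzero on a generator of sp x B ⊓ sp x B' ⊓ ker f1 (a line, since f1 ≠ 0 on the
2-dimensional sp x B ⊓ sp x B', which contains the ridge line) — this gives Iso2 — and of spx x B {i} ⊓ ker f1 (dimension 1: dim spx x B {i} = 2, f1 ≠ 0 on it as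
f1 (x v) ≠ 0). e generic: outside the proper subspaces: sp x B (3 < 4), e3 (1+2), e4 (1+2), e5 (2+1).
-/

open Finset Function
open scoped Classical

namespace KS37

section P3g1aux
variable {E V : Type} [AddCommGroup E] [Module ℝ E] [Fintype V] {x : V → E}
  {T : (Fin 3 → V) → Prop}

private theorem P3g1_line (L : Submodule ℝ E) (h : Module.finrank ℝ L = 1) :
    Gen (fun f : Module.Dual ℝ E => ∀ y ∈ L, f y = 0 → y = 0) := by
  obtain ⟨v, hv, hv'⟩ := finrank_eq_one_iff'.1 h
  have hv0 : (v : E) ≠ 0 := fun h0 => hv (Subtype.ext h0)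
  refine (Gen.dual_ne hv0).mono (fun f hf y hy hfy => ?_)
  obtain ⟨c, hc⟩ := hv' ⟨y, hy⟩
  have hc' : c • (v : E) = y := congrArg Subtype.val hc
  rw [← hc', map_smul, smul_eq_mul] at hfy
  rcases mul_eq_zero.1 hfy with h0 | h0
  · rw [← hc', h0, zero_smul]
  · exact absurd h0 hf

private theorem P3g1_ker [Module.Finite ℝ E] (P : Submodule ℝ E) (f : Module.Dual ℝ E)
    (h : ∃ y ∈ P, f y ≠ 0) :
    Module.finrank ℝ (P ⊓ LinearMap.ker f : Submodule ℝ E) + 1 = Module.finrank ℝ P := by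
  have h1 := LinearMap.finrank_range_add_finrank_ker (f.domRestrict P)
  have h2 : LinearMap.range (f.domRestrict P) = ⊤ := by
    obtain ⟨y, hy, hfy⟩ := h
    rw [LinearMap.range_eq_top]
    intro c
    refine ⟨(c / f y) • ⟨y, hy⟩, ?_⟩
    rw [map_smul, LinearMap.domRestrict_apply, smul_eq_mul, div_mul_cancel₀ _ hfy]
  rw [h2, finrank_top, Module.finrank_self] at h1
  have h3 : Module.finrank ℝ (LinearMap.ker (f.domRestrict P)) =
      Module.finrank ℝ (P ⊓ LinearMap.ker f : Submodule ℝ E) := by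
    have e1 : (LinearMap.ker (f.domRestrict P)).map P.subtype = P ⊓ LinearMap.ker f := by
      ext y
      simp only [Submodule.mem_map, LinearMap.mem_ker, LinearMap.domRestrict_apply,
        Submodule.mem_inf, Submodule.subtype_apply]
      constructor
      · rintro ⟨z, hz, rfl⟩
        exact ⟨z.2, hz⟩
      · rintro ⟨hy, hfy⟩
        exact ⟨⟨y, hy⟩, hfy, rfl⟩
    rw [← e1]
    exact (LinearEquiv.finrank_eq
      (Submodule.equivMapOfInjective P.subtype (Submodule.subtype_injective P) _))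
  rw [h3] at h1
  omega

private theorem P3g1_iso [Module.Finite ℝ E] (P : Submodule ℝ E) (hP : Module.finrank ℝ P = 2)
    (f1 f2 : Module.Dual ℝ E) (h : ∀ y ∈ P, f1 y = 0 → f2 y = 0 → y = 0) : Iso2 P f1 f2 := by
  refine ⟨h, ?_⟩
  set g : P →ₗ[ℝ] ℝ × ℝ := (f1.domRestrict P).prod (f2.domRestrict P) with hg
  have hgi : Injective g := by
    rw [← LinearMap.ker_eq_bot, LinearMap.ker_eq_bot']
    intro y hy
    have h1 : f1 (y : E) = 0 := congrArg Prod.fst hy
    have h2 : f2 (y : E) = 0 := congrArg Prod.snd hy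
    exact Subtype.ext (h y y.2 h1 h2)
  have hgs : Surjective g := by
    refine (LinearMap.injective_iff_surjective_of_finrank_eq_finrank ?_).1 hgi
    rw [hP, Module.finrank_prod, Module.finrank_self]
  intro s t
  obtain ⟨y, hy⟩ := hgs (s, t)
  exact ⟨y, y.2, congrArg Prod.fst hy, congrArg Prod.snd hy⟩

private theorem P3g1_f1 (hS : Sys 3 x T) (hG : G2 x) : Gen (fun f1 : Module.Dual ℝ E =>
    (∀ v, f1 (x v) ≠ 0) ∧
    (∀ B B' : Fin 3 → V, Injective B → Injective B' → Disj B B' →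
      ∀ i, ∀ y ∈ spx x B {i} ⊓ sp x B', f1 y = 0 → y = 0) ∧
    (∀ B B' B'' : Fin 3 → V, Injective B → Injective B' → Injective B'' → Disj B B' →
      Disj B B'' → Disj B' B'' → ∀ y ∈ sp x B ⊓ sp x B' ⊓ sp x B'', f1 y = 0 → y = 0)) := by
  refine Gen.and ?_ (Gen.and ?_ ?_)
  · refine Gen.all fun v => Gen.dual_ne ?_
    have h1 := hS.gp 1 (by norm_num) (fun _ => v) (fun a b _ => Subsingleton.elim a b)
    exact h1.ne_zero 0
  · refine Gen.all fun B => Gen.all fun B' => Gen.imp fun hB => Gen.imp fun hB' =>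
      Gen.imp fun hd => Gen.all fun i => ?_
    exact P3g1_line _ (p3_finrank1 hS B B' hB hB' hd i)
  · refine Gen.all fun B => Gen.all fun B' => Gen.all fun B'' => Gen.imp fun hB =>
      Gen.imp fun hB' => Gen.imp fun hB'' => Gen.imp fun h1 => Gen.imp fun h2 =>
      Gen.imp fun h3 => ?_
    exact P3g1_line _ (p3_finrank_triple hS hG B B' B'' hB hB' hB'' h1 h2 h3)

private theorem P3g1_f2 (hS : Sys 3 x T) (f1 : Module.Dual ℝ E) (hfx : ∀ v, f1 (x v) ≠ 0)
    (hr : ∀ B B' : Fin 3 → V, Injective B → Injective B' → Disj B B' →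
      ∀ i, ∀ y ∈ spx x B {i} ⊓ sp x B', f1 y = 0 → y = 0) :
    Gen (fun f2 : Module.Dual ℝ E =>
    (∀ B B' : Fin 3 → V, Injective B → Injective B' → Disj B B' →
      Iso2 (sp x B ⊓ sp x B') f1 f2) ∧
    (∀ B : Fin 3 → V, Injective B → ∀ i, ∀ y ∈ spx x B {i} ⊓ LinearMap.ker f1,
      f2 y = 0 → y = 0)) := by
  haveI := finiteDimensional_of_sys hS
  refine Gen.and ?_ ?_
  · refine Gen.all fun B => Gen.all fun B' => Gen.imp fun hB => Gen.imp fun hB' =>
      Gen.imp fun hd => ?_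
    have h2 := p3_finrank2 hS B B' hB hB' hd
    have h1 := p3_finrank1 hS B B' hB hB' hd 0
    obtain ⟨v, hv, _⟩ := finrank_eq_one_iff'.1 h1
    have hv0 : (v : E) ≠ 0 := fun h0 => hv (Subtype.ext h0)
    have hfv : f1 (v : E) ≠ 0 := fun h0 => hv0 (hr B B' hB hB' hd 0 v v.2 h0)
    have h3 := P3g1_ker (sp x B ⊓ sp x B') f1
      ⟨v, ⟨spx_le_sp B {0} v.2.1, v.2.2⟩, hfv⟩
    have h4 : Module.finrank ℝ (sp x B ⊓ sp x B' ⊓ LinearMap.ker f1 : Submodule ℝ E) = 1 := by
      omega
    refine (P3g1_line _ h4).mono (fun f2 hf2 => ?_)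
    exact P3g1_iso _ h2 f1 f2 (fun y hy hy1 hy2 => hf2 y ⟨hy, LinearMap.mem_ker.2 hy1⟩ hy2)
  · refine Gen.all fun B => Gen.imp fun hB => Gen.all fun i => ?_
    have h2 : Module.finrank ℝ (spx x B {i}) = 2 := by
      rw [spx_single (s := 2) B i]
      exact finrank_sp hS (by norm_num) _ (hB.comp Fin.succAbove_right_injective)
    have h3 := P3g1_ker (spx x B {i}) f1
      ⟨x (B (i.succAbove 0)), by
        rw [spx_single (s := 2) B i]
        exact Submodule.subset_span ⟨0, rfl⟩, hfx _⟩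
    exact P3g1_line _ (by omega)

private theorem P3g1_top [Module.Finite ℝ E] (hE : Module.finrank ℝ E = 4)
    (P Q : Submodule ℝ E) (h : Module.finrank ℝ P + Module.finrank ℝ Q ≤ 3) : P ⊔ Q ≠ ⊤ := by
  intro h0
  have h1 := Submodule.finrank_add_le_finrank_add_finrank P Q
  rw [h0, finrank_top, hE] at h1
  omega

end P3g1aux

theorem p3_exists {E V : Type} [AddCommGroup E] [Module ℝ E] [Fintype V] {x : V → E}
    {T : (Fin 3 → V) → Prop} (hS : Sys 3 x T) (hG : G2 x) : ∃ f1 f2 e, P3E x f1 f2 e := by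
  haveI := finiteDimensional_of_sys hS
  have hE : Module.finrank ℝ E = 4 := hS.rank
  obtain ⟨f1, hfx, hr, htr⟩ := (P3g1_f1 hS hG).exists
  obtain ⟨f2, hiso, hf2r⟩ := (P3g1_f2 hS f1 hfx hr).exists
  have hspx : ∀ (B : Fin 3 → V), Injective B → ∀ i, Module.finrank ℝ (spx x B {i}) = 2 := by
    intro B hB i
    rw [spx_single (s := 2) B i]
    exact finrank_sp hS (by norm_num) _ (hB.comp Fin.succAbove_right_injective)
  have hg : Gen (fun e : E => (∀ B : Fin 3 → V, Injective B → e ∉ sp x B) ∧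
      (∀ B B' : Fin 3 → V, Injective B → Injective B' → Disj B B' →
        ∀ B'' : Fin 3 → V, Injective B'' → ∀ j,
        e ∉ Submodule.span ℝ {qv x (sp x B') f1 f2 B} ⊔ spx x B'' {j}) ∧
      (∀ B B' : Fin 3 → V, Injective B → Injective B' → Disj B B' → ∀ i,
        ∀ B'' : Fin 3 → V, Injective B'' → ∀ j, e ∉ (spx x B {i} ⊓ sp x B') ⊔ spx x B'' {j}) ∧
      (∀ B B' : Fin 3 → V, Injective B → Injective B' → Disj B B' → ∀ v,
        e ∉ (sp x B ⊓ sp x B') ⊔ Submodule.span ℝ {x v})) := by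
    refine Gen.and ?_ (Gen.and ?_ (Gen.and ?_ ?_))
    · refine Gen.all fun B => Gen.imp fun hB => Gen.notMem ?_
      intro h0
      have h1 := finrank_sp hS (by norm_num) B hB
      rw [h0, finrank_top, hE] at h1
      norm_num at h1
    · refine Gen.all fun B => Gen.all fun B' => Gen.imp fun hB => Gen.imp fun hB' =>
        Gen.imp fun hd => Gen.all fun B'' => Gen.imp fun hB'' => Gen.all fun j =>
        Gen.notMem (P3g1_top hE _ _ ?_)
      have h1 := finrank_span_le_card (R := ℝ) ({qv x (sp x B') f1 f2 B} : Set E)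
      rw [Set.toFinset_singleton, Finset.card_singleton] at h1
      rw [hspx B'' hB'' j]
      omega
    · refine Gen.all fun B => Gen.all fun B' => Gen.imp fun hB => Gen.imp fun hB' =>
        Gen.imp fun hd => Gen.all fun i => Gen.all fun B'' => Gen.imp fun hB'' =>
        Gen.all fun j => Gen.notMem (P3g1_top hE _ _ ?_)
      rw [p3_finrank1 hS B B' hB hB' hd i, hspx B'' hB'' j]
    · refine Gen.all fun B => Gen.all fun B' => Gen.imp fun hB => Gen.imp fun hB' =>
        Gen.imp fun hd => Gen.all fun v => Gen.notMem (P3g1_top hE _ _ ?_)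
      have h1 := finrank_span_le_card (R := ℝ) ({x v} : Set E)
      rw [Set.toFinset_singleton, Finset.card_singleton] at h1
      rw [p3_finrank2 hS B B' hB hB' hd]
      omega
  obtain ⟨e, h1, h2, h3, h4⟩ := hg.exists
  exact ⟨f1, f2, e, ⟨hfx, hr, htr, hiso, hf2r, h1, h2, h3, h4⟩⟩

end KS37
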