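import Pool.Agent.LibKS37.A1
import Pool.Agent.LibKS37.P3g4
import Pool.Agent.LibKS37.P4g0
import Pool.Agent.LibKS37.P4g2
import Pool.Agent.LibKS37.SweepE

/-!
# KS37 row P4g3: non-degeneracy inside sp x B1
F2 = cc a B2, F3 = cc a B3 (injective, disjoint from B1). y = τ0 a' + τ1 q ≠ 0 (a' = av .. F2) killed by two of the functionals; y ∈ sp x F2 ⊓ sp x B1.
(inl k, inl k'): y ∈ spx x B1 {k,k'} = ℝ x v, y ∈ sp x F2, v ∉ F2: y=0. (inl k, F2 i): y ∈ spx x B1 {k} and y ∈ spx x F2 {i} (hE.enot): ⊥ (2+3 ≤ 5).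
(F2 i, F2 i'): y ∈ spx x F2 {i,i'} ⊓ sp x B1 = ⊥ (2+3). (inl k, F3 j): y ∈ sp x F2 ⊓ spx x B1 {k}, y - s e ∈ spx x F3 {j} ⊓ sp x B1: s≠0: hE.e6; s=0: spx x B1 {k} ⊓ spx x F3 {j} = ⊥.
(F2 i, F3 j): y ∈ spx x F2 {i} ⊓ sp x B1, y - s e ∈ spx x F3 {j} ⊓ sp x B1: s≠0: hE.e4; s=0: `g3_pairs`. (F3 j, F3 j'): y - s e ∈ spx x F3 {j,j'} ⊓ sp x B1 = ⊥, y = s e,
y ∈ sp x F2: s=0 (hE.enot).
-/

open Finset Function
open scoped Classical

namespace KS37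

theorem P4g3_cc {V : Type} {a : V} {B1 B2 : Fin 3 → V} (hB2 : Injective B2) (h12 : Disj B1 B2)
    (ha1 : ∀ i, B1 i ≠ a) (ha2 : ∀ i, B2 i ≠ a) :
    Injective (cc a B2) ∧ Disj (cc a B2) B1 := by
  unfold cc
  refine ⟨?_, ?_⟩
  · rw [Fin.cons_injective_iff]
    exact ⟨fun ⟨i, hi⟩ => ha2 i hi, hB2⟩
  · intro i j
    refine Fin.cases ?_ (fun i => ?_) i
    · rw [Fin.cons_zero]; exact (ha1 j).symm
    · rw [Fin.cons_succ]; exact (h12 j i).symm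

section
variable {E V : Type} [AddCommGroup E] [Module ℝ E] [Fintype V] {x : V → E}
  {T : (Fin 4 → V) → Prop}

theorem P4g3_b1 (hS : Sys 4 x T) (B1 : Fin 3 → V) {b1 : Fin 3 → Module.Dual ℝ E}
    (hb : ∀ k l, b1 k (x (B1 l)) = if k = l then 1 else 0) {y : E} (hy : y ∈ sp x B1)
    (I : Finset (Fin 3)) (hI : ∀ k ∈ I, b1 k y = 0) : y ∈ spx x B1 (I : Set (Fin 3)) :=
  (mem_spx_iff B1 _ y).2 ⟨fun k => b1 k y, fun k hk => hI k (Finset.mem_coe.1 hk),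
    b1_sum hS B1 hb y hy⟩

theorem P4g3_d4 (i : Fin 4) : (({i} : Finset (Fin 4)) : Set (Fin 4)) = {i} := by
  rw [Finset.coe_singleton]

theorem P4g3_d42 (i j : Fin 4) : (({i, j} : Finset (Fin 4)) : Set (Fin 4)) = {i, j} := by
  rw [Finset.coe_insert, Finset.coe_singleton]

end

theorem p4_nd {E V : Type} [AddCommGroup E] [Module ℝ E] [Fintype V] {x : V → E}
    {T : (Fin 4 → V) → Prop} (hS : Sys 4 x T) (hG : G3 x) (B1 : Fin 3 → V) (hB : Injective B1)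
    {b1 : Fin 3 → Module.Dual ℝ E} {f1 f2 : Module.Dual ℝ E} {e : E}
    (hE : P4E x B1 b1 f1 f2 e) (a : V) (B2 B3 : Fin 3 → V) (hD : Dist4 B1 a B2 B3) :
    Nondeg (al4 x B1 b1 f1 f2 e (cc a B2) (cc a B3)) (be4 x B1 b1 f1 f2 e (cc a B2) (cc a B3)) := by
  obtain ⟨hB2, hB3, h12, h13, h23, ha1, ha2, ha3⟩ := id hD
  obtain ⟨i2, d2⟩ := P4g3_cc hB2 h12 ha1 ha2
  obtain ⟨i3, d3⟩ := P4g3_cc hB3 h13 ha1 ha3
  have d2' : Disj B1 (cc a B2) := fun i j h => d2 j i h.symm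
  have d3' : Disj B1 (cc a B3) := fun i j h => d3 j i h.symm
  set F2 := cc a B2 with hF2
  set F3 := cc a B3 with hF3
  have he2 := hE.enot F2 i2 d2
  have he3 := hE.enot F3 i3 d3
  have hiso := hE.iso F2 i2 d2
  have haa := solv_spec hiso 1 0
  have hqq := solv_spec hiso 0 1
  let φ : Fin 3 ⊕ (Fin 4 ⊕ Fin 4) → E →ₗ[ℝ] ℝ :=
    Sum.elim (fun k => b1 k) (Sum.elim (fun i => kap x F2 e i) (fun i => kap x F3 e i))
  have hα : ∀ j, al4 x B1 b1 f1 f2 e F2 F3 j = φ j (av x (sp x B1) f1 f2 F2) := by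
    rintro (i | i | i) <;> rfl
  have hβ : ∀ j, be4 x B1 b1 f1 f2 e F2 F3 j = φ j (qv x (sp x B1) f1 f2 F2) := by
    rintro (i | i | i) <;> rfl
  -- the six kinds of pairs
  have c11 : ∀ k k' : Fin 3, k ≠ k' → ∀ y ∈ sp x F2 ⊓ sp x B1, b1 k y = 0 → b1 k' y = 0 →
      y = 0 := by
    intro k k' hk y hy h1 h2
    have h3 := P4g3_b1 hS B1 hE.dual hy.2 {k, k'} (by
      intro l hl
      rw [Finset.mem_insert, Finset.mem_singleton] at hl
      rcases hl with rfl | rfl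
      · exact h1
      · exact h2)
    have h4 := hy.1
    rw [P3g4_sp] at h4
    refine P3g4_bot hS d2' {k, k'} ∅ ?_ h3 h4
    rw [Finset.card_pair hk, Finset.card_empty]
  have c12 : ∀ (k : Fin 3) (i : Fin 4), ∀ y ∈ sp x F2 ⊓ sp x B1, b1 k y = 0 →
      kap x F2 e i y = 0 → y = 0 := by
    intro k i y hy h1 h2
    have h3 := P4g3_b1 hS B1 hE.dual hy.2 {k} (by
      intro l hl
      rw [Finset.mem_singleton] at hl
      rw [hl]; exact h1)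
    obtain ⟨s, hs⟩ := (kap_eq_zero_iff hS F2 i2 e he2 i y).1 h2
    have h0 := P3g4_e' hy.1 hs (spx_le_sp F2 _) he2
    rw [h0, zero_smul, sub_zero, ← P4g3_d4] at hs
    refine P3g4_bot hS d2' {k} {i} ?_ h3 hs
    rw [Finset.card_singleton, Finset.card_singleton]
  have c22 : ∀ (i i' : Fin 4), i ≠ i' → ∀ y ∈ sp x F2 ⊓ sp x B1, kap x F2 e i y = 0 →
      kap x F2 e i' y = 0 → y = 0 := by
    intro i i' hi y hy h1 h2
    obtain ⟨s, hs⟩ := (kap_eq_zero_iff2 hS F2 i2 e he2 i i' y).1 ⟨h1, h2⟩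
    have h0 := P3g4_e' hy.1 hs (spx_le_sp F2 _) he2
    rw [h0, zero_smul, sub_zero, ← P4g3_d42] at hs
    have h4 := hy.2
    rw [P3g4_sp] at h4
    refine P3g4_bot hS d2 {i, i'} ∅ ?_ hs h4
    rw [Finset.card_pair hi, Finset.card_empty]
  have c13 : ∀ (k : Fin 3) (j : Fin 4), ∀ y ∈ sp x F2 ⊓ sp x B1, b1 k y = 0 →
      kap x F3 e j y = 0 → y = 0 := by
    intro k j y hy h1 h2
    have h3 := P4g3_b1 hS B1 hE.dual hy.2 {k} (by
      intro l hl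
      rw [Finset.mem_singleton] at hl
      rw [hl]; exact h1)
    obtain ⟨s, hs⟩ := (kap_eq_zero_iff hS F3 i3 e he3 j y).1 h2
    have h5 : y - s • e ∈ sp x B1 :=
      Submodule.sub_mem _ hy.2 (Submodule.smul_mem _ _ hE.eU)
    have h6 : y ∈ sp x F2 ⊓ spx x B1 {k} := by
      refine ⟨hy.1, ?_⟩
      rw [← P3g4_c]; exact h3
    have h0 := P3g4_e (P := sp x F2 ⊓ spx x B1 {k}) (Q := spx x F3 {j} ⊓ sp x B1) h6 ⟨hs, h5⟩
      (hE.e6 F2 F3 i2 i3 d2 d3 k j)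
    rw [h0, zero_smul, sub_zero, ← P4g3_d4] at hs
    refine P3g4_bot hS d3' {k} {j} ?_ h3 hs
    rw [Finset.card_singleton, Finset.card_singleton]
  have c23 : ∀ (i j : Fin 4), ∀ y ∈ sp x F2 ⊓ sp x B1, kap x F2 e i y = 0 →
      kap x F3 e j y = 0 → y = 0 := by
    intro i j y hy h1 h2
    obtain ⟨s, hs⟩ := (kap_eq_zero_iff hS F2 i2 e he2 i y).1 h1
    obtain ⟨s', hs'⟩ := (kap_eq_zero_iff hS F3 i3 e he3 j y).1 h2
    have h0 := P3g4_e' hy.1 hs (spx_le_sp F2 _) he2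
    rw [h0, zero_smul, sub_zero] at hs
    have h5 : y - s' • e ∈ sp x B1 :=
      Submodule.sub_mem _ hy.2 (Submodule.smul_mem _ _ hE.eU)
    have h0' := P3g4_e (P := spx x F2 {i} ⊓ sp x B1) (Q := spx x F3 {j} ⊓ sp x B1) ⟨hs, hy.2⟩
      ⟨hs', h5⟩ (hE.e4 F2 F3 i2 i3 d2 d3 i j)
    rw [h0', zero_smul, sub_zero] at hs'
    have h7 := g3_pairs hS hG B1 hB a B2 B3 hD i j
    have h8 : y ∈ spx x (cc a B2) {i} ⊓ spx x (cc a B3) {j} ⊓ sp x B1 := ⟨⟨hs, hs'⟩, hy.2⟩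
    rw [h7] at h8
    exact (Submodule.mem_bot ℝ).1 h8
  have c33 : ∀ (j j' : Fin 4), j ≠ j' → ∀ y ∈ sp x F2 ⊓ sp x B1, kap x F3 e j y = 0 →
      kap x F3 e j' y = 0 → y = 0 := by
    intro j j' hj y hy h1 h2
    obtain ⟨s, hs⟩ := (kap_eq_zero_iff2 hS F3 i3 e he3 j j' y).1 ⟨h1, h2⟩
    have h5 : y - s • e ∈ sp x B1 :=
      Submodule.sub_mem _ hy.2 (Submodule.smul_mem _ _ hE.eU)
    rw [← P4g3_d42] at hs
    rw [P3g4_sp] at h5
    have h6 : y - s • e = 0 := by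
      refine P3g4_bot hS d3 {j, j'} ∅ ?_ hs h5
      rw [Finset.card_pair hj, Finset.card_empty]
    have h7 : s = 0 := by
      refine P3g4_e' (Q := ⊥) hy.1 ?_ bot_le he2
      rw [h6]; exact Submodule.zero_mem _
    rw [h7, zero_smul, sub_zero] at h6
    exact h6
  have key : ∀ j l, j ≠ l → ∀ y ∈ sp x F2 ⊓ sp x B1, φ j y = 0 → φ l y = 0 → y = 0 := by
    rintro (i | i | i) (l | l | l) hne y hy hj hl
    · exact c11 i l (fun h => hne (by rw [h])) y hy hj hl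
    · exact c12 i l y hy hj hl
    · exact c13 i l y hy hj hl
    · exact c12 l i y hy hl hj
    · exact c22 i l (fun h => hne (by rw [h])) y hy hj hl
    · exact c23 i l y hy hj hl
    · exact c13 l i y hy hl hj
    · exact c23 l i y hy hl hj
    · exact c33 i l (fun h => hne (by rw [h])) y hy hj hl
  intro j l hjl heq
  rw [hα, hα, hβ, hβ] at heq
  obtain ⟨t0, t1, ht, hf, hg⟩ := P3g4_two heq
  have hy : t0 • av x (sp x B1) f1 f2 F2 + t1 • qv x (sp x B1) f1 f2 F2 ∈ sp x F2 ⊓ sp x B1 :=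
    Submodule.add_mem _ (Submodule.smul_mem _ _ haa.1) (Submodule.smul_mem _ _ hqq.1)
  have h0 := key j l hjl _ hy hf hg
  have hf1 := congrArg f1 h0
  have hf2 := congrArg f2 h0
  unfold av qv at hf1 hf2
  rw [map_add, map_smul, map_smul, haa.2.1, hqq.2.1, map_zero] at hf1
  rw [map_add, map_smul, map_smul, haa.2.2, hqq.2.2, map_zero] at hf2
  simp only [smul_eq_mul, mul_one, mul_zero, add_zero, zero_add] at hf1 hf2
  rcases ht with ht | ht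
  · exact ht hf1
  · exact ht hf2

end KS37
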