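import Pool.Agent.LibKS37.P4g1
import Pool.Agent.LibKS37.P4g2
import Pool.Agent.LibKS37.P4g3

/-!
# KS37 row P4g: assembly
-/

open Finset Function
open scoped Classical

namespace KS37

theorem p4_good {E V : Type} [AddCommGroup E] [Module ℝ E] [Fintype V] {x : V → E}
    {T : (Fin 4 → V) → Prop} (hS : Sys 4 x T) (hG : G3 x) (B1 : Fin 3 → V) (hB : Injective B1) :
    ∃ b1 f1 f2 e, P4Good x B1 b1 f1 f2 e := by
  obtain ⟨b1, f1, f2, e, hE⟩ := p4_exists hS hG B1 hB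
  exact ⟨b1, f1, f2, e, hE.eU, hE.dual, hE.pos, hE.ridge, hE.iso, hE.enot,
    fun F hF hd k => p4_kap1 hS B1 hB hE F hF hd k,
    fun F F' hF hF' hd hd' j => p4_kapq hS B1 hB hE F F' hF hF' hd hd' j,
    fun a B2 B3 hD => p4_hq hS B1 hB hE a B2 B3 hD,
    fun a B2 B3 hD => p4_nd hS hG B1 hB hE a B2 B3 hD⟩

end KS37
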