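import Pool.Agent.LibKS37.P4g0
import Pool.Agent.LibKS37.A2
import Pool.Agent.LibKS37.SweepE

/-!
# KS37 row P4g1: existence of b1, f1, f2, e inside sp x B1
b1: dual functionals of the independent vectors x (B1 l) (extend to a basis, or `LinearIndependent` → `exists_extend`). f0 = Σ b1 k has f0 (x (B1 l)) = 1 > 0. `Gen.near` in the dual
space with z0 = f0, Q f := ∀ k, 0 < f (x (B1 k)): f1 generic: nonzero on a generator of each of the lines spx x F {i} ⊓ sp x B1, sp x F ⊓ spx x B1 {k},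
sp x (cc a B2) ⊓ sp x (cc a B3) ⊓ sp x B1 (P4g0). f2 generic: nonzero on a generator of the line sp x F ⊓ sp x B1 ⊓ ker f1 (f1 ≠ 0 on the 2-dimensional
sp x F ⊓ sp x B1 as it contains the ridge line): Iso2. e generic in sp x B1 (`Gen.exists_mem`, `Gen.sub_notMem`): sp x F ⊓ sp x B1 has dimension 2 < 3; the subspaces in
e3, e4, e6 have dimension ≤ 2 < 3.
-/

open Finset Function
open scoped Classical

namespace KS37

section P4g1aux
variable {E V : Type} [AddCommGroup E] [Module ℝ E]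

private theorem P4g1_line (L : Submodule ℝ E) (h : Module.finrank ℝ L = 1) :
    Gen (fun f : Module.Dual ℝ E => ∀ y ∈ L, f y = 0 → y = 0) := by
  obtain ⟨v, hv, hv'⟩ := finrank_eq_one_iff'.1 h
  have hv0 : (v : E) ≠ 0 := fun h0 => hv (Subtype.ext h0)
  refine (Gen.dual_ne hv0).mono (fun f hf y hy hfy => ?_)
  obtain ⟨c, hc⟩ := hv' ⟨y, hy⟩
  have hc' : c • (v : E) = y := congrArg Subtype.val hc
  rw [← hc', map_smul, smul_eq_mul] at hfy
  rcases mul_eq_zero.1 hfy with h0 | h0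
  · rw [← hc', h0, zero_smul]
  · exact absurd h0 hf

private theorem P4g1_ker [Module.Finite ℝ E] (P : Submodule ℝ E) (f : Module.Dual ℝ E)
    (h : ∃ y ∈ P, f y ≠ 0) :
    Module.finrank ℝ (P ⊓ LinearMap.ker f : Submodule ℝ E) + 1 = Module.finrank ℝ P := by
  have h1 := LinearMap.finrank_range_add_finrank_ker (f.domRestrict P)
  have h2 : LinearMap.range (f.domRestrict P) = ⊤ := by
    obtain ⟨y, hy, hfy⟩ := h
    rw [LinearMap.range_eq_top]
    intro c
    refine ⟨(c / f y) • ⟨y, hy⟩, ?_⟩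
    rw [map_smul, LinearMap.domRestrict_apply, smul_eq_mul, div_mul_cancel₀ _ hfy]
  rw [h2, finrank_top, Module.finrank_self] at h1
  have h3 : Module.finrank ℝ (LinearMap.ker (f.domRestrict P)) =
      Module.finrank ℝ (P ⊓ LinearMap.ker f : Submodule ℝ E) := by
    have e1 : (LinearMap.ker (f.domRestrict P)).map P.subtype = P ⊓ LinearMap.ker f := by
      ext y
      simp only [Submodule.mem_map, LinearMap.mem_ker, LinearMap.domRestrict_apply,
        Submodule.mem_inf, Submodule.subtype_apply]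
      constructor
      · rintro ⟨z, hz, rfl⟩
        exact ⟨z.2, hz⟩
      · rintro ⟨hy, hfy⟩
        exact ⟨⟨y, hy⟩, hfy, rfl⟩
    rw [← e1]
    exact (LinearEquiv.finrank_eq
      (Submodule.equivMapOfInjective P.subtype (Submodule.subtype_injective P) _))
  rw [h3] at h1
  omega

private theorem P4g1_iso [Module.Finite ℝ E] (P : Submodule ℝ E) (hP : Module.finrank ℝ P = 2)
    (f1 f2 : Module.Dual ℝ E) (h : ∀ y ∈ P, f1 y = 0 → f2 y = 0 → y = 0) : Iso2 P f1 f2 := by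
  refine ⟨h, ?_⟩
  set g : P →ₗ[ℝ] ℝ × ℝ := (f1.domRestrict P).prod (f2.domRestrict P) with hg
  have hgi : Injective g := by
    rw [← LinearMap.ker_eq_bot, LinearMap.ker_eq_bot']
    intro y hy
    have h1 : f1 (y : E) = 0 := congrArg Prod.fst hy
    have h2 : f2 (y : E) = 0 := congrArg Prod.snd hy
    exact Subtype.ext (h y y.2 h1 h2)
  have hgs : Surjective g := by
    refine (LinearMap.injective_iff_surjective_of_finrank_eq_finrank ?_).1 hgi
    rw [hP, Module.finrank_prod, Module.finrank_self]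
  intro s t
  obtain ⟨y, hy⟩ := hgs (s, t)
  exact ⟨y, y.2, congrArg Prod.fst hy, congrArg Prod.snd hy⟩

private theorem P4g1_dual (v : Fin 3 → E) (hv : LinearIndependent ℝ v) :
    ∃ b1 : Fin 3 → Module.Dual ℝ E, ∀ k l, b1 k (v l) = if k = l then 1 else 0 := by
  have hk : ∀ k : Fin 3, ∃ g : Module.Dual ℝ E, ∀ l, g (v l) = if k = l then 1 else 0 := by
    intro k
    obtain ⟨g, hg⟩ := LinearMap.exists_extend ((Module.Basis.span hv).coord k)
    refine ⟨g, fun l => ?_⟩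
    have h1 : (Module.Basis.span hv l : E) = v l := congrArg Subtype.val (Module.Basis.span_apply hv l)
    have h2 : g (Module.Basis.span hv l : E) = (Module.Basis.span hv).coord k (Module.Basis.span hv l) := by
      rw [← hg]
      rfl
    rw [← h1, h2, Module.Basis.coord_apply, Module.Basis.repr_self, Finsupp.single_apply]
    by_cases h : l = k
    · rw [if_pos h, if_pos h.symm]
    · rw [if_neg h, if_neg (fun h' => h h'.symm)]
  choose b1 hb1 using hk
  exact ⟨b1, hb1⟩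

private theorem P4g1_near {P : Module.Dual ℝ E → Prop} (h : Gen P) (v : Fin 3 → E)
    (f0 : Module.Dual ℝ E) (hf0 : ∀ k, f0 (v k) = 1) : ∃ f, P f ∧ ∀ k, 0 < f (v k) := by
  refine Gen.near h f0 (fun g => ?_)
  have hS : 0 ≤ ∑ k : Fin 3, |g (v k)| := Finset.sum_nonneg (fun k _ => abs_nonneg _)
  refine ⟨(1 + ∑ k : Fin 3, |g (v k)|)⁻¹, by positivity, fun ε hε hε' k => ?_⟩
  rw [LinearMap.add_apply, LinearMap.smul_apply, smul_eq_mul, hf0 k]
  have h1 : |g (v k)| ≤ ∑ k : Fin 3, |g (v k)| :=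
    Finset.single_le_sum (f := fun k => |g (v k)|) (fun k _ => abs_nonneg _) (Finset.mem_univ k)
  have h2 : ε * (1 + ∑ k : Fin 3, |g (v k)|) < 1 := by
    have := mul_lt_mul_of_pos_right hε' (show (0 : ℝ) < 1 + ∑ k : Fin 3, |g (v k)| by positivity)
    rwa [inv_mul_cancel₀ (by positivity)] at this
  have h3 := neg_abs_le (g (v k))
  nlinarith

variable [Fintype V] {x : V → E} {T : (Fin 4 → V) → Prop}

private theorem P4g1_f1 (hS : Sys 4 x T) (hG : G3 x) (B1 : Fin 3 → V) (hB : Injective B1) :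
    Gen (fun f1 : Module.Dual ℝ E =>
    (∀ F : Fin 4 → V, Injective F → Disj F B1 → ∀ i, ∀ y ∈ spx x F {i} ⊓ sp x B1,
      f1 y = 0 → y = 0) ∧
    (∀ F : Fin 4 → V, Injective F → Disj F B1 → ∀ k, ∀ y ∈ sp x F ⊓ spx x B1 {k},
      f1 y = 0 → y = 0) ∧
    (∀ (a : V) (B2 B3 : Fin 3 → V), Dist4 B1 a B2 B3 →
      ∀ y ∈ sp x (cc a B2) ⊓ sp x (cc a B3) ⊓ sp x B1, f1 y = 0 → y = 0)) := by
  refine Gen.and ?_ (Gen.and ?_ ?_)
  · refine Gen.all fun F => Gen.imp fun hF => Gen.imp fun hd => Gen.all fun i => ?_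
    exact P4g1_line _ (p4_finrank1 hS B1 F hB hF hd i)
  · refine Gen.all fun F => Gen.imp fun hF => Gen.imp fun hd => Gen.all fun k => ?_
    exact P4g1_line _ (p4_finrank_edge hS B1 F hB hF hd k)
  · refine Gen.all fun a => Gen.all fun B2 => Gen.all fun B3 => Gen.imp fun hD => ?_
    exact P4g1_line _ (p4_finrank_dbl hS hG B1 hB a B2 B3 hD)

private theorem P4g1_f2 (hS : Sys 4 x T) (B1 : Fin 3 → V) (hB : Injective B1)
    (f1 : Module.Dual ℝ E)
    (hr : ∀ F : Fin 4 → V, Injective F → Disj F B1 → ∀ i, ∀ y ∈ spx x F {i} ⊓ sp x B1,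
      f1 y = 0 → y = 0) :
    Gen (fun f2 : Module.Dual ℝ E =>
    (∀ F : Fin 4 → V, Injective F → Disj F B1 → Iso2 (sp x F ⊓ sp x B1) f1 f2)) := by
  have hfd := finiteDimensional_of_sys hS
  refine Gen.all fun F => Gen.imp fun hF => Gen.imp fun hd => ?_
  have h2 := p4_finrank2 hS B1 F hB hF hd
  have h1 := p4_finrank1 hS B1 F hB hF hd 0
  obtain ⟨v, hv, _⟩ := finrank_eq_one_iff'.1 h1
  have hv0 : (v : E) ≠ 0 := fun h0 => hv (Subtype.ext h0)
  have hfv : f1 (v : E) ≠ 0 := fun h0 => hv0 (hr F hF hd 0 v v.2 h0)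
  have h3 := P4g1_ker (sp x F ⊓ sp x B1) f1 ⟨v, ⟨spx_le_sp F {0} v.2.1, v.2.2⟩, hfv⟩
  have h4 : Module.finrank ℝ (sp x F ⊓ sp x B1 ⊓ LinearMap.ker f1 : Submodule ℝ E) = 1 := by
    omega
  refine (P4g1_line _ h4).mono (fun f2 hf2 => ?_)
  exact P4g1_iso _ h2 f1 f2 (fun y hy hy1 hy2 => hf2 y ⟨hy, LinearMap.mem_ker.2 hy1⟩ hy2)

end P4g1aux

theorem p4_exists {E V : Type} [AddCommGroup E] [Module ℝ E] [Fintype V] {x : V → E}
    {T : (Fin 4 → V) → Prop} (hS : Sys 4 x T) (hG : G3 x)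
    (B1 : Fin 3 → V) (hB : Injective B1) : ∃ b1 f1 f2 e, P4E x B1 b1 f1 f2 e := by
  have hfd := finiteDimensional_of_sys hS
  have hli : LinearIndependent ℝ (fun l => x (B1 l)) := hS.gp 3 (by norm_num) B1 hB
  obtain ⟨b1, hb1⟩ := P4g1_dual _ hli
  have hf0 : ∀ k, (∑ l : Fin 3, b1 l) (x (B1 k)) = 1 := by
    intro k
    rw [LinearMap.sum_apply, Finset.sum_congr rfl (fun l _ => hb1 l k), Finset.sum_ite_eq']
    simp
  obtain ⟨f1, ⟨hr, hed, hdb⟩, hpos⟩ := P4g1_near (P4g1_f1 hS hG B1 hB) (fun l => x (B1 l)) _ hf0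
  obtain ⟨f2, hiso⟩ := (P4g1_f2 hS B1 hB f1 hr).exists
  have hU : Module.finrank ℝ (sp x B1) = 3 := finrank_sp hS (by norm_num) B1 hB
  have hnle : ∀ K : Submodule ℝ E, Module.finrank ℝ K ≤ 2 → ¬ sp x B1 ≤ K := by
    intro K hK hle
    have h1 := Submodule.finrank_mono hle
    omega
  have hg1 : Gen fun w : sp x B1 => ∀ F : Fin 4 → V, Injective F → Disj F B1 →
      (w : E) ∉ sp x F := by
    refine Gen.all fun F => Gen.imp fun hF => Gen.imp fun hd => Gen.sub_notMem fun hle => ?_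
    have h1 := p4_finrank2 hS B1 F hB hF hd
    rw [inf_eq_right.2 hle, hU] at h1
    omega
  have hg2 : Gen fun w : sp x B1 => ∀ F F' : Fin 4 → V, Injective F → Injective F' →
      Disj F B1 → Disj F' B1 → ∀ j,
      (w : E) ∉ Submodule.span ℝ {qv x (sp x B1) f1 f2 F} ⊔ (spx x F' {j} ⊓ sp x B1) := by
    refine Gen.all fun F => Gen.all fun F' => Gen.imp fun hF => Gen.imp fun hF' =>
      Gen.imp fun hd => Gen.imp fun hd' => Gen.all fun j => Gen.sub_notMem (hnle _ ?_)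
    refine (Submodule.finrank_add_le_finrank_add_finrank _ _).trans ?_
    have h1 : Module.finrank ℝ (Submodule.span ℝ {qv x (sp x B1) f1 f2 F}) ≤ 1 :=
      (finrank_span_le_card _).trans (by simp)
    have h2 := p4_finrank1 hS B1 F' hB hF' hd' j
    omega
  have hg3 : Gen fun w : sp x B1 => ∀ F F' : Fin 4 → V, Injective F → Injective F' →
      Disj F B1 → Disj F' B1 → ∀ i j,
      (w : E) ∉ (spx x F {i} ⊓ sp x B1) ⊔ (spx x F' {j} ⊓ sp x B1) := by
    refine Gen.all fun F => Gen.all fun F' => Gen.imp fun hF => Gen.imp fun hF' =>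
      Gen.imp fun hd => Gen.imp fun hd' => Gen.all fun i => Gen.all fun j =>
      Gen.sub_notMem (hnle _ ?_)
    refine (Submodule.finrank_add_le_finrank_add_finrank _ _).trans ?_
    have h1 := p4_finrank1 hS B1 F hB hF hd i
    have h2 := p4_finrank1 hS B1 F' hB hF' hd' j
    omega
  have hg4 : Gen fun w : sp x B1 => ∀ F F' : Fin 4 → V, Injective F → Injective F' →
      Disj F B1 → Disj F' B1 → ∀ k j,
      (w : E) ∉ (sp x F ⊓ spx x B1 {k}) ⊔ (spx x F' {j} ⊓ sp x B1) := by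
    refine Gen.all fun F => Gen.all fun F' => Gen.imp fun hF => Gen.imp fun hF' =>
      Gen.imp fun hd => Gen.imp fun hd' => Gen.all fun k => Gen.all fun j =>
      Gen.sub_notMem (hnle _ ?_)
    refine (Submodule.finrank_add_le_finrank_add_finrank _ _).trans ?_
    have h1 := p4_finrank_edge hS B1 F hB hF hd k
    have h2 := p4_finrank1 hS B1 F' hB hF' hd' j
    omega
  obtain ⟨e, he, h1, h2, h3, h4⟩ := ((hg1.and (hg2.and (hg3.and hg4)))).exists_mem
  exact ⟨b1, f1, f2, e, he, hb1, hpos, hr, hed, hdb, hiso, h1, h2, h3, h4⟩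

end KS37
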