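import Pool.Agent.LibKS37.R5
import Pool.Agent.LibKS39.L6

/-!
# KS37 row S1: the k-facets form a balanced system of rank 4 (helper37)
-/

open Finset Function
open scoped Classical

namespace KS37

theorem S1_gen {n : ℕ} (w : Fin n → Fin n → ℝ) :
    Matrix.det (Matrix.of w) = Matrix.detRowAlternating w := rfl

theorem S1_D5_eq (w : Fin 5 → Fin 5 → ℝ) : D5 w = Matrix.detRowAlternating w := by
  unfold D5
  exact S1_gen w

/-- last row as a functional. -/
noncomputable def S1_dd (p : Fin 4 → Fin 5 → ℝ) : (Fin 5 → ℝ) →ₗ[ℝ] ℝ :=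
  (Matrix.detRowAlternating (n := Fin 5) (R := ℝ)).toMultilinearMap.toLinearMap
    (Fin.snoc p 0) (Fin.last 4)

theorem S1_dd_apply (p : Fin 4 → Fin 5 → ℝ) (z : Fin 5 → ℝ) :
    S1_dd p z = D5 (Fin.snoc p z) := by
  unfold S1_dd
  rw [MultilinearMap.toLinearMap_apply, Fin.update_snoc_last, S1_D5_eq]
  rw [AlternatingMap.coe_multilinearMap]

theorem S1_snoc_update (p : Fin 4 → Fin 5 → ℝ) (i : Fin 4) (y z : Fin 5 → ℝ) :
    (Fin.snoc (update p i y) z : Fin 5 → Fin 5 → ℝ) =
      update (update (Fin.snoc p 0 : Fin 5 → Fin 5 → ℝ) (Fin.last 4) z) i.castSucc y := by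
  rw [Fin.update_snoc_last, Fin.snoc_update]

/-- the bilinear form. -/
noncomputable def S1_B (p : Fin 4 → Fin 5 → ℝ) (i : Fin 4) (y z : Fin 5 → ℝ) : ℝ :=
  D5 (Fin.snoc (update p i y) z)

theorem S1_B_right (p : Fin 4 → Fin 5 → ℝ) (i : Fin 4) (y : Fin 5 → ℝ) (z : Fin 5 → ℝ) :
    S1_B p i y z = S1_dd (update p i y) z := (S1_dd_apply _ _).symm

theorem S1_ne (i : Fin 4) : (i.castSucc : Fin 5) ≠ Fin.last 4 := Fin.castSucc_ne_last i

theorem S1_swap5 (w : Fin 5 → Fin 5 → ℝ) (i j : Fin 5) (hij : i ≠ j) :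
    D5 (w ∘ ⇑(Equiv.swap i j)) = - D5 w := by
  rw [S1_D5_eq, S1_D5_eq]
  exact AlternatingMap.map_swap _ _ hij

theorem S1_B_swap (p : Fin 4 → Fin 5 → ℝ) (i : Fin 4) (y z : Fin 5 → ℝ) :
    S1_B p i y z = - S1_B p i z y := by
  unfold S1_B
  rw [S1_snoc_update, S1_snoc_update]
  have h2 : (update (update (Fin.snoc p 0 : Fin 5 → Fin 5 → ℝ) (Fin.last 4) z) i.castSucc y) ∘
      ⇑(Equiv.swap i.castSucc (Fin.last 4)) =
      update (update (Fin.snoc p 0 : Fin 5 → Fin 5 → ℝ) (Fin.last 4) y) i.castSucc z := by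
    funext l
    rw [Function.comp_apply]
    by_cases h1 : l = i.castSucc
    · rw [h1, Equiv.swap_apply_left, update_self, update_of_ne (S1_ne i).symm, update_self]
    · by_cases h3 : l = Fin.last 4
      · rw [h3, Equiv.swap_apply_right, update_self, update_of_ne (S1_ne i).symm, update_self]
      · rw [Equiv.swap_apply_of_ne_of_ne h1 h3, update_of_ne h1, update_of_ne h3, update_of_ne h1,
          update_of_ne h3]
  have h3 := S1_swap5 (update (update (Fin.snoc p 0 : Fin 5 → Fin 5 → ℝ) (Fin.last 4) z)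
    i.castSucc y) i.castSucc (Fin.last 4) (S1_ne i)
  have h4 := congrArg D5 h2
  linarith

theorem S1_B_lin (p : Fin 4 → Fin 5 → ℝ) (i : Fin 4) (y y' z : Fin 5 → ℝ) (c : ℝ) :
    S1_B p i (y + c • y') z = S1_B p i y z + c * S1_B p i y' z := by
  rw [S1_B_swap, S1_B_right, map_add, map_smul, ← S1_B_right, ← S1_B_right, S1_B_swap p i z y,
    S1_B_swap p i z y', smul_eq_mul]
  ring

theorem S1_D5_zero (w : Fin 5 → Fin 5 → ℝ) (g : Module.Dual ℝ (Fin 5 → ℝ)) (hg : g ≠ 0)
    (h : ∀ l, g (w l) = 0) : D5 w = 0 := by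
  by_contra hD
  apply hg
  have hli : LinearIndependent ℝ (Matrix.of w).row := by
    rw [Matrix.linearIndependent_rows_iff_isUnit]
    exact (Matrix.isUnit_iff_isUnit_det _).2 (isUnit_iff_ne_zero.2 hD)
  have hspan : Submodule.span ℝ (Set.range (Matrix.of w).row) = ⊤ :=
    hli.span_eq_top_of_card_eq_finrank (by simp)
  ext1
  rename_i j
  apply LinearMap.ext
  intro t
  have : ∀ y : Fin 5 → ℝ, g y = 0 := by
    intro y
    have hy : y ∈ Submodule.span ℝ (Set.range (Matrix.of w).row) := by rw [hspan]; trivial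
    induction hy using Submodule.span_induction with
    | mem y hy =>
      obtain ⟨l, rfl⟩ := hy
      exact h l
    | zero => simp
    | add a b _ _ ha hb => rw [map_add, ha, hb, add_zero]
    | smul c a _ ha => rw [map_smul, ha, smul_zero]
  simp [this]

/-- Plücker identity relative to `g`. -/
theorem S1_key (p : Fin 4 → Fin 5 → ℝ) (i : Fin 4) (g : Module.Dual ℝ (Fin 5 → ℝ))
    (hg : ∀ l, l ≠ i → g (p l) = 0) (a : Fin 5 → ℝ) (ha : g a ≠ 0) (y z : Fin 5 → ℝ) :
    S1_B p i y z * g a = g y * S1_B p i a z - S1_B p i a y * g z := by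
  have hg0 : g ≠ 0 := by rintro rfl; simp at ha
  have hzero : ∀ y' z' : Fin 5 → ℝ, g y' = 0 → g z' = 0 → S1_B p i y' z' = 0 := by
    intro y' z' hy hz
    unfold S1_B
    apply S1_D5_zero _ g hg0
    intro l
    refine Fin.lastCases ?_ (fun l => ?_) l
    · rw [Fin.snoc_last]; exact hz
    · rw [Fin.snoc_castSucc]
      by_cases hl : l = i
      · subst hl; rw [update_self]; exact hy
      · rw [update_of_ne hl]; exact hg l hl
  set cy := g y / g a with hcy
  set cz := g z / g a with hcz
  have e1 : y = (y - cy • a) + cy • a := by simp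
  have e2 : z = (z - cz • a) + cz • a := by simp
  have gy : g (y - cy • a) = 0 := by
    rw [map_sub, map_smul, smul_eq_mul, hcy, div_mul_cancel₀ _ ha, sub_self]
  have gz : g (z - cz • a) = 0 := by
    rw [map_sub, map_smul, smul_eq_mul, hcz, div_mul_cancel₀ _ ha, sub_self]
  have haa : S1_B p i a a = 0 := by
    have := S1_B_swap p i a a
    linarith
  have h1 : S1_B p i y z = S1_B p i (y - cy • a) z + cy * S1_B p i a z := by
    conv_lhs => rw [e1]
    rw [S1_B_lin]
  have h2 : S1_B p i (y - cy • a) z = - (cz * S1_B p i a y) := by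
    have h3 : S1_B p i (y - cy • a) z = S1_B p i (y - cy • a) (z - cz • a) +
        cz * S1_B p i (y - cy • a) a := by
      conv_lhs => rw [e2]
      rw [S1_B_right, map_add, map_smul, ← S1_B_right, ← S1_B_right, smul_eq_mul]
    rw [h3, hzero _ _ gy gz, zero_add, S1_B_swap p i (y - cy • a) a]
    have h4 : S1_B p i a (y - cy • a) = S1_B p i a y := by
      rw [S1_B_right, map_sub, map_smul, ← S1_B_right, ← S1_B_right, haa, smul_zero, sub_zero]
    rw [h4]; ring
  rw [h1, h2, hcy, hcz]
  field_simp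
  ring

/-! ### counting -/

/-- the level of `a` in the sense of `KS39.label_walk`. -/
noncomputable def S1_N {V : Type} (X : Finset V) (pos : V → Prop) (lam : V → ℝ) (a : V) : ℕ :=
  (X.filter (fun p => pos p ∧ lam a < lam p)).card +
    (X.filter (fun p => ¬ pos p ∧ lam p < lam a)).card

theorem S1_N_eq {V : Type} (X : Finset V) (g lam : V → ℝ) (hg : ∀ p ∈ X, g p ≠ 0) (a : V) :
    S1_N X (fun p => 0 < g p) lam a = (X.filter (fun p => 0 < g p * (lam p - lam a))).card := by
  unfold S1_N
  rw [← Finset.card_union_of_disjoint]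
  · congr 1
    ext p
    simp only [mem_union, mem_filter]
    constructor
    · rintro (⟨hp, h1, h2⟩ | ⟨hp, h1, h2⟩)
      · exact ⟨hp, mul_pos h1 (by linarith)⟩
      · refine ⟨hp, ?_⟩
        have h3 : g p < 0 := lt_of_le_of_ne (not_lt.1 h1) (hg p hp)
        exact mul_pos_of_neg_of_neg h3 (by linarith)
    · rintro ⟨hp, h⟩
      by_cases h1 : 0 < g p
      · left
        refine ⟨hp, h1, ?_⟩
        have := (pos_iff_pos_of_mul_pos h).1 h1
        linarith
      · right
        refine ⟨hp, h1, ?_⟩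
        have h3 : g p < 0 := lt_of_le_of_ne (not_lt.1 h1) (hg p hp)
        have := (neg_iff_neg_of_mul_pos h).1 h3
        linarith
  · rw [Finset.disjoint_left]
    intro p h1 h2
    rw [mem_filter] at h1 h2
    exact h2.2.1 h1.2.1

theorem S1_N_compl {V : Type} (X : Finset V) (g lam : V → ℝ) (hg : ∀ p ∈ X, g p ≠ 0)
    (hinj : Set.InjOn lam (X : Set V)) (a : V) (ha : a ∈ X) :
    (X.filter (fun p => g p * (lam p - lam a) < 0)).card +
      S1_N X (fun p => 0 < g p) lam a + 1 = X.card := by
  rw [S1_N_eq X g lam hg a]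
  have h1 : X = insert a ((X.filter (fun p => g p * (lam p - lam a) < 0)) ∪
      (X.filter (fun p => 0 < g p * (lam p - lam a)))) := by
    ext p
    simp only [mem_insert, mem_union, mem_filter]
    constructor
    · intro hp
      by_cases hpa : p = a
      · left; exact hpa
      · right
        have h2 : lam p - lam a ≠ 0 := by
          intro h3
          exact hpa (hinj hp ha (by linarith))
        rcases lt_or_gt_of_ne (mul_ne_zero (hg p hp) h2) with h | h
        · left; exact ⟨hp, h⟩
        · right; exact ⟨hp, h⟩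
    · rintro (rfl | ⟨hp, _⟩ | ⟨hp, _⟩)
      · exact ha
      · exact hp
      · exact hp
  have h2 : a ∉ (X.filter (fun p => g p * (lam p - lam a) < 0)) ∪
      (X.filter (fun p => 0 < g p * (lam p - lam a))) := by
    simp
  have h3 : Disjoint (X.filter (fun p => g p * (lam p - lam a) < 0))
      (X.filter (fun p => 0 < g p * (lam p - lam a))) := by
    rw [Finset.disjoint_left]
    intro p h4 h5
    rw [mem_filter] at h4 h5
    linarith [h4.2, h5.2]
  conv_rhs => rw [h1]
  rw [Finset.card_insert_of_notMem h2, Finset.card_union_of_disjoint h3]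

theorem S1_walk {V : Type} (X : Finset V) (g lam : V → ℝ) (hg : ∀ p ∈ X, g p ≠ 0)
    (hinj : Set.InjOn lam (X : Set V)) (k : ℕ) :
    |∑ a ∈ X, ind (S1_N X (fun p => 0 < g p) lam a = k) * sg (g a)| ≤ 1 := by
  have h := KS39.label_walk X (fun p => 0 < g p) lam hinj k
  have hsum : ∑ a ∈ X, ind (S1_N X (fun p => 0 < g p) lam a = k) * sg (g a) =
      ((X.filter (fun a => 0 < g a ∧ S1_N X (fun p => 0 < g p) lam a = k)).card : ℝ) -
        ((X.filter (fun a => ¬ 0 < g a ∧ S1_N X (fun p => 0 < g p) lam a = k)).card : ℝ) := by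
    rw [Finset.card_filter, Finset.card_filter]
    push_cast
    rw [← Finset.sum_sub_distrib]
    apply Finset.sum_congr rfl
    intro a ha
    by_cases h1 : 0 < g a
    · by_cases h2 : S1_N X (fun p => 0 < g p) lam a = k
      · rw [ind_true h2, sg_pos h1]; simp [h1, h2]
      · rw [ind_false h2]; simp [h2]
    · have h3 : g a < 0 := lt_of_le_of_ne (not_lt.1 h1) (hg a ha)
      by_cases h2 : S1_N X (fun p => 0 < g p) lam a = k
      · rw [ind_true h2, sg_neg h3]; simp [h1, h2]
      · rw [ind_false h2]; simp [h2]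
  rw [hsum]
  have h1 : ((X.filter (fun a => 0 < g a ∧ S1_N X (fun p => 0 < g p) lam a = k)).card : ℝ) ≤
      ((X.filter (fun a => ¬ 0 < g a ∧ S1_N X (fun p => 0 < g p) lam a = k)).card : ℝ) + 1 := by
    exact_mod_cast h.1
  have h2 : ((X.filter (fun a => ¬ 0 < g a ∧ S1_N X (fun p => 0 < g p) lam a = k)).card : ℝ) ≤
      ((X.filter (fun a => 0 < g a ∧ S1_N X (fun p => 0 < g p) lam a = k)).card : ℝ) + 1 := by
    exact_mod_cast h.2
  rw [abs_le]; constructor <;> linarith

/-! ### ridges -/

section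
variable {V : Type} [Fintype V]

/-- vertices off the ridge. -/
noncomputable def S1_X (w : Fin 4 → V) (i : Fin 4) : Finset V :=
  univ.filter (fun u => ∀ l, l ≠ i → w l ≠ u)

theorem S1_inj (w : Fin 4 → V) (i : Fin 4) (a0 : V) (h0 : Injective (update w i a0)) (a : V)
    (ha : ∀ l, l ≠ i → w l ≠ a) : Injective (update w i a) := by
  intro l l' h
  by_cases h1 : l = i
  · by_cases h2 : l' = i
    · rw [h1, h2]
    · rw [h1, update_self, update_of_ne h2] at h
      exact absurd h.symm (ha l' h2)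
  · by_cases h2 : l' = i
    · rw [h2, update_self, update_of_ne h1] at h
      exact absurd h (ha l h1)
    · rw [update_of_ne h1, update_of_ne h2] at h
      apply h0
      rw [update_of_ne h1, update_of_ne h2, h]

theorem S1_inj_mem (w : Fin 4 → V) (i : Fin 4) (a : V) (h : Injective (update w i a)) :
    ∀ l, l ≠ i → w l ≠ a := by
  intro l hl he
  apply hl
  apply h
  rw [update_of_ne hl, update_self, he]

theorem S1_card_X (w : Fin 4 → V) (i : Fin 4) (a0 : V) (h0 : Injective (update w i a0)) :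
    (S1_X w i).card + 3 = Fintype.card V := by
  have h1 : S1_X w i = univ \ ((univ.image (update w i a0)).erase a0) := by
    ext u
    simp only [S1_X, mem_filter, mem_univ, true_and, mem_sdiff, mem_erase, mem_image, not_and,
      not_exists]
    constructor
    · intro h hu l hl
      by_cases h2 : l = i
      · rw [h2, update_self] at hl; exact hu hl.symm
      · rw [update_of_ne h2] at hl; exact h l h2 hl
    · intro h l hl hu
      have h3 : u ≠ a0 := by
        intro h4
        exact S1_inj_mem w i a0 h0 l hl (by rw [hu, h4])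
      exact h h3 l (by rw [update_of_ne hl, hu])
  have h2 : (univ.image (update w i a0)).card = 4 := by
    rw [Finset.card_image_of_injective _ h0]; simp
  have h3 : a0 ∈ univ.image (update w i a0) := by
    rw [mem_image]; exact ⟨i, mem_univ _, by rw [update_self]⟩
  rw [h1, Finset.card_sdiff_of_subset (Finset.subset_univ _), Finset.card_erase_of_mem h3, h2,
    Finset.card_univ]
  have h4 : 4 ≤ Fintype.card V := by
    rw [← h2]; exact Finset.card_le_univ _
  omega

theorem S1_snoc_eq (x : V → Fin 5 → ℝ) (w : Fin 4 → V) (i : Fin 4) (a : V) (z : Fin 5 → ℝ) :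
    D5 (Fin.snoc (fun l => x (update w i a l)) z) = S1_B (fun l => x (w l)) i (x a) z := by
  unfold S1_B
  congr 2
  funext l
  by_cases hl : l = i
  · subst hl; simp
  · rw [update_of_ne hl, update_of_ne hl]

theorem S1_rep (x : V → Fin 5 → ℝ) (w : Fin 4 → V) (i : Fin 4) (a : V) (l : Fin 4) (hl : l ≠ i) :
    S1_B (fun l => x (w l)) i (x a) (x (w l)) = 0 := by
  unfold S1_B
  rw [S1_D5_eq]
  refine AlternatingMap.map_eq_zero_of_eq _ _ (i := l.castSucc) (j := Fin.last 4) ?_ (S1_ne l)
  rw [Fin.snoc_last, Fin.snoc_castSucc, update_of_ne hl]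

theorem S1_self (x : V → Fin 5 → ℝ) (w : Fin 4 → V) (i : Fin 4) (a : V) :
    S1_B (fun l => x (w l)) i (x a) (x a) = 0 := by
  have := S1_B_swap (fun l => x (w l)) i (x a) (x a)
  linarith

theorem S1_ne_zero (x : V → Fin 5 → ℝ) (hgp : GP5 x) (w : Fin 4 → V) (i : Fin 4) (a b : V)
    (ha : Injective (update w i a)) (hb : ∀ l, l ≠ i → w l ≠ b) (hab : a ≠ b) :
    S1_B (fun l => x (w l)) i (x a) (x b) ≠ 0 := by
  have h1 : Injective (Fin.snoc (update w i a) b : Fin 5 → V) := by
    rw [Fin.snoc_injective_iff]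
    refine ⟨ha, ?_⟩
    rintro ⟨l, hl⟩
    by_cases h : l = i
    · rw [h, update_self] at hl; exact hab hl
    · rw [update_of_ne h] at hl; exact hb l h hl
  have h2 := hgp _ h1
  rw [← S1_snoc_eq]
  have h3 : (fun l : Fin 5 => x ((Fin.snoc (update w i a) b : Fin 5 → V) l)) =
      (Fin.snoc (fun l => x (update w i a l)) (x b) : Fin 5 → Fin 5 → ℝ) := by
    funext l
    refine Fin.lastCases ?_ (fun l => ?_) l
    · rw [Fin.snoc_last, Fin.snoc_last]
    · rw [Fin.snoc_castSucc, Fin.snoc_castSucc]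
  rwa [h3] at h2

/-- slope. -/
noncomputable def S1_lam (x : V → Fin 5 → ℝ) (w : Fin 4 → V) (i : Fin 4)
    (g : Module.Dual ℝ (Fin 5 → ℝ)) (a0 : V) (u : V) : ℝ :=
  S1_B (fun l => x (w l)) i (x a0) (x u) / g (x u)

theorem S1_formula (x : V → Fin 5 → ℝ) (w : Fin 4 → V) (i : Fin 4)
    (g : Module.Dual ℝ (Fin 5 → ℝ)) (hg0 : ∀ l, l ≠ i → g (x (w l)) = 0) (a0 : V)
    (h0 : g (x a0) ≠ 0) (a u : V) (ha : g (x a) ≠ 0) (hu : g (x u) ≠ 0) :
    S1_B (fun l => x (w l)) i (x a) (x u) * g (x a0) =
      g (x a) * (g (x u) * (S1_lam x w i g a0 u - S1_lam x w i g a0 a)) := by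
  rw [S1_key (fun l => x (w l)) i g hg0 (x a0) h0 (x a) (x u)]
  unfold S1_lam
  field_simp

theorem S1_lam_inj (x : V → Fin 5 → ℝ) (hgp : GP5 x) (w : Fin 4 → V) (i : Fin 4)
    (g : Module.Dual ℝ (Fin 5 → ℝ)) (hg0 : ∀ l, l ≠ i → g (x (w l)) = 0)
    (hgX : ∀ u ∈ S1_X w i, g (x u) ≠ 0) (a0 : V) (ha0 : Injective (update w i a0)) :
    Set.InjOn (S1_lam x w i g a0) (S1_X w i : Set V) := by
  intro a ha b hb hab
  by_contra hne
  have ha' : ∀ l, l ≠ i → w l ≠ a := by
    have := ha; simpa [S1_X] using this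
  have hb' : ∀ l, l ≠ i → w l ≠ b := by
    have := hb; simpa [S1_X] using this
  have h1 := S1_ne_zero x hgp w i a b (S1_inj w i a0 ha0 a ha') hb' hne
  have h00 : g (x a0) ≠ 0 := by
    apply hgX
    simp only [S1_X, mem_filter, mem_univ, true_and]
    exact S1_inj_mem w i a0 ha0
  have h2 := S1_formula x w i g hg0 a0 h00 a b (hgX a ha) (hgX b hb)
  rw [hab, sub_self, mul_zero, mul_zero] at h2
  rcases mul_eq_zero.1 h2 with h | h
  · exact h1 h
  · exact h00 h

theorem S1_TT_iff (x : V → Fin 5 → ℝ) (hgp : GP5 x) (k : ℕ) (w : Fin 4 → V) (i : Fin 4)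
    (g : Module.Dual ℝ (Fin 5 → ℝ)) (hg0 : ∀ l, l ≠ i → g (x (w l)) = 0)
    (hgX : ∀ u ∈ S1_X w i, g (x u) ≠ 0) (a0 : V) (ha0 : Injective (update w i a0))
    (a : V) (ha : a ∈ S1_X w i) :
    TT x k (update w i a) ↔
      (S1_N (S1_X w i) (fun p => 0 < g (x p)) (S1_lam x w i g a0) a = k ∨
        S1_N (S1_X w i) (fun p => 0 < g (x p)) (S1_lam x w i g a0) a + k + 4 =
          Fintype.card V) := by
  have ha' : ∀ l, l ≠ i → w l ≠ a := by
    have := ha; simpa [S1_X] using this
  have ha0X : a0 ∈ S1_X w i := by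
    simp only [S1_X, mem_filter, mem_univ, true_and]
    exact S1_inj_mem w i a0 ha0
  have h00 := hgX a0 ha0X
  have hga := hgX a ha
  have hinj := S1_inj w i a0 ha0 a ha'
  have hcard := S1_card_X w i a0 ha0
  have hlam := S1_lam_inj x hgp w i g hg0 hgX a0 ha0
  have hN := S1_N_eq (S1_X w i) (fun u => g (x u)) (S1_lam x w i g a0) hgX a
  have hNc := S1_N_compl (S1_X w i) (fun u => g (x u)) (S1_lam x w i g a0) hgX hlam a ha
  have hnp : npos x (update w i a) = ((S1_X w i).filter
      (fun u => 0 < S1_B (fun l => x (w l)) i (x a) (x u))).card := by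
    unfold npos
    congr 1
    ext u
    simp only [mem_filter, mem_univ, true_and]
    rw [S1_snoc_eq]
    constructor
    · intro h
      refine ⟨?_, h⟩
      simp only [S1_X, mem_filter, mem_univ, true_and]
      intro l hl hu
      rw [← hu, S1_rep x w i a l hl] at h
      exact lt_irrefl _ h
    · exact fun h => h.2
  have hform := fun u (hu : u ∈ S1_X w i) => S1_formula x w i g hg0 a0 h00 a u hga (hgX u hu)
  rcases lt_or_gt_of_ne (mul_ne_zero hga h00) with hs | hs
  · -- opposite signs
    have h1 : npos x (update w i a) = ((S1_X w i).filter (fun p => g (x p) *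
        (S1_lam x w i g a0 p - S1_lam x w i g a0 a) < 0)).card := by
      rw [hnp]
      congr 1
      ext u
      simp only [mem_filter]
      refine and_congr_right fun hu => ?_
      have h2 := hform u hu
      set B := S1_B (fun l => x (w l)) i (x a) (x u)
      set F := g (x u) * (S1_lam x w i g a0 u - S1_lam x w i g a0 a)
      have h3 : B * (g (x a0) * g (x a0)) = (g (x a) * g (x a0)) * F := by
        linear_combination (g (x a0)) * h2
      have h4 : 0 < g (x a0) * g (x a0) := mul_self_pos.2 h00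
      constructor
      · intro hB
        have h5 : 0 < (g (x a) * g (x a0)) * F := by rw [← h3]; exact mul_pos hB h4
        exact (neg_iff_neg_of_mul_pos h5).1 hs
      · intro hF
        have h5 : 0 < B * (g (x a0) * g (x a0)) := by rw [h3]; exact mul_pos_of_neg_of_neg hs hF
        exact (pos_iff_pos_of_mul_pos h5).2 h4
    unfold TT
    rw [h1]
    constructor
    · rintro ⟨_, h | h⟩
      · right; omega
      · left; omega
    · rintro (h | h)
      · exact ⟨hinj, Or.inr (by omega)⟩
      · exact ⟨hinj, Or.inl (by omega)⟩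
  · have h1 : npos x (update w i a) = ((S1_X w i).filter (fun p => 0 < g (x p) *
        (S1_lam x w i g a0 p - S1_lam x w i g a0 a))).card := by
      rw [hnp]
      congr 1
      ext u
      simp only [mem_filter]
      refine and_congr_right fun hu => ?_
      have h2 := hform u hu
      set B := S1_B (fun l => x (w l)) i (x a) (x u)
      set F := g (x u) * (S1_lam x w i g a0 u - S1_lam x w i g a0 a)
      have h3 : B * (g (x a0) * g (x a0)) = (g (x a) * g (x a0)) * F := by
        linear_combination (g (x a0)) * h2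
      have h4 : 0 < g (x a0) * g (x a0) := mul_self_pos.2 h00
      constructor
      · intro hB
        have h5 : 0 < (g (x a) * g (x a0)) * F := by rw [← h3]; exact mul_pos hB h4
        exact (pos_iff_pos_of_mul_pos h5).1 hs
      · intro hF
        have h5 : 0 < B * (g (x a0) * g (x a0)) := by rw [h3]; exact mul_pos hs hF
        exact (pos_iff_pos_of_mul_pos h5).2 h4
    unfold TT
    rw [h1, ← hN]
    constructor
    · rintro ⟨_, h⟩; exact h
    · intro h; exact ⟨hinj, h⟩

/-- balance for functionals which do not vanish off the ridge. -/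
theorem S1_bal_ne (x : V → Fin 5 → ℝ) (hgp : GP5 x) (k : ℕ) (w : Fin 4 → V) (i : Fin 4)
    (g : Module.Dual ℝ (Fin 5 → ℝ)) (hg0 : ∀ l, l ≠ i → g (x (w l)) = 0)
    (hgX : ∀ u ∈ S1_X w i, g (x u) ≠ 0) (a0 : V) (ha0 : Injective (update w i a0)) :
    |∑ u, ind (TT x k (update w i u)) * sg (g (x u))| ≤ 2 := by
  have hlam := S1_lam_inj x hgp w i g hg0 hgX a0 ha0
  have hsum : ∑ u, ind (TT x k (update w i u)) * sg (g (x u)) =
      ∑ u ∈ S1_X w i, ind (TT x k (update w i u)) * sg (g (x u)) := by
    symm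
    apply Finset.sum_subset (Finset.subset_univ _)
    intro u _ hu
    rw [ind_false, zero_mul]
    rintro ⟨h1, _⟩
    apply hu
    simp only [S1_X, mem_filter, mem_univ, true_and]
    exact S1_inj_mem w i u h1
  rw [hsum]
  set N := fun a => S1_N (S1_X w i) (fun p => 0 < g (x p)) (S1_lam x w i g a0) a with hN
  have hcongr : ∑ u ∈ S1_X w i, ind (TT x k (update w i u)) * sg (g (x u)) =
      ∑ u ∈ S1_X w i, ind (N u = k ∨ N u + k + 4 = Fintype.card V) * sg (g (x u)) := by
    apply Finset.sum_congr rfl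
    intro u hu
    rw [ind_congr (S1_TT_iff x hgp k w i g hg0 hgX a0 ha0 u hu)]
  rw [hcongr]
  have hw := fun k' => S1_walk (S1_X w i) (fun u => g (x u)) (S1_lam x w i g a0) hgX hlam k'
  by_cases hk : k + 4 ≤ Fintype.card V
  · by_cases hk2 : Fintype.card V - 4 - k = k
    · have h1 : ∑ u ∈ S1_X w i, ind (N u = k ∨ N u + k + 4 = Fintype.card V) * sg (g (x u)) =
          ∑ u ∈ S1_X w i, ind (N u = k) * sg (g (x u)) := by
        apply Finset.sum_congr rfl
        intro u _
        rw [ind_congr (show (N u = k ∨ N u + k + 4 = Fintype.card V) ↔ N u = k by omega)]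
      rw [h1]
      exact (hw k).trans (by norm_num)
    · have h1 : ∑ u ∈ S1_X w i, ind (N u = k ∨ N u + k + 4 = Fintype.card V) * sg (g (x u)) =
          ∑ u ∈ S1_X w i, ind (N u = k) * sg (g (x u)) +
          ∑ u ∈ S1_X w i, ind (N u = Fintype.card V - 4 - k) * sg (g (x u)) := by
        rw [← Finset.sum_add_distrib]
        apply Finset.sum_congr rfl
        intro u _
        rw [← add_mul]
        congr 1
        by_cases h2 : N u = k
        · rw [ind_true (Or.inl h2), ind_true h2, ind_false (by omega)]; ring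
        · by_cases h3 : N u + k + 4 = Fintype.card V
          · rw [ind_true (Or.inr h3), ind_false h2, ind_true (by omega)]; ring
          · rw [ind_false (by tauto), ind_false h2, ind_false (by omega)]; ring
      rw [h1]
      refine (abs_add_le _ _).trans ?_
      linarith [hw k, hw (Fintype.card V - 4 - k)]
  · have h1 : ∑ u ∈ S1_X w i, ind (N u = k ∨ N u + k + 4 = Fintype.card V) * sg (g (x u)) =
        ∑ u ∈ S1_X w i, ind (N u = k) * sg (g (x u)) := by
      apply Finset.sum_congr rfl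
      intro u _
      rw [ind_congr (show (N u = k ∨ N u + k + 4 = Fintype.card V) ↔ N u = k by omega)]
    rw [h1]
    exact (hw k).trans (by norm_num)

/-- balance in general. -/
theorem S1_bal (x : V → Fin 5 → ℝ) (hgp : GP5 x) (hcard : 5 ≤ Fintype.card V) (k : ℕ)
    (w : Fin 4 → V) (i : Fin 4)
    (g : Module.Dual ℝ (Fin 5 → ℝ)) (hg0 : ∀ l, l ≠ i → g (x (w l)) = 0) :
    |∑ u, ind (TT x k (update w i u)) * sg (g (x u))| ≤ 2 := by
  by_cases hex : ∃ a0 : V, Injective (update w i a0)
  swap
  · have : ∑ u, ind (TT x k (update w i u)) * sg (g (x u)) = 0 := by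
      apply Finset.sum_eq_zero
      intro u _
      rw [ind_false (fun h => hex ⟨u, h.1⟩), zero_mul]
    rw [this]; norm_num
  obtain ⟨a0, ha0⟩ := hex
  by_cases hgz : g = 0
  · have : ∑ u, ind (TT x k (update w i u)) * sg (g (x u)) = 0 := by
      apply Finset.sum_eq_zero
      intro u _
      rw [hgz]; simp
    rw [this]; norm_num
  by_cases hall : ∀ u ∈ S1_X w i, g (x u) ≠ 0
  · exact S1_bal_ne x hgp k w i g hg0 hall a0 ha0
  push Not at hall
  obtain ⟨u0, hu0X, hu0⟩ := hall
  have hu0' : ∀ l, l ≠ i → w l ≠ u0 := by simpa [S1_X] using hu0X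
  have hinj0 := S1_inj w i a0 ha0 u0 hu0'
  -- another vertex
  have hcX := S1_card_X w i a0 ha0
  obtain ⟨u1, hu1X, hu01⟩ : ∃ u1 ∈ S1_X w i, u1 ≠ u0 := by
    apply Finset.exists_mem_ne
    omega
  have hu1' : ∀ l, l ≠ i → w l ≠ u1 := by simpa [S1_X] using hu1X
  have hinj1 := S1_inj w i a0 ha0 u1 hu1'
  -- g vanishes only at u0
  have hne : ∀ u ∈ S1_X w i, u ≠ u0 → g (x u) ≠ 0 := by
    intro u hu hne h
    have hu' : ∀ l, l ≠ i → w l ≠ u := by simpa [S1_X] using hu
    have h1 := S1_ne_zero x hgp w i u0 u hinj0 hu' (Ne.symm hne)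
    apply h1
    unfold S1_B
    apply S1_D5_zero _ g hgz
    intro l
    refine Fin.lastCases ?_ (fun l => ?_) l
    · rw [Fin.snoc_last]; exact h
    · rw [Fin.snoc_castSucc]
      by_cases hl : l = i
      · subst hl; rw [update_self]; exact hu0
      · rw [update_of_ne hl]; exact hg0 l hl
  -- the perturbing functional
  set g' : Module.Dual ℝ (Fin 5 → ℝ) := S1_dd (update (fun l => x (w l)) i (x u1)) with hg'
  have hg'e : ∀ z, g' z = S1_B (fun l => x (w l)) i (x u1) z := fun z => S1_dd_apply _ _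
  have hg'0 : ∀ l, l ≠ i → g' (x (w l)) = 0 := fun l hl => by rw [hg'e]; exact S1_rep x w i u1 l hl
  have hg'u0 : g' (x u0) ≠ 0 := by
    rw [hg'e]
    exact S1_ne_zero x hgp w i u1 u0 hinj1 hu0' hu01
  -- epsilon
  obtain ⟨ε, hε, hεs⟩ : ∃ ε : ℝ, 0 < ε ∧ ∀ u ∈ (S1_X w i).erase u0, ε * |g' (x u)| < |g (x u)| := by
    have hpos : ∀ u ∈ (S1_X w i).erase u0, 0 < |g (x u)| / (|g' (x u)| + 1) := by
      intro u hu
      rw [mem_erase] at hu
      have := abs_pos.2 (hne u hu.2 hu.1)
      positivity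
    by_cases hemp : ((S1_X w i).erase u0).Nonempty
    · refine ⟨((S1_X w i).erase u0).inf' hemp (fun u => |g (x u)| / (|g' (x u)| + 1)), ?_, ?_⟩
      · rw [Finset.lt_inf'_iff]; exact hpos
      · intro u hu
        have h1 : ((S1_X w i).erase u0).inf' hemp (fun u => |g (x u)| / (|g' (x u)| + 1)) ≤
            |g (x u)| / (|g' (x u)| + 1) := Finset.inf'_le _ hu
        have h2 := hpos u hu
        have h3 : 0 ≤ |g' (x u)| := abs_nonneg _
        have h4 : |g (x u)| / (|g' (x u)| + 1) * |g' (x u)| < |g (x u)| := by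
          rw [div_mul_eq_mul_div, div_lt_iff₀ (by positivity)]
          have h5 : 0 < |g (x u)| := by
            by_contra h6
            have h7 : |g (x u)| = 0 := le_antisymm (not_lt.1 h6) (abs_nonneg _)
            rw [h7] at h2; simp at h2
          nlinarith
        calc _ ≤ |g (x u)| / (|g' (x u)| + 1) * |g' (x u)| :=
              mul_le_mul_of_nonneg_right h1 h3
          _ < _ := h4
    · refine ⟨1, one_pos, ?_⟩
      intro u hu
      exact absurd ⟨u, hu⟩ hemp
  have hsgn : ∀ (σ : ℝ), |σ| = ε → ∀ u ∈ (S1_X w i).erase u0,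
      sg ((g + σ • g') (x u)) = sg (g (x u)) := by
    intro σ hσ u hu
    have h1 := hεs u hu
    rw [← hσ, ← abs_mul] at h1
    rw [LinearMap.add_apply, LinearMap.smul_apply, smul_eq_mul]
    rcases lt_trichotomy (g (x u)) 0 with h | h | h
    · rw [abs_of_neg h] at h1
      have h2 := (abs_lt.1 h1).2
      rw [sg_neg h, sg_neg (by linarith)]
    · rw [h, abs_zero] at h1
      exact absurd h1 (not_lt.2 (abs_nonneg _))
    · rw [abs_of_pos h] at h1
      have h2 := (abs_lt.1 h1).1
      rw [sg_pos h, sg_pos (by linarith)]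
  have hbal : ∀ σ : ℝ, |σ| = ε →
      |∑ u, ind (TT x k (update w i u)) * sg ((g + σ • g') (x u))| ≤ 2 := by
    intro σ hσ
    apply S1_bal_ne x hgp k w i (g + σ • g') _ _ a0 ha0
    · intro l hl
      rw [LinearMap.add_apply, LinearMap.smul_apply, hg0 l hl, hg'0 l hl]; simp
    · intro u hu
      by_cases h : u = u0
      · rw [h, LinearMap.add_apply, LinearMap.smul_apply, hu0, zero_add, smul_eq_mul]
        apply mul_ne_zero _ hg'u0
        intro h0
        rw [h0, abs_zero] at hσ
        exact hε.ne hσ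
      · have h1 := hsgn σ hσ u (mem_erase.2 ⟨h, hu⟩)
        intro h2
        rw [h2, sg_zero] at h1
        exact hne u hu h ((sg_eq_zero_iff _).1 h1.symm)
  have h1 := hbal ε (abs_of_pos hε)
  have h2 := hbal (-ε) (by rw [abs_neg, abs_of_pos hε])
  have h3 : ∑ u, ind (TT x k (update w i u)) * sg ((g + ε • g') (x u)) +
      ∑ u, ind (TT x k (update w i u)) * sg ((g + (-ε) • g') (x u)) =
      2 * ∑ u, ind (TT x k (update w i u)) * sg (g (x u)) := by
    rw [← Finset.sum_add_distrib, Finset.mul_sum]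
    apply Finset.sum_congr rfl
    intro u _
    by_cases hT : TT x k (update w i u)
    · have huX : u ∈ S1_X w i := by
        simp only [S1_X, mem_filter, mem_univ, true_and]
        exact S1_inj_mem w i u hT.1
      by_cases h : u = u0
      · rw [h, hu0]
        rw [LinearMap.add_apply, LinearMap.add_apply, LinearMap.smul_apply, LinearMap.smul_apply,
          hu0]
        simp only [zero_add, smul_eq_mul, neg_mul, sg_neg_arg, sg_zero]
        ring
      · rw [hsgn ε (abs_of_pos hε) u (mem_erase.2 ⟨h, huX⟩),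
          hsgn (-ε) (by rw [abs_neg, abs_of_pos hε]) u (mem_erase.2 ⟨h, huX⟩)]
        ring
    · rw [ind_false hT]; ring
  have h4 := (abs_add_le (∑ u, ind (TT x k (update w i u)) * sg ((g + ε • g') (x u)))
    (∑ u, ind (TT x k (update w i u)) * sg ((g + (-ε) • g') (x u))))
  rw [h3, abs_mul, abs_of_pos (by norm_num : (0 : ℝ) < 2)] at h4
  linarith

theorem S1_li (x : V → Fin 5 → ℝ) (hgp : GP5 x) (v : Fin 5 → V) (hv : Injective v) :
    LinearIndependent ℝ (fun i => x (v i)) := by
  have h := hgp v hv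
  have hli : LinearIndependent ℝ (Matrix.of (fun i => x (v i))).row := by
    rw [Matrix.linearIndependent_rows_iff_isUnit]
    exact (Matrix.isUnit_iff_isUnit_det _).2 (isUnit_iff_ne_zero.2 h)
  exact hli

theorem S1_gp (x : V → Fin 5 → ℝ) (hgp : GP5 x) (hcard : 5 ≤ Fintype.card V) (s : ℕ)
    (hs : s ≤ 5) (v : Fin s → V) (hv : Injective v) :
    LinearIndependent ℝ (fun i => x (v i)) := by
  have h1 : (univ.image v).card = s := by
    rw [Finset.card_image_of_injective _ hv]; simp
  obtain ⟨S, hS1, hS2⟩ := Finset.exists_superset_card_eq (s := univ.image v) (n := 5)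
    (by rw [h1]; exact hs) hcard
  let e := S.equivFinOfCardEq hS2
  have hli := S1_li x hgp (fun i => ((e.symm i : S) : V))
    (fun a b hab => e.symm.injective (Subtype.ext hab))
  have hmem : ∀ i, v i ∈ S := fun i => hS1 (mem_image.2 ⟨i, mem_univ _, rfl⟩)
  have h2 := hli.comp (fun i => e ⟨v i, hmem i⟩) (by
    intro a b hab
    have := e.injective hab
    exact hv (by simpa using this))
  have h3 : (fun i => x (v i)) = (fun i => x ((e.symm i : S) : V)) ∘ (fun i => e ⟨v i, hmem i⟩) := by
    funext i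
    simp
  rw [h3]; exact h2

/-- extension of a permutation of `Fin 4` to `Fin 5` fixing the last element. -/
noncomputable def S1_ext (σ : Equiv.Perm (Fin 4)) : Equiv.Perm (Fin 5) :=
  σ.viaFintypeEmbedding Fin.castSuccEmb

theorem S1_ext_castSucc (σ : Equiv.Perm (Fin 4)) (i : Fin 4) :
    S1_ext σ i.castSucc = (σ i).castSucc :=
  Equiv.Perm.viaFintypeEmbedding_apply_image σ Fin.castSuccEmb i

theorem S1_ext_last (σ : Equiv.Perm (Fin 4)) : S1_ext σ (Fin.last 4) = Fin.last 4 := by
  apply Equiv.Perm.viaFintypeEmbedding_apply_notMem_range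
  rintro ⟨i, hi⟩
  exact S1_ne i hi

theorem S1_perm_D5 (p : Fin 4 → Fin 5 → ℝ) (σ : Equiv.Perm (Fin 4)) (z : Fin 5 → ℝ) :
    D5 (Fin.snoc (fun i => p (σ i)) z) =
      ((Equiv.Perm.sign (S1_ext σ) : ℤ) : ℝ) * D5 (Fin.snoc p z) := by
  have h1 : (Fin.snoc (fun i => p (σ i)) z : Fin 5 → Fin 5 → ℝ) =
      (Fin.snoc p z : Fin 5 → Fin 5 → ℝ) ∘ ⇑(S1_ext σ) := by
    funext l
    rw [Function.comp_apply]
    refine Fin.lastCases ?_ (fun l => ?_) l
    · rw [S1_ext_last, Fin.snoc_last, Fin.snoc_last]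
    · rw [S1_ext_castSucc, Fin.snoc_castSucc, Fin.snoc_castSucc]
  rw [h1, S1_D5_eq, S1_D5_eq, AlternatingMap.map_perm]
  rw [Units.smul_def, zsmul_eq_mul]

theorem S1_zero_iff (x : V → Fin 5 → ℝ) (hgp : GP5 x) (v : Fin 4 → V) (hv : Injective v) (u : V) :
    D5 (Fin.snoc (fun i => x (v i)) (x u)) = 0 ↔ u ∈ univ.image v := by
  constructor
  · intro h
    by_contra hu
    have h1 : Injective (Fin.snoc v u : Fin 5 → V) := by
      rw [Fin.snoc_injective_iff]
      refine ⟨hv, ?_⟩
      rintro ⟨l, hl⟩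
      exact hu (mem_image.2 ⟨l, mem_univ _, hl⟩)
    apply hgp _ h1
    have h3 : (fun l : Fin 5 => x ((Fin.snoc v u : Fin 5 → V) l)) =
        (Fin.snoc (fun l => x (v l)) (x u) : Fin 5 → Fin 5 → ℝ) := by
      funext l
      refine Fin.lastCases ?_ (fun l => ?_) l
      · rw [Fin.snoc_last, Fin.snoc_last]
      · rw [Fin.snoc_castSucc, Fin.snoc_castSucc]
    rw [h3]; exact h
  · intro h
    obtain ⟨l, _, hl⟩ := mem_image.1 h
    rw [S1_D5_eq]
    refine AlternatingMap.map_eq_zero_of_eq _ _ (i := l.castSucc) (j := Fin.last 4) ?_ (S1_ne l)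
    rw [Fin.snoc_last, Fin.snoc_castSucc, hl]

theorem S1_neg_count (x : V → Fin 5 → ℝ) (hgp : GP5 x) (v : Fin 4 → V) (hv : Injective v) :
    (univ.filter (fun u : V => D5 (Fin.snoc (fun i => x (v i)) (x u)) < 0)).card +
      npos x v + 4 = Fintype.card V := by
  have h1 : (univ : Finset V) = (univ.image v) ∪
      ((univ.filter (fun u : V => D5 (Fin.snoc (fun i => x (v i)) (x u)) < 0)) ∪
       (univ.filter (fun u : V => 0 < D5 (Fin.snoc (fun i => x (v i)) (x u))))) := by
    ext u
    simp only [mem_univ, mem_union, mem_filter, true_and, true_iff]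
    rcases lt_trichotomy (D5 (Fin.snoc (fun i => x (v i)) (x u))) 0 with h | h | h
    · right; left; exact h
    · left; exact (S1_zero_iff x hgp v hv u).1 h
    · right; right; exact h
  have h2 : Disjoint (univ.filter (fun u : V => D5 (Fin.snoc (fun i => x (v i)) (x u)) < 0))
      (univ.filter (fun u : V => 0 < D5 (Fin.snoc (fun i => x (v i)) (x u)))) := by
    rw [Finset.disjoint_left]
    intro p h4 h5
    rw [mem_filter] at h4 h5
    exact lt_asymm h4.2 h5.2
  have h3 : Disjoint (univ.image v)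
      ((univ.filter (fun u : V => D5 (Fin.snoc (fun i => x (v i)) (x u)) < 0)) ∪
       (univ.filter (fun u : V => 0 < D5 (Fin.snoc (fun i => x (v i)) (x u))))) := by
    rw [Finset.disjoint_left]
    intro u hu hu2
    have hz := (S1_zero_iff x hgp v hv u).2 hu
    simp only [mem_union, mem_filter, mem_univ, true_and] at hu2
    rcases hu2 with h | h
    · rw [hz] at h; exact lt_irrefl _ h
    · rw [hz] at h; exact lt_irrefl _ h
  have h4 : (univ : Finset V).card = 4 +
      ((univ.filter (fun u : V => D5 (Fin.snoc (fun i => x (v i)) (x u)) < 0)).card +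
       (univ.filter (fun u : V => 0 < D5 (Fin.snoc (fun i => x (v i)) (x u)))).card) := by
    conv_lhs => rw [h1]
    rw [Finset.card_union_of_disjoint h3, Finset.card_union_of_disjoint h2,
      Finset.card_image_of_injective _ hv]
    simp
  rw [Finset.card_univ] at h4
  unfold npos
  omega

theorem S1_perm (x : V → Fin 5 → ℝ) (hgp : GP5 x) (k : ℕ) (v : Fin 4 → V)
    (σ : Equiv.Perm (Fin 4)) (h : TT x k v) : TT x k (fun i => v (σ i)) := by
  have hinj : Injective (fun i => v (σ i)) := h.1.comp σ.injective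
  refine ⟨hinj, ?_⟩
  have hD := fun z => S1_perm_D5 (fun i => x (v i)) σ z
  rcases Int.units_eq_one_or (Equiv.Perm.sign (S1_ext σ)) with hs | hs
  · have h1 : npos x (fun i => v (σ i)) = npos x v := by
      unfold npos
      congr 1
      ext u
      simp only [mem_filter, mem_univ, true_and]
      rw [hD (x u), hs]; simp
    rw [h1]; exact h.2
  · have h1 : npos x (fun i => v (σ i)) =
        (univ.filter (fun u : V => D5 (Fin.snoc (fun i => x (v i)) (x u)) < 0)).card := by
      unfold npos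
      congr 1
      ext u
      simp only [mem_filter, mem_univ, true_and]
      rw [hD (x u), hs]; simp
    have h2 := S1_neg_count x hgp v h.1
    rw [h1]
    rcases h.2 with h3 | h3
    · right; omega
    · left; omega

end

theorem sys5 {V : Type} [Fintype V] (x : V → Fin 5 → ℝ) (hgp : GP5 x)
    (hcard : 5 ≤ Fintype.card V) (k : ℕ) : Sys 4 x (TT x k) where
  rank := by simp
  gp := fun s hs v hv => S1_gp x hgp hcard s hs v hv
  inj := fun _ h => h.1
  perm := fun v σ h => S1_perm x hgp k v σ h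
  bal := fun w i g hg => S1_bal x hgp hcard k w i g hg

end KS37
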