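import Pool.Agent.LibKS37.R5

/-!
# KS37 row S2: density of (G2) for one nine-tuple (helper37)
-/

open Finset Function
open scoped Classical

namespace KS37

/-- polynomial whose non-vanishing gives (G2) for one tuple of vertices. -/
noncomputable def P2f {V : Type} (x : V → Fin 5 → ℝ) (a : V) (R : Fin 2 → V) (B B' : Fin 3 → V) :
    ℝ :=
  D5 ![x a, x (R 1), x (B 0), x (B 1), x (B 2)] * D5 ![x a, x (R 0), x (B' 0), x (B' 1), x (B' 2)] -
  D5 ![x a, x (R 0), x (B 0), x (B 1), x (B 2)] * D5 ![x a, x (R 1), x (B' 0), x (B' 1), x (B' 2)]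

theorem dens {V : Type} [Fintype V] (F : (V → Fin 5 → ℝ) → ℝ)
    (hF : ∀ x y : V → Fin 5 → ℝ, ∃ p : Polynomial ℝ, ∀ t : ℝ, F (x + t • y) = p.eval t)
    (x1 : V → Fin 5 → ℝ) (h1 : F x1 ≠ 0) : Dense {x | F x ≠ 0} := by
  intro x
  obtain ⟨p, hp⟩ := hF x (x1 - x)
  have hp0 : p ≠ 0 := by
    intro h0
    apply h1
    have := hp 1
    rw [one_smul, add_sub_cancel, h0, Polynomial.eval_zero] at this
    exact this
  have hd : Dense {t : ℝ | p.eval t ≠ 0} := by
    have hfin : {t : ℝ | p.eval t = 0}.Finite := by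
      have : {t : ℝ | p.eval t = 0} = (p.roots.toFinset : Set ℝ) := by
        ext t
        simp [Polynomial.mem_roots hp0]
      rw [this]; exact Finset.finite_toSet _
    have h2 : {t : ℝ | p.eval t ≠ 0} = {t : ℝ | p.eval t = 0}ᶜ := by
      ext t; simp
    rw [h2]
    exact hfin.countable.dense_compl ℝ
  have hc : Continuous (fun t : ℝ => x + t • (x1 - x)) := by fun_prop
  have h0 : (0 : ℝ) ∈ closure {t : ℝ | p.eval t ≠ 0} := hd 0
  have h3 := image_closure_subset_closure_image hc (Set.mem_image_of_mem _ h0)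
  have h4 : (fun t : ℝ => x + t • (x1 - x)) '' {t : ℝ | p.eval t ≠ 0} ⊆ {x | F x ≠ 0} := by
    rintro _ ⟨t, ht, rfl⟩
    show F (x + t • (x1 - x)) ≠ 0
    rw [hp t]; exact ht
  have h5 := closure_mono h4 h3
  simpa using h5

theorem D5_poly (M N : Fin 5 → Fin 5 → ℝ) :
    ∃ p : Polynomial ℝ, ∀ t : ℝ, D5 (M + t • N) = p.eval t := by
  refine ⟨Matrix.det (Matrix.of (fun i j => Polynomial.C (M i j) +
    Polynomial.X * Polynomial.C (N i j))), fun t => ?_⟩
  rw [← Polynomial.coe_evalRingHom, RingHom.map_det]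
  unfold D5
  congr 1
  ext i j
  simp
  ring

theorem S2_contg {n : ℕ} {X : Type} [TopologicalSpace X] (w : X → Fin n → Fin n → ℝ)
    (h : Continuous w) : Continuous (fun x => Matrix.det (Matrix.of (w x))) := by
  apply Continuous.matrix_det
  exact h

theorem S2_cont {V : Type} [Fintype V] (a b c d e : V) :
    Continuous (fun x : V → Fin 5 → ℝ => D5 ![x a, x b, x c, x d, x e]) := by
  unfold D5
  apply S2_contg
  refine continuous_pi fun i => ?_
  fin_cases i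
  · exact continuous_apply a
  · exact continuous_apply b
  · exact continuous_apply c
  · exact continuous_apply d
  · exact continuous_apply e

theorem S2_poly {V : Type} (a b c d e : V) (x y : V → Fin 5 → ℝ) :
    ∃ p : Polynomial ℝ, ∀ t : ℝ, D5 ![(x + t • y) a, (x + t • y) b, (x + t • y) c, (x + t • y) d,
      (x + t • y) e] = p.eval t := by
  obtain ⟨p, hp⟩ := D5_poly ![x a, x b, x c, x d, x e] ![y a, y b, y c, y d, y e]
  refine ⟨p, fun t => ?_⟩
  rw [← hp t]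
  congr 1
  funext i
  fin_cases i <;> rfl

theorem P2f_open {V : Type} [Fintype V] (a : V) (R : Fin 2 → V) (B B' : Fin 3 → V) :
    IsOpen {x : V → Fin 5 → ℝ | P2f x a R B B' ≠ 0} := by
  have hc : Continuous (fun x : V → Fin 5 → ℝ => P2f x a R B B') := by
    unfold P2f
    exact ((S2_cont _ _ _ _ _).mul (S2_cont _ _ _ _ _)).sub
      ((S2_cont _ _ _ _ _).mul (S2_cont _ _ _ _ _))
  exact isOpen_ne_fun hc continuous_const

/-- standard basis vectors. -/
def S2_E : Fin 5 → Fin 5 → ℝ :=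
  ![![1, 0, 0, 0, 0], ![0, 1, 0, 0, 0], ![0, 0, 1, 0, 0], ![0, 0, 0, 1, 0], ![0, 0, 0, 0, 1]]

theorem S2_det1 : D5 ![S2_E 0, S2_E 2, S2_E 1, S2_E 3, S2_E 4] = -1 := by
  have h : D5 ![S2_E 0, S2_E 2, S2_E 1, S2_E 3, S2_E 4] =
    Matrix.det !![1,0,0,0,0;0,0,1,0,0;0,1,0,0,0;0,0,0,1,0;0,0,0,0,(1:ℝ)] := rfl
  rw [h]
  simp [Matrix.det_succ_row_zero, Fin.sum_univ_succ, Fin.succAbove]

theorem S2_det2 : D5 ![S2_E 0, S2_E 1, S2_E 2, S2_E 3, S2_E 4] = 1 := by
  have h : D5 ![S2_E 0, S2_E 1, S2_E 2, S2_E 3, S2_E 4] =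
    Matrix.det !![1,0,0,0,0;0,1,0,0,0;0,0,1,0,0;0,0,0,1,0;0,0,0,0,(1:ℝ)] := rfl
  rw [h]
  simp [Matrix.det_succ_row_zero, Fin.sum_univ_succ, Fin.succAbove]

theorem S2_det3 : D5 ![S2_E 0, S2_E 1, S2_E 1, S2_E 3, S2_E 4] = 0 := by
  unfold D5
  exact Matrix.det_zero_of_row_eq (i := 1) (j := 2) (by decide) rfl

theorem P2f_dense {V : Type} [Fintype V] (a : V) (R : Fin 2 → V) (B B' : Fin 3 → V)
    (hR : Injective R) (hB : Injective B) (hB' : Injective B') (h1 : Disj R B)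
    (h2 : Disj R B') (h3 : Disj B B') (ha : ∀ i, R i ≠ a) (hb : ∀ i, B i ≠ a)
    (hb' : ∀ i, B' i ≠ a) : Dense {x : V → Fin 5 → ℝ | P2f x a R B B' ≠ 0} := by
  have hR01 : R 1 ≠ R 0 := fun h => absurd (hR h) (by decide)
  have hB01 : B 1 ≠ B 0 := fun h => absurd (hB h) (by decide)
  have hB02 : B 2 ≠ B 0 := fun h => absurd (hB h) (by decide)
  have hB12 : B 2 ≠ B 1 := fun h => absurd (hB h) (by decide)
  have hB01' : B' 1 ≠ B' 0 := fun h => absurd (hB' h) (by decide)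
  have hB02' : B' 2 ≠ B' 0 := fun h => absurd (hB' h) (by decide)
  have hB12' : B' 2 ≠ B' 1 := fun h => absurd (hB' h) (by decide)
  let x1 : V → Fin 5 → ℝ := fun v =>
    if v = a then S2_E 0 else if v = R 0 then S2_E 1 else if v = R 1 then S2_E 2
    else if v = B 0 then S2_E 1 else if v = B 1 then S2_E 3 else if v = B 2 then S2_E 4
    else if v = B' 0 then S2_E 2 else if v = B' 1 then S2_E 3 else if v = B' 2 then S2_E 4
    else 0
  have e0 : x1 a = S2_E 0 := by simp [x1]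
  have e1 : x1 (R 0) = S2_E 1 := by simp [x1, ha]
  have e2 : x1 (R 1) = S2_E 2 := by simp [x1, ha, hR01]
  have e3 : x1 (B 0) = S2_E 1 := by simp [x1, hb, (h1 _ _).symm]
  have e4 : x1 (B 1) = S2_E 3 := by simp [x1, hb, (h1 _ _).symm, hB01]
  have e5 : x1 (B 2) = S2_E 4 := by simp [x1, hb, (h1 _ _).symm, hB02, hB12]
  have e6 : x1 (B' 0) = S2_E 2 := by simp [x1, hb', (h2 _ _).symm, (h3 _ _).symm]
  have e7 : x1 (B' 1) = S2_E 3 := by simp [x1, hb', (h2 _ _).symm, (h3 _ _).symm, hB01']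
  have e8 : x1 (B' 2) = S2_E 4 := by simp [x1, hb', (h2 _ _).symm, (h3 _ _).symm, hB02', hB12']
  apply dens (fun x => P2f x a R B B') _ x1
  · show P2f x1 a R B B' ≠ 0
    unfold P2f
    rw [e0, e1, e2, e3, e4, e5, e6, e7, e8, S2_det1, S2_det2, S2_det3]
    norm_num
  · intro x y
    obtain ⟨p1, hp1⟩ := S2_poly a (R 1) (B 0) (B 1) (B 2) x y
    obtain ⟨p2, hp2⟩ := S2_poly a (R 0) (B' 0) (B' 1) (B' 2) x y
    obtain ⟨p3, hp3⟩ := S2_poly a (R 0) (B 0) (B 1) (B 2) x y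
    obtain ⟨p4, hp4⟩ := S2_poly a (R 1) (B' 0) (B' 1) (B' 2) x y
    refine ⟨p1 * p2 - p3 * p4, fun t => ?_⟩
    show P2f (x + t • y) a R B B' = _
    unfold P2f
    rw [hp1, hp2, hp3, hp4]
    simp

end KS37
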