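import Pool.Agent.LibKS37.S2

/-!
# KS37 row S2b: P2f ≠ 0 implies (G2) for the tuple, in the link of a
See the header of S2 (`g2_of_ne`).
-/

open Finset Function
open scoped Classical

namespace KS37

private noncomputable def S2b_L (m : Fin 5 → Fin 5 → ℝ) : (Fin 5 → ℝ) →ₗ[ℝ] ℝ :=
  (Matrix.detRowAlternating (n := Fin 5) (R := ℝ)).toMultilinearMap.toLinearMap m 1

private theorem S2b_L_apply (m : Fin 5 → Fin 5 → ℝ) (z : Fin 5 → ℝ) :
    S2b_L m z = D5 (update m 1 z) := by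
  unfold S2b_L D5
  rw [MultilinearMap.toLinearMap_apply, AlternatingMap.coe_multilinearMap]
  have h : ∀ w : Fin 5 → Fin 5 → ℝ, Matrix.detRowAlternating w = (Matrix.of w).det :=
    fun w => congrArg (fun w : Fin 5 → Fin 5 → ℝ => Matrix.detRowAlternating w) rfl
  rw [← h]

private theorem S2b_zero (m : Fin 5 → Fin 5 → ℝ) (i j : Fin 5) (hij : i ≠ j) (h : m i = m j) :
    D5 m = 0 := by
  unfold D5
  exact Matrix.det_zero_of_row_eq hij h

private theorem S2b_lin (a b0 b1 b2 : Fin 5 → ℝ) : ∃ L : (Fin 5 → ℝ) →ₗ[ℝ] ℝ,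
    (∀ z, L z = D5 ![a, z, b0, b1, b2]) ∧ L a = 0 ∧ L b0 = 0 ∧ L b1 = 0 ∧ L b2 = 0 := by
  have hu : ∀ z : Fin 5 → ℝ, update ![a, 0, b0, b1, b2] 1 z = ![a, z, b0, b1, b2] := by
    intro z
    funext i
    fin_cases i <;> rfl
  have hL : ∀ z : Fin 5 → ℝ, S2b_L ![a, 0, b0, b1, b2] z = D5 ![a, z, b0, b1, b2] := by
    intro z
    rw [S2b_L_apply, hu]
  refine ⟨S2b_L ![a, 0, b0, b1, b2], hL, ?_, ?_, ?_, ?_⟩
  · rw [hL]; exact S2b_zero _ 0 1 (by decide) rfl
  · rw [hL]; exact S2b_zero _ 1 2 (by decide) rfl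
  · rw [hL]; exact S2b_zero _ 1 3 (by decide) rfl
  · rw [hL]; exact S2b_zero _ 1 4 (by decide) rfl

/-- a functional on the link space, zero on the span of `B`. -/
private theorem S2b_fun {V : Type} (x : V → Fin 5 → ℝ) (a : V) (B : Fin 3 → LV a) :
    ∃ L : LE x a →ₗ[ℝ] ℝ,
      (∀ v : LV a, L (lx x a v) = D5 ![x a, x v.1, x (B 0).1, x (B 1).1, x (B 2).1]) ∧
      ∀ y ∈ sp (lx x a) B, L y = 0 := by
  obtain ⟨L, hL, h0, h1, h2, h3⟩ := S2b_lin (x a) (x (B 0).1) (x (B 1).1) (x (B 2).1)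
  have hk : Submodule.span ℝ {x a} ≤ LinearMap.ker L := by
    rw [Submodule.span_le, Set.singleton_subset_iff]
    exact h0
  refine ⟨(Submodule.span ℝ {x a}).liftQ L hk, fun v => ?_, fun y hy => ?_⟩
  · rw [← hL]
    exact Submodule.liftQ_apply _ _ _
  · have h4 : sp (lx x a) B ≤ LinearMap.ker ((Submodule.span ℝ {x a}).liftQ L hk) := by
      unfold sp
      rw [Submodule.span_le]
      rintro _ ⟨i, rfl⟩
      have h5 : (Submodule.span ℝ {x a}).liftQ L hk (lx x a (B i)) = L (x (B i).1) :=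
        Submodule.liftQ_apply _ _ _
      show (Submodule.span ℝ {x a}).liftQ L hk (lx x a (B i)) = 0
      rw [h5]
      fin_cases i
      · exact h1
      · exact h2
      · exact h3
    exact h4 hy

theorem g2_of_ne {V : Type} [Fintype V] (x : V → Fin 5 → ℝ) (hgp : GP5 x) (a : V)
    (R : Fin 2 → LV a) (B B' : Fin 3 → LV a)
    (hR : Injective R) (hB : Injective B) (hB' : Injective B') (h1 : Disj R B)
    (h2 : Disj R B') (h3 : Disj B B')
    (h : P2f x a (fun i => (R i).1) (fun i => (B i).1) (fun i => (B' i).1) ≠ 0) :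
    sp (lx x a) R ⊓ sp (lx x a) B ⊓ sp (lx x a) B' = ⊥ := by
  rw [eq_bot_iff]
  rintro y ⟨⟨hyR, hyB⟩, hyB'⟩
  obtain ⟨L, hL, hL0⟩ := S2b_fun x a B
  obtain ⟨M, hM, hM0⟩ := S2b_fun x a B'
  obtain ⟨c, hc⟩ := (Submodule.mem_span_range_iff_exists_fun ℝ).1 hyR
  rw [Fin.sum_univ_two] at hc
  have e1 := hL0 y hyB
  have e2 := hM0 y hyB'
  rw [← hc, map_add, map_smul, map_smul, hL, hL, smul_eq_mul, smul_eq_mul] at e1
  rw [← hc, map_add, map_smul, map_smul, hM, hM, smul_eq_mul, smul_eq_mul] at e2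
  unfold P2f at h
  set p := D5 ![x a, x (R 0).1, x (B 0).1, x (B 1).1, x (B 2).1]
  set q := D5 ![x a, x (R 1).1, x (B 0).1, x (B 1).1, x (B 2).1]
  set p' := D5 ![x a, x (R 0).1, x (B' 0).1, x (B' 1).1, x (B' 2).1]
  set q' := D5 ![x a, x (R 1).1, x (B' 0).1, x (B' 1).1, x (B' 2).1]
  have h0 : c 0 * (q * p' - p * q') = 0 := by linear_combination q * e2 - q' * e1
  have h1' : c 1 * (q * p' - p * q') = 0 := by linear_combination p' * e1 - p * e2
  have z0 : c 0 = 0 := (mul_eq_zero.1 h0).resolve_right h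
  have z1 : c 1 = 0 := (mul_eq_zero.1 h1').resolve_right h
  rw [Submodule.mem_bot, ← hc, z0, z1, zero_smul, zero_smul, add_zero]

end KS37
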