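import Pool.Agent.LibKS37.S2

/-!
# KS37 row S3: (G3) for one ten-tuple (helper37)
-/

open Finset Function
open scoped Classical

namespace KS37

/-- polynomial whose non-vanishing gives (G3) for one tuple of vertices. -/
noncomputable def P3f {V : Type} (x : V → Fin 5 → ℝ) (a : V) (B1 B2 B3 : Fin 3 → V) : ℝ :=
  D5 ![x (B1 1), x (B1 2), x (B2 0), x (B2 1), x (B2 2)] *
      D5 ![x (B1 0), x a, x (B3 0), x (B3 1), x (B3 2)] -
    D5 ![x (B1 0), x (B1 2), x (B2 0), x (B2 1), x (B2 2)] *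
      D5 ![x (B1 1), x a, x (B3 0), x (B3 1), x (B3 2)] +
    D5 ![x (B1 0), x (B1 1), x (B2 0), x (B2 1), x (B2 2)] *
      D5 ![x (B1 2), x a, x (B3 0), x (B3 1), x (B3 2)]

theorem P3f_open {V : Type} [Fintype V] (a : V) (B1 B2 B3 : Fin 3 → V) :
    IsOpen {x : V → Fin 5 → ℝ | P3f x a B1 B2 B3 ≠ 0} := by
  have hc : Continuous (fun x : V → Fin 5 → ℝ => P3f x a B1 B2 B3) := by
    unfold P3f
    exact (((S2_cont _ _ _ _ _).mul (S2_cont _ _ _ _ _)).sub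
      ((S2_cont _ _ _ _ _).mul (S2_cont _ _ _ _ _))).add
      ((S2_cont _ _ _ _ _).mul (S2_cont _ _ _ _ _))
  exact isOpen_ne_fun hc continuous_const

theorem S3_det1 : D5 ![S2_E 1, S2_E 2, S2_E 2, S2_E 3, S2_E 4] = 0 := by
  unfold D5
  exact Matrix.det_zero_of_row_eq (i := 1) (j := 2) (by decide) rfl

theorem S3_det2 : D5 ![S2_E 0, S2_E 2, S2_E 2, S2_E 3, S2_E 4] = 0 := by
  unfold D5
  exact Matrix.det_zero_of_row_eq (i := 1) (j := 2) (by decide) rfl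

theorem S3_det3 : D5 ![S2_E 2, S2_E 4, S2_E 0, S2_E 1, S2_E 3] = -1 := by
  have h : D5 ![S2_E 2, S2_E 4, S2_E 0, S2_E 1, S2_E 3] =
    Matrix.det !![0,0,1,0,0;0,0,0,0,1;1,0,0,0,0;0,1,0,0,0;0,0,0,1,(0:ℝ)] := rfl
  rw [h]
  simp [Matrix.det_succ_row_zero, Fin.sum_univ_succ, Fin.succAbove]
  norm_num

theorem P3f_dense {V : Type} [Fintype V] (a : V) (B1 B2 B3 : Fin 3 → V)
    (hB1 : Injective B1) (hB2 : Injective B2) (hB3 : Injective B3) (h1 : Disj B1 B2)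
    (h2 : Disj B1 B3) (h3 : Disj B2 B3) (ha : ∀ i, B1 i ≠ a) (hb : ∀ i, B2 i ≠ a)
    (hc : ∀ i, B3 i ≠ a) : Dense {x : V → Fin 5 → ℝ | P3f x a B1 B2 B3 ≠ 0} := by
  have k10 : B1 1 ≠ B1 0 := fun h => absurd (hB1 h) (by decide)
  have k20 : B1 2 ≠ B1 0 := fun h => absurd (hB1 h) (by decide)
  have k21 : B1 2 ≠ B1 1 := fun h => absurd (hB1 h) (by decide)
  have l10 : B2 1 ≠ B2 0 := fun h => absurd (hB2 h) (by decide)
  have l20 : B2 2 ≠ B2 0 := fun h => absurd (hB2 h) (by decide)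
  have l21 : B2 2 ≠ B2 1 := fun h => absurd (hB2 h) (by decide)
  have m10 : B3 1 ≠ B3 0 := fun h => absurd (hB3 h) (by decide)
  have m20 : B3 2 ≠ B3 0 := fun h => absurd (hB3 h) (by decide)
  have m21 : B3 2 ≠ B3 1 := fun h => absurd (hB3 h) (by decide)
  let x1 : V → Fin 5 → ℝ := fun v =>
    if v = a then S2_E 4 else if v = B1 0 then S2_E 0 else if v = B1 1 then S2_E 1
    else if v = B1 2 then S2_E 2 else if v = B2 0 then S2_E 2 else if v = B2 1 then S2_E 3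
    else if v = B2 2 then S2_E 4 else if v = B3 0 then S2_E 0 else if v = B3 1 then S2_E 1
    else if v = B3 2 then S2_E 3 else 0
  have e0 : x1 a = S2_E 4 := by simp [x1]
  have e1 : x1 (B1 0) = S2_E 0 := by simp [x1, ha]
  have e2 : x1 (B1 1) = S2_E 1 := by simp [x1, ha, k10]
  have e3 : x1 (B1 2) = S2_E 2 := by simp [x1, ha, k20, k21]
  have e4 : x1 (B2 0) = S2_E 2 := by simp [x1, hb, (h1 _ _).symm]
  have e5 : x1 (B2 1) = S2_E 3 := by simp [x1, hb, (h1 _ _).symm, l10]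
  have e6 : x1 (B2 2) = S2_E 4 := by simp [x1, hb, (h1 _ _).symm, l20, l21]
  have e7 : x1 (B3 0) = S2_E 0 := by simp [x1, hc, (h2 _ _).symm, (h3 _ _).symm]
  have e8 : x1 (B3 1) = S2_E 1 := by simp [x1, hc, (h2 _ _).symm, (h3 _ _).symm, m10]
  have e9 : x1 (B3 2) = S2_E 3 := by simp [x1, hc, (h2 _ _).symm, (h3 _ _).symm, m20, m21]
  apply dens (fun x => P3f x a B1 B2 B3) _ x1
  · show P3f x1 a B1 B2 B3 ≠ 0
    unfold P3f
    rw [e0, e1, e2, e3, e4, e5, e6, e7, e8, e9, S3_det1, S3_det2, S3_det3, S2_det2]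
    norm_num
  · intro x y
    obtain ⟨p1, hp1⟩ := S2_poly (B1 1) (B1 2) (B2 0) (B2 1) (B2 2) x y
    obtain ⟨p2, hp2⟩ := S2_poly (B1 0) a (B3 0) (B3 1) (B3 2) x y
    obtain ⟨p3, hp3⟩ := S2_poly (B1 0) (B1 2) (B2 0) (B2 1) (B2 2) x y
    obtain ⟨p4, hp4⟩ := S2_poly (B1 1) a (B3 0) (B3 1) (B3 2) x y
    obtain ⟨p5, hp5⟩ := S2_poly (B1 0) (B1 1) (B2 0) (B2 1) (B2 2) x y
    obtain ⟨p6, hp6⟩ := S2_poly (B1 2) a (B3 0) (B3 1) (B3 2) x y
    refine ⟨p1 * p2 - p3 * p4 + p5 * p6, fun t => ?_⟩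
    show P3f (x + t • y) a B1 B2 B3 = _
    unfold P3f
    rw [hp1, hp2, hp3, hp4, hp5, hp6]
    simp

end KS37
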