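import Pool.Agent.LibKS37.S3

/-!
# KS37 row S3b: P3f ≠ 0 implies (G3) for the tuple (helper37)
-/

open Finset Function
open scoped Classical

namespace KS37

noncomputable def S3b_L (m : Fin 5 → Fin 5 → ℝ) : (Fin 5 → ℝ) →ₗ[ℝ] ℝ :=
  (Matrix.detRowAlternating (n := Fin 5) (R := ℝ)).toMultilinearMap.toLinearMap m 0

theorem S3b_L_apply (m : Fin 5 → Fin 5 → ℝ) (z : Fin 5 → ℝ) :
    S3b_L m z = D5 (update m 0 z) := by
  unfold S3b_L D5
  rw [MultilinearMap.toLinearMap_apply, AlternatingMap.coe_multilinearMap]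
  have h : ∀ w : Fin 5 → Fin 5 → ℝ, Matrix.detRowAlternating w = (Matrix.of w).det :=
    fun w => congrArg (fun w : Fin 5 → Fin 5 → ℝ => Matrix.detRowAlternating w) rfl
  rw [← h]

theorem S3b_zero (m : Fin 5 → Fin 5 → ℝ) (i j : Fin 5) (hij : i ≠ j) (h : m i = m j) :
    D5 m = 0 := by
  unfold D5
  exact Matrix.det_zero_of_row_eq hij h

/-- first row as a functional. -/
theorem S3b_lin (b0 b1 b2 b3 : Fin 5 → ℝ) : ∃ L : (Fin 5 → ℝ) →ₗ[ℝ] ℝ,
    (∀ z, L z = D5 ![z, b0, b1, b2, b3]) ∧ L b0 = 0 ∧ L b1 = 0 ∧ L b2 = 0 ∧ L b3 = 0 := by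
  have hu : ∀ z : Fin 5 → ℝ, update ![0, b0, b1, b2, b3] 0 z = ![z, b0, b1, b2, b3] := by
    intro z
    funext i
    fin_cases i <;> rfl
  have hL : ∀ z : Fin 5 → ℝ, S3b_L ![0, b0, b1, b2, b3] z = D5 ![z, b0, b1, b2, b3] := by
    intro z
    rw [S3b_L_apply, hu]
  refine ⟨S3b_L ![0, b0, b1, b2, b3], hL, ?_, ?_, ?_, ?_⟩
  · rw [hL]; exact S3b_zero _ 0 1 (by decide) rfl
  · rw [hL]; exact S3b_zero _ 0 2 (by decide) rfl
  · rw [hL]; exact S3b_zero _ 0 3 (by decide) rfl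
  · rw [hL]; exact S3b_zero _ 0 4 (by decide) rfl

theorem S3b_gen {n : ℕ} (w : Fin n → Fin n → ℝ) :
    Matrix.det (Matrix.of w) = Matrix.detRowAlternating w := rfl

theorem S3b_D5_eq (w : Fin 5 → Fin 5 → ℝ) : D5 w = Matrix.detRowAlternating w := by
  unfold D5
  exact S3b_gen w

theorem S3b_swap5 (w : Fin 5 → Fin 5 → ℝ) (i j : Fin 5) (hij : i ≠ j) :
    D5 (w ∘ ⇑(Equiv.swap i j)) = - D5 w := by
  rw [S3b_D5_eq, S3b_D5_eq]
  exact AlternatingMap.map_swap _ _ hij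

theorem S3b_swap (p q b1 b2 b3 : Fin 5 → ℝ) :
    D5 ![p, q, b1, b2, b3] = - D5 ![q, p, b1, b2, b3] := by
  have h2 : (![p, q, b1, b2, b3] : Fin 5 → Fin 5 → ℝ) =
      ![q, p, b1, b2, b3] ∘ ⇑(Equiv.swap (0 : Fin 5) 1) := by
    funext i
    fin_cases i <;> rfl
  rw [h2]
  exact S3b_swap5 _ 0 1 (by decide)

theorem g3_of_ne {V : Type} [Fintype V] (x : V → Fin 5 → ℝ) (hgp : GP5 x) (a : V)
    (B1 B2 B3 : Fin 3 → V)
    (hB1 : Injective B1) (hB2 : Injective B2) (hB3 : Injective B3) (h1 : Disj B1 B2)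
    (h2 : Disj B1 B3) (h3 : Disj B2 B3) (ha : ∀ i, B1 i ≠ a) (hb : ∀ i, B2 i ≠ a)
    (hc : ∀ i, B3 i ≠ a) (h : P3f x a B1 B2 B3 ≠ 0) :
    sp x B1 ⊓ sp x B2 ⊓ sp x (Fin.cons a B3 : Fin 4 → V) = ⊥ := by
  rw [eq_bot_iff]
  rintro y ⟨⟨hy1, hy2⟩, hy3⟩
  obtain ⟨β, hβ⟩ := (Submodule.mem_span_range_iff_exists_fun ℝ).1 hy1
  obtain ⟨γ, hγ⟩ := (Submodule.mem_span_range_iff_exists_fun ℝ).1 hy2
  obtain ⟨δ, hδ⟩ := (Submodule.mem_span_range_iff_exists_fun ℝ).1 hy3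
  rw [Fin.sum_univ_three] at hβ hγ
  rw [Fin.sum_univ_four] at hδ
  have c0 : (Fin.cons a B3 : Fin 4 → V) 0 = a := rfl
  have c1 : (Fin.cons a B3 : Fin 4 → V) 1 = B3 0 := rfl
  have c2 : (Fin.cons a B3 : Fin 4 → V) 2 = B3 1 := rfl
  have c3 : (Fin.cons a B3 : Fin 4 → V) 3 = B3 2 := rfl
  rw [c0, c1, c2, c3] at hδ
  set D12 := D5 ![x (B1 1), x (B1 2), x (B2 0), x (B2 1), x (B2 2)] with hD12
  set D02 := D5 ![x (B1 0), x (B1 2), x (B2 0), x (B2 1), x (B2 2)] with hD02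
  set D01 := D5 ![x (B1 0), x (B1 1), x (B2 0), x (B2 1), x (B2 2)] with hD01
  -- D12 ≠ 0
  have hne : D12 ≠ 0 := by
    have hv : Injective (![B1 1, B1 2, B2 0, B2 1, B2 2] : Fin 5 → V) := by
      have k : B1 1 ≠ B1 2 := fun h => absurd (hB1 h) (by decide)
      have l01 : B2 0 ≠ B2 1 := fun h => absurd (hB2 h) (by decide)
      have l02 : B2 0 ≠ B2 2 := fun h => absurd (hB2 h) (by decide)
      have l12 : B2 1 ≠ B2 2 := fun h => absurd (hB2 h) (by decide)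
      have m := fun i j => h1 i j
      have m' := fun i j => (h1 i j).symm
      intro i j hij
      fin_cases i <;> fin_cases j <;> first
        | rfl
        | (exfalso; revert hij; simp only [Matrix.cons_val]; intro hij; simp_all)
    have h5 := hgp _ hv
    have h6 : (fun i => x ((![B1 1, B1 2, B2 0, B2 1, B2 2] : Fin 5 → V) i)) =
        ![x (B1 1), x (B1 2), x (B2 0), x (B2 1), x (B2 2)] := by
      funext i; fin_cases i <;> rfl
    rw [h6] at h5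
    exact h5
  obtain ⟨L1, hL1, e10, e11, e12, e13⟩ := S3b_lin (x (B1 1)) (x (B2 0)) (x (B2 1)) (x (B2 2))
  obtain ⟨L2, hL2, e20, e21, e22, e23⟩ := S3b_lin (x (B1 2)) (x (B2 0)) (x (B2 1)) (x (B2 2))
  obtain ⟨L3, hL3, e30, e31, e32, e33⟩ := S3b_lin (x a) (x (B3 0)) (x (B3 1)) (x (B3 2))
  have f1 : β 0 * D01 + β 2 * D5 ![x (B1 2), x (B1 1), x (B2 0), x (B2 1), x (B2 2)] = 0 := by
    have hz : L1 y = 0 := by
      rw [← hγ, map_add, map_add, map_smul, map_smul, map_smul, e11, e12, e13]; simp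
    rw [← hβ, map_add, map_add, map_smul, map_smul, map_smul, e10, hL1, hL1] at hz
    simpa using hz
  have f2 : β 0 * D02 + β 1 * D12 = 0 := by
    have hz : L2 y = 0 := by
      rw [← hγ, map_add, map_add, map_smul, map_smul, map_smul, e21, e22, e23]; simp
    rw [← hβ, map_add, map_add, map_smul, map_smul, map_smul, e20, hL2, hL2] at hz
    simpa using hz
  have f3 : β 0 * D5 ![x (B1 0), x a, x (B3 0), x (B3 1), x (B3 2)] +
      β 1 * D5 ![x (B1 1), x a, x (B3 0), x (B3 1), x (B3 2)] +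
      β 2 * D5 ![x (B1 2), x a, x (B3 0), x (B3 1), x (B3 2)] = 0 := by
    have hz : L3 y = 0 := by
      rw [← hδ, map_add, map_add, map_add, map_smul, map_smul, map_smul, map_smul, e30, e31, e32,
        e33]; simp
    rw [← hβ, map_add, map_add, map_smul, map_smul, map_smul, hL3, hL3, hL3] at hz
    simpa using hz
  rw [S3b_swap (x (B1 2)) (x (B1 1))] at f1
  rw [← hD12] at f1
  unfold P3f at h
  rw [← hD12, ← hD02, ← hD01] at h
  set P0 := D5 ![x (B1 0), x a, x (B3 0), x (B3 1), x (B3 2)]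
  set P1 := D5 ![x (B1 1), x a, x (B3 0), x (B3 1), x (B3 2)]
  set P2 := D5 ![x (B1 2), x a, x (B3 0), x (B3 1), x (B3 2)]
  have g1 : β 0 * (D12 * P0 - D02 * P1 + D01 * P2) = 0 := by
    linear_combination D12 * f3 - P1 * f2 + P2 * f1
  have z0 : β 0 = 0 := (mul_eq_zero.1 g1).resolve_right h
  rw [z0] at f1 f2
  have z1 : β 1 = 0 := by
    have : β 1 * D12 = 0 := by linarith
    exact (mul_eq_zero.1 this).resolve_right hne
  have z2 : β 2 = 0 := by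
    have : β 2 * D12 = 0 := by linarith
    exact (mul_eq_zero.1 this).resolve_right hne
  rw [Submodule.mem_bot, ← hβ, z0, z1, z2]
  simp

end KS37
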