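import Pool.Agent.LibKS37.S2b
import Pool.Agent.LibKS37.S3b

/-!
# KS37 row S4: generic perturbation
The set O of x' with 0 < D5(x∘v)·D5(x'∘v) for all injective v and 0 < x' v 0 for all v is open (finitely many open conditions) and contains x. The sets {P2f ≠ 0}, {P3f ≠ 0} for the finitely many
admissible tuples are open and dense, so their intersection is dense (`dense_iInter_of_isOpen`, or finite induction with `Dense.inter_of_isOpen_left`); it meets O. GP5 x' follows from O.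
-/

open Finset Function
open scoped Classical

namespace KS37

theorem S4_cont {V : Type} [Fintype V] (v : Fin 5 → V) :
    Continuous (fun y : V → Fin 5 → ℝ => D5 (fun i => y (v i))) := by
  unfold D5
  exact S2_contg (fun (y : V → Fin 5 → ℝ) (i : Fin 5) => y (v i))
    (continuous_pi fun i => continuous_apply (v i))

theorem S4_open {V : Type} [Fintype V] (x : V → Fin 5 → ℝ) :
    IsOpen {y : V → Fin 5 → ℝ | (∀ v : Fin 5 → V, Injective v →
        0 < D5 (fun i => x (v i)) * D5 (fun i => y (v i))) ∧ ∀ v, 0 < y v 0} := by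
  have h1 : {y : V → Fin 5 → ℝ | (∀ v : Fin 5 → V, Injective v →
      0 < D5 (fun i => x (v i)) * D5 (fun i => y (v i))) ∧ ∀ v, 0 < y v 0} =
      (⋂ v : {v : Fin 5 → V // Injective v}, {y : V → Fin 5 → ℝ |
        0 < D5 (fun i => x (v.1 i)) * D5 (fun i => y (v.1 i))}) ∩
      ⋂ v : V, {y : V → Fin 5 → ℝ | 0 < y v 0} := by
    ext y
    simp only [Set.mem_setOf_eq, Set.mem_inter_iff, Set.mem_iInter, Subtype.forall]
  rw [h1]
  refine IsOpen.inter (isOpen_iInter_of_finite fun v => ?_) (isOpen_iInter_of_finite fun v => ?_)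
  · exact isOpen_lt continuous_const (continuous_const.mul (S4_cont v.1))
  · exact isOpen_lt continuous_const ((continuous_apply (0 : Fin 5)).comp (continuous_apply v))

/-- admissible tuples for (G2). -/
def S4_ad2 {V : Type} (t : V × (Fin 2 → V) × (Fin 3 → V) × (Fin 3 → V)) : Prop :=
  Injective t.2.1 ∧ Injective t.2.2.1 ∧ Injective t.2.2.2 ∧ Disj t.2.1 t.2.2.1 ∧
    Disj t.2.1 t.2.2.2 ∧ Disj t.2.2.1 t.2.2.2 ∧ (∀ i, t.2.1 i ≠ t.1) ∧ (∀ i, t.2.2.1 i ≠ t.1) ∧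
    (∀ i, t.2.2.2 i ≠ t.1)

/-- admissible tuples for (G3). -/
def S4_ad3 {V : Type} (t : V × (Fin 3 → V) × (Fin 3 → V) × (Fin 3 → V)) : Prop :=
  Injective t.2.1 ∧ Injective t.2.2.1 ∧ Injective t.2.2.2 ∧ Disj t.2.1 t.2.2.1 ∧
    Disj t.2.1 t.2.2.2 ∧ Disj t.2.2.1 t.2.2.2 ∧ (∀ i, t.2.1 i ≠ t.1) ∧ (∀ i, t.2.2.1 i ≠ t.1) ∧
    (∀ i, t.2.2.2 i ≠ t.1)

theorem S4_dense2 {V : Type} [Fintype V] :
    Dense (⋂ t : {t : V × (Fin 2 → V) × (Fin 3 → V) × (Fin 3 → V) // S4_ad2 t},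
      {x : V → Fin 5 → ℝ | P2f x t.1.1 t.1.2.1 t.1.2.2.1 t.1.2.2.2 ≠ 0}) := by
  refine dense_iInter_of_isOpen (fun t => P2f_open _ _ _ _) (fun t => ?_)
  obtain ⟨h1, h2, h3, h4, h5, h6, h7, h8, h9⟩ := t.2
  exact P2f_dense _ _ _ _ h1 h2 h3 h4 h5 h6 h7 h8 h9

theorem S4_dense3 {V : Type} [Fintype V] :
    Dense (⋂ t : {t : V × (Fin 3 → V) × (Fin 3 → V) × (Fin 3 → V) // S4_ad3 t},
      {x : V → Fin 5 → ℝ | P3f x t.1.1 t.1.2.1 t.1.2.2.1 t.1.2.2.2 ≠ 0}) := by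
  refine dense_iInter_of_isOpen (fun t => P3f_open _ _ _ _) (fun t => ?_)
  obtain ⟨h1, h2, h3, h4, h5, h6, h7, h8, h9⟩ := t.2
  exact P3f_dense _ _ _ _ h1 h2 h3 h4 h5 h6 h7 h8 h9

theorem S4_open2 {V : Type} [Fintype V] :
    IsOpen (⋂ t : {t : V × (Fin 2 → V) × (Fin 3 → V) × (Fin 3 → V) // S4_ad2 t},
      {x : V → Fin 5 → ℝ | P2f x t.1.1 t.1.2.1 t.1.2.2.1 t.1.2.2.2 ≠ 0}) :=
  isOpen_iInter_of_finite fun _ => P2f_open _ _ _ _

theorem pert {V : Type} [Fintype V] (x : V → Fin 5 → ℝ) (hgp : GP5 x) (hpos : ∀ v, 0 < x v 0) :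
    ∃ x' : V → Fin 5 → ℝ, (∀ v : Fin 5 → V, Injective v →
        0 < D5 (fun i => x (v i)) * D5 (fun i => x' (v i))) ∧ (∀ v, 0 < x' v 0) ∧
      (∀ a, G2 (lx x' a)) ∧ G3 x' := by
  have hD := (S4_dense2 (V := V)).inter_of_isOpen_left (S4_dense3 (V := V)) S4_open2
  obtain ⟨y, ⟨hy1, hy2⟩, hy3, hy4⟩ := hD.inter_open_nonempty _ (S4_open x)
    ⟨x, fun v hv => mul_self_pos.2 (hgp v hv), hpos⟩
  have hgpy : GP5 y := by
    intro v hv h0
    have h1 := hy1 v hv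
    rw [h0, mul_zero] at h1
    exact lt_irrefl _ h1
  rw [Set.mem_iInter] at hy3 hy4
  refine ⟨y, hy1, hy2, ?_, ?_⟩
  · intro a R B B' hR hB hB' h1 h2 h3
    refine g2_of_ne y hgpy a R B B' hR hB hB' h1 h2 h3 ?_
    exact hy3 ⟨(a, fun i => (R i).1, fun i => (B i).1, fun i => (B' i).1),
      Subtype.val_injective.comp hR, Subtype.val_injective.comp hB,
      Subtype.val_injective.comp hB', fun i j h => h1 i j (Subtype.val_injective h),
      fun i j h => h2 i j (Subtype.val_injective h),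
      fun i j h => h3 i j (Subtype.val_injective h), fun i => (R i).2, fun i => (B i).2,
      fun i => (B' i).2⟩
  · intro a B1 B2 B3 hB1 hB2 hB3 h1 h2 h3 ha hb hc
    exact g3_of_ne y hgpy a B1 B2 B3 hB1 hB2 hB3 h1 h2 h3 ha hb hc
      (hy4 ⟨(a, B1, B2, B3), hB1, hB2, hB3, h1, h2, h3, ha, hb, hc⟩)

end KS37
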