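import Pool.Agent.LibKS37.S1
import Pool.Agent.LibKS37.S4
import Pool.Agent.LibKS37.F1

/-!
# KS37 row S5: the bound for vector configurations
If card V < 5 then TT x k v (v : Fin 4 → V injective) has at most n^4 ≤ 4^4 members, and none if card V < 4: choose C large. If card V ≥ 5: x' from `pert`; TT x k = TT x' k
(npos is the same: for u ∈ range v both determinants are 0, otherwise Fin.snoc v u is injective and the signs agree); GP5 x'; `sys5`, `final_sys` with ℓ = the 0-th coordinate.
-/

open Finset Function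
open scoped Classical

namespace KS37

theorem S5_pos_iff {V : Type} [Fintype V] (x x' : V → Fin 5 → ℝ) (hgp : GP5 x) (hgp' : GP5 x')
    (h : ∀ v : Fin 5 → V, Injective v →
        0 < D5 (fun i => x (v i)) * D5 (fun i => x' (v i)))
    (v : Fin 4 → V) (hv : Injective v) (u : V) :
    0 < D5 (Fin.snoc (fun i => x (v i)) (x u)) ↔ 0 < D5 (Fin.snoc (fun i => x' (v i)) (x' u)) := by
  by_cases hu : u ∈ univ.image v
  · rw [(S1_zero_iff x hgp v hv u).2 hu, (S1_zero_iff x' hgp' v hv u).2 hu]
  · have h1 : Injective (Fin.snoc v u : Fin 5 → V) := by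
      rw [Fin.snoc_injective_iff]
      refine ⟨hv, ?_⟩
      rintro ⟨l, hl⟩
      exact hu (mem_image.2 ⟨l, mem_univ _, hl⟩)
    have h3 : ∀ y : V → Fin 5 → ℝ, (fun l : Fin 5 => y ((Fin.snoc v u : Fin 5 → V) l)) =
        (Fin.snoc (fun l => y (v l)) (y u) : Fin 5 → Fin 5 → ℝ) := by
      intro y
      funext l
      refine Fin.lastCases ?_ (fun l => ?_) l
      · rw [Fin.snoc_last, Fin.snoc_last]
      · rw [Fin.snoc_castSucc, Fin.snoc_castSucc]
    have h4 := h _ h1
    rw [h3, h3] at h4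
    constructor
    · intro h5
      exact pos_of_mul_pos_right h4 h5.le
    · intro h5
      exact pos_of_mul_pos_left h4 h5.le

theorem S5_TT {V : Type} [Fintype V] (x x' : V → Fin 5 → ℝ) (hgp : GP5 x) (hgp' : GP5 x')
    (h : ∀ v : Fin 5 → V, Injective v →
        0 < D5 (fun i => x (v i)) * D5 (fun i => x' (v i))) (k : ℕ) : TT x k = TT x' k := by
  funext v
  apply propext
  unfold TT
  refine and_congr_right fun hv => ?_
  have h1 : npos x v = npos x' v := by
    unfold npos
    congr 1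
    apply Finset.filter_congr
    intro u _
    exact S5_pos_iff x x' hgp hgp' h v hv u
  rw [h1]

theorem bound5 : ∃ C : ℝ, 0 < C ∧ ∀ (V : Type) [Fintype V] (x : V → Fin 5 → ℝ), GP5 x →
    (∀ v, 0 < x v 0) → ∀ k : ℕ, NT (TT x k) ^ 6 ≤ C * nn V ^ 23 := by
  obtain ⟨C, hC, hfin⟩ := final_sys
  refine ⟨C + 4, by linarith, fun V _ x hgp hpos k => ?_⟩
  have hn := nn_nonneg V
  by_cases hcard : 5 ≤ Fintype.card V
  · obtain ⟨x', h1, h2, h3, h4⟩ := pert x hgp hpos
    have hgp' : GP5 x' := by
      intro v hv h0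
      have h5 := h1 v hv
      rw [h0, mul_zero] at h5
      exact lt_irrefl _ h5
    rw [S5_TT x x' hgp hgp' h1 k]
    have h5 := hfin (Fin 5 → ℝ) V x' (TT x' k) (sys5 x' hgp' hcard k) h4 h3
      ⟨LinearMap.proj 0, fun v => h2 v⟩
    refine h5.trans ?_
    have : 0 ≤ nn V ^ 23 := pow_nonneg hn _
    nlinarith
  · have h6 : nn V ≤ 4 := by
      unfold nn
      have : Fintype.card V ≤ 4 := by omega
      exact_mod_cast this
    have h7 : NT (TT x k) ≤ nn V ^ 4 := by
      unfold NT
      refine (sum_ind_le _).trans ?_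
      rw [card_fun_real]
    have h8 : 0 ≤ NT (TT x k) := Finset.sum_nonneg fun _ _ => ind_nonneg _
    calc NT (TT x k) ^ 6 ≤ (nn V ^ 4) ^ 6 := pow_le_pow_left₀ h8 h7 6
      _ = nn V * nn V ^ 23 := by ring
      _ ≤ (C + 4) * nn V ^ 23 := by
        refine mul_le_mul_of_nonneg_right ?_ (pow_nonneg hn _)
        linarith

end KS37
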